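import Pool.Agent.Lib.P4a177g.Defs

/-!
# MODULE P4a177g.BinG: a sum of squares of binomial coefficients (est. 1.0 h; independent)

PROOF. Only the `j = m - 2i`, `0 ≤ i < m/2` contribute to the sum (`eta m j = 0` for `m - j` odd), so it is
`(1/(m^2 4^m)) ∑_{i < m/2} (m - 2i) (m.choose i)^2`. We have `m.choose i * (m - i) = m * (m-1).choose i`,
`m.choose i * i = m * (m-1).choose (i-1)`, so
`(m - 2i) (m.choose i)^2 = m ((m-1).choose i ^2 - (m-1).choose (i-1) ^2)` and the sum over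
`i ≤ K = ⌊(m-1)/2⌋` is `m * (m-1).choose K ^ 2`. So the left side is `(m-1).choose K ^2 / (m 4^m)`, and the
claim is `4 m (m-1).choose K ^2 ≤ 4^m`. For `m - 1 = 2k`: `(2k+1) centralBinom k ^2 ≤ 16^k` (induction on
`k`: `(k+1) centralBinom (k+1) = 2 (2k+1) centralBinom k`, `(2k+1)(2k+3) ≤ (2k+2)^2`). For `m = 2k`,
`k ≥ 1`: `(2k-1).choose (k-1) = centralBinom k / 2` and `2k * centralBinom k ^2 ≤ 16^k`.
Check: `m = 1`: `1/4 ≤ 1/4`; `m = 2`: `1/32 ≤ 1/16`; `m = 3`: `1/48 ≤ 1/36`.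
-/

set_option autoImplicit false

namespace P4a177g

namespace BinGAux

theorem tele (M n : ℕ) : ∑ i ∈ Finset.range (n + 1),
    ((M : ℝ) + 1 - 2 * i) * ((M + 1).choose i : ℝ) ^ 2 = (M + 1) * (M.choose n : ℝ) ^ 2 := by
  induction n with
  | zero => simp
  | succ n ih =>
    rw [Finset.sum_range_succ, ih]
    have h1 : (((M + 1).choose (n + 1) : ℕ) : ℝ) = M.choose n + M.choose (n + 1) := by
      rw [Nat.choose_succ_succ]; push_cast; ring
    have h2 : (M.choose (n + 1) : ℝ) * (n + 1) = M.choose n * ((M : ℝ) - n) := by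
      rcases Nat.lt_or_ge M n with h | h
      · rw [Nat.choose_eq_zero_of_lt h, Nat.choose_eq_zero_of_lt (Nat.lt_succ_of_lt h)]; simp
      · have := Nat.choose_succ_right_eq M n
        rw [← Nat.cast_sub h]
        exact_mod_cast this
    rw [h1]
    push_cast
    linear_combination (-2 * ((M.choose n : ℝ) + M.choose (n + 1))) * h2

theorem cb (k : ℕ) : (2 * k + 1) * k.centralBinom ^ 2 ≤ 16 ^ k := by
  induction k with
  | zero => simp
  | succ k ih =>
    have h := Nat.succ_mul_centralBinom_succ k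
    have h1 : 0 < (k + 1) ^ 2 := by positivity
    refine le_of_mul_le_mul_left (a := (k + 1) ^ 2) ?_ h1
    calc (k + 1) ^ 2 * ((2 * (k + 1) + 1) * (k + 1).centralBinom ^ 2)
        = (2 * k + 3) * ((k + 1) * (k + 1).centralBinom) ^ 2 := by ring
      _ = (2 * k + 3) * (2 * (2 * k + 1) * k.centralBinom) ^ 2 := by rw [h]
      _ = (4 * ((2 * k + 3) * (2 * k + 1))) * ((2 * k + 1) * k.centralBinom ^ 2) := by ring
      _ ≤ (4 * ((2 * k + 3) * (2 * k + 1))) * 16 ^ k := Nat.mul_le_mul_left _ ih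
      _ ≤ (16 * (k + 1) ^ 2) * 16 ^ k := by
        refine Nat.mul_le_mul_right _ ?_
        nlinarith
      _ = (k + 1) ^ 2 * 16 ^ (k + 1) := by ring

theorem mid (M : ℕ) : (M + 1) * (M.choose (M / 2)) ^ 2 ≤ 4 ^ M := by
  rcases Nat.even_or_odd' M with ⟨k, rfl | rfl⟩
  · have h := cb k
    rw [Nat.centralBinom_eq_two_mul_choose] at h
    have h2 : 2 * k / 2 = k := by omega
    rw [h2, pow_mul]
    exact h
  · have h := cb (k + 1)
    have h2 : (2 * k + 1) / 2 = k := by omega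
    have h3 : (k + 1).centralBinom = 2 * (2 * k + 1).choose k := by
      rw [Nat.centralBinom_eq_two_mul_choose]
      have h4 : 2 * (k + 1) = (2 * k + 1) + 1 := by ring
      rw [h4, Nat.choose_succ_succ, Nat.choose_symm_half]
      ring
    rw [h3] at h
    rw [h2]
    have h5 : (16 : ℕ) ^ (k + 1) = 4 * 4 ^ (2 * k + 1) := by
      rw [pow_succ, show (16 : ℕ) = 4 ^ 2 by norm_num, ← pow_mul]; ring
    rw [h5] at h
    nlinarith [h, Nat.zero_le ((2 * k + 1).choose k ^ 2)]

end BinGAux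

open BinGAux in
theorem eta_sum_le {m : ℕ} (hm : 1 ≤ m) :
    ∑ j ∈ Finset.Icc 1 m, eta m j ^ 2 / j ≤ 1 / (4 * (m : ℝ) ^ 2) := by
  obtain ⟨M, rfl⟩ : ∃ M, m = M + 1 := ⟨m - 1, by omega⟩
  have hM : (0 : ℝ) < (M : ℝ) + 1 := by positivity
  have key : ∑ j ∈ Finset.Icc 1 (M + 1), eta (M + 1) j ^ 2 / j =
      ∑ i ∈ Finset.range (M / 2 + 1),
        (((M : ℝ) + 1 - 2 * i) * ((M + 1).choose i : ℝ) ^ 2) / (((M : ℝ) + 1) ^ 2 * 4 ^ (M + 1)) := by
    symm
    refine Finset.sum_bij_ne_zero (fun i _ _ => M + 1 - 2 * i) ?_ ?_ ?_ ?_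
    · intro i hi _
      rw [Finset.mem_range] at hi
      rw [Finset.mem_Icc]
      omega
    · intro i hi _ j hj _ h
      rw [Finset.mem_range] at hi hj
      omega
    · intro j hj hne
      rw [Finset.mem_Icc] at hj
      have he : Even (M + 1 - j) := by
        by_contra h
        apply hne
        unfold eta
        rw [if_neg (fun h2 => h h2.2)]
        simp
      obtain ⟨i, hi⟩ := he
      refine ⟨i, ?_, ?_, ?_⟩
      · rw [Finset.mem_range]; omega
      · have h1 : (0 : ℝ) < (M : ℝ) + 1 - 2 * i := by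
          have : 2 * i < M + 1 := by omega
          have h2 : (2 * (i : ℝ)) < (M : ℝ) + 1 := by exact_mod_cast this
          linarith
        have h2 : (0 : ℝ) < ((M + 1).choose i : ℝ) := by
          exact_mod_cast Nat.choose_pos (by omega)
        positivity
      · omega
    · intro i hi _
      rw [Finset.mem_range] at hi
      have h1 : 2 * i < M + 1 := by omega
      have h2 : M + 1 - (M + 1 - 2 * i) = 2 * i := by omega
      have h3 : ((M + 1 - 2 * i : ℕ) : ℝ) = (M : ℝ) + 1 - 2 * i := by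
        rw [Nat.cast_sub h1.le]; push_cast; ring
      have h4 : (0 : ℝ) < (M : ℝ) + 1 - 2 * i := by
        have h2 : (2 * (i : ℝ)) < (M : ℝ) + 1 := by exact_mod_cast h1
        linarith
      unfold eta
      rw [if_pos ⟨by omega, by rw [h2]; exact even_two_mul i⟩, h2, h3,
        Nat.mul_div_cancel_left i (by norm_num : 0 < 2)]
      have h5 : (4 : ℝ) ^ (M + 1) = (2 ^ (M + 1)) ^ 2 := by
        rw [← pow_mul, mul_comm (M + 1) 2, pow_mul]; norm_num
      rw [h5]
      push_cast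
      field_simp
  rw [key, ← Finset.sum_div, tele]
  have h := mid M
  have h' : ((M : ℝ) + 1) * (M.choose (M / 2) : ℝ) ^ 2 ≤ 4 ^ M := by exact_mod_cast h
  push_cast
  rw [div_le_div_iff₀ (by positivity) (by positivity)]
  have h4 : (0 : ℝ) < ((M : ℝ) + 1) ^ 2 := by positivity
  calc ((M : ℝ) + 1) * (M.choose (M / 2) : ℝ) ^ 2 * (4 * ((M : ℝ) + 1) ^ 2)
      ≤ 4 ^ M * (4 * ((M : ℝ) + 1) ^ 2) := by
        exact mul_le_mul_of_nonneg_right h' (by positivity)
    _ = 1 * (((M : ℝ) + 1) ^ 2 * 4 ^ (M + 1)) := by ring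

end P4a177g
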