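import Pool.Agent.Lib.P4a177g.Defs

/-!
# Integrals of `log |ρ e^{iθ} - ρ e^{iθ'}|`

`‖circleMap 0 ρ θ - circleMap 0 ρ θ'‖ = 2 ρ |sin ((θ' - θ)/2)|`, and the function
`SingGAux.G ρ t = log (2 ρ |sin (t/2)|)` is periodic and integrable over a period. Its Fourier
coefficients come from the derivative of `sin (jt) / j * G ρ t` on `(0, 2π)`, which is
`cos (jt) G ρ t + sin (jt) cos (t/2) / (2 j sin (t/2))`, and
`sin (jt) cos (t/2) / sin (t/2) = ∑_{k < j} (cos ((k+1) t) + cos (k t))`.
-/

set_option autoImplicit false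

namespace P4a177g

open MeasureTheory
open scoped Real

namespace SingGAux

/-- The function `log (2 ρ |sin (t/2)|)`. -/
noncomputable def G (ρ t : ℝ) : ℝ := Real.log (2 * ρ * |Real.sin (t / 2)|)

theorem norm_eq {ρ : ℝ} (hρ : 0 < ρ) (θ θ' : ℝ) :
    ‖circleMap 0 ρ θ - circleMap 0 ρ θ'‖ = 2 * ρ * |Real.sin ((θ' - θ) / 2)| := by
  have h : circleMap 0 ρ θ - circleMap 0 ρ θ' = -((ρ : ℂ) * Complex.exp (θ * Complex.I)) *
      (Complex.exp (Complex.I * ((θ' - θ : ℝ) : ℂ)) - 1) := by
    have h1 : Complex.exp (θ' * Complex.I) = Complex.exp (θ * Complex.I) *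
        Complex.exp (Complex.I * ((θ' - θ : ℝ) : ℂ)) := by
      rw [← Complex.exp_add]
      congr 1
      push_cast
      ring
    simp only [circleMap, zero_add]
    rw [h1]
    ring
  rw [h, norm_mul, norm_neg, norm_mul, Complex.norm_exp_ofReal_mul_I,
    Complex.norm_exp_I_mul_ofReal_sub_one, norm_mul, Complex.norm_real, Real.norm_eq_abs,
    Real.norm_eq_abs, Real.norm_eq_abs, abs_of_pos hρ, abs_of_pos (by norm_num : (0 : ℝ) < 2)]
  ring

theorem log_eq {ρ : ℝ} (hρ : 0 < ρ) (θ θ' : ℝ) :
    Real.log ‖circleMap 0 ρ θ - circleMap 0 ρ θ'‖ = G ρ (θ' - θ) := by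
  rw [norm_eq hρ, G]

theorem G_per (ρ : ℝ) : Function.Periodic (G ρ) (2 * π) := by
  intro t
  unfold G
  have h : (t + 2 * π) / 2 = t / 2 + π := by ring
  rw [h, Real.sin_add_pi, abs_neg]

theorem int_fix (ρ θ : ℝ) : IntervalIntegrable
    (fun θ' => Real.log ‖circleMap 0 ρ θ - circleMap 0 ρ θ'‖) volume 0 (2 * π) := by
  have h := circleIntegrable_log_norm_sub_const (a := circleMap 0 ρ θ) (c := 0) ρ
  have h2 : IntervalIntegrable (fun θ' => Real.log ‖circleMap 0 ρ θ' - circleMap 0 ρ θ‖)
    volume 0 (2 * π) := h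
  refine h2.congr ?_
  intro t _
  simp only [norm_sub_rev]

theorem G_int {ρ : ℝ} (hρ : 0 < ρ) (a b : ℝ) : IntervalIntegrable (G ρ) volume a b := by
  refine (G_per ρ).intervalIntegrable₀ (by positivity) ?_ a b
  refine (int_fix ρ 0).congr ?_
  intro t _
  simp only [log_eq hρ, sub_zero]

theorem shift {f : ℝ → ℝ} (hf : Function.Periodic f (2 * π)) (θ : ℝ) :
    ∫ t in (0 : ℝ)..(2 * π), f (t - θ) = ∫ t in (0 : ℝ)..(2 * π), f t := by
  rw [intervalIntegral.integral_comp_sub_right f θ]
  have h := hf.intervalIntegral_add_eq (0 - θ) 0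
  rw [show (0 : ℝ) - θ + 2 * π = 2 * π - θ by ring, zero_add] at h
  exact h

/-- The quotient `sin (j t) / sin (t/2)`. -/
noncomputable def P (j : ℕ) (t : ℝ) : ℝ := ∑ k ∈ Finset.range j, 2 * Real.cos ((k + 1 / 2) * t)

/-- The quotient `sin (j t) cos (t/2) / sin (t/2)`. -/
noncomputable def D (j : ℕ) (t : ℝ) : ℝ :=
  ∑ k ∈ Finset.range j, (Real.cos ((k + 1) * t) + Real.cos (k * t))

theorem sin_eq (j : ℕ) (t : ℝ) : Real.sin (j * t) = Real.sin (t / 2) * P j t := by
  induction j with
  | zero => simp [P]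
  | succ j ih =>
    have h : P (j + 1) t = P j t + 2 * Real.cos ((j + 1 / 2) * t) := by
      rw [P, Finset.sum_range_succ, ← P]
    rw [h, mul_add, ← ih]
    have h1 : ((j + 1 : ℕ) : ℝ) * t = (j + 1 / 2) * t + t / 2 := by push_cast; ring
    have h2 : (j : ℝ) * t = (j + 1 / 2) * t - t / 2 := by ring
    rw [h1, h2, Real.sin_add, Real.sin_sub]
    ring

theorem D_eq (j : ℕ) (t : ℝ) : D j t = Real.cos (t / 2) * P j t := by
  unfold D P
  rw [Finset.mul_sum]
  refine Finset.sum_congr rfl fun k _ => ?_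
  have h1 : ((k : ℝ) + 1) * t = (k + 1 / 2) * t + t / 2 := by ring
  have h2 : (k : ℝ) * t = (k + 1 / 2) * t - t / 2 := by ring
  rw [h1, h2, Real.cos_add, Real.cos_sub]
  ring

theorem sin_two_pi (j : ℕ) : Real.sin (j * (2 * π)) = 0 := by
  have h := Real.sin_nat_mul_pi (2 * j)
  rw [← h]
  congr 1
  push_cast
  ring

theorem int_cos {j : ℕ} (hj : 1 ≤ j) : ∫ t in (0 : ℝ)..(2 * π), Real.cos (j * t) = 0 := by
  have hj' : (j : ℝ) ≠ 0 := by positivity
  rw [intervalIntegral.integral_comp_mul_left _ hj', integral_cos, mul_zero, Real.sin_zero,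
    sin_two_pi]
  simp

theorem int_D {j : ℕ} (hj : 1 ≤ j) : ∫ t in (0 : ℝ)..(2 * π), D j t = 2 * π := by
  unfold D
  rw [intervalIntegral.integral_finsetSum]
  · rw [Finset.sum_eq_single 0]
    · rw [intervalIntegral.integral_add]
      · have h := int_cos (j := 1) le_rfl
        rw [Nat.cast_one] at h
        simp only [Nat.cast_zero, zero_add, zero_mul, Real.cos_zero] at h ⊢
        rw [h]
        simp
      · exact Continuous.intervalIntegrable (by fun_prop) _ _
      · exact Continuous.intervalIntegrable (by fun_prop) _ _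
    · intro k _ hk
      rw [intervalIntegral.integral_add]
      · have h1 := int_cos (j := k + 1) (by omega)
        have h2 := int_cos (j := k) (by omega)
        push_cast at h1
        rw [h1, h2, add_zero]
      · exact Continuous.intervalIntegrable (by fun_prop) _ _
      · exact Continuous.intervalIntegrable (by fun_prop) _ _
    · intro h
      exact absurd (Finset.mem_range.2 (by omega)) h
  · intro k _
    exact Continuous.intervalIntegrable (by fun_prop) _ _

theorem cont_F {ρ : ℝ} (hρ : 0 < ρ) (j : ℕ) :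
    ContinuousOn (fun t => Real.sin (j * t) / j * G ρ t) (Set.Icc 0 (2 * π)) := by
  have h : Continuous fun t : ℝ => P j t / (2 * ρ * j) *
      ((2 * ρ * Real.sin (t / 2)) * Real.log (2 * ρ * Real.sin (t / 2))) := by
    refine Continuous.mul ?_ ?_
    · unfold P
      fun_prop
    · exact Real.continuous_mul_log.comp (by fun_prop : Continuous fun t : ℝ =>
        2 * ρ * Real.sin (t / 2))
  refine h.continuousOn.congr ?_
  intro t ht
  have hs : 0 ≤ Real.sin (t / 2) :=
    Real.sin_nonneg_of_nonneg_of_le_pi (by linarith [ht.1]) (by linarith [ht.2])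
  simp only [G]
  rw [abs_of_nonneg hs, sin_eq]
  rcases Nat.eq_zero_or_pos j with hj | hj
  · simp [hj]
  · have hj' : (j : ℝ) ≠ 0 := by positivity
    field_simp

theorem der_F {ρ : ℝ} (hρ : 0 < ρ) {j : ℕ} (hj : 1 ≤ j) {t : ℝ} (ht : t ∈ Set.Ioo 0 (2 * π)) :
    HasDerivAt (fun t => Real.sin (j * t) / j * G ρ t)
      (G ρ t * Real.cos (j * t) + D j t / (2 * j)) t := by
  have hj' : (j : ℝ) ≠ 0 := by positivity
  have hs : 0 < Real.sin (t / 2) :=
    Real.sin_pos_of_pos_of_lt_pi (by linarith [ht.1]) (by linarith [ht.2])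
  have h1 : HasDerivAt (fun t => Real.sin (j * t) / j) (Real.cos (j * t)) t := by
    have h := ((Real.hasDerivAt_sin ((j : ℝ) * t)).comp t
      ((hasDerivAt_id t).const_mul (j : ℝ))).div_const (j : ℝ)
    refine h.congr_deriv ?_
    field_simp
  have h2 : HasDerivAt (fun t => Real.log (2 * ρ * Real.sin (t / 2)))
      (Real.cos (t / 2) / (2 * Real.sin (t / 2))) t := by
    have h := (((Real.hasDerivAt_sin (t / 2)).comp t
      ((hasDerivAt_id t).div_const 2)).const_mul (2 * ρ)).log (by
        simp only [id, Function.comp]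
        positivity)
    refine h.congr_deriv ?_
    simp only [id, Function.comp]
    field_simp
  have h3 : HasDerivAt (G ρ) (Real.cos (t / 2) / (2 * Real.sin (t / 2))) t := by
    refine h2.congr_of_eventuallyEq ?_
    filter_upwards [Ioo_mem_nhds ht.1 ht.2] with s hs'
    have hs'' : 0 < Real.sin (s / 2) :=
      Real.sin_pos_of_pos_of_lt_pi (by linarith [hs'.1]) (by linarith [hs'.2])
    rw [G, abs_of_pos hs'']
  refine (h1.mul h3).congr_deriv ?_
  rw [D_eq, sin_eq]
  field_simp

theorem int_G_cos {ρ : ℝ} (hρ : 0 < ρ) {j : ℕ} (hj : 1 ≤ j) :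
    ∫ t in (0 : ℝ)..(2 * π), G ρ t * Real.cos (j * t) = -(π / j) := by
  have hj' : (j : ℝ) ≠ 0 := by positivity
  have hi1 : IntervalIntegrable (fun t => G ρ t * Real.cos (j * t)) volume 0 (2 * π) :=
    (G_int hρ _ _).mul_continuousOn (by fun_prop)
  have hi2 : IntervalIntegrable (fun t => D j t / (2 * j)) volume 0 (2 * π) := by
    refine Continuous.intervalIntegrable ?_ _ _
    unfold D
    fun_prop
  have h := intervalIntegral.integral_eq_sub_of_hasDerivAt_of_le (a := 0) (b := 2 * π)
    (by positivity) (cont_F hρ j) (fun t ht => der_F hρ hj ht) (hi1.add hi2)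
  rw [intervalIntegral.integral_add hi1 hi2, intervalIntegral.integral_div, int_D hj,
    sin_two_pi] at h
  simp only [mul_zero, Real.sin_zero, zero_div, zero_mul, sub_zero] at h
  have h4 : 2 * π / (2 * (j : ℝ)) = π / j := by field_simp
  rw [h4] at h
  linarith

theorem int_G_sin (ρ : ℝ) (j : ℕ) :
    ∫ t in (0 : ℝ)..(2 * π), G ρ t * Real.sin (j * t) = 0 := by
  have h := intervalIntegral.integral_comp_sub_left (a := 0) (b := 2 * π)
    (fun t => G ρ t * Real.sin (j * t)) (2 * π)
  rw [sub_self, sub_zero] at h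
  have h2 : ∀ t : ℝ, G ρ (2 * π - t) * Real.sin (j * (2 * π - t)) =
      -(G ρ t * Real.sin (j * t)) := by
    intro t
    have h3 : G ρ (2 * π - t) = G ρ t := by
      unfold G
      rw [show (2 * π - t) / 2 = π - t / 2 by ring, Real.sin_pi_sub]
    have h4 : Real.sin (j * (2 * π - t)) = -Real.sin (j * t) := by
      rw [mul_sub, Real.sin_nat_mul_two_pi_sub]
    rw [h3, h4]
    ring
  simp only [h2, intervalIntegral.integral_neg] at h
  linarith

theorem int_cos_cos {i j : ℕ} (hi : 1 ≤ i) (hj : 1 ≤ j) :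
    ∫ t in (0 : ℝ)..(2 * π), Real.cos (i * t) * Real.cos (j * t) = if i = j then π else 0 := by
  have h : ∀ t : ℝ, Real.cos (i * t) * Real.cos (j * t) =
      (1 / 2) * Real.cos ((i + j : ℕ) * t) + (1 / 2) * Real.cos ((max i j - min i j : ℕ) * t) := by
    intro t
    have h1 : Real.cos ((i + j : ℕ) * t) =
        Real.cos (i * t) * Real.cos (j * t) - Real.sin (i * t) * Real.sin (j * t) := by
      rw [← Real.cos_add]
      congr 1
      push_cast
      ring
    have h2 : Real.cos ((max i j - min i j : ℕ) * t) =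
        Real.cos (i * t) * Real.cos (j * t) + Real.sin (i * t) * Real.sin (j * t) := by
      rcases le_total i j with hij | hij
      · rw [max_eq_right hij, min_eq_left hij, Nat.cast_sub hij, sub_mul, Real.cos_sub]
        ring
      · rw [max_eq_left hij, min_eq_right hij, Nat.cast_sub hij, sub_mul, Real.cos_sub]
    rw [h1, h2]
    ring
  simp only [h]
  rw [intervalIntegral.integral_add, intervalIntegral.integral_const_mul,
    intervalIntegral.integral_const_mul, int_cos (by omega)]
  · by_cases hij : i = j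
    · subst hij
      simp
    · rw [int_cos (by omega), if_neg hij]
      simp
  · exact Continuous.intervalIntegrable (by fun_prop) _ _
  · exact Continuous.intervalIntegrable (by fun_prop) _ _

end SingGAux

open SingGAux

theorem sing_int {ρ : ℝ} (hρ : 0 < ρ) (θ : ℝ) : IntervalIntegrable
    (fun θ' => Real.log ‖circleMap 0 ρ θ - circleMap 0 ρ θ'‖) volume 0 (2 * π) := by
  have _ := hρ
  exact int_fix ρ θ

theorem sing_zero {ρ : ℝ} (hρ : 0 < ρ) (θ : ℝ) :
    ∫ θ' in (0 : ℝ)..(2 * π), Real.log ‖circleMap 0 ρ θ - circleMap 0 ρ θ'‖ =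
      2 * π * Real.log ρ := by
  have h := circleAverage_log_norm_sub_const_of_mem_closedBall (a := circleMap 0 ρ θ) (c := 0)
    (R := ρ) (by simp [abs_of_pos hρ])
  rw [Real.circleAverage, smul_eq_mul] at h
  have h2 : ∫ θ' in (0 : ℝ)..(2 * π), Real.log ‖circleMap 0 ρ θ - circleMap 0 ρ θ'‖ =
      ∫ θ' in (0 : ℝ)..(2 * π), Real.log ‖circleMap 0 ρ θ' - circleMap 0 ρ θ‖ := by
    refine intervalIntegral.integral_congr ?_
    intro t _
    simp only [norm_sub_rev]
  rw [h2, ← h]
  have hp : (2 * π) ≠ 0 := by positivity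
  field_simp

theorem sing_cos {ρ : ℝ} (hρ : 0 < ρ) (θ : ℝ) {j : ℕ} (hj : 1 ≤ j) :
    ∫ θ' in (0 : ℝ)..(2 * π), Real.log ‖circleMap 0 ρ θ - circleMap 0 ρ θ'‖ * Real.cos (j * θ') =
      -(π / j) * Real.cos (j * θ) := by
  have h1 : ∀ θ' : ℝ, Real.log ‖circleMap 0 ρ θ - circleMap 0 ρ θ'‖ * Real.cos (j * θ') =
      (fun t => G ρ t * Real.cos (j * (t + θ))) (θ' - θ) := by
    intro θ'
    simp only [log_eq hρ, sub_add_cancel]
  simp only [h1]
  rw [shift (f := fun t => G ρ t * Real.cos (j * (t + θ)))]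
  · have h2 : ∀ t : ℝ, G ρ t * Real.cos (j * (t + θ)) =
        Real.cos (j * θ) * (G ρ t * Real.cos (j * t)) -
          Real.sin (j * θ) * (G ρ t * Real.sin (j * t)) := by
      intro t
      rw [mul_add, Real.cos_add]
      ring
    simp only [h2]
    rw [intervalIntegral.integral_sub, intervalIntegral.integral_const_mul,
      intervalIntegral.integral_const_mul, int_G_cos hρ hj, int_G_sin ρ j]
    · ring
    · exact ((G_int hρ _ _).mul_continuousOn (by fun_prop)).const_mul _
    · exact ((G_int hρ _ _).mul_continuousOn (by fun_prop)).const_mul _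
  · intro t
    simp only [G_per ρ t]
    have h3 : (j : ℝ) * (t + 2 * π + θ) = j * (t + θ) + j * (2 * π) := by ring
    rw [h3, Real.cos_add_nat_mul_two_pi]

theorem sing_bound {ρ : ℝ} (hρ : 0 < ρ) : ∃ C : ℝ, ∀ θ : ℝ,
    ∫ θ' in (0 : ℝ)..(2 * π), |Real.log ‖circleMap 0 ρ θ - circleMap 0 ρ θ'‖| ≤ C := by
  refine ⟨∫ t in (0 : ℝ)..(2 * π), |G ρ t|, fun θ => le_of_eq ?_⟩
  simp only [log_eq hρ]
  refine shift (f := fun t => |G ρ t|) ?_ θ
  intro t
  simp only [G_per ρ t]

theorem sing_double {ρ : ℝ} (hρ : 0 < ρ) (v : ℝ) (y : ℕ → ℝ) (M : ℕ) :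
    ∫ θ in (0 : ℝ)..(2 * π), ∫ θ' in (0 : ℝ)..(2 * π),
      Real.log ‖circleMap 0 ρ θ - circleMap 0 ρ θ'‖ * (gg v y M θ * gg v y M θ') =
      (2 * π) ^ 2 * (Real.log ρ * v ^ 2 - ∑ j ∈ Finset.Icc 1 M, y j ^ 2 / (4 * j)) := by
  have h1 : ∀ θ : ℝ, ∫ θ' in (0 : ℝ)..(2 * π),
      Real.log ‖circleMap 0 ρ θ - circleMap 0 ρ θ'‖ * (gg v y M θ * gg v y M θ') =
      gg v y M θ * (v * (2 * π * Real.log ρ)) + ∑ j ∈ Finset.Icc 1 M,
        gg v y M θ * ((-(π / j) * y j) * Real.cos (j * θ)) := by
    intro θ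
    have h2 : ∀ θ' : ℝ,
        Real.log ‖circleMap 0 ρ θ - circleMap 0 ρ θ'‖ * (gg v y M θ * gg v y M θ') =
        gg v y M θ * v * Real.log ‖circleMap 0 ρ θ - circleMap 0 ρ θ'‖ +
        ∑ j ∈ Finset.Icc 1 M, gg v y M θ * y j *
          (Real.log ‖circleMap 0 ρ θ - circleMap 0 ρ θ'‖ * Real.cos (j * θ')) := by
      intro θ'
      have h3 : gg v y M θ' = v + ∑ j ∈ Finset.Icc 1 M, y j * Real.cos (j * θ') := rfl
      rw [h3]
      simp only [mul_add]
      rw [Finset.mul_sum, Finset.mul_sum]
      congr 1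
      · ring
      · refine Finset.sum_congr rfl fun j _ => ?_
        ring
    have hi : ∀ j ∈ Finset.Icc 1 M, IntervalIntegrable (fun θ' => gg v y M θ * y j *
          (Real.log ‖circleMap 0 ρ θ - circleMap 0 ρ θ'‖ * Real.cos (j * θ'))) volume 0
          (2 * π) := by
      intro j _
      exact ((sing_int hρ θ).mul_continuousOn (by fun_prop)).const_mul _
    have hs : IntervalIntegrable (fun θ' => ∑ j ∈ Finset.Icc 1 M, gg v y M θ * y j *
          (Real.log ‖circleMap 0 ρ θ - circleMap 0 ρ θ'‖ * Real.cos (j * θ'))) volume 0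
          (2 * π) := by
      have h := IntervalIntegrable.sum _ hi
      refine h.congr ?_
      intro t _
      simp only [Finset.sum_apply]
    simp only [h2]
    rw [intervalIntegral.integral_add ((sing_int hρ θ).const_mul _) hs,
      intervalIntegral.integral_const_mul, sing_zero hρ, intervalIntegral.integral_finsetSum hi]
    congr 1
    · ring
    · refine Finset.sum_congr rfl fun j hj => ?_
      rw [intervalIntegral.integral_const_mul, sing_cos hρ θ (Finset.mem_Icc.1 hj).1]
      ring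
  have hg : Continuous (gg v y M) := by
    unfold gg
    fun_prop
  have hg0 : ∫ θ in (0 : ℝ)..(2 * π), gg v y M θ = 2 * π * v := by
    unfold gg
    rw [intervalIntegral.integral_add, intervalIntegral.integral_finsetSum]
    · rw [Finset.sum_eq_zero]
      · simp
      · intro j hj
        rw [intervalIntegral.integral_const_mul, int_cos (Finset.mem_Icc.1 hj).1, mul_zero]
    · intro j _
      exact Continuous.intervalIntegrable (by fun_prop) _ _
    · exact Continuous.intervalIntegrable (by fun_prop) _ _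
    · exact Continuous.intervalIntegrable (by fun_prop) _ _
  have hgj : ∀ j ∈ Finset.Icc 1 M, ∫ θ in (0 : ℝ)..(2 * π), gg v y M θ * Real.cos (j * θ) =
      π * y j := by
    intro j hj
    have hj1 := (Finset.mem_Icc.1 hj).1
    have h4 : ∀ θ : ℝ, gg v y M θ * Real.cos (j * θ) = v * Real.cos (j * θ) +
        ∑ i ∈ Finset.Icc 1 M, y i * (Real.cos (i * θ) * Real.cos (j * θ)) := by
      intro θ
      unfold gg
      rw [add_mul, Finset.sum_mul]
      congr 1
      refine Finset.sum_congr rfl fun i _ => ?_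
      ring
    simp only [h4]
    rw [intervalIntegral.integral_add, intervalIntegral.integral_finsetSum,
      intervalIntegral.integral_const_mul, int_cos hj1]
    · rw [Finset.sum_eq_single j]
      · rw [intervalIntegral.integral_const_mul, int_cos_cos hj1 hj1, if_pos rfl]
        ring
      · intro i hi hij
        rw [intervalIntegral.integral_const_mul, int_cos_cos (Finset.mem_Icc.1 hi).1 hj1,
          if_neg hij, mul_zero]
      · intro h
        exact absurd hj h
    · intro i _
      exact Continuous.intervalIntegrable (by fun_prop) _ _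
    · exact Continuous.intervalIntegrable (by fun_prop) _ _
    · exact Continuous.intervalIntegrable (by fun_prop) _ _
  simp only [h1]
  rw [intervalIntegral.integral_add, intervalIntegral.integral_mul_const, hg0,
    intervalIntegral.integral_finsetSum]
  · have h5 : ∀ j ∈ Finset.Icc 1 M, ∫ θ in (0 : ℝ)..(2 * π),
        gg v y M θ * ((-(π / j) * y j) * Real.cos (j * θ)) =
        -((2 * π) ^ 2 * (y j ^ 2 / (4 * j))) := by
      intro j hj
      have h6 : ∀ θ : ℝ, gg v y M θ * ((-(π / j) * y j) * Real.cos (j * θ)) =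
          (-(π / j) * y j) * (gg v y M θ * Real.cos (j * θ)) := by
        intro θ
        ring
      simp only [h6]
      rw [intervalIntegral.integral_const_mul, hgj j hj]
      have hj' : (j : ℝ) ≠ 0 := by
        have := (Finset.mem_Icc.1 hj).1
        positivity
      field_simp
      ring
    rw [Finset.sum_congr rfl h5, Finset.sum_neg_distrib, ← Finset.mul_sum]
    ring
  · intro j _
    exact Continuous.intervalIntegrable (by fun_prop) _ _
  · exact Continuous.intervalIntegrable (by fun_prop) _ _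
  · exact Continuous.intervalIntegrable (by fun_prop) _ _

end P4a177g
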