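import Pool.Agent.Lib.P4a177g.PsdG
import Pool.Agent.Lib.P4a177g.SingG

/-!
# The logarithmic energy is not negative

The limit `e → 0` in `psd_eps`, by dominated convergence.
-/

set_option autoImplicit false

namespace P4a177g

open MeasureTheory Filter Topology Set
open scoped Real Interval

namespace EnerGAux

theorem abs_log_le {d e D : ℝ} (hd : 0 < d) (hD : d ≤ D) (he : 0 < e) (he1 : e ≤ 1) :
    |Real.log (d ^ 2 + e)| ≤ Real.log (D ^ 2 + 1) + 2 * |Real.log d| := by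
  have hD0 : 0 ≤ D := hd.le.trans hD
  have h1 : 0 ≤ Real.log (D ^ 2 + 1) := Real.log_nonneg (by nlinarith [sq_nonneg D])
  have h2 : 0 ≤ |Real.log d| := abs_nonneg _
  have h3 : d ^ 2 ≤ D ^ 2 := by gcongr
  have h4 : 0 < d ^ 2 := by positivity
  rcases le_total 1 (d ^ 2 + e) with h | h
  · rw [abs_of_nonneg (Real.log_nonneg h)]
    have : Real.log (d ^ 2 + e) ≤ Real.log (D ^ 2 + 1) := Real.log_le_log (by linarith) (by linarith)
    linarith
  · rw [abs_of_nonpos (Real.log_nonpos (by linarith) h)]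
    have h5 : Real.log (d ^ 2) ≤ Real.log (d ^ 2 + e) := Real.log_le_log h4 (by linarith)
    rw [Real.log_pow] at h5
    have h6 : -Real.log d ≤ |Real.log d| := neg_le_abs _
    push_cast at h5
    linarith

variable {S J : ℝ → ℝ → ℝ} {Y Z : ℝ → ℂ} {u v : ℝ → ℝ} {D K U V C : ℝ}

theorem kernel_cont (hY : Continuous Y) (hZ : Continuous Z) (hu : Continuous u) (hv : Continuous v)
    {e : ℝ} (he : 0 < e) : Continuous (Function.uncurry fun θ θ' =>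
      Real.log (‖Y θ - Z θ'‖ ^ 2 + e) * (u θ * v θ')) := by
  have h1 : Continuous fun p : ℝ × ℝ => ‖Y p.1 - Z p.2‖ ^ 2 + e := by fun_prop
  have h2 : Continuous fun p : ℝ × ℝ => Real.log (‖Y p.1 - Z p.2‖ ^ 2 + e) :=
    h1.log fun p => by positivity
  exact h2.mul ((hu.comp continuous_fst).mul (hv.comp continuous_snd))

/-- the bound -/
theorem kernel_le {θ θ' e : ℝ} (hne : Y θ ≠ Z θ')
    (hlog : Real.log ‖Y θ - Z θ'‖ = S θ θ' + J θ θ') (hD : ‖Y θ - Z θ'‖ ≤ D) (hK : |J θ θ'| ≤ K)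
    (hU : |u θ| ≤ U) (hV : |v θ'| ≤ V) (he : 0 < e) (he1 : e ≤ 1) :
    ‖Real.log (‖Y θ - Z θ'‖ ^ 2 + e) * (u θ * v θ')‖ ≤
      (Real.log (D ^ 2 + 1) + 2 * (|S θ θ'| + K)) * (U * V) := by
  have hd : 0 < ‖Y θ - Z θ'‖ := norm_pos_iff.2 (sub_ne_zero.2 hne)
  have h1 := abs_log_le hd hD he he1
  have h2 : |Real.log ‖Y θ - Z θ'‖| ≤ |S θ θ'| + K := by
    rw [hlog]
    exact (abs_add_le _ _).trans (by linarith)
  have h3 : |u θ * v θ'| ≤ U * V := by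
    rw [abs_mul]
    exact mul_le_mul hU hV (abs_nonneg _) ((abs_nonneg _).trans hU)
  rw [norm_mul, Real.norm_eq_abs, Real.norm_eq_abs]
  have h4 : |Real.log (‖Y θ - Z θ'‖ ^ 2 + e)| ≤ Real.log (D ^ 2 + 1) + 2 * (|S θ θ'| + K) := by
    linarith
  exact mul_le_mul h4 h3 (abs_nonneg _) ((abs_nonneg _).trans h4)

theorem bound_int (hS : ∀ θ, IntervalIntegrable (S θ) volume 0 (2 * π)) (θ : ℝ) :
    IntervalIntegrable (fun θ' => (Real.log (D ^ 2 + 1) + 2 * (|S θ θ'| + K)) * (U * V))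
      volume 0 (2 * π) :=
  ((intervalIntegrable_const).add (((hS θ).abs.add intervalIntegrable_const).const_mul 2)).mul_const
    _

/-- the inner limit -/
theorem inner_lim (hY : Continuous Y) (hZ : Continuous Z) (hu : Continuous u) (hv : Continuous v)
    (hS : ∀ θ, IntervalIntegrable (S θ) volume 0 (2 * π))
    (dec : ∀ θ, ∀ᵐ θ', Y θ ≠ Z θ' ∧ Real.log ‖Y θ - Z θ'‖ = S θ θ' + J θ θ')
    (bD : ∀ θ ∈ Ι 0 (2 * π), ∀ θ' ∈ Ι 0 (2 * π), ‖Y θ - Z θ'‖ ≤ D)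
    (bK : ∀ θ ∈ Ι 0 (2 * π), ∀ θ' ∈ Ι 0 (2 * π), |J θ θ'| ≤ K)
    (bU : ∀ θ ∈ Ι 0 (2 * π), |u θ| ≤ U) (bV : ∀ θ ∈ Ι 0 (2 * π), |v θ| ≤ V)
    (θ : ℝ) (hθ : θ ∈ Ι 0 (2 * π)) :
    Tendsto (fun e => ∫ θ' in (0 : ℝ)..(2 * π), Real.log (‖Y θ - Z θ'‖ ^ 2 + e) * (u θ * v θ'))
      (𝓝[>] 0) (𝓝 (∫ θ' in (0 : ℝ)..(2 * π), 2 * (S θ θ' + J θ θ') * (u θ * v θ'))) := by
  refine intervalIntegral.tendsto_integral_filter_of_dominated_convergence
    (fun θ' => (Real.log (D ^ 2 + 1) + 2 * (|S θ θ'| + K)) * (U * V)) ?_ ?_ (bound_int hS θ) ?_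
  · filter_upwards [self_mem_nhdsWithin] with e he
    exact ((kernel_cont hY hZ hu hv he).uncurry_left θ).aestronglyMeasurable
  · have h1 : ∀ᶠ e : ℝ in 𝓝[>] 0, e ≤ 1 :=
      mem_nhdsWithin_of_mem_nhds (Iic_mem_nhds zero_lt_one)
    filter_upwards [self_mem_nhdsWithin, h1] with e he he1
    filter_upwards [dec θ] with θ' hd hθ'
    exact kernel_le hd.1 hd.2 (bD θ hθ θ' hθ') (bK θ hθ θ' hθ') (bU θ hθ) (bV θ' hθ') he he1
  · filter_upwards [dec θ] with θ' hd _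
    have hpos : 0 < ‖Y θ - Z θ'‖ := norm_pos_iff.2 (sub_ne_zero.2 hd.1)
    have h2 : 2 * (S θ θ' + J θ θ') = Real.log (‖Y θ - Z θ'‖ ^ 2 + 0) := by
      rw [add_zero, Real.log_pow, hd.2]
      push_cast
      ring
    rw [h2]
    refine Tendsto.mul_const _ ?_
    have h3 : ContinuousAt (fun e : ℝ => Real.log (‖Y θ - Z θ'‖ ^ 2 + e)) 0 := by
      refine ContinuousAt.log (by fun_prop) ?_
      positivity
    exact h3.tendsto.mono_left nhdsWithin_le_nhds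

theorem inner_le (hC : ∀ θ, ∫ θ' in (0 : ℝ)..(2 * π), |S θ θ'| ≤ C)
    (hS : ∀ θ, IntervalIntegrable (S θ) volume 0 (2 * π))
    (dec : ∀ θ, ∀ᵐ θ', Y θ ≠ Z θ' ∧ Real.log ‖Y θ - Z θ'‖ = S θ θ' + J θ θ')
    (bD : ∀ θ ∈ Ι 0 (2 * π), ∀ θ' ∈ Ι 0 (2 * π), ‖Y θ - Z θ'‖ ≤ D)
    (bK : ∀ θ ∈ Ι 0 (2 * π), ∀ θ' ∈ Ι 0 (2 * π), |J θ θ'| ≤ K)
    (bU : ∀ θ ∈ Ι 0 (2 * π), |u θ| ≤ U) (bV : ∀ θ ∈ Ι 0 (2 * π), |v θ| ≤ V)
    (θ : ℝ) (hθ : θ ∈ Ι 0 (2 * π)) {e : ℝ} (he : 0 < e) (he1 : e ≤ 1) :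
    ‖∫ θ' in (0 : ℝ)..(2 * π), Real.log (‖Y θ - Z θ'‖ ^ 2 + e) * (u θ * v θ')‖ ≤
      ((2 * π) * (Real.log (D ^ 2 + 1) + 2 * K) + 2 * C) * (U * V) := by
  have hpi : (0 : ℝ) ≤ 2 * π := by positivity
  have hUV : 0 ≤ U * V := mul_nonneg ((abs_nonneg _).trans (bU θ hθ))
    ((abs_nonneg _).trans (bV θ hθ))
  have h1 : ‖∫ θ' in (0 : ℝ)..(2 * π), Real.log (‖Y θ - Z θ'‖ ^ 2 + e) * (u θ * v θ')‖ ≤
      ∫ θ' in (0 : ℝ)..(2 * π), (Real.log (D ^ 2 + 1) + 2 * (|S θ θ'| + K)) * (U * V) := by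
    refine intervalIntegral.norm_integral_le_of_norm_le hpi ?_ (bound_int hS θ)
    filter_upwards [dec θ] with θ' hd hθ'
    rw [← uIoc_of_le hpi] at hθ'
    exact kernel_le hd.1 hd.2 (bD θ hθ θ' hθ') (bK θ hθ θ' hθ') (bU θ hθ) (bV θ' hθ') he he1
  refine h1.trans ?_
  rw [intervalIntegral.integral_mul_const]
  refine mul_le_mul_of_nonneg_right ?_ hUV
  rw [intervalIntegral.integral_add intervalIntegrable_const
    (((hS θ).abs.add intervalIntegrable_const).const_mul 2),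
    intervalIntegral.integral_const_mul,
    intervalIntegral.integral_add (hS θ).abs intervalIntegrable_const,
    intervalIntegral.integral_const, intervalIntegral.integral_const]
  have := hC θ
  simp only [sub_zero, smul_eq_mul]
  linarith

/-- the limit for one pair -/
theorem pair_lim (hY : Continuous Y) (hZ : Continuous Z) (hu : Continuous u) (hv : Continuous v)
    (hJ : Continuous fun p : ℝ × ℝ => J p.1 p.2)
    (hC : ∀ θ, ∫ θ' in (0 : ℝ)..(2 * π), |S θ θ'| ≤ C)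
    (hS : ∀ θ, IntervalIntegrable (S θ) volume 0 (2 * π))
    (dec : ∀ θ, ∀ᵐ θ', Y θ ≠ Z θ' ∧ Real.log ‖Y θ - Z θ'‖ = S θ θ' + J θ θ') :
    Tendsto (fun e => ∫ θ in (0 : ℝ)..(2 * π), ∫ θ' in (0 : ℝ)..(2 * π),
      Real.log (‖Y θ - Z θ'‖ ^ 2 + e) * (u θ * v θ')) (𝓝[>] 0)
      (𝓝 (2 * ((∫ θ in (0 : ℝ)..(2 * π), ∫ θ' in (0 : ℝ)..(2 * π), S θ θ' * (u θ * v θ')) +
        ∫ θ in (0 : ℝ)..(2 * π), ∫ θ' in (0 : ℝ)..(2 * π), J θ θ' * (u θ * v θ')))) := by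
  have hpi : (0 : ℝ) ≤ 2 * π := by positivity
  have hI : IsCompact (Icc (0 : ℝ) (2 * π)) := isCompact_Icc
  have hII : IsCompact (Icc (0 : ℝ) (2 * π) ×ˢ Icc (0 : ℝ) (2 * π)) := hI.prod hI
  have hsub : Ι (0 : ℝ) (2 * π) ⊆ Icc 0 (2 * π) := by
    rw [uIoc_of_le hpi]
    exact Ioc_subset_Icc_self
  obtain ⟨D, hD⟩ := hII.exists_bound_of_continuousOn
    (f := fun p : ℝ × ℝ => Y p.1 - Z p.2) (by fun_prop)
  obtain ⟨K, hK⟩ := hII.exists_bound_of_continuousOn hJ.continuousOn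
  obtain ⟨U, hU⟩ := hI.exists_bound_of_continuousOn hu.continuousOn
  obtain ⟨V, hV⟩ := hI.exists_bound_of_continuousOn hv.continuousOn
  have bD : ∀ θ ∈ Ι 0 (2 * π), ∀ θ' ∈ Ι 0 (2 * π), ‖Y θ - Z θ'‖ ≤ D := fun θ h θ' h' =>
    hD (θ, θ') ⟨hsub h, hsub h'⟩
  have bK : ∀ θ ∈ Ι 0 (2 * π), ∀ θ' ∈ Ι 0 (2 * π), |J θ θ'| ≤ K := fun θ h θ' h' =>
    hK (θ, θ') ⟨hsub h, hsub h'⟩
  have bU : ∀ θ ∈ Ι 0 (2 * π), |u θ| ≤ U := fun θ h => hU θ (hsub h)
  have bV : ∀ θ ∈ Ι 0 (2 * π), |v θ| ≤ V := fun θ h => hV θ (hsub h)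
  have hin := inner_lim hY hZ hu hv hS dec bD bK bU bV
  have hle := fun θ hθ {e : ℝ} => inner_le hC hS dec bD bK bU bV θ hθ (e := e)
  have hone : ∀ᶠ e : ℝ in 𝓝[>] 0, e ≤ 1 :=
    mem_nhdsWithin_of_mem_nhds (Iic_mem_nhds zero_lt_one)
  have hcont : ∀ e : ℝ, 0 < e → Continuous fun θ => ∫ θ' in (0 : ℝ)..(2 * π),
      Real.log (‖Y θ - Z θ'‖ ^ 2 + e) * (u θ * v θ') := fun e he =>
    intervalIntegral.continuous_parametric_intervalIntegral_of_continuous'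
      (kernel_cont hY hZ hu hv he) 0 (2 * π)
  have hmain : Tendsto (fun e => ∫ θ in (0 : ℝ)..(2 * π), ∫ θ' in (0 : ℝ)..(2 * π),
      Real.log (‖Y θ - Z θ'‖ ^ 2 + e) * (u θ * v θ')) (𝓝[>] 0)
      (𝓝 (∫ θ in (0 : ℝ)..(2 * π), ∫ θ' in (0 : ℝ)..(2 * π),
        2 * (S θ θ' + J θ θ') * (u θ * v θ'))) := by
    refine intervalIntegral.tendsto_integral_filter_of_dominated_convergence
      (fun _ => ((2 * π) * (Real.log (D ^ 2 + 1) + 2 * K) + 2 * C) * (U * V)) ?_ ?_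
      intervalIntegrable_const ?_
    · filter_upwards [self_mem_nhdsWithin] with e he
      exact (hcont e he).aestronglyMeasurable
    · filter_upwards [self_mem_nhdsWithin, hone] with e he he1
      exact Eventually.of_forall fun θ hθ => hle θ hθ he he1
    · exact Eventually.of_forall fun θ hθ => hin θ hθ
  -- the limit is bounded and measurable
  have hm1 : AEStronglyMeasurable (fun θ => ∫ θ' in (0 : ℝ)..(2 * π),
      2 * (S θ θ' + J θ θ') * (u θ * v θ')) (volume.restrict (Ι 0 (2 * π))) := by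
    refine aestronglyMeasurable_of_tendsto_ae (u := atTop)
      (f := fun (k : ℕ) θ => ∫ θ' in (0 : ℝ)..(2 * π),
        Real.log (‖Y θ - Z θ'‖ ^ 2 + 1 / ((k : ℝ) + 1)) * (u θ * v θ')) ?_ ?_
    · intro k
      exact (hcont _ Nat.one_div_pos_of_nat).aestronglyMeasurable
    · rw [ae_restrict_iff' measurableSet_uIoc]
      refine Eventually.of_forall fun θ hθ => ?_
      have h1 : Tendsto (fun k : ℕ => 1 / ((k : ℝ) + 1)) atTop (𝓝[>] 0) := by
        refine tendsto_nhdsWithin_iff.2 ⟨tendsto_one_div_add_atTop_nhds_zero_nat, ?_⟩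
        exact Eventually.of_forall fun k => mem_Ioi.2 Nat.one_div_pos_of_nat
      exact (hin θ hθ).comp h1
  have hb1 : ∀ θ ∈ Ι 0 (2 * π), ‖∫ θ' in (0 : ℝ)..(2 * π),
      2 * (S θ θ' + J θ θ') * (u θ * v θ')‖ ≤
      ((2 * π) * (Real.log (D ^ 2 + 1) + 2 * K) + 2 * C) * (U * V) := by
    intro θ hθ
    refine le_of_tendsto (hin θ hθ).norm ?_
    filter_upwards [self_mem_nhdsWithin, hone] with e he he1
    exact hle θ hθ he he1
  have hi1 : IntervalIntegrable (fun θ => ∫ θ' in (0 : ℝ)..(2 * π),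
      2 * (S θ θ' + J θ θ') * (u θ * v θ')) volume 0 (2 * π) := by
    have hfin : IsFiniteMeasure (volume.restrict (Ι (0 : ℝ) (2 * π))) := by
      rw [uIoc_of_le hpi]
      infer_instance
    rw [intervalIntegrable_iff]
    refine Integrable.of_bound hm1
      (((2 * π) * (Real.log (D ^ 2 + 1) + 2 * K) + 2 * C) * (U * V)) ?_
    rw [ae_restrict_iff' measurableSet_uIoc]
    exact Eventually.of_forall hb1
  -- the second term
  have hJc : Continuous (Function.uncurry fun θ θ' => J θ θ' * (u θ * v θ')) :=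
    hJ.mul ((hu.comp continuous_fst).mul (hv.comp continuous_snd))
  have hi2 : IntervalIntegrable (fun θ => ∫ θ' in (0 : ℝ)..(2 * π),
      J θ θ' * (u θ * v θ')) volume 0 (2 * π) :=
    (intervalIntegral.continuous_parametric_intervalIntegral_of_continuous' hJc 0
      (2 * π)).intervalIntegrable _ _
  have heq : ∀ θ, ∫ θ' in (0 : ℝ)..(2 * π), 2 * (S θ θ' + J θ θ') * (u θ * v θ') =
      2 * (∫ θ' in (0 : ℝ)..(2 * π), S θ θ' * (u θ * v θ')) +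
        2 * ∫ θ' in (0 : ℝ)..(2 * π), J θ θ' * (u θ * v θ') := by
    intro θ
    have hc1 : IntervalIntegrable (fun θ' => S θ θ' * (u θ * v θ')) volume 0 (2 * π) :=
      (hS θ).mul_continuousOn (by fun_prop)
    have hc2 : IntervalIntegrable (fun θ' => J θ θ' * (u θ * v θ')) volume 0 (2 * π) :=
      (hJc.uncurry_left θ).intervalIntegrable _ _
    rw [← mul_add, ← intervalIntegral.integral_add hc1 hc2, ← intervalIntegral.integral_const_mul]
    refine intervalIntegral.integral_congr fun θ' _ => ?_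
    ring
  have hfin : ∫ θ in (0 : ℝ)..(2 * π), ∫ θ' in (0 : ℝ)..(2 * π),
        2 * (S θ θ' + J θ θ') * (u θ * v θ') =
      2 * ((∫ θ in (0 : ℝ)..(2 * π), ∫ θ' in (0 : ℝ)..(2 * π), S θ θ' * (u θ * v θ')) +
        ∫ θ in (0 : ℝ)..(2 * π), ∫ θ' in (0 : ℝ)..(2 * π), J θ θ' * (u θ * v θ')) := by
    have h1 : ∫ θ in (0 : ℝ)..(2 * π), ∫ θ' in (0 : ℝ)..(2 * π), S θ θ' * (u θ * v θ') =
        ∫ θ in (0 : ℝ)..(2 * π), ((1 / 2) * (∫ θ' in (0 : ℝ)..(2 * π),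
          2 * (S θ θ' + J θ θ') * (u θ * v θ')) -
          ∫ θ' in (0 : ℝ)..(2 * π), J θ θ' * (u θ * v θ')) := by
      refine intervalIntegral.integral_congr fun θ _ => ?_
      rw [heq θ]
      ring
    rw [h1, intervalIntegral.integral_sub (hi1.const_mul _) hi2,
      intervalIntegral.integral_const_mul]
    ring
  rw [← hfin]
  exact hmain

end EnerGAux

open EnerGAux

theorem energy {n : ℕ} {ρ : ℝ} (hρ : 0 < ρ) (X : Fin n → ℝ → ℂ) (hX : ∀ q, Continuous (X q))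
    (J : Fin n → Fin n → ℝ → ℝ → ℝ)
    (hJ : ∀ q q', Continuous fun p : ℝ × ℝ => J q q' p.1 p.2)
    (g : Fin n → ℝ → ℝ) (hg : ∀ q, Continuous (g q))
    (h0 : ∑ q, ∫ θ in (0 : ℝ)..(2 * π), g q θ = 0)
    (hdec : ∀ q q' θ θ', (q ≠ q' ∨ circleMap 0 ρ θ ≠ circleMap 0 ρ θ') →
      X q θ ≠ X q' θ' ∧ Real.log ‖X q θ - X q' θ'‖ =
        (if q = q' then Real.log ‖circleMap 0 ρ θ - circleMap 0 ρ θ'‖ else 0) + J q q' θ θ') :
    (∑ q, ∫ θ in (0 : ℝ)..(2 * π), ∫ θ' in (0 : ℝ)..(2 * π),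
      Real.log ‖circleMap 0 ρ θ - circleMap 0 ρ θ'‖ * (g q θ * g q θ')) +
    (∑ q, ∑ q', ∫ θ in (0 : ℝ)..(2 * π), ∫ θ' in (0 : ℝ)..(2 * π),
      J q q' θ θ' * (g q θ * g q' θ')) ≤ 0 := by
  obtain ⟨C, hC⟩ := sing_bound hρ
  have hC0 : 0 ≤ C := le_trans (intervalIntegral.integral_nonneg (by positivity)
    fun _ _ => abs_nonneg _) (hC 0)
  have hlim : ∀ q q', Tendsto (fun e => ∫ θ in (0 : ℝ)..(2 * π), ∫ θ' in (0 : ℝ)..(2 * π),
      Real.log (‖X q θ - X q' θ'‖ ^ 2 + e) * (g q θ * g q' θ')) (𝓝[>] 0)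
      (𝓝 (2 * ((∫ θ in (0 : ℝ)..(2 * π), ∫ θ' in (0 : ℝ)..(2 * π),
        (if q = q' then Real.log ‖circleMap 0 ρ θ - circleMap 0 ρ θ'‖ else 0) *
          (g q θ * g q' θ')) +
        ∫ θ in (0 : ℝ)..(2 * π), ∫ θ' in (0 : ℝ)..(2 * π),
          J q q' θ θ' * (g q θ * g q' θ')))) := by
    intro q q'
    refine pair_lim (C := C) (S := fun θ θ' =>
      if q = q' then Real.log ‖circleMap 0 ρ θ - circleMap 0 ρ θ'‖ else 0)
      (J := J q q') (Y := X q) (Z := X q') (hX q) (hX q') (hg q) (hg q') (hJ q q') ?_ ?_ ?_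
    · intro θ
      by_cases h : q = q'
      · simp only [h, if_true]
        exact hC θ
      · simp only [h, if_false, abs_zero, intervalIntegral.integral_zero]
        exact hC0
    · intro θ
      by_cases h : q = q'
      · simp only [h, if_true]
        exact sing_int hρ θ
      · simp only [h, if_false]
        exact intervalIntegrable_const
    · intro θ
      by_cases h : q = q'
      · have hcount : (circleMap 0 ρ ⁻¹' {circleMap 0 ρ θ}).Countable :=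
          (countable_singleton _).preimage_circleMap 0 hρ.ne'
        have hae : ∀ᵐ θ' : ℝ, θ' ∉ circleMap 0 ρ ⁻¹' {circleMap 0 ρ θ} :=
          hcount.ae_notMem _
        filter_upwards [hae] with θ' hθ'
        exact hdec q q' θ θ' (Or.inr fun h' => hθ' h'.symm)
      · exact Eventually.of_forall fun θ' => hdec q q' θ θ' (Or.inl h)
  have hsum := tendsto_finsetSum Finset.univ fun q (_ : q ∈ Finset.univ) =>
    tendsto_finsetSum Finset.univ fun q' (_ : q' ∈ Finset.univ) => hlim q q'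
  have hle : ∑ q, ∑ q', 2 * ((∫ θ in (0 : ℝ)..(2 * π), ∫ θ' in (0 : ℝ)..(2 * π),
        (if q = q' then Real.log ‖circleMap 0 ρ θ - circleMap 0 ρ θ'‖ else 0) *
          (g q θ * g q' θ')) +
        ∫ θ in (0 : ℝ)..(2 * π), ∫ θ' in (0 : ℝ)..(2 * π),
          J q q' θ θ' * (g q θ * g q' θ')) ≤ 0 := by
    refine le_of_tendsto hsum ?_
    filter_upwards [self_mem_nhdsWithin] with e he
    exact psd_eps (by positivity) he X hX g hg h0
  simp only [← Finset.mul_sum, Finset.sum_add_distrib] at hle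
  have hdiag : ∑ q, ∑ q', (∫ θ in (0 : ℝ)..(2 * π), ∫ θ' in (0 : ℝ)..(2 * π),
        (if q = q' then Real.log ‖circleMap 0 ρ θ - circleMap 0 ρ θ'‖ else 0) *
          (g q θ * g q' θ')) =
      ∑ q, ∫ θ in (0 : ℝ)..(2 * π), ∫ θ' in (0 : ℝ)..(2 * π),
        Real.log ‖circleMap 0 ρ θ - circleMap 0 ρ θ'‖ * (g q θ * g q θ') := by
    refine Finset.sum_congr rfl fun q _ => ?_
    rw [Finset.sum_eq_single q]
    · simp
    · intro q' _ hq'
      simp [hq'.symm]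
    · simp
  rw [hdiag] at hle
  linarith

end P4a177g
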