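import Pool.Agent.Lib.P4a177g.KkG

/-!
# MODULE P4a177g.QkG: the mean values of `qk` (est. 1.2 h)

PROOF. `gg v y M θ = v + ∑ y_j cos (j θ)`. For `‖u‖ < 1`: `log ‖1 - u‖ = -∑_{m ≥ 1} Re (u^m) / m`
(`Complex.hasSum_taylorSeries_neg_log`, real parts), uniformly for `‖u‖ ≤ s < 1`. So with `s = ρ^2` and
`u = z z' = s e^{i(θ + θ')}`: `∫ log ‖1 - z z'‖ cos (j θ') dθ' = -(π/j) s^j cos (j θ)` for `j ≥ 1`, and
`∫ log ‖1 - z z'‖ dθ' = 0` (also by the mean value property of the harmonic function), and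
`∫ log ‖1 + z^2‖ dθ = 0`. `QQ_zero` (`y = 0`, `gg = v_q`): only `log κ` survives. `QQ_beta` (`v = 0`,
`ε = 1`): `∫ gg = 0`, so only `log ‖1 - z z'‖` contributes, `-∑_j ρ^{2j} y_j^2 / (4j)`
(`(2π)^{-2} ∫∫ log ‖1 - z z'‖ y_j cos (jθ) y_l cos (lθ') = -δ_{jl} ρ^{2j} y_j^2 / (4 j)`). `QQ_gamma`
(`ε = 0`): `qk = log κ`, `av gg = v_q`.
-/

set_option autoImplicit false

namespace P4a177g

open P4a177f Function MeasureTheory
open scoped Real

variable {n : ℕ} {κ ε ρ : ℝ}

namespace QkGAux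

theorem int_cos (m : ℤ) (hm : m ≠ 0) (c : ℝ) :
    ∫ t in (0 : ℝ)..(2 * π), Real.cos (m * t + c) = 0 := by
  have hm' : (m : ℝ) ≠ 0 := by exact_mod_cast hm
  rw [intervalIntegral.integral_comp_mul_add (fun t => Real.cos t) hm' c, integral_cos]
  have h1 : Real.sin (m * (2 * π) + c) = Real.sin c := by
    rw [add_comm]
    exact Real.sin_add_int_mul_two_pi c m
  rw [h1, mul_zero, zero_add, sub_self, smul_zero]

theorem int_cos_cos (m l : ℕ) (hm : 1 ≤ m) (θ : ℝ) :
    ∫ t in (0 : ℝ)..(2 * π), Real.cos (m * (θ + t)) * Real.cos (l * t) =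
      if m = l then π * Real.cos (m * θ) else 0 := by
  have h1 : ∀ t : ℝ, Real.cos (m * (θ + t)) * Real.cos (l * t) =
      (1 / 2) * Real.cos (((m + l : ℕ) : ℤ) * t + m * θ) +
      (1 / 2) * Real.cos (((m : ℤ) - (l : ℤ) : ℤ) * t + m * θ) := by
    intro t
    have e1 : (((m + l : ℕ) : ℤ) : ℝ) * t + m * θ = m * (θ + t) + l * t := by
      push_cast
      ring
    have e2 : (((m : ℤ) - (l : ℤ) : ℤ) : ℝ) * t + m * θ = m * (θ + t) - l * t := by
      push_cast
      ring
    rw [e1, e2, Real.cos_add, Real.cos_sub]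
    ring
  simp_rw [h1]
  rw [intervalIntegral.integral_add, intervalIntegral.integral_const_mul,
    intervalIntegral.integral_const_mul, int_cos _ (by omega)]
  · by_cases hml : m = l
    · rw [if_pos hml, hml]
      simp
      ring
    · rw [if_neg hml, int_cos _ (by omega)]
      simp
  · exact Continuous.intervalIntegrable (by fun_prop) _ _
  · exact Continuous.intervalIntegrable (by fun_prop) _ _

theorem int_cos_zero (m : ℕ) (hm : 1 ≤ m) :
    ∫ t in (0 : ℝ)..(2 * π), Real.cos (m * t) = 0 := by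
  have h1 := int_cos m (by omega) 0
  simpa using h1

theorem logS {u : ℝ → ℂ} (hu : Continuous u) {s : ℝ} (hs : 0 ≤ s) (hs1 : s < 1)
    (hb : ∀ t, ‖u t‖ ≤ s) {g : ℝ → ℝ} (hg : Continuous g) {B : ℝ} (hgB : ∀ t, |g t| ≤ B) :
    HasSum (fun m : ℕ => ∫ t in (0 : ℝ)..(2 * π), -((u t) ^ m / m).re * g t)
      (∫ t in (0 : ℝ)..(2 * π), Real.log ‖1 - u t‖ * g t) := by
  have hB : 0 ≤ B := (abs_nonneg _).trans (hgB 0)
  refine intervalIntegral.hasSum_integral_of_dominated_convergence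
    (fun m _ => s ^ m * B) ?_ ?_ ?_ ?_ ?_
  · intro m
    refine Continuous.aestronglyMeasurable ?_
    exact (Complex.continuous_re.comp ((hu.pow m).div_const _)).neg.mul hg
  · intro m
    refine Filter.Eventually.of_forall fun t _ => ?_
    rw [norm_mul, norm_neg, Real.norm_eq_abs, Real.norm_eq_abs]
    refine mul_le_mul ?_ (hgB t) (abs_nonneg _) (pow_nonneg hs m)
    refine (Complex.abs_re_le_norm _).trans ?_
    rw [norm_div, norm_pow, Complex.norm_natCast]
    rcases Nat.eq_zero_or_pos m with hm | hm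
    · rw [hm]
      simp
    · have h1 : (1 : ℝ) ≤ m := by exact_mod_cast hm
      calc ‖u t‖ ^ m / m ≤ ‖u t‖ ^ m := div_le_self (by positivity) h1
        _ ≤ s ^ m := pow_le_pow_left₀ (norm_nonneg _) (hb t) m
  · refine Filter.Eventually.of_forall fun t _ => ?_
    exact (summable_geometric_of_lt_one hs hs1).mul_right B
  · exact intervalIntegrable_const
  · refine Filter.Eventually.of_forall fun t _ => ?_
    have hz : ‖u t‖ < 1 := (hb t).trans_lt hs1
    have h1 := Complex.hasSum_taylorSeries_neg_log hz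
    have h2 := (Complex.hasSum_re h1).neg
    rw [Complex.neg_re, neg_neg, Complex.log_re] at h2
    exact h2.mul_right (g t)

theorem circ_eq (ρ θ : ℝ) : circleMap 0 ρ θ = (ρ : ℂ) * Complex.exp (θ * Complex.I) := by
  rw [circleMap, zero_add]

theorem circ_mul_pow (ρ θ t : ℝ) (m : ℕ) :
    ((circleMap 0 ρ θ * circleMap 0 ρ t) ^ m / m).re =
      ρ ^ (2 * m) / m * Real.cos (m * (θ + t)) := by
  have h1 : (circleMap 0 ρ θ * circleMap 0 ρ t) ^ m / m =
      ((ρ ^ (2 * m) / m : ℝ) : ℂ) * Complex.exp (((m * (θ + t) : ℝ) : ℂ) * Complex.I) := by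
    rw [circ_eq, circ_eq]
    have h2 : (ρ : ℂ) * Complex.exp (θ * Complex.I) * ((ρ : ℂ) * Complex.exp (t * Complex.I)) =
        (ρ : ℂ) ^ 2 * Complex.exp (((θ + t : ℝ) : ℂ) * Complex.I) := by
      push_cast
      rw [add_mul, Complex.exp_add]
      ring
    rw [h2, mul_pow, ← Complex.exp_nat_mul, ← pow_mul]
    push_cast
    rw [show (m : ℂ) * ((θ + t : ℂ) * Complex.I) = (m : ℂ) * (θ + t) * Complex.I by ring]
    ring
  rw [h1, Complex.re_ofReal_mul, Complex.exp_ofReal_mul_I_re]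

theorem norm_circ_mul {ρ : ℝ} (h0 : 0 < ρ) (θ t : ℝ) :
    ‖circleMap 0 ρ θ * circleMap 0 ρ t‖ = ρ ^ 2 := by
  rw [norm_mul, norm_circleMap_zero, norm_circleMap_zero, abs_of_pos h0]
  ring

theorem sq_lt {ρ : ℝ} (h0 : 0 < ρ) (h1 : ρ < 1) : ρ ^ 2 < 1 := by nlinarith

/-- The Fourier coefficients of `log ‖1 - z z'‖`. -/
theorem int_log_cos {ρ : ℝ} (h0 : 0 < ρ) (h1 : ρ < 1) (θ : ℝ) (l : ℕ) :
    ∫ t in (0 : ℝ)..(2 * π), Real.log ‖1 - circleMap 0 ρ θ * circleMap 0 ρ t‖ *
      Real.cos (l * t) = -(ρ ^ (2 * l) / l * (π * Real.cos (l * θ))) := by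
  have hS := logS (u := fun t => circleMap 0 ρ θ * circleMap 0 ρ t) (s := ρ ^ 2)
    (continuous_const.mul (continuous_circleMap 0 ρ)) (by positivity) (sq_lt h0 h1)
    (fun t => (norm_circ_mul h0 θ t).le) (g := fun t => Real.cos (l * t)) (by fun_prop)
    (B := 1) (fun t => Real.abs_cos_le_one _)
  have h2 : (fun m : ℕ => ∫ t in (0 : ℝ)..(2 * π),
      -((circleMap 0 ρ θ * circleMap 0 ρ t) ^ m / m).re * Real.cos (l * t)) =
      fun m => if m = l then -(ρ ^ (2 * l) / l * (π * Real.cos (l * θ))) else 0 := by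
    funext m
    have h3 : ∀ t : ℝ, -((circleMap 0 ρ θ * circleMap 0 ρ t) ^ m / m).re * Real.cos (l * t) =
        (-(ρ ^ (2 * m) / m)) * (Real.cos (m * (θ + t)) * Real.cos (l * t)) := by
      intro t
      rw [circ_mul_pow]
      ring
    simp_rw [h3]
    rw [intervalIntegral.integral_const_mul]
    rcases Nat.eq_zero_or_pos m with hm | hm
    · rw [hm]
      by_cases hl : 0 = l
      · rw [if_pos hl, ← hl]
        simp
      · rw [if_neg hl]
        simp
    · rw [int_cos_cos m l hm]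
      by_cases hml : m = l
      · rw [if_pos hml, if_pos hml, hml]
        ring
      · rw [if_neg hml, if_neg hml, mul_zero]
  rw [h2] at hS
  exact hS.unique (hasSum_ite_eq l _)

theorem circ_sq_pow (ρ t : ℝ) (m : ℕ) :
    ((-(circleMap 0 ρ t) ^ 2) ^ m / m).re =
      (-1) ^ m * ρ ^ (2 * m) / m * Real.cos (((2 * m : ℕ) : ℝ) * t) := by
  have h1 : (-(circleMap 0 ρ t) ^ 2) ^ m / m =
      (((-1) ^ m * ρ ^ (2 * m) / m : ℝ) : ℂ) *
        Complex.exp (((((2 * m : ℕ) : ℝ) * t : ℝ) : ℂ) * Complex.I) := by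
    rw [circ_eq, mul_pow, ← Complex.exp_nat_mul, neg_pow, mul_pow, ← Complex.exp_nat_mul,
      ← pow_mul]
    push_cast
    rw [show (m : ℂ) * (2 * (t * Complex.I)) = 2 * (m : ℂ) * t * Complex.I by ring]
    ring
  rw [h1, Complex.re_ofReal_mul, Complex.exp_ofReal_mul_I_re]

/-- The mean value of `log ‖1 + z ^ 2‖`. -/
theorem int_log_sq {ρ : ℝ} (h0 : 0 < ρ) (h1 : ρ < 1) :
    ∫ t in (0 : ℝ)..(2 * π), Real.log ‖1 + (circleMap 0 ρ t) ^ 2‖ = 0 := by
  have hS := logS (u := fun t => -(circleMap 0 ρ t) ^ 2) (s := ρ ^ 2)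
    ((continuous_circleMap 0 ρ).pow 2).neg (by positivity) (sq_lt h0 h1)
    (fun t => by
      rw [norm_neg, norm_pow, norm_circleMap_zero, abs_of_pos h0]) (g := fun _ => 1)
    continuous_const (B := 1) (fun t => by simp)
  have h2 : (fun m : ℕ => ∫ t in (0 : ℝ)..(2 * π),
      -((-(circleMap 0 ρ t) ^ 2) ^ m / m).re * (1 : ℝ)) = fun _ => 0 := by
    funext m
    have h3 : ∀ t : ℝ, -((-(circleMap 0 ρ t) ^ 2) ^ m / m).re * (1 : ℝ) =
        (-((-1) ^ m * ρ ^ (2 * m) / m)) * Real.cos (((2 * m : ℕ) : ℝ) * t) := by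
      intro t
      rw [circ_sq_pow]
      ring
    simp_rw [h3]
    rw [intervalIntegral.integral_const_mul]
    rcases Nat.eq_zero_or_pos m with hm | hm
    · rw [hm]
      simp
    · rw [int_cos_zero (2 * m) (by omega), mul_zero]
  rw [h2] at hS
  have h4 := hS.unique hasSum_zero
  simpa using h4

theorem cont_L {ρ : ℝ} (h0 : 0 < ρ) (h1 : ρ < 1) (θ : ℝ) :
    Continuous fun t : ℝ => Real.log ‖1 - circleMap 0 ρ θ * circleMap 0 ρ t‖ := by
  refine Continuous.log ?_ ?_
  · exact (continuous_const.sub (continuous_const.mul (continuous_circleMap 0 ρ))).norm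
  · intro t ht
    rw [norm_eq_zero, sub_eq_zero] at ht
    have h2 := norm_circ_mul h0 θ t
    rw [← ht, norm_one] at h2
    have := sq_lt h0 h1
    linarith

theorem cont_P {ρ : ℝ} (h0 : 0 < ρ) (h1 : ρ < 1) :
    Continuous fun t : ℝ => Real.log ‖1 + (circleMap 0 ρ t) ^ 2‖ := by
  refine Continuous.log ?_ ?_
  · exact (continuous_const.add ((continuous_circleMap 0 ρ).pow 2)).norm
  · intro t ht
    rw [norm_eq_zero] at ht
    have h2 : ‖(circleMap 0 ρ t) ^ 2‖ = ρ ^ 2 := by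
      rw [norm_pow, norm_circleMap_zero, abs_of_pos h0]
    have h3 : (circleMap 0 ρ t) ^ 2 = -1 := by linear_combination ht
    rw [h3, norm_neg, norm_one] at h2
    have := sq_lt h0 h1
    linarith

theorem qk_one (κ : ℝ) (z z' : ℂ) : qk κ 1 z z' =
    Real.log κ + Real.log ‖1 - z * z'‖ - Real.log ‖1 + z ^ 2‖ - Real.log ‖1 + z' ^ 2‖ := by
  simp [qk]

theorem av_const (c : ℝ) : av (fun _ : ℝ => c) = c := by
  unfold av
  rw [intervalIntegral.integral_const, smul_eq_mul, smul_eq_mul]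
  have := Real.pi_pos
  field_simp
  ring

theorem av_add {f g : ℝ → ℝ} (hf : Continuous f) (hg : Continuous g) :
    av (fun θ => f θ + g θ) = av f + av g := by
  unfold av
  rw [intervalIntegral.integral_add (hf.intervalIntegrable _ _) (hg.intervalIntegrable _ _),
    smul_add]

theorem av_mul (c : ℝ) (f : ℝ → ℝ) : av (fun θ => c * f θ) = c * av f := by
  unfold av
  rw [intervalIntegral.integral_const_mul, smul_eq_mul, smul_eq_mul]
  ring

theorem av_sum (s : Finset ℕ) (F : ℕ → ℝ → ℝ) (hF : ∀ j ∈ s, Continuous (F j)) :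
    av (fun θ => ∑ j ∈ s, F j θ) = ∑ j ∈ s, av (F j) := by
  unfold av
  rw [intervalIntegral.integral_finsetSum fun j hj => (hF j hj).intervalIntegrable _ _,
    Finset.smul_sum]

theorem av_cos_cos (m l : ℕ) (hm : 1 ≤ m) :
    av (fun t => Real.cos (m * t) * Real.cos (l * t)) = if m = l then 1 / 2 else 0 := by
  unfold av
  have h1 := int_cos_cos m l hm 0
  simp only [zero_add, mul_zero, Real.cos_zero, mul_one] at h1
  rw [h1, smul_eq_mul]
  have := Real.pi_pos
  split_ifs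
  · field_simp
  · rw [mul_zero]

end QkGAux

open QkGAux

theorem gg_cont (v : ℝ) (y : ℕ → ℝ) (M : ℕ) : Continuous (gg v y M) := by
  unfold gg
  fun_prop

theorem av_gg (v : ℝ) (y : ℕ → ℝ) (M : ℕ) : av (gg v y M) = v := by
  have h1 : av (gg v y M) = av (fun _ : ℝ => v) +
      av (fun θ => ∑ j ∈ Finset.Icc 1 M, y j * Real.cos (j * θ)) := by
    rw [← av_add continuous_const (by fun_prop)]
    rfl
  rw [h1, av_const, av_sum _ _ (fun j _ => by fun_prop)]
  rw [Finset.sum_eq_zero, add_zero]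
  intro j hj
  rw [Finset.mem_Icc] at hj
  rw [av_mul]
  unfold av
  rw [int_cos_zero j hj.1, smul_zero, mul_zero]

theorem QQ_zero (h0 : 0 < ρ) (h1 : ρ < 1) (v : Fin n → ℝ) :
    QQ κ 1 ρ v (fun _ _ => 0) 0 = Real.log κ * ∑ q, v q ^ 2 := by
  unfold QQ
  rw [Finset.mul_sum]
  refine Finset.sum_congr rfl fun q _ => ?_
  have hg : ∀ θ, gg (v q) (fun _ => 0) 0 θ = v q := by
    intro θ
    simp [gg]
  have hP : av (fun t => Real.log ‖1 + (circleMap 0 ρ t) ^ 2‖) = 0 := by
    unfold av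
    rw [int_log_sq h0 h1, smul_zero]
  have hL : ∀ θ, av (fun t => Real.log ‖1 - circleMap 0 ρ θ * circleMap 0 ρ t‖) = 0 := by
    intro θ
    unfold av
    have h2 := int_log_cos h0 h1 θ 0
    simp only [Nat.cast_zero, zero_mul, Real.cos_zero, mul_one, div_zero, neg_zero] at h2
    rw [h2, smul_zero]
  have hin : ∀ θ, av (fun θ' => qk κ 1 (circleMap 0 ρ θ) (circleMap 0 ρ θ') *
      (gg (v q) (fun _ => 0) 0 θ * gg (v q) (fun _ => 0) 0 θ')) =
      v q ^ 2 * Real.log κ + (-(v q ^ 2)) * Real.log ‖1 + (circleMap 0 ρ θ) ^ 2‖ := by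
    intro θ
    have h3 : (fun θ' => qk κ 1 (circleMap 0 ρ θ) (circleMap 0 ρ θ') *
        (gg (v q) (fun _ => 0) 0 θ * gg (v q) (fun _ => 0) 0 θ')) = fun θ' =>
        (v q ^ 2 * Real.log κ + (-(v q ^ 2)) * Real.log ‖1 + (circleMap 0 ρ θ) ^ 2‖) +
        (v q ^ 2 * Real.log ‖1 - circleMap 0 ρ θ * circleMap 0 ρ θ'‖ +
          (-(v q ^ 2)) * Real.log ‖1 + (circleMap 0 ρ θ') ^ 2‖) := by
      funext θ'
      rw [hg, hg, qk_one]
      ring
    have c1 : Continuous fun t : ℝ =>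
        v q ^ 2 * Real.log ‖1 - circleMap 0 ρ θ * circleMap 0 ρ t‖ :=
      continuous_const.mul (cont_L h0 h1 θ)
    have c2 : Continuous fun t : ℝ => (-(v q ^ 2)) * Real.log ‖1 + (circleMap 0 ρ t) ^ 2‖ :=
      continuous_const.mul (cont_P h0 h1)
    have c3 : Continuous fun t : ℝ =>
        v q ^ 2 * Real.log ‖1 - circleMap 0 ρ θ * circleMap 0 ρ t‖ +
          (-(v q ^ 2)) * Real.log ‖1 + (circleMap 0 ρ t) ^ 2‖ := c1.add c2
    rw [h3, av_add continuous_const c3, av_add c1 c2, av_const, av_mul, av_mul, hL, hP]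
    ring
  simp_rw [hin]
  have c4 : Continuous fun t : ℝ => (-(v q ^ 2)) * Real.log ‖1 + (circleMap 0 ρ t) ^ 2‖ :=
    continuous_const.mul (cont_P h0 h1)
  rw [av_add continuous_const c4, av_const, av_mul, hP]
  ring

theorem QQ_beta (h0 : 0 < ρ) (h1 : ρ < 1) (y : Fin n → ℕ → ℝ) (M : ℕ) :
    QQ κ 1 ρ (fun _ => 0) y M =
      -∑ j ∈ Finset.Icc 1 M, ρ ^ (2 * j) * (∑ q, y q j ^ 2) / (4 * j) := by
  have hq : ∀ q : Fin n, (av fun θ => av fun θ' => qk κ 1 (circleMap 0 ρ θ) (circleMap 0 ρ θ') *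
      (gg 0 (y q) M θ * gg 0 (y q) M θ')) =
      -∑ j ∈ Finset.Icc 1 M, ρ ^ (2 * j) * y q j ^ 2 / (4 * j) := by
    intro q
    set g : ℝ → ℝ := gg 0 (y q) M with hgdef
    have hgc : Continuous g := gg_cont _ _ _
    have hg0 : av g = 0 := av_gg _ _ _
    have hgs : ∀ t, g t = ∑ j ∈ Finset.Icc 1 M, y q j * Real.cos (j * t) := by
      intro t
      simp [hgdef, gg]
    set K : ℝ := av (fun t => Real.log ‖1 + (circleMap 0 ρ t) ^ 2‖ * g t) with hK
    have hLg : ∀ θ, av (fun t => Real.log ‖1 - circleMap 0 ρ θ * circleMap 0 ρ t‖ * g t) =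
        ∑ j ∈ Finset.Icc 1 M, (-(y q j * ρ ^ (2 * j) / (2 * j))) * Real.cos (j * θ) := by
      intro θ
      have h2 : (fun t => Real.log ‖1 - circleMap 0 ρ θ * circleMap 0 ρ t‖ * g t) = fun t =>
          ∑ j ∈ Finset.Icc 1 M, y q j *
            (Real.log ‖1 - circleMap 0 ρ θ * circleMap 0 ρ t‖ * Real.cos (j * t)) := by
        funext t
        rw [hgs, Finset.mul_sum]
        refine Finset.sum_congr rfl fun j _ => ?_
        ring
      have c1 : ∀ j ∈ Finset.Icc 1 M, Continuous fun t : ℝ => y q j *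
            (Real.log ‖1 - circleMap 0 ρ θ * circleMap 0 ρ t‖ * Real.cos (j * t)) := by
        intro j _
        have c2 : Continuous fun t : ℝ => Real.cos (j * t) := by fun_prop
        exact continuous_const.mul ((cont_L h0 h1 θ).mul c2)
      rw [h2, av_sum _ _ c1]
      refine Finset.sum_congr rfl fun j hj => ?_
      rw [Finset.mem_Icc] at hj
      have hj' : (j : ℝ) ≠ 0 := by
        have : 0 < j := by omega
        positivity
      rw [av_mul]
      unfold av
      rw [int_log_cos h0 h1 θ j, smul_eq_mul]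
      have := Real.pi_pos
      field_simp
    have hin : ∀ θ, av (fun θ' => qk κ 1 (circleMap 0 ρ θ) (circleMap 0 ρ θ') *
        (g θ * g θ')) = (∑ j ∈ Finset.Icc 1 M,
          (-(y q j * ρ ^ (2 * j) / (2 * j))) * (Real.cos (j * θ) * g θ)) + (-K) * g θ := by
      intro θ
      have h3 : (fun θ' => qk κ 1 (circleMap 0 ρ θ) (circleMap 0 ρ θ') * (g θ * g θ')) =
          fun θ' => ((Real.log κ - Real.log ‖1 + (circleMap 0 ρ θ) ^ 2‖) * g θ) * g θ' +
          (g θ * (Real.log ‖1 - circleMap 0 ρ θ * circleMap 0 ρ θ'‖ * g θ') +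
            (-(g θ)) * (Real.log ‖1 + (circleMap 0 ρ θ') ^ 2‖ * g θ')) := by
        funext θ'
        rw [qk_one]
        ring
      have c1 : Continuous fun θ' : ℝ =>
          ((Real.log κ - Real.log ‖1 + (circleMap 0 ρ θ) ^ 2‖) * g θ) * g θ' :=
        continuous_const.mul hgc
      have c2 : Continuous fun θ' : ℝ =>
          g θ * (Real.log ‖1 - circleMap 0 ρ θ * circleMap 0 ρ θ'‖ * g θ') :=
        continuous_const.mul ((cont_L h0 h1 θ).mul hgc)
      have c3 : Continuous fun θ' : ℝ =>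
          (-(g θ)) * (Real.log ‖1 + (circleMap 0 ρ θ') ^ 2‖ * g θ') :=
        continuous_const.mul ((cont_P h0 h1).mul hgc)
      have c4 : Continuous fun θ' : ℝ =>
          g θ * (Real.log ‖1 - circleMap 0 ρ θ * circleMap 0 ρ θ'‖ * g θ') +
          (-(g θ)) * (Real.log ‖1 + (circleMap 0 ρ θ') ^ 2‖ * g θ') := c2.add c3
      rw [h3, av_add c1 c4, av_add c2 c3,
        av_mul, av_mul, av_mul, hg0, hLg, ← hK, Finset.mul_sum]
      rw [mul_zero, zero_add]
      congr 1
      · refine Finset.sum_congr rfl fun j _ => ?_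
        ring
      · ring
    simp_rw [hin]
    have c5 : ∀ j ∈ Finset.Icc 1 M, Continuous fun θ : ℝ =>
        (-(y q j * ρ ^ (2 * j) / (2 * j))) * (Real.cos (j * θ) * g θ) := by
      intro j _
      have c6 : Continuous fun θ : ℝ => Real.cos (j * θ) := by fun_prop
      exact continuous_const.mul (c6.mul hgc)
    have c7 : Continuous fun θ : ℝ => ∑ j ∈ Finset.Icc 1 M,
        (-(y q j * ρ ^ (2 * j) / (2 * j))) * (Real.cos (j * θ) * g θ) :=
      continuous_finsetSum _ c5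
    have c8 : Continuous fun θ : ℝ => (-K) * g θ := continuous_const.mul hgc
    rw [av_add c7 c8, av_mul, hg0, mul_zero, add_zero, av_sum _ _ c5]
    rw [← Finset.sum_neg_distrib]
    refine Finset.sum_congr rfl fun j hj => ?_
    rw [av_mul]
    have h4 : av (fun θ => Real.cos (j * θ) * g θ) = y q j / 2 := by
      have h5 : (fun θ => Real.cos (j * θ) * g θ) = fun θ =>
          ∑ l ∈ Finset.Icc 1 M, y q l * (Real.cos (j * θ) * Real.cos (l * θ)) := by
        funext θ
        rw [hgs, Finset.mul_sum]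
        refine Finset.sum_congr rfl fun l _ => ?_
        ring
      rw [h5, av_sum _ _ fun l _ => by fun_prop]
      have h6 : ∀ l ∈ Finset.Icc 1 M, av (fun θ => y q l * (Real.cos (j * θ) * Real.cos (l * θ))) =
          if j = l then y q l / 2 else 0 := by
        intro l _
        rw [av_mul, av_cos_cos j l (Finset.mem_Icc.1 hj).1]
        split_ifs
        · ring
        · rw [mul_zero]
      rw [Finset.sum_congr rfl h6, Finset.sum_ite_eq, if_pos hj]
    rw [h4]
    have hj' : (j : ℝ) ≠ 0 := by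
      have : 0 < j := (Finset.mem_Icc.1 hj).1
      positivity
    field_simp
    ring
  unfold QQ
  simp_rw [hq]
  rw [Finset.sum_neg_distrib, Finset.sum_comm]
  congr 1
  refine Finset.sum_congr rfl fun j _ => ?_
  rw [Finset.mul_sum, Finset.sum_div]

theorem QQ_gamma (v : Fin n → ℝ) (y : Fin n → ℕ → ℝ) (M : ℕ) :
    QQ κ 0 ρ v y M = Real.log κ * ∑ q, v q ^ 2 := by
  unfold QQ
  rw [Finset.mul_sum]
  refine Finset.sum_congr rfl fun q _ => ?_
  have h1 : ∀ θ, av (fun θ' => qk κ 0 (circleMap 0 ρ θ) (circleMap 0 ρ θ') *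
      (gg (v q) (y q) M θ * gg (v q) (y q) M θ')) =
      (Real.log κ * v q) * gg (v q) (y q) M θ := by
    intro θ
    have h2 : (fun θ' => qk κ 0 (circleMap 0 ρ θ) (circleMap 0 ρ θ') *
        (gg (v q) (y q) M θ * gg (v q) (y q) M θ')) = fun θ' =>
        (Real.log κ * gg (v q) (y q) M θ) * gg (v q) (y q) M θ' := by
      funext θ'
      simp [qk]
      ring
    rw [h2, av_mul, av_gg]
    ring
  simp_rw [h1]
  rw [av_mul, av_gg]
  ring

end P4a177g
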