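import Pool.Agent.Lib.P4a177g.LogG
import Pool.Agent.Lib.P4a177g.EnerG
import Pool.Agent.Lib.P4a177g.QkG

/-!
# MODULE P4a177g.ElG: the energy inequality of a list (est. 1.4 h)

PROOF. `energy` with `X q θ = x q (om κ ε (circleMap 0 ρ θ))` (continuous: `hx.der`, `om_mem`),
`J q q' θ θ' = JJ a x κ ε q q' (circleMap 0 ρ θ) (circleMap 0 ρ θ')` (`JJ_cont`), `g q = gg (v q) (y q) M`
(`av_gg`, `gg_cont`), `log_x_om`. Divide by `(2π)^2`. The first sum: `sing_double`. The second: by the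
definition of `JJ` it is `(2π)^2` times
`QQ - ∑_q log ‖pd a (a q)‖ v_q^2 + ∑_{q ≠ q'} log |a_q - a_q'| v_q v_q' + ∑_{q,q'} av av (II * gg * gg)`
and `∑_q log ‖pd a (a q)‖ v_q^2 - ∑_{q ≠ q'} log |a_q - a_q'| v_q v_q' = lapf a v` (`log_pd_root`, expand the
square, `Real.log |a q - a q| = 0`). Exchange of the integrals (`kk_om_cont`: continuous on a compact set;
`intervalIntegral_integral_interchange`-type lemmas, `MeasureTheory.integral_integral_swap`):
`∑_{q,q'} av av (II gg gg) = ∫_0^1 ∑_{q,q'} av av (kk gg gg) dt`, and for `t > 0` by `kk_eq`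
`∑_{q,q'} av av (kk gg gg) = (Re ∑_k tau_k(t)^2 - ∑ v_q^2) / t`, as
`av av (tt q k (t w) tt q' k (t w') gg gg') = (av ..) (av ..)` (real part of a product of complex numbers: the
weights `gg` are real).
-/

set_option autoImplicit false

namespace P4a177g

open P4a177f Function MeasureTheory
open scoped Real

variable {n : ℕ} {a : Fin n → ℝ} {c : ℝ} {x : Fin n → ℂ → ℂ}

/-! ### the double integral -/

namespace ElGAux

section LLs

variable {E : Type*} [NormedAddCommGroup E] [NormedSpace ℝ E]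

/-- the double integral -/
noncomputable def LL (F : ℝ → ℝ → E) : E :=
  ∫ θ in (0 : ℝ)..(2 * π), ∫ θ' in (0 : ℝ)..(2 * π), F θ θ'

theorem LL_congr {F G : ℝ → ℝ → E} (h : ∀ θ θ', F θ θ' = G θ θ') : LL F = LL G := by
  have : F = G := by funext θ θ'; exact h θ θ'
  rw [this]

theorem inner_cont {F : ℝ → ℝ → E} (hF : Continuous (uncurry F)) :
    Continuous fun θ => ∫ θ' in (0 : ℝ)..(2 * π), F θ θ' :=
  intervalIntegral.continuous_parametric_intervalIntegral_of_continuous'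
    (μ := MeasureTheory.volume) hF 0 (2 * π)

omit [NormedSpace ℝ E] in
theorem slice_cont {F : ℝ → ℝ → E} (hF : Continuous (uncurry F)) (θ : ℝ) :
    Continuous fun θ' => F θ θ' :=
  hF.comp (continuous_const.prodMk continuous_id)

theorem LL_add {F G : ℝ → ℝ → E} (hF : Continuous (uncurry F)) (hG : Continuous (uncurry G)) :
    LL (fun θ θ' => F θ θ' + G θ θ') = LL F + LL G := by
  unfold LL
  rw [← intervalIntegral.integral_add ((inner_cont hF).intervalIntegrable _ _)
    ((inner_cont hG).intervalIntegrable _ _)]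
  refine intervalIntegral.integral_congr fun θ _ => ?_
  exact intervalIntegral.integral_add ((slice_cont hF θ).intervalIntegrable _ _)
    ((slice_cont hG θ).intervalIntegrable _ _)

theorem LL_sub {F G : ℝ → ℝ → E} (hF : Continuous (uncurry F)) (hG : Continuous (uncurry G)) :
    LL (fun θ θ' => F θ θ' - G θ θ') = LL F - LL G := by
  unfold LL
  rw [← intervalIntegral.integral_sub ((inner_cont hF).intervalIntegrable _ _)
    ((inner_cont hG).intervalIntegrable _ _)]
  refine intervalIntegral.integral_congr fun θ _ => ?_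
  exact intervalIntegral.integral_sub ((slice_cont hF θ).intervalIntegrable _ _)
    ((slice_cont hG θ).intervalIntegrable _ _)

theorem LL_sum {ι : Type*} (s : Finset ι) {F : ι → ℝ → ℝ → E}
    (hF : ∀ i, Continuous (uncurry (F i))) :
    LL (fun θ θ' => ∑ i ∈ s, F i θ θ') = ∑ i ∈ s, LL (F i) := by
  unfold LL
  rw [← intervalIntegral.integral_finsetSum fun i _ =>
    (inner_cont (hF i)).intervalIntegrable _ _]
  refine intervalIntegral.integral_congr fun θ _ => ?_
  exact intervalIntegral.integral_finsetSum fun i _ => (slice_cont (hF i) θ).intervalIntegrable _ _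

end LLs

theorem LL_const_mul (r : ℝ) (F : ℝ → ℝ → ℝ) :
    LL (fun θ θ' => r * F θ θ') = r * LL F := by
  unfold LL
  simp only [intervalIntegral.integral_const_mul]

theorem LL_mul (f g : ℝ → ℝ) :
    LL (fun θ θ' => f θ * g θ') =
      (∫ θ in (0 : ℝ)..(2 * π), f θ) * ∫ θ in (0 : ℝ)..(2 * π), g θ := by
  unfold LL
  simp only [intervalIntegral.integral_const_mul, intervalIntegral.integral_mul_const]

theorem LL_mul' (f g : ℝ → ℂ) :
    LL (fun θ θ' => f θ * g θ') =
      (∫ θ in (0 : ℝ)..(2 * π), f θ) * ∫ θ in (0 : ℝ)..(2 * π), g θ := by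
  unfold LL
  simp only [intervalIntegral.integral_const_mul, intervalIntegral.integral_mul_const]

theorem re_int {f : ℝ → ℂ} (hf : Continuous f) :
    ∫ θ in (0 : ℝ)..(2 * π), (f θ).re = (∫ θ in (0 : ℝ)..(2 * π), f θ).re := by
  have h1 := Complex.reCLM.intervalIntegral_comp_comm
    (μ := MeasureTheory.volume) (hf.intervalIntegrable (0 : ℝ) (2 * π))
  simpa using h1

theorem LL_re {F : ℝ → ℝ → ℂ} (hF : Continuous (uncurry F)) :
    LL (fun θ θ' => (F θ θ').re) = (LL F).re := by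
  unfold LL
  rw [← re_int (inner_cont hF)]
  refine intervalIntegral.integral_congr fun θ _ => ?_
  exact re_int (slice_cont hF θ)

/-- Fubini -/
theorem LL_swap {K : ℝ → ℝ → ℝ → ℝ} (hK : Continuous fun p : ℝ × ℝ × ℝ => K p.1 p.2.1 p.2.2) :
    LL (fun θ θ' => ∫ t in (0 : ℝ)..1, K t θ θ') = ∫ t in (0 : ℝ)..1, LL (K t) := by
  have hp : ∀ {F : ℝ → ℝ → ℝ} {a b c d : ℝ}, Continuous (uncurry F) →
      ∫ x in a..b, ∫ y in c..d, F x y = ∫ y in c..d, ∫ x in a..b, F x y := by
    intro F a b c d hF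
    refine intervalIntegral_intervalIntegral_swap ?_
    refine (hF.continuousOn.integrableOn_compact
      ((isCompact_uIcc (a := a) (b := b)).prod (isCompact_uIcc (a := c) (b := d)))).mono_set ?_
    exact Set.prod_mono Set.uIoc_subset_uIcc Set.uIoc_subset_uIcc
  have h1 : ∀ θ, ∫ θ' in (0 : ℝ)..(2 * π), ∫ t in (0 : ℝ)..1, K t θ θ' =
      ∫ t in (0 : ℝ)..1, ∫ θ' in (0 : ℝ)..(2 * π), K t θ θ' := by
    intro θ
    refine hp (F := fun θ' t => K t θ θ') ?_
    exact hK.comp (continuous_snd.prodMk (continuous_const.prodMk continuous_fst))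
  unfold LL
  simp only [h1]
  refine hp (F := fun θ t => ∫ θ' in (0 : ℝ)..(2 * π), K t θ θ') ?_
  refine intervalIntegral.continuous_parametric_intervalIntegral_of_continuous'
    (μ := MeasureTheory.volume) (f := fun (p : ℝ × ℝ) θ' => K p.2 p.1 θ') ?_ 0 (2 * π)
  exact hK.comp ((continuous_snd.comp continuous_fst).prodMk
    ((continuous_fst.comp continuous_fst).prodMk continuous_snd))

theorem LL_cont {K : ℝ → ℝ → ℝ → ℝ} (hK : Continuous fun p : ℝ × ℝ × ℝ => K p.1 p.2.1 p.2.2) :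
    Continuous fun t => LL (K t) := by
  unfold LL
  refine intervalIntegral.continuous_parametric_intervalIntegral_of_continuous'
    (μ := MeasureTheory.volume)
    (f := fun t θ => ∫ θ' in (0 : ℝ)..(2 * π), K t θ θ') ?_ 0 (2 * π)
  refine intervalIntegral.continuous_parametric_intervalIntegral_of_continuous'
    (μ := MeasureTheory.volume) (f := fun (p : ℝ × ℝ) θ' => K p.1 p.2 θ') ?_ 0 (2 * π)
  exact hK.comp ((continuous_fst.comp continuous_fst).prodMk
    ((continuous_snd.comp continuous_fst).prodMk continuous_snd))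

theorem gg_int (v : ℝ) (y : ℕ → ℝ) (M : ℕ) :
    ∫ θ in (0 : ℝ)..(2 * π), gg v y M θ = 2 * π * v := by
  have h1 := av_gg v y M
  unfold av at h1
  rw [smul_eq_mul, inv_mul_eq_iff_eq_mul₀ (by positivity)] at h1
  exact h1

theorem prod_cont {f g : ℝ → ℝ} (hf : Continuous f) (hg : Continuous g) :
    Continuous (uncurry fun θ θ' => f θ * g θ') :=
  (hf.comp continuous_fst).mul (hg.comp continuous_snd)

theorem prod_cont' {f g : ℝ → ℂ} (hf : Continuous f) (hg : Continuous g) :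
    Continuous (uncurry fun θ θ' => f θ * g θ') :=
  (hf.comp continuous_fst).mul (hg.comp continuous_snd)

/-- the algebra of the Laplacian -/
theorem lapf_eq (ha : Injective a) (v : Fin n → ℝ) :
    lapf a v = ∑ q, Real.log ‖pd a (a q)‖ * v q ^ 2 -
      ∑ q, ∑ k, Real.log |a q - a k| * (v q * v k) := by
  have h1 : ∀ q, Real.log ‖pd a (a q)‖ * v q ^ 2 = ∑ k, Real.log |a q - a k| * v q ^ 2 := by
    intro q
    rw [log_pd_root ha q, Finset.sum_mul]
  simp only [h1]
  have h2 : ∑ q, ∑ k, Real.log |a q - a k| * v k ^ 2 = ∑ q, ∑ k, Real.log |a q - a k| * v q ^ 2 := by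
    rw [Finset.sum_comm]
    refine Finset.sum_congr rfl fun q _ => Finset.sum_congr rfl fun k _ => ?_
    rw [abs_sub_comm]
  unfold lapf
  have h3 : ∑ q, ∑ k, Real.log |a q - a k| * (v q - v k) ^ 2 =
      (∑ q, ∑ k, Real.log |a q - a k| * v q ^ 2) + (∑ q, ∑ k, Real.log |a q - a k| * v k ^ 2) -
        2 * ∑ q, ∑ k, Real.log |a q - a k| * (v q * v k) := by
    rw [Finset.mul_sum, ← Finset.sum_add_distrib, ← Finset.sum_sub_distrib]
    refine Finset.sum_congr rfl fun q _ => ?_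
    rw [Finset.mul_sum, ← Finset.sum_add_distrib, ← Finset.sum_sub_distrib]
    refine Finset.sum_congr rfl fun k _ => ?_
    ring
  rw [h3, h2]
  ring

theorem QQ_eq (κ ε ρ : ℝ) (v : Fin n → ℝ) (y : Fin n → ℕ → ℝ) (M : ℕ) :
    (2 * π) ^ 2 * QQ κ ε ρ v y M = ∑ q, LL fun θ θ' =>
      qk κ ε (circleMap 0 ρ θ) (circleMap 0 ρ θ') * (gg (v q) (y q) M θ * gg (v q) (y q) M θ') := by
  unfold QQ av LL
  rw [Finset.mul_sum]
  refine Finset.sum_congr rfl fun q _ => ?_
  simp only [smul_eq_mul, intervalIntegral.integral_const_mul]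
  have hpi : (2 * π : ℝ) ≠ 0 := by positivity
  field_simp

/-- The clamped parameter. -/
noncomputable def cl (t : ℝ) : ℝ := max 0 (min t 1)

theorem cl_eq {t : ℝ} (ht : t ∈ Set.Icc (0 : ℝ) 1) : cl t = t := by
  unfold cl
  rw [min_eq_left ht.2, max_eq_right ht.1]

theorem kk_cl_cont (h : Crit a c) (hx : Br a c x) {κ ε ρ : ℝ} (hp : IsPar c κ ε) (h0 : 0 < ρ)
    (h1 : ρ < 1) (q q' : Fin n) :
    Continuous fun p : ℝ × ℝ × ℝ => kk a x q q' (om κ ε (circleMap 0 ρ p.2.1))
      (om κ ε (circleMap 0 ρ p.2.2)) (cl p.1) := by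
  have h2 := kk_om_cont h hx hp h0 h1 q q'
  have h3 : Continuous fun p : ℝ × ℝ × ℝ => ((cl p.1, p.2.1, p.2.2) : ℝ × ℝ × ℝ) := by
    unfold cl
    exact (continuous_const.max (continuous_fst.min continuous_const)).prodMk
      ((continuous_fst.comp continuous_snd).prodMk (continuous_snd.comp continuous_snd))
  rw [← continuousOn_univ] at h3 ⊢
  refine h2.comp h3 fun p _ => ?_
  refine ⟨⟨?_, ?_⟩, Set.mem_univ _⟩
  · exact le_max_left _ _
  · exact max_le zero_le_one (min_le_right _ _)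

theorem kint (h : Crit a c) (hx : Br a c x) {κ ε ρ : ℝ} (hp : IsPar c κ ε) (h0 : 0 < ρ)
    (h1 : ρ < 1) (v : Fin n → ℝ) (y : Fin n → ℕ → ℝ) (M : ℕ) {t : ℝ} (ht : t ∈ Set.Ioc (0 : ℝ) 1) :
    ∑ q, ∑ q', LL (fun θ θ' => kk a x q q' (om κ ε (circleMap 0 ρ θ)) (om κ ε (circleMap 0 ρ θ'))
      (cl t) * (gg (v q) (y q) M θ * gg (v q') (y q') M θ')) =
    (2 * π) ^ 2 * (((∑ k, tau a x κ ε ρ v y M k t ^ 2).re - ∑ q, v q ^ 2) / t) := by
  have ht1 : t ∈ Set.Icc (0 : ℝ) 1 := ⟨ht.1.le, ht.2⟩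
  have ht0 : t ≠ 0 := ht.1.ne'
  have hpi : (2 * π : ℝ) ≠ 0 := by positivity
  rw [cl_eq ht1]
  set A : Fin n → Fin n → ℝ → ℂ := fun q k θ =>
    tt a x q k (t * om κ ε (circleMap 0 ρ θ)) * (gg (v q) (y q) M θ : ℂ) with hA
  have hAc : ∀ q k, Continuous (A q k) := by
    intro q k
    have h2 : Continuous fun θ : ℝ => tt a x q k (t * om κ ε (circleMap 0 ρ θ)) := by
      have h3 : Continuous fun θ : ℝ => (t : ℂ) * om κ ε (circleMap 0 ρ θ) :=
        continuous_const.mul (KkGAux.om_cont hp h0 h1)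
      rw [← continuousOn_univ] at h3 ⊢
      refine (tt_diff hx q k).continuousOn.comp h3 fun θ _ => ?_
      exact slit_smul h.pos (om_mem h.pos hp (KkGAux.circ_norm h0 h1 θ)) ht1.1 ht1.2
    exact h2.mul (Complex.continuous_ofReal.comp (gg_cont _ _ _))
  have h4 : ∀ q q', LL (fun θ θ' => kk a x q q' (om κ ε (circleMap 0 ρ θ))
      (om κ ε (circleMap 0 ρ θ')) t * (gg (v q) (y q) M θ * gg (v q') (y q') M θ')) =
      t⁻¹ * ((∑ k, (∫ θ in (0 : ℝ)..(2 * π), A q k θ) * ∫ θ in (0 : ℝ)..(2 * π), A q' k θ).re -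
        dd q q' * ((2 * π * v q) * (2 * π * v q'))) := by
    intro q q'
    have hc1 : Continuous (uncurry fun θ θ' => ∑ k, A q k θ * A q' k θ') := by
      have : (uncurry fun θ θ' => ∑ k, A q k θ * A q' k θ') =
          fun p : ℝ × ℝ => ∑ k, A q k p.1 * A q' k p.2 := rfl
      rw [this]
      exact continuous_finsetSum _ fun k _ =>
        ((hAc q k).comp continuous_fst).mul ((hAc q' k).comp continuous_snd)
    have h5 : LL (fun θ θ' => kk a x q q' (om κ ε (circleMap 0 ρ θ))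
        (om κ ε (circleMap 0 ρ θ')) t * (gg (v q) (y q) M θ * gg (v q') (y q') M θ')) =
        LL (fun θ θ' => t⁻¹ * ((∑ k, A q k θ * A q' k θ').re -
          dd q q' * (gg (v q) (y q) M θ * gg (v q') (y q') M θ'))) := by
      refine LL_congr fun θ θ' => ?_
      rw [kk_eq h hx q q' _ _ ht0]
      have h6 : (∑ k, A q k θ * A q' k θ').re =
          (∑ k, tt a x q k (t * om κ ε (circleMap 0 ρ θ)) *
            tt a x q' k (t * om κ ε (circleMap 0 ρ θ'))).re *
            (gg (v q) (y q) M θ * gg (v q') (y q') M θ') := by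
        rw [← Complex.re_mul_ofReal]
        congr 1
        rw [Finset.sum_mul]
        refine Finset.sum_congr rfl fun k _ => ?_
        simp only [hA]
        push_cast
        ring
      rw [h6]
      field_simp
    rw [h5, LL_const_mul, LL_sub, LL_re hc1, LL_sum, LL_const_mul, LL_mul, gg_int, gg_int]
    · congr 3
      refine Finset.sum_congr rfl fun k _ => ?_
      exact LL_mul' _ _
    · intro k
      exact prod_cont' (hAc q k) (hAc q' k)
    · exact Complex.continuous_re.comp hc1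
    · exact continuous_const.mul (prod_cont (gg_cont _ _ _) (gg_cont _ _ _))
  simp only [h4, ← Finset.mul_sum, Finset.sum_sub_distrib]
  have h7 : ∀ k, ∑ q, ∑ q', (∫ θ in (0 : ℝ)..(2 * π), A q k θ) * ∫ θ in (0 : ℝ)..(2 * π), A q' k θ =
      ((2 * π : ℝ) : ℂ) ^ 2 * tau a x κ ε ρ v y M k t ^ 2 := by
    intro k
    have h8 : tau a x κ ε ρ v y M k t =
        ((2 * π : ℝ) : ℂ)⁻¹ * ∑ q, ∫ θ in (0 : ℝ)..(2 * π), A q k θ := by
      unfold tau av
      rw [Finset.mul_sum]
      refine Finset.sum_congr rfl fun q _ => ?_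
      rw [Complex.real_smul, Complex.ofReal_inv]
    rw [h8]
    have h9 : (((2 * π : ℝ) : ℂ)) ≠ 0 := Complex.ofReal_ne_zero.2 hpi
    rw [mul_pow, ← mul_assoc, ← mul_pow, mul_inv_cancel₀ h9, one_pow, one_mul, sq, Finset.sum_mul_sum]
  have h10 : ∑ q, ∑ q', (∑ k, (∫ θ in (0 : ℝ)..(2 * π), A q k θ) *
      ∫ θ in (0 : ℝ)..(2 * π), A q' k θ).re =
      (2 * π) ^ 2 * (∑ k, tau a x κ ε ρ v y M k t ^ 2).re := by
    have h11 : (∑ q, ∑ q', ∑ k, (∫ θ in (0 : ℝ)..(2 * π), A q k θ) *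
        ∫ θ in (0 : ℝ)..(2 * π), A q' k θ) =
        (((2 * π) ^ 2 : ℝ) : ℂ) * ∑ k, tau a x κ ε ρ v y M k t ^ 2 := by
      have h12 : (∑ q, ∑ q', ∑ k, (∫ θ in (0 : ℝ)..(2 * π), A q k θ) *
          ∫ θ in (0 : ℝ)..(2 * π), A q' k θ) = ∑ k, ∑ q, ∑ q',
          (∫ θ in (0 : ℝ)..(2 * π), A q k θ) * ∫ θ in (0 : ℝ)..(2 * π), A q' k θ := by
        rw [Finset.sum_comm]
        have : ∀ q' : Fin n, (∑ q, ∑ k, (∫ θ in (0 : ℝ)..(2 * π), A q k θ) *
            ∫ θ in (0 : ℝ)..(2 * π), A q' k θ) = ∑ k, ∑ q, (∫ θ in (0 : ℝ)..(2 * π), A q k θ) *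
            ∫ θ in (0 : ℝ)..(2 * π), A q' k θ := fun q' => Finset.sum_comm
        simp only [this]
        rw [Finset.sum_comm]
        refine Finset.sum_congr rfl fun k _ => ?_
        rw [Finset.sum_comm]
      rw [h12, Finset.mul_sum]
      refine Finset.sum_congr rfl fun k _ => ?_
      rw [h7 k]
      push_cast
      ring
    have h13 := congrArg Complex.re h11
    rw [Complex.re_ofReal_mul] at h13
    rw [← h13]
    simp only [Complex.re_sum]
  have h14 : ∑ q, ∑ q', dd q q' * ((2 * π * v q) * (2 * π * v q')) =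
      (2 * π) ^ 2 * ∑ q, v q ^ 2 := by
    rw [Finset.mul_sum]
    refine Finset.sum_congr rfl fun q _ => ?_
    rw [Finset.sum_eq_single q]
    · unfold dd
      rw [if_pos rfl]
      ring
    · intro q' _ hq'
      unfold dd
      rw [if_neg (Ne.symm hq'), zero_mul]
    · intro hq
      exact absurd (Finset.mem_univ q) hq
  rw [h10, h14]
  field_simp

/-- the part of `II` -/
theorem II_part (h : Crit a c) (hx : Br a c x) {κ ε ρ : ℝ} (hp : IsPar c κ ε) (h0 : 0 < ρ)
    (h1 : ρ < 1) (v : Fin n → ℝ) (y : Fin n → ℕ → ℝ) (M : ℕ) :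
    ∑ q, ∑ q', LL (fun θ θ' => II a x q q' (om κ ε (circleMap 0 ρ θ)) (om κ ε (circleMap 0 ρ θ')) *
      (gg (v q) (y q) M θ * gg (v q') (y q') M θ')) =
    (2 * π) ^ 2 * ∫ t in (0 : ℝ)..1,
      ((∑ k, tau a x κ ε ρ v y M k t ^ 2).re - ∑ q, v q ^ 2) / t := by
  set K : Fin n → Fin n → ℝ → ℝ → ℝ → ℝ := fun q q' t θ θ' =>
    kk a x q q' (om κ ε (circleMap 0 ρ θ)) (om κ ε (circleMap 0 ρ θ')) (cl t) *
      (gg (v q) (y q) M θ * gg (v q') (y q') M θ') with hK
  have hKc : ∀ q q', Continuous fun p : ℝ × ℝ × ℝ => K q q' p.1 p.2.1 p.2.2 := by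
    intro q q'
    exact (kk_cl_cont h hx hp h0 h1 q q').mul
      (((gg_cont _ _ _).comp (continuous_fst.comp continuous_snd)).mul
        ((gg_cont _ _ _).comp (continuous_snd.comp continuous_snd)))
  have h2 : ∀ q q', LL (fun θ θ' => II a x q q' (om κ ε (circleMap 0 ρ θ))
      (om κ ε (circleMap 0 ρ θ')) * (gg (v q) (y q) M θ * gg (v q') (y q') M θ')) =
      ∫ t in (0 : ℝ)..1, LL (K q q' t) := by
    intro q q'
    rw [← LL_swap (hKc q q')]
    refine LL_congr fun θ θ' => ?_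
    unfold II
    rw [← intervalIntegral.integral_mul_const]
    refine intervalIntegral.integral_congr fun t ht => ?_
    rw [Set.uIcc_of_le zero_le_one] at ht
    simp only [hK]
    rw [cl_eq ht]
  simp only [h2]
  have h3 : ∑ q, ∑ q', ∫ t in (0 : ℝ)..1, LL (K q q' t) =
      ∫ t in (0 : ℝ)..1, ∑ q, ∑ q', LL (K q q' t) := by
    rw [intervalIntegral.integral_finsetSum]
    · refine Finset.sum_congr rfl fun q _ => ?_
      rw [intervalIntegral.integral_finsetSum]
      exact fun q' _ => (LL_cont (hKc q q')).intervalIntegrable _ _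
    · intro q _
      exact (continuous_finsetSum _ fun q' _ => LL_cont (hKc q q')).intervalIntegrable _ _
  rw [h3, ← intervalIntegral.integral_const_mul]
  refine intervalIntegral.integral_congr_ae ?_
  refine Filter.Eventually.of_forall fun t ht => ?_
  rw [Set.uIoc_of_le zero_le_one] at ht
  exact kint h hx hp h0 h1 v y M ht

/-- the part of the constants -/
theorem S_part (h : Crit a c) {κ ε ρ : ℝ} (hp : IsPar c κ ε) (h0 : 0 < ρ)
    (h1 : ρ < 1) (v : Fin n → ℝ) (y : Fin n → ℕ → ℝ) (M : ℕ) :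
    ∑ q, ∑ q', LL (fun θ θ' =>
      (if q = q' then qk κ ε (circleMap 0 ρ θ) (circleMap 0 ρ θ') - Real.log ‖pd a (a q)‖
        else Real.log |a q - a q'|) * (gg (v q) (y q) M θ * gg (v q') (y q') M θ')) =
    (2 * π) ^ 2 * (QQ κ ε ρ v y M - lapf a v) := by
  have hc2 : ∀ q q', Continuous (uncurry fun θ θ' =>
      gg (v q) (y q) M θ * gg (v q') (y q') M θ') :=
    fun q q' => prod_cont (gg_cont _ _ _) (gg_cont _ _ _)
  have h2 : ∀ q q', LL (fun θ θ' =>
      (if q = q' then qk κ ε (circleMap 0 ρ θ) (circleMap 0 ρ θ') - Real.log ‖pd a (a q)‖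
        else Real.log |a q - a q'|) * (gg (v q) (y q) M θ * gg (v q') (y q') M θ')) =
      (if q = q' then LL (fun θ θ' => qk κ ε (circleMap 0 ρ θ) (circleMap 0 ρ θ') *
        (gg (v q) (y q) M θ * gg (v q) (y q) M θ')) -
          Real.log ‖pd a (a q)‖ * ((2 * π) ^ 2 * v q ^ 2) else 0) +
        (2 * π) ^ 2 * (Real.log |a q - a q'| * (v q * v q')) := by
    intro q q'
    by_cases hq : q = q'
    · subst hq
      simp only [if_true, sub_self, abs_zero, Real.log_zero, zero_mul, mul_zero, add_zero]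
      have h3 : ∀ θ θ', (qk κ ε (circleMap 0 ρ θ) (circleMap 0 ρ θ') - Real.log ‖pd a (a q)‖) *
          (gg (v q) (y q) M θ * gg (v q) (y q) M θ') =
          qk κ ε (circleMap 0 ρ θ) (circleMap 0 ρ θ') * (gg (v q) (y q) M θ * gg (v q) (y q) M θ') -
          Real.log ‖pd a (a q)‖ * (gg (v q) (y q) M θ * gg (v q) (y q) M θ') := by
        intro θ θ'; ring
      rw [LL_congr h3, LL_sub, LL_const_mul, LL_mul, gg_int]
      · ring
      · exact (qk_cont hp h0 h1).mul (hc2 q q)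
      · exact continuous_const.mul (hc2 q q)
    · simp only [if_neg hq, zero_add]
      rw [LL_const_mul, LL_mul, gg_int, gg_int]
      ring
  simp only [h2, Finset.sum_add_distrib, Finset.sum_ite_eq, Finset.mem_univ, if_true]
  rw [Finset.sum_sub_distrib, ← QQ_eq, lapf_eq h.inj]
  simp only [← Finset.mul_sum]
  have h4 : ∑ q, Real.log ‖pd a (a q)‖ * ((2 * π) ^ 2 * v q ^ 2) =
      (2 * π) ^ 2 * ∑ q, Real.log ‖pd a (a q)‖ * v q ^ 2 := by
    rw [Finset.mul_sum]
    refine Finset.sum_congr rfl fun q _ => ?_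
    ring
  rw [h4]
  ring

end ElGAux

open ElGAux in
theorem energy_list (h : Crit a c) (hx : Br a c x) {κ ε ρ : ℝ} (hp : IsPar c κ ε) (h0 : 0 < ρ)
    (h1 : ρ < 1) (v : Fin n → ℝ) (y : Fin n → ℕ → ℝ) (M : ℕ) (hv : ∑ q, v q = 0) :
    QQ κ ε ρ v y M + ∫ t in (0 : ℝ)..1,
      ((∑ k, tau a x κ ε ρ v y M k t ^ 2).re - ∑ q, v q ^ 2) / t ≤
    -Real.log ρ * ∑ q, v q ^ 2 + ∑ j ∈ Finset.Icc 1 M, (∑ q, y q j ^ 2) / (4 * j) + lapf a v := by
  have hX : ∀ q, Continuous fun θ : ℝ => x q (om κ ε (circleMap 0 ρ θ)) := by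
    intro q
    have h3 := KkGAux.om_cont hp h0 h1
    rw [← continuousOn_univ] at h3 ⊢
    have h4 : ContinuousOn (x q) (slit c) := fun w hw =>
      (hx.der q w hw).continuousAt.continuousWithinAt
    exact h4.comp h3 fun θ _ => om_mem h.pos hp (KkGAux.circ_norm h0 h1 θ)
  have hE := energy h0 (fun q θ => x q (om κ ε (circleMap 0 ρ θ))) hX
    (fun q q' θ θ' => JJ a x κ ε q q' (circleMap 0 ρ θ) (circleMap 0 ρ θ'))
    (fun q q' => JJ_cont h hx hp h0 h1 q q') (fun q => gg (v q) (y q) M)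
    (fun q => gg_cont _ _ _)
    (by simp only [gg_int]; rw [← Finset.mul_sum, hv, mul_zero])
    (fun q q' θ θ' hne => log_x_om h hx hp (KkGAux.circ_norm h0 h1 θ)
      (KkGAux.circ_norm h0 h1 θ') hne)
  have hc2 : ∀ q q', Continuous (uncurry fun θ θ' =>
      gg (v q) (y q) M θ * gg (v q') (y q') M θ') :=
    fun q q' => prod_cont (gg_cont _ _ _) (gg_cont _ _ _)
  have hS : ∀ q q', Continuous (uncurry fun θ θ' =>
      (if q = q' then qk κ ε (circleMap 0 ρ θ) (circleMap 0 ρ θ') - Real.log ‖pd a (a q)‖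
        else Real.log |a q - a q'|) * (gg (v q) (y q) M θ * gg (v q') (y q') M θ')) := by
    intro q q'
    by_cases hq : q = q'
    · simp only [if_pos hq]
      exact ((qk_cont hp h0 h1).sub continuous_const).mul (hc2 q q')
    · simp only [if_neg hq]
      exact continuous_const.mul (hc2 q q')
  have h5 : ∀ q q', (∫ θ in (0 : ℝ)..(2 * π), ∫ θ' in (0 : ℝ)..(2 * π),
      JJ a x κ ε q q' (circleMap 0 ρ θ) (circleMap 0 ρ θ') *
        (gg (v q) (y q) M θ * gg (v q') (y q') M θ')) =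
      LL (fun θ θ' =>
        (if q = q' then qk κ ε (circleMap 0 ρ θ) (circleMap 0 ρ θ') - Real.log ‖pd a (a q)‖
          else Real.log |a q - a q'|) * (gg (v q) (y q) M θ * gg (v q') (y q') M θ')) +
      LL (fun θ θ' => II a x q q' (om κ ε (circleMap 0 ρ θ)) (om κ ε (circleMap 0 ρ θ')) *
        (gg (v q) (y q) M θ * gg (v q') (y q') M θ')) := by
    intro q q'
    rw [← LL_add (hS q q')]
    · refine LL_congr fun θ θ' => ?_
      unfold JJ
      ring
    · exact (II_cont h hx hp h0 h1 q q').mul (hc2 q q')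
  simp only [h5, Finset.sum_add_distrib, sing_double h0] at hE
  rw [S_part h hp h0 h1 v y M, II_part h hx hp h0 h1 v y M] at hE
  have h6 : ∑ q, (2 * π) ^ 2 * (Real.log ρ * v q ^ 2 - ∑ j ∈ Finset.Icc 1 M, y q j ^ 2 / (4 * j)) =
      (2 * π) ^ 2 * (Real.log ρ * ∑ q, v q ^ 2 -
        ∑ j ∈ Finset.Icc 1 M, (∑ q, y q j ^ 2) / (4 * j)) := by
    rw [← Finset.mul_sum, Finset.sum_sub_distrib, ← Finset.mul_sum, Finset.sum_comm]
    simp only [Finset.sum_div]
  rw [h6, ← mul_add, ← mul_add] at hE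
  have h7 : (0 : ℝ) < (2 * π) ^ 2 := by positivity
  have h8 := nonpos_of_mul_nonpos_right hE h7
  linarith

end P4a177g
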