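import Pool.Agent.Lib.P4a177g.TayG

/-!
# MODULE P4a177g.FunG: the coefficient functional on the slit plane (est. 1.4 h)

PROOF of `functional`. Let `ω(z) = om (2c) 1 z = 2 c z / (1 + z^2)`, `h z = F (ω z)`, differentiable on the open
unit disc, `h z = ∑_j h_j z^j`. The left side is `∑_{j ≤ m} eta m j * h_j`
(`av (h (ρ e^{iθ}) cos (jθ)) = ρ^j h_j / 2`, `j ≥ 1`; `eta m 0 = 0`). So it is enough that
`∑_{j=1}^m eta m j * h_j = c^m F_m`. Write `F w = ∑_{l ≤ m} F_l w^l + w^(m+1) G w` near `0`; the last term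
contributes `O(z^(m+1))` to `h`. So it is enough to treat `F = w^l`, `l ≤ m`, that is
`∑_j eta m j * [z^j] ω^l = c^m δ_{lm}`. By definition, on the circle `|z| = ρ` the Laurent polynomial
`g(z) = z d/dz (-(1/m) ((z + 1/z)/2)^m) = -∑_i ((m - 2i)/m) 2^(-m) (m.choose i) z^(m-2i)` has the
coefficient `eta m j` at `z^(-j)`, `1 ≤ j ≤ m`, and the coefficient `0` at `z^0`, so
`∑_j eta m j * [z^j] ω^l = av (ω^l g)`. As `(z + 1/z)/2 = c/ω` and `g = (c/ω)^m * z ω'/ω`:
`av (ω^l g) = c^m av (ω^(l-m) z ω'/ω)`, which for `l ≠ m` is the mean value of the `θ`-derivative of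
`ω^(l-m) / (i (l-m))`, so `0`, and for `l = m` `z ω'/ω = (1 - z^2)/(1 + z^2)` has the mean value `1`.
(One may also prove the identity `∑_j eta m j * [z^j] (z/(1+z^2))^l * 2^l = δ_{lm}` in another way.)
`tau_beta`: for fixed `q`, `k`, `t` apply it to `F w = tt a x q k (t w)`, `F_m = t^m hq a q k m`.
-/

set_option autoImplicit false

namespace P4a177g

open P4a177f Function MeasureTheory
open scoped Real

variable {n : ℕ} {a : Fin n → ℝ} {c : ℝ} {x : Fin n → ℂ → ℂ}

namespace FunGAux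

open Real Metric Set

/-- the parametrization of the slit plane is differentiable -/
theorem om_diff (c : ℝ) {z : ℂ} (hz : ‖z‖ < 1) : DifferentiableAt ℂ (om (2 * c) 1) z := by
  have h1 : (1 : ℂ) + ((1 : ℝ) : ℂ) * z ^ 2 ≠ 0 :=
    one_add_ne (c := c) (κ := 2 * c) (ε := 1) (Or.inl ⟨rfl, rfl⟩) hz
  unfold om
  exact DifferentiableAt.div (by fun_prop) (by fun_prop) h1

theorem comp_diff {c : ℝ} (hc : 0 < c) {F : ℂ → ℂ} (hF : DifferentiableOn ℂ F (slit c)) {z : ℂ}
    (hz : ‖z‖ < 1) : DifferentiableAt ℂ (fun z => F (om (2 * c) 1 z)) z := by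
  have h1 : om (2 * c) 1 z ∈ slit c := om_mem hc (Or.inl ⟨rfl, rfl⟩) hz
  have h2 : DifferentiableAt ℂ F (om (2 * c) 1 z) :=
    hF.differentiableAt ((isOpen_slit c).mem_nhds h1)
  exact h2.comp z (om_diff c hz)

theorem mean_value {f : ℂ → ℂ} (hf : ∀ z : ℂ, ‖z‖ < 1 → DifferentiableAt ℂ f z) {ρ : ℝ}
    (h0 : 0 < ρ) (h1 : ρ < 1) : circleAverage f 0 ρ = f 0 := by
  apply DiffContOnCl.circleAverage
  apply DifferentiableOn.diffContOnCl
  intro z hz
  have hz' : z ∈ closedBall (0 : ℂ) ρ := by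
    rw [abs_of_pos h0] at hz
    exact closure_ball_subset_closedBall hz
  have : ‖z‖ ≤ ρ := by simpa using hz'
  exact (hf z (by linarith)).differentiableWithinAt

theorem norm_sphere {ρ : ℝ} (h0 : 0 < ρ) {z : ℂ} (hz : z ∈ sphere (0 : ℂ) |ρ|) : ‖z‖ = ρ := by
  rw [abs_of_pos h0] at hz
  simpa using hz

/-- the factor `c / ω` -/
noncomputable def qq (z : ℂ) : ℂ := (1 + z ^ 2) / (2 * z)

theorem om_qq {c : ℝ} {z : ℂ} (hz0 : z ≠ 0) (hz : ‖z‖ < 1) : om (2 * c) 1 z * qq z = c := by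
  have h1 : (1 : ℂ) + ((1 : ℝ) : ℂ) * z ^ 2 ≠ 0 :=
    one_add_ne (c := c) (κ := 2 * c) (ε := 1) (Or.inl ⟨rfl, rfl⟩) hz
  have h2 : (1 : ℂ) + z ^ 2 ≠ 0 := by simpa using h1
  unfold om qq
  push_cast
  field_simp

theorem qq_avg {ρ : ℝ} (h0 : 0 < ρ) (h1 : ρ < 1) {m : ℕ} (hm : 1 ≤ m) :
    circleAverage (fun z => qq z ^ m * ((1 - z ^ 2) / (1 + z ^ 2))) 0 ρ = 0 := by
  rw [circleAverage_eq_circleIntegral h0.ne']
  have key : (∮ z in C(0, ρ), (z - 0)⁻¹ • (qq z ^ m * ((1 - z ^ 2) / (1 + z ^ 2)))) = 0 := by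
    apply circleIntegral.integral_eq_zero_of_hasDerivWithinAt h0.le (f := fun z =>
      -(1 / (m : ℂ)) * qq z ^ m)
    intro z hz
    apply HasDerivAt.hasDerivWithinAt
    have hzn : ‖z‖ = ρ := by simpa using hz
    have hz0 : z ≠ 0 := by
      intro h
      rw [h, norm_zero] at hzn
      exact h0.ne hzn
    have h2 : (1 : ℂ) + z ^ 2 ≠ 0 := by
      have h3 : (1 : ℂ) + ((1 : ℝ) : ℂ) * z ^ 2 ≠ 0 :=
        one_add_ne (c := 1) (κ := 2 * 1) (ε := 1) (Or.inl ⟨rfl, rfl⟩) (by rw [hzn]; exact h1)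
      simpa using h3
    have hm0 : (m : ℂ) ≠ 0 := by exact_mod_cast (by omega : m ≠ 0)
    have hq : HasDerivAt qq (-(1 - z ^ 2) / (2 * z ^ 2)) z := by
      have e1 : HasDerivAt (fun z : ℂ => 1 + z ^ 2) (2 * z) z := by
        have := (hasDerivAt_pow 2 z).const_add (1 : ℂ)
        simpa using this
      have e2 : HasDerivAt (fun z : ℂ => 2 * z) 2 z := by
        simpa using (hasDerivAt_id z).const_mul (2 : ℂ)
      have e3 : HasDerivAt qq ((2 * z * (2 * z) - (1 + z ^ 2) * 2) / (2 * z) ^ 2) z :=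
        e1.div e2 (by simpa using hz0 : (2 * z : ℂ) ≠ 0)
      refine e3.congr_deriv ?_
      field_simp
      ring
    have hd : HasDerivAt (fun z => -(1 / (m : ℂ)) * qq z ^ m)
        (-(1 / (m : ℂ)) * ((m : ℂ) * qq z ^ (m - 1) * (-(1 - z ^ 2) / (2 * z ^ 2)))) z :=
      (hq.fun_pow m).const_mul (-(1 / (m : ℂ)))
    refine hd.congr_deriv ?_
    obtain ⟨k, rfl⟩ : ∃ k, m = k + 1 := ⟨m - 1, by omega⟩
    rw [sub_zero, smul_eq_mul, Nat.add_sub_cancel, pow_succ (qq z) k]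
    have hqe : qq z = (1 + z ^ 2) / (2 * z) := rfl
    have : z⁻¹ * (qq z ^ k * qq z * ((1 - z ^ 2) / (1 + z ^ 2))) =
        qq z ^ k * ((1 - z ^ 2) / (2 * z ^ 2)) := by
      rw [hqe]
      field_simp
    rw [this]
    field_simp
  rw [key, smul_zero]

theorem qq_cont {z : ℂ} (hz0 : z ≠ 0) : ContinuousAt qq z := by
  unfold qq
  exact ContinuousAt.div (by fun_prop) (by fun_prop) (by simpa using hz0)

theorem int_of_cont {f : ℂ → ℂ} {ρ : ℝ} (h : ∀ z : ℂ, ‖z‖ = ρ → ContinuousAt f z) (h0 : 0 < ρ) :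
    CircleIntegrable f 0 ρ := by
  apply ContinuousOn.circleIntegrable h0.le
  intro z hz
  have : ‖z‖ = ρ := by simpa using hz
  exact (h z this).continuousWithinAt

theorem main_avg {c ρ : ℝ} (hc : 0 < c) (h0 : 0 < ρ) (h1 : ρ < 1) (m : ℕ) :
    ∀ (F : ℂ → ℂ) (p : FormalMultilinearSeries ℂ ℂ ℂ), DifferentiableOn ℂ F (slit c) →
      HasFPowerSeriesAt F p 0 →
      circleAverage (fun z => F (om (2 * c) 1 z) * (qq z ^ m * ((1 - z ^ 2) / (1 + z ^ 2)))) 0 ρ =
        (c : ℂ) ^ m * p.coeff m := by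
  have hne : ∀ z : ℂ, ‖z‖ < 1 → (1 : ℂ) + z ^ 2 ≠ 0 := by
    intro z hz
    have h3 : (1 : ℂ) + ((1 : ℝ) : ℂ) * z ^ 2 ≠ 0 :=
      one_add_ne (c := 1) (κ := 2 * 1) (ε := 1) (Or.inl ⟨rfl, rfl⟩) hz
    simpa using h3
  induction m with
  | zero =>
    intro F p hF hp
    have e1 : circleAverage (fun z => F (om (2 * c) 1 z) *
        (qq z ^ 0 * ((1 - z ^ 2) / (1 + z ^ 2)))) 0 ρ =
        (fun z => F (om (2 * c) 1 z) * (qq z ^ 0 * ((1 - z ^ 2) / (1 + z ^ 2)))) 0 := by
      apply mean_value _ h0 h1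
      intro z hz
      have hh := hne z hz
      refine (comp_diff hc hF hz).mul ?_
      simp only [pow_zero, one_mul]
      exact DifferentiableAt.div (by fun_prop) (by fun_prop) hh
    rw [e1]
    have e2 : p.coeff 0 = F 0 := hp.coeff_zero 1
    have e3 : om (2 * c) 1 0 = 0 := by simp [om]
    simp [e2, e3]
  | succ m ih =>
    intro F p hF hp
    have hnhds : slit c ∈ nhds (0 : ℂ) := (isOpen_slit c).mem_nhds (zero_mem_slit hc)
    have hF1 : DifferentiableOn ℂ (dslope F 0) (slit c) :=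
      (Complex.differentiableOn_dslope hnhds).2 hF
    have hp1 := hp.has_fpower_series_dslope_fslope
    have e1 := ih (dslope F 0) p.fslope hF1 hp1
    rw [FormalMultilinearSeries.coeff_fslope] at e1
    have e2 := qq_avg h0 h1 (m := m + 1) (by omega)
    have hz0 : ∀ z : ℂ, ‖z‖ = ρ → z ≠ 0 := by
      intro z hz h
      rw [h, norm_zero] at hz
      exact h0.ne hz
    have hEq : EqOn (fun z => F (om (2 * c) 1 z) *
        (qq z ^ (m + 1) * ((1 - z ^ 2) / (1 + z ^ 2))))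
        (fun z => F 0 • (qq z ^ (m + 1) * ((1 - z ^ 2) / (1 + z ^ 2))) +
          (c : ℂ) • (dslope F 0 (om (2 * c) 1 z) *
            (qq z ^ m * ((1 - z ^ 2) / (1 + z ^ 2))))) (sphere 0 |ρ|) := by
      intro z hz
      have hzn := norm_sphere h0 hz
      have hzz := hz0 z hzn
      have e3 : F (om (2 * c) 1 z) = F 0 + om (2 * c) 1 z * dslope F 0 (om (2 * c) 1 z) := by
        have := sub_smul_dslope F 0 (om (2 * c) 1 z)
        rw [smul_eq_mul, sub_zero] at this
        rw [this]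
        ring
      have e4 := om_qq (c := c) hzz (by rw [hzn]; exact h1)
      simp only [smul_eq_mul]
      rw [e3, ← e4, pow_succ]
      ring
    rw [circleAverage_congr_sphere hEq]
    have hi1 : CircleIntegrable (fun z : ℂ => qq z ^ (m + 1) * ((1 - z ^ 2) / (1 + z ^ 2))) 0 ρ := by
      apply int_of_cont _ h0
      intro z hz
      have a1 := hne z (by rw [hz]; exact h1)
      exact ((qq_cont (hz0 z hz)).pow _).mul
        (ContinuousAt.div (by fun_prop) (by fun_prop) a1)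
    have hi2 : CircleIntegrable (fun z : ℂ => dslope F 0 (om (2 * c) 1 z) *
            (qq z ^ m * ((1 - z ^ 2) / (1 + z ^ 2)))) 0 ρ := by
      apply int_of_cont _ h0
      intro z hz
      have a1 := hne z (by rw [hz]; exact h1)
      exact (comp_diff hc hF1 (by rw [hz]; exact h1)).continuousAt.mul
        (((qq_cont (hz0 z hz)).pow _).mul (ContinuousAt.div (by fun_prop) (by fun_prop) a1))
    have hsum : circleAverage (fun z => F 0 • (qq z ^ (m + 1) * ((1 - z ^ 2) / (1 + z ^ 2))) +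
          (c : ℂ) • (dslope F 0 (om (2 * c) 1 z) *
            (qq z ^ m * ((1 - z ^ 2) / (1 + z ^ 2))))) 0 ρ =
        circleAverage (fun z => F 0 • (qq z ^ (m + 1) * ((1 - z ^ 2) / (1 + z ^ 2)))) 0 ρ +
        circleAverage (fun z => (c : ℂ) • (dslope F 0 (om (2 * c) 1 z) *
            (qq z ^ m * ((1 - z ^ 2) / (1 + z ^ 2))))) 0 ρ :=
      circleAverage_fun_add (hi1.const_smul (a := F 0)) (hi2.const_smul (a := (c : ℂ)))
    rw [hsum, circleAverage_fun_smul, circleAverage_fun_smul, e1, e2]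
    rw [smul_zero, zero_add, smul_eq_mul, pow_succ]
    ring

theorem binom_frac {m i : ℕ} (hm : 1 ≤ m) (hi : i ≤ m) :
    ((m - 1).choose i : ℂ) - (if i = 0 then 0 else ((m - 1).choose (i - 1) : ℂ)) =
      ((m : ℂ) - 2 * i) / m * (m.choose i) := by
  obtain ⟨k, rfl⟩ : ∃ k, m = k + 1 := ⟨m - 1, by omega⟩
  rw [Nat.add_sub_cancel]
  have hk : ((k + 1 : ℕ) : ℂ) ≠ 0 := by exact_mod_cast (Nat.succ_ne_zero k)
  rcases Nat.eq_zero_or_pos i with h | h
  · subst h
    simp only [if_true, Nat.choose_zero_right, Nat.cast_one, Nat.cast_zero, mul_zero, sub_zero]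
    rw [div_self hk, one_mul]
  · obtain ⟨j, rfl⟩ : ∃ j, i = j + 1 := ⟨i - 1, by omega⟩
    rw [if_neg (Nat.succ_ne_zero j), Nat.add_sub_cancel]
    have e1 : ((k + 1).choose (j + 1) : ℂ) = (k.choose j : ℂ) + (k.choose (j + 1) : ℂ) := by
      exact_mod_cast Nat.choose_succ_succ k j
    have e2 : ((k + 1 : ℕ) : ℂ) * (k.choose j : ℂ) =
        ((k + 1).choose (j + 1) : ℂ) * ((j + 1 : ℕ) : ℂ) := by
      exact_mod_cast Nat.add_one_mul_choose_eq k j
    rw [div_mul_eq_mul_div, eq_div_iff hk]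
    have e3 : (k.choose (j + 1) : ℂ) = ((k + 1).choose (j + 1) : ℂ) - (k.choose j : ℂ) := by
      rw [e1]; ring
    rw [e3]
    linear_combination (-2 : ℂ) * e2

theorem binom_id {m : ℕ} (hm : 1 ≤ m) (z v : ℂ) :
    (z + v) ^ (m - 1) * (v - z) = ∑ i ∈ Finset.range (m + 1),
      ((m : ℂ) - 2 * i) / m * (m.choose i) * (z ^ i * v ^ (m - i)) := by
  obtain ⟨k, rfl⟩ : ∃ k, m = k + 1 := ⟨m - 1, by omega⟩
  have e0 : ∀ i ∈ Finset.range (k + 1 + 1),
      (((k + 1 : ℕ) : ℂ) - 2 * i) / ((k + 1 : ℕ) : ℂ) * ((k + 1).choose i) *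
        (z ^ i * v ^ (k + 1 - i)) = (k.choose i : ℂ) * (z ^ i * v ^ (k + 1 - i)) -
        (if i = 0 then 0 else (k.choose (i - 1) : ℂ)) * (z ^ i * v ^ (k + 1 - i)) := by
    intro i hi
    rw [← binom_frac (m := k + 1) (by omega) (by have := Finset.mem_range.1 hi; omega),
      Nat.add_sub_cancel]
    ring
  rw [Finset.sum_congr rfl e0, Finset.sum_sub_distrib, Nat.add_sub_cancel]
  rw [Finset.sum_range_succ (fun i => (k.choose i : ℂ) * (z ^ i * v ^ (k + 1 - i)))]
  rw [Finset.sum_range_succ' (fun i => (if i = 0 then 0 else (k.choose (i - 1) : ℂ)) *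
    (z ^ i * v ^ (k + 1 - i)))]
  simp only [Nat.choose_succ_self, Nat.cast_zero, zero_mul, add_zero, if_true,
    Nat.succ_ne_zero, if_false, Nat.add_sub_cancel]
  rw [mul_sub, add_pow, Finset.sum_mul, Finset.sum_mul]
  congr 1
  · refine Finset.sum_congr rfl fun i hi => ?_
    have : k + 1 - i = (k - i) + 1 := by
      have := Finset.mem_range.1 hi
      omega
    rw [this, pow_succ]
    ring
  · refine Finset.sum_congr rfl fun i hi => ?_
    have : k + 1 - (i + 1) = k - i := by omega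
    rw [this, pow_succ]
    ring

theorem eta_sum {m : ℕ} {z v : ℂ} (hzv : z * v = 1) :
    ∑ j ∈ Finset.Icc 1 m, (eta m j : ℂ) * (v ^ j - z ^ j) =
      (∑ i ∈ Finset.range (m + 1),
        ((m : ℂ) - 2 * i) / m * (m.choose i) * (z ^ i * v ^ (m - i))) / 2 ^ m := by
  have l1 : ∀ j ∈ Finset.Icc 1 m, (eta m j : ℂ) * (v ^ j - z ^ j) =
      if Even (m - j) then
        ((j : ℂ) / m * (m.choose ((m - j) / 2)) / 2 ^ m) * v ^ j -
        ((j : ℂ) / m * (m.choose ((m - j) / 2)) / 2 ^ m) * z ^ j else 0 := by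
    intro j hj
    have hjm : j ≤ m := (Finset.mem_Icc.1 hj).2
    unfold eta
    by_cases he : Even (m - j)
    · rw [if_pos ⟨hjm, he⟩, if_pos he]
      push_cast
      ring
    · rw [if_neg (fun h => he h.2), if_neg he]
      simp
  rw [Finset.sum_congr rfl l1, ← Finset.sum_filter, Finset.sum_sub_distrib]
  have l2 : ∑ j ∈ (Finset.Icc 1 m).filter (fun j => Even (m - j)),
      ((j : ℂ) / m * (m.choose ((m - j) / 2)) / 2 ^ m) * v ^ j =
      (∑ i ∈ (Finset.range (m + 1)).filter (fun i => 2 * i < m),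
        ((m : ℂ) - 2 * i) / m * (m.choose i) * (z ^ i * v ^ (m - i))) / 2 ^ m := by
    rw [Finset.sum_div]
    refine Finset.sum_nbij' (fun j => (m - j) / 2) (fun i => m - 2 * i) ?_ ?_ ?_ ?_ ?_
    · intro j hj
      simp only [Finset.mem_filter, Finset.mem_Icc, Finset.mem_range] at hj ⊢
      omega
    · intro i hi
      simp only [Finset.mem_filter, Finset.mem_Icc, Finset.mem_range] at hi ⊢
      refine ⟨by omega, ?_⟩
      have : m - (m - 2 * i) = 2 * i := by omega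
      rw [this]
      exact even_two_mul i
    · intro j hj
      simp only [Finset.mem_filter, Finset.mem_Icc] at hj
      obtain ⟨⟨h1, h2⟩, ⟨r, hr⟩⟩ := hj
      show m - 2 * ((m - j) / 2) = j
      omega
    · intro i hi
      simp only [Finset.mem_filter, Finset.mem_range] at hi
      show (m - (m - 2 * i)) / 2 = i
      omega
    · intro j hj
      simp only [Finset.mem_filter, Finset.mem_Icc] at hj
      obtain ⟨⟨h1, h2⟩, ⟨r, hr⟩⟩ := hj
      have h3 : (m - j) / 2 = r := by omega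
      have h4 : m = j + 2 * r := by omega
      have h5 : m - r = r + j := by omega
      simp only [h3]
      rw [h5, pow_add, ← mul_assoc (z ^ r), ← mul_pow, hzv, one_pow, one_mul]
      have h6 : (m : ℂ) - 2 * r = j := by
        rw [h4]
        push_cast
        ring
      rw [h6]
      ring
  have l3 : ∑ j ∈ (Finset.Icc 1 m).filter (fun j => Even (m - j)),
      ((j : ℂ) / m * (m.choose ((m - j) / 2)) / 2 ^ m) * z ^ j =
      -(∑ i ∈ (Finset.range (m + 1)).filter (fun i => m < 2 * i),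
        ((m : ℂ) - 2 * i) / m * (m.choose i) * (z ^ i * v ^ (m - i))) / 2 ^ m := by
    rw [← Finset.sum_neg_distrib, Finset.sum_div]
    refine Finset.sum_nbij' (fun j => (m + j) / 2) (fun i => 2 * i - m) ?_ ?_ ?_ ?_ ?_
    · intro j hj
      simp only [Finset.mem_filter, Finset.mem_Icc, Finset.mem_range] at hj ⊢
      obtain ⟨⟨h1, h2⟩, ⟨r, hr⟩⟩ := hj
      omega
    · intro i hi
      simp only [Finset.mem_filter, Finset.mem_Icc, Finset.mem_range] at hi ⊢
      refine ⟨by omega, ?_⟩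
      have : m - (2 * i - m) = 2 * (m - i) := by omega
      rw [this]
      exact even_two_mul _
    · intro j hj
      simp only [Finset.mem_filter, Finset.mem_Icc] at hj
      obtain ⟨⟨h1, h2⟩, ⟨r, hr⟩⟩ := hj
      show 2 * ((m + j) / 2) - m = j
      omega
    · intro i hi
      simp only [Finset.mem_filter, Finset.mem_range] at hi
      show (m + (2 * i - m)) / 2 = i
      omega
    · intro j hj
      simp only [Finset.mem_filter, Finset.mem_Icc] at hj
      obtain ⟨⟨h1, h2⟩, ⟨r, hr⟩⟩ := hj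
      have h3 : (m - j) / 2 = r := by omega
      have h3' : (m + j) / 2 = r + j := by omega
      have h4 : m = j + 2 * r := by omega
      have h5 : m - (r + j) = r := by omega
      simp only [h3, h3']
      rw [h5, pow_add, mul_comm (z ^ r) (z ^ j), mul_assoc (z ^ j), ← mul_pow, hzv, one_pow,
        mul_one]
      have h6 : (m : ℂ) - 2 * ((r + j : ℕ) : ℂ) = -j := by
        rw [h4]
        push_cast
        ring
      have h7 : m.choose (r + j) = m.choose r := by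
        rw [← Nat.choose_symm (by omega : r + j ≤ m), h5]
      rw [h6, h7]
      ring
  rw [l2, l3]
  have l4 : ∑ i ∈ Finset.range (m + 1),
        ((m : ℂ) - 2 * i) / m * (m.choose i) * (z ^ i * v ^ (m - i)) =
      ∑ i ∈ (Finset.range (m + 1)).filter (fun i => 2 * i < m),
        ((m : ℂ) - 2 * i) / m * (m.choose i) * (z ^ i * v ^ (m - i)) +
      ∑ i ∈ (Finset.range (m + 1)).filter (fun i => m < 2 * i),
        ((m : ℂ) - 2 * i) / m * (m.choose i) * (z ^ i * v ^ (m - i)) := by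
    rw [← Finset.sum_filter_add_sum_filter_not (Finset.range (m + 1)) (fun i => 2 * i < m)]
    congr 1
    symm
    apply Finset.sum_subset
    · intro i hi
      simp only [Finset.mem_filter] at hi ⊢
      exact ⟨hi.1, by omega⟩
    · intro i hi hi2
      simp only [Finset.mem_filter] at hi hi2
      have hmi : m = 2 * i := by
        have : ¬ m < 2 * i := fun h => hi2 ⟨hi.1, h⟩
        omega
      have : (m : ℂ) - 2 * i = 0 := by
        rw [hmi]
        push_cast
        ring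
      rw [this]
      simp
  rw [l4]
  ring

theorem gid {m : ℕ} (hm : 1 ≤ m) {z : ℂ} (hz0 : z ≠ 0) (h1 : (1 : ℂ) + z ^ 2 ≠ 0) :
    ∑ j ∈ Finset.Icc 1 m, (eta m j : ℂ) * ((z⁻¹) ^ j - z ^ j) =
      qq z ^ m * ((1 - z ^ 2) / (1 + z ^ 2)) := by
  rw [eta_sum (mul_inv_cancel₀ hz0), ← binom_id hm]
  obtain ⟨k, rfl⟩ : ∃ k, m = k + 1 := ⟨m - 1, by omega⟩
  rw [Nat.add_sub_cancel]
  have hq : z + z⁻¹ = 2 * qq z := by
    unfold qq
    field_simp
    ring
  have hq2 : z⁻¹ - z = 2 * (qq z * ((1 - z ^ 2) / (1 + z ^ 2))) := by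
    unfold qq
    field_simp
  rw [hq, hq2, mul_pow, pow_succ (2 : ℂ) k, pow_succ (qq z) k]
  field_simp

end FunGAux

open FunGAux

theorem functional {c ρ : ℝ} (hc : 0 < c) (h0 : 0 < ρ) (h1 : ρ < 1) {F : ℂ → ℂ}
    (hF : DifferentiableOn ℂ F (slit c)) {f : ℕ → ℂ}
    (hf : ∀ w : ℂ, ‖w‖ < c → HasSum (fun l => f l * w ^ l) (F w)) {m : ℕ} (hm : 1 ≤ m) :
    av (fun θ => F (om (2 * c) 1 (circleMap 0 ρ θ)) *
      ((∑ j ∈ Finset.Icc 1 m, 2 * eta m j / ρ ^ j * Real.cos (j * θ) : ℝ) : ℂ)) =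
      (c : ℂ) ^ m * f m := by
  have hne : ∀ z : ℂ, ‖z‖ < 1 → (1 : ℂ) + z ^ 2 ≠ 0 := by
    intro z hz
    have h3 : (1 : ℂ) + ((1 : ℝ) : ℂ) * z ^ 2 ≠ 0 :=
      one_add_ne (c := 1) (κ := 2 * 1) (ε := 1) (Or.inl ⟨rfl, rfl⟩) hz
    simpa using h3
  have hz0 : ∀ z : ℂ, ‖z‖ = ρ → z ≠ 0 := by
    intro z hz h
    rw [h, norm_zero] at hz
    exact h0.ne hz
  have hρ : (ρ : ℂ) ≠ 0 := by exact_mod_cast h0.ne'
  set G1 : ℂ → ℂ := fun z => F (om (2 * c) 1 z) * (qq z ^ m * ((1 - z ^ 2) / (1 + z ^ 2)))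
    with hG1
  set G2 : ℂ → ℂ := fun z => F (om (2 * c) 1 z) *
    ∑ j ∈ Finset.Icc 1 m, (eta m j : ℂ) * ((1 + 1 / (ρ : ℂ) ^ (2 * j)) * z ^ j) with hG2
  have key : ∀ θ : ℝ, F (om (2 * c) 1 (circleMap 0 ρ θ)) *
      ((∑ j ∈ Finset.Icc 1 m, 2 * eta m j / ρ ^ j * Real.cos (j * θ) : ℝ) : ℂ) =
      G1 (circleMap 0 ρ θ) + G2 (circleMap 0 ρ θ) := by
    intro θ
    have hzn : ‖circleMap 0 ρ θ‖ = ρ := by
      rw [norm_circleMap_zero, abs_of_pos h0]
    have hzz := hz0 _ hzn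
    have h2 := hne (circleMap 0 ρ θ) (by rw [hzn]; exact h1)
    rw [hG1, hG2]
    simp only
    rw [← mul_add, ← gid hm hzz h2, ← Finset.sum_add_distrib]
    congr 1
    rw [Complex.ofReal_sum]
    refine Finset.sum_congr rfl fun j _ => ?_
    have hz : circleMap 0 ρ θ = ρ * Complex.exp (θ * Complex.I) := by simp [circleMap]
    set e : ℂ := Complex.exp (θ * Complex.I) with he
    have he0 : e ≠ 0 := Complex.exp_ne_zero _
    have hcos : (Real.cos (j * θ) : ℂ) = (e ^ j + (e ^ j)⁻¹) / 2 := by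
      rw [Complex.ofReal_cos, Complex.cos, he, ← Complex.exp_nat_mul, ← Complex.exp_neg]
      push_cast
      congr 2
      · congr 1
        ring
      · congr 1
        ring
    push_cast
    push_cast at hcos
    rw [hcos, hz, mul_pow, inv_pow, mul_pow, mul_comm 2 j, pow_mul]
    field_simp
    ring
  have e1 : av (fun θ => F (om (2 * c) 1 (circleMap 0 ρ θ)) *
      ((∑ j ∈ Finset.Icc 1 m, 2 * eta m j / ρ ^ j * Real.cos (j * θ) : ℝ) : ℂ)) =
      Real.circleAverage (fun z => G1 z + G2 z) 0 ρ := by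
    unfold av Real.circleAverage
    congr 1
    exact intervalIntegral.integral_congr fun θ _ => key θ
  have hi1 : CircleIntegrable G1 0 ρ := by
    apply int_of_cont _ h0
    intro z hz
    have a1 := hne z (by rw [hz]; exact h1)
    exact (comp_diff hc hF (by rw [hz]; exact h1)).continuousAt.mul
      (((qq_cont (hz0 z hz)).pow _).mul (ContinuousAt.div (by fun_prop) (by fun_prop) a1))
  have hd2 : ∀ z : ℂ, ‖z‖ < 1 → DifferentiableAt ℂ G2 z := by
    intro z hz
    exact (comp_diff hc hF hz).mul (by fun_prop)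
  have hi2 : CircleIntegrable G2 0 ρ := by
    apply int_of_cont _ h0
    intro z hz
    exact (hd2 z (by rw [hz]; exact h1)).continuousAt
  rw [e1, Real.circleAverage_fun_add hi1 hi2, mean_value hd2 h0 h1]
  have e2 : G2 0 = 0 := by
    rw [hG2]
    simp only
    rw [Finset.sum_eq_zero, mul_zero]
    intro j hj
    have : j ≠ 0 := by
      have := (Finset.mem_Icc.1 hj).1
      omega
    rw [zero_pow this]
    ring
  rw [e2, add_zero]
  have hp : HasFPowerSeriesAt F (FormalMultilinearSeries.ofScalars ℂ f) 0 := by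
    rw [hasFPowerSeriesAt_iff]
    have hb : Metric.ball (0 : ℂ) c ∈ nhds (0 : ℂ) := Metric.ball_mem_nhds _ hc
    filter_upwards [hb] with z hz
    have hz' : ‖z‖ < c := by simpa using hz
    rw [zero_add]
    have h5 : (fun n => z ^ n • (FormalMultilinearSeries.ofScalars ℂ f).coeff n) =
        fun l => f l * z ^ l := by
      funext l
      rw [FormalMultilinearSeries.coeff_ofScalars, smul_eq_mul, mul_comm]
    rw [h5]
    exact hf z hz'
  have e3 := main_avg hc h0 h1 m F _ hF hp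
  rw [FormalMultilinearSeries.coeff_ofScalars] at e3
  exact e3

theorem tau_beta (h : Crit a c) (hx : Br a c x) {ρ : ℝ} (h0 : 0 < ρ)
    (h1 : ρ < 1) (y : Fin n → ℝ) {m : ℕ} (hm : 1 ≤ m) (k : Fin n) {t : ℝ} (ht0 : 0 ≤ t)
    (ht1 : t ≤ 1) :
    tau a x (2 * c) 1 ρ (fun _ => 0) (fun q j => 2 * eta m j / ρ ^ j * y q) m k t =
      ((t ^ m * c ^ m * ∑ q, hq a q k m * y q : ℝ) : ℂ) := by
  have hc := h.pos
  unfold tau
  have e1 : ∀ q : Fin n, av (fun θ => tt a x q k (t * om (2 * c) 1 (circleMap 0 ρ θ)) *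
      (gg ((fun _ : Fin n => (0 : ℝ)) q) ((fun (q : Fin n) (j : ℕ) =>
        2 * eta m j / ρ ^ j * y q) q) m θ : ℂ)) =
      (y q : ℂ) * ((c : ℂ) ^ m * ((hq a q k m : ℂ) * (t : ℂ) ^ m)) := by
    intro q
    have hF : DifferentiableOn ℂ (fun w : ℂ => tt a x q k ((t : ℂ) * w)) (slit c) := by
      have h2 := tt_diff hx q k
      exact h2.comp (by fun_prop) (fun w hw => slit_smul hc hw ht0 ht1)
    have hf : ∀ w : ℂ, ‖w‖ < c →
        HasSum (fun l => ((hq a q k l : ℂ) * (t : ℂ) ^ l) * w ^ l) (tt a x q k ((t : ℂ) * w)) := by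
      intro w hw
      have h3 : ‖(t : ℂ) * w‖ < c := by
        rw [norm_mul, Complex.norm_real, Real.norm_of_nonneg ht0]
        exact lt_of_le_of_lt (mul_le_of_le_one_left (norm_nonneg w) ht1) hw
      have h4 := tt_hasSum h hx q k h3
      have h5 : (fun l : ℕ => (hq a q k l : ℂ) * ((t : ℂ) * w) ^ l) =
          fun l => ((hq a q k l : ℂ) * (t : ℂ) ^ l) * w ^ l := by
        funext l
        rw [mul_pow]
        ring
      rw [h5] at h4
      exact h4
    have h6 := functional hc h0 h1 hF hf hm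
    rw [← h6]
    have h7 : ∀ θ : ℝ, tt a x q k (t * om (2 * c) 1 (circleMap 0 ρ θ)) *
        (gg ((fun _ : Fin n => (0 : ℝ)) q) ((fun (q : Fin n) (j : ℕ) =>
          2 * eta m j / ρ ^ j * y q) q) m θ : ℂ) =
        (y q : ℂ) * (tt a x q k (t * om (2 * c) 1 (circleMap 0 ρ θ)) *
          ((∑ j ∈ Finset.Icc 1 m, 2 * eta m j / ρ ^ j * Real.cos (j * θ) : ℝ) : ℂ)) := by
      intro θ
      have h8 : gg ((fun _ : Fin n => (0 : ℝ)) q) ((fun (q : Fin n) (j : ℕ) =>
          2 * eta m j / ρ ^ j * y q) q) m θ =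
          y q * ∑ j ∈ Finset.Icc 1 m, 2 * eta m j / ρ ^ j * Real.cos (j * θ) := by
        unfold gg
        simp only [zero_add]
        rw [Finset.mul_sum]
        exact Finset.sum_congr rfl fun j _ => by ring
      rw [h8, Complex.ofReal_mul]
      ring
    have h9 : (fun θ : ℝ => tt a x q k (t * om (2 * c) 1 (circleMap 0 ρ θ)) *
        (gg ((fun _ : Fin n => (0 : ℝ)) q) ((fun (q : Fin n) (j : ℕ) =>
          2 * eta m j / ρ ^ j * y q) q) m θ : ℂ)) = fun θ =>
        (y q : ℂ) * (tt a x q k (t * om (2 * c) 1 (circleMap 0 ρ θ)) *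
          ((∑ j ∈ Finset.Icc 1 m, 2 * eta m j / ρ ^ j * Real.cos (j * θ) : ℝ) : ℂ)) :=
      funext h7
    rw [h9]
    unfold av
    rw [intervalIntegral.integral_const_mul, mul_smul_comm]
  rw [Finset.sum_congr rfl fun q _ => e1 q]
  push_cast
  rw [Finset.mul_sum]
  exact Finset.sum_congr rfl fun q _ => by ring

end P4a177g
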