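import Pool.Agent.Lib.P4a177g.TayG

/-!
# MODULE P4a177g.TauG: the mean values of `T(t w)` over circles (est. 1.1 h)

PROOF. `av_pow_cos` etc.: for a function `F` that is differentiable on the open unit disc with
`F z = ∑ F_j z^j`: `av (F (ρ e^{iθ})) = F_0` and `av (F (ρ e^{iθ}) cos (j θ)) = ρ^j F_j / 2` for `j ≥ 1`
(uniform convergence of the power series on the circle, `∫ e^{imθ} cos (jθ) dθ = π δ_{mj}` for `m ≥ 0`,
`j ≥ 1`). `tau_zero`: `z ↦ tt a x q k (t * om κ ε z)` is differentiable on the unit disc (`tt_diff`,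
`om_mem`, `slit_smul`), so its mean value is its value at `0`: `dd q k` (`tt_zero`); the weights are the
constants `v q`. `tau_gamma`: `om c 0 z = c z`, `‖t c z‖ < c`, so
`tt a x q k (t c z) = ∑_m hq a q k m (t c)^m z^m` (`tt_hasSum`).
-/

set_option autoImplicit false

namespace P4a177g

open P4a177f Function MeasureTheory
open scoped Real

variable {n : ℕ} {a : Fin n → ℝ} {c : ℝ} {x : Fin n → ℂ → ℂ}

namespace TauGAux

theorem int_exp (m : ℤ) : ∫ θ in (0 : ℝ)..(2 * π), Complex.exp (m * θ * Complex.I) =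
    if m = 0 then (2 * π : ℂ) else 0 := by
  split_ifs with h
  · rw [h]
    simp
  · have h1 : (m : ℂ) * Complex.I ≠ 0 :=
      mul_ne_zero (Int.cast_ne_zero.mpr h) Complex.I_ne_zero
    have h2 : (fun θ : ℝ => Complex.exp (m * θ * Complex.I)) =
        fun θ : ℝ => Complex.exp ((m * Complex.I) * θ) := by
      funext θ
      congr 1
      ring
    rw [h2, integral_exp_mul_complex h1]
    have h3 : Complex.exp ((m : ℂ) * Complex.I * ((2 * π : ℝ) : ℂ)) = 1 := by
      rw [Complex.exp_eq_one_iff]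
      refine ⟨m, ?_⟩
      push_cast
      ring
    rw [h3]
    simp

theorem int_cos (m j : ℕ) (hj : 1 ≤ j) :
    ∫ θ in (0 : ℝ)..(2 * π), Complex.exp (m * θ * Complex.I) * (Real.cos (j * θ) : ℂ) =
      if m = j then (π : ℂ) else 0 := by
  have h1 : ∀ θ : ℝ, Complex.exp (m * θ * Complex.I) * (Real.cos (j * θ) : ℂ) =
      (2 : ℂ)⁻¹ * Complex.exp ((((m : ℤ) + (j : ℤ) : ℤ) : ℂ) * θ * Complex.I) +
      (2 : ℂ)⁻¹ * Complex.exp ((((m : ℤ) - (j : ℤ) : ℤ) : ℂ) * θ * Complex.I) := by
    intro θ
    rw [Complex.ofReal_cos, Complex.cos]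
    push_cast
    have h2 : Complex.exp (((m : ℂ) + j) * θ * Complex.I) =
        Complex.exp (m * θ * Complex.I) * Complex.exp (j * θ * Complex.I) := by
      rw [← Complex.exp_add]
      congr 1
      ring
    have h3 : Complex.exp (((m : ℂ) - j) * θ * Complex.I) =
        Complex.exp (m * θ * Complex.I) * Complex.exp (-(j * θ) * Complex.I) := by
      rw [← Complex.exp_add]
      congr 1
      ring
    rw [h2, h3]
    ring
  simp_rw [h1]
  rw [intervalIntegral.integral_add, intervalIntegral.integral_const_mul,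
    intervalIntegral.integral_const_mul, int_exp, int_exp]
  · have h4 : ¬ ((m : ℤ) + (j : ℤ) = 0) := by omega
    rw [if_neg h4]
    by_cases h5 : m = j
    · have h6 : (m : ℤ) - (j : ℤ) = 0 := by omega
      rw [if_pos h6, if_pos h5]
      ring
    · have h6 : ¬ ((m : ℤ) - (j : ℤ) = 0) := by omega
      rw [if_neg h6, if_neg h5]
      ring
  · exact (Continuous.intervalIntegrable (by fun_prop) _ _)
  · exact (Continuous.intervalIntegrable (by fun_prop) _ _)

theorem int_gg (v : ℝ) (y : ℕ → ℝ) (M m : ℕ) :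
    ∫ θ in (0 : ℝ)..(2 * π), Complex.exp (m * θ * Complex.I) * (gg v y M θ : ℂ) =
      (if m = 0 then (2 * π * v : ℂ) else 0) +
        ∑ j ∈ Finset.Icc 1 M, if m = j then (π * y j : ℂ) else 0 := by
  have h1 : ∀ θ : ℝ, Complex.exp (m * θ * Complex.I) * (gg v y M θ : ℂ) =
      (v : ℂ) * Complex.exp (((m : ℤ) : ℂ) * θ * Complex.I) + ∑ j ∈ Finset.Icc 1 M,
        (y j : ℂ) * (Complex.exp (m * θ * Complex.I) * (Real.cos (j * θ) : ℂ)) := by
    intro θ
    unfold gg
    push_cast
    rw [mul_add, Finset.mul_sum]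
    congr 1
    · ring
    · refine Finset.sum_congr rfl fun j _ => ?_
      ring
  simp_rw [h1]
  rw [intervalIntegral.integral_add, intervalIntegral.integral_finsetSum,
    intervalIntegral.integral_const_mul, int_exp]
  · congr 1
    · by_cases h2 : m = 0
      · have h3 : (m : ℤ) = 0 := by omega
        rw [if_pos h3, if_pos h2]
        ring
      · have h3 : ¬ ((m : ℤ) = 0) := by omega
        rw [if_neg h3, if_neg h2, mul_zero]
    · refine Finset.sum_congr rfl fun j hj => ?_
      rw [intervalIntegral.integral_const_mul, int_cos m j (Finset.mem_Icc.mp hj).1]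
      split_ifs
      · ring
      · rw [mul_zero]
  · intro j _
    exact (Continuous.intervalIntegrable (by fun_prop) _ _)
  · exact (Continuous.intervalIntegrable (by fun_prop) _ _)
  · exact (Continuous.intervalIntegrable (by fun_prop) _ _)

theorem gg_bound (v : ℝ) (y : ℕ → ℝ) (M : ℕ) (θ : ℝ) :
    |gg v y M θ| ≤ |v| + ∑ j ∈ Finset.Icc 1 M, |y j| := by
  unfold gg
  refine (abs_add_le _ _).trans ?_
  refine add_le_add le_rfl ((Finset.abs_sum_le_sum_abs _ _).trans ?_)
  refine Finset.sum_le_sum fun j _ => ?_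
  rw [abs_mul]
  exact mul_le_of_le_one_right (abs_nonneg _) (Real.abs_cos_le_one _)

/-- the mean value of a power series with the weight `gg` -/
theorem av_series {cm : ℕ → ℝ} {r : ℝ} (hr : 0 ≤ r) {f : ℝ → ℂ}
    (hs : Summable fun m => |cm m| * r ^ m)
    (hf : ∀ θ : ℝ, HasSum (fun m : ℕ => (cm m : ℂ) * (r * Complex.exp (θ * Complex.I)) ^ m) (f θ))
    (v : ℝ) (y : ℕ → ℝ) (M : ℕ) :
    av (fun θ => f θ * (gg v y M θ : ℂ)) =
      ((v * cm 0 + (1 / 2) * ∑ j ∈ Finset.Icc 1 M, y j * (r ^ j * cm j) : ℝ) : ℂ) := by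
  set B : ℝ := |v| + ∑ j ∈ Finset.Icc 1 M, |y j| with hB
  have hB0 : 0 ≤ B := by positivity
  have hterm : ∀ (m : ℕ) (θ : ℝ), (cm m : ℂ) * (r * Complex.exp (θ * Complex.I)) ^ m =
      ((cm m * r ^ m : ℝ) : ℂ) * Complex.exp (m * θ * Complex.I) := by
    intro m θ
    rw [mul_pow, ← Complex.exp_nat_mul]
    push_cast
    rw [mul_assoc]
    congr 2
    congr 1
    ring
  have hgc : Continuous (gg v y M) := by
    unfold gg
    fun_prop
  have h1 : HasSum (fun m : ℕ => ∫ θ in (0 : ℝ)..(2 * π),
      ((cm m * r ^ m : ℝ) : ℂ) * (Complex.exp (m * θ * Complex.I) * (gg v y M θ : ℂ)))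
      (∫ θ in (0 : ℝ)..(2 * π), f θ * (gg v y M θ : ℂ)) := by
    refine intervalIntegral.hasSum_integral_of_dominated_convergence
      (fun m _ => |cm m| * r ^ m * B) ?_ ?_ ?_ ?_ ?_
    · intro m
      refine Continuous.aestronglyMeasurable ?_
      have : Continuous fun θ : ℝ => (gg v y M θ : ℂ) := Complex.continuous_ofReal.comp hgc
      fun_prop
    · intro m
      refine Filter.Eventually.of_forall fun θ _ => ?_
      rw [norm_mul, norm_mul, Complex.norm_real, Complex.norm_real, Real.norm_eq_abs,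
        Real.norm_eq_abs, abs_mul, abs_of_nonneg (pow_nonneg hr m)]
      have h2 : ‖Complex.exp (m * θ * Complex.I)‖ = 1 := by
        have := Complex.norm_exp_ofReal_mul_I ((m : ℝ) * θ)
        push_cast at this
        exact this
      rw [h2, one_mul]
      exact mul_le_mul_of_nonneg_left (gg_bound v y M θ) (by positivity)
    · exact Filter.Eventually.of_forall fun θ _ => hs.mul_right B
    · exact intervalIntegrable_const
    · refine Filter.Eventually.of_forall fun θ _ => ?_
      have h2 := (hf θ).mul_right (gg v y M θ : ℂ)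
      refine h2.congr_fun ?_
      intro m
      rw [hterm]
      ring
  have h2 : HasSum (fun m : ℕ => ∫ θ in (0 : ℝ)..(2 * π),
      ((cm m * r ^ m : ℝ) : ℂ) * (Complex.exp (m * θ * Complex.I) * (gg v y M θ : ℂ)))
      ((2 * π * v * cm 0 : ℂ) + ∑ j ∈ Finset.Icc 1 M, (π * y j * (r ^ j * cm j) : ℂ)) := by
    have h3 : ∀ m : ℕ, ∫ θ in (0 : ℝ)..(2 * π),
        ((cm m * r ^ m : ℝ) : ℂ) * (Complex.exp (m * θ * Complex.I) * (gg v y M θ : ℂ)) =
        (if m = 0 then (2 * π * v * cm 0 : ℂ) else 0) + ∑ j ∈ Finset.Icc 1 M,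
          if m = j then (π * y j * (r ^ j * cm j) : ℂ) else 0 := by
      intro m
      rw [intervalIntegral.integral_const_mul, int_gg, mul_add, Finset.mul_sum]
      congr 1
      · split_ifs with h
        · subst h
          push_cast
          ring
        · rw [mul_zero]
      · refine Finset.sum_congr rfl fun j _ => ?_
        split_ifs with h
        · subst h
          push_cast
          ring
        · rw [mul_zero]
    simp_rw [h3]
    refine HasSum.add ?_ (hasSum_sum fun j _ => ?_)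
    · exact hasSum_ite_eq 0 _
    · have := hasSum_ite_eq j (π * y j * (r ^ j * cm j) : ℂ)
      exact this
  have h3 := h1.unique h2
  unfold av
  rw [h3]
  have hpi : (π : ℂ) ≠ 0 := Complex.ofReal_ne_zero.mpr Real.pi_ne_zero
  rw [Complex.real_smul]
  push_cast
  have h4 : ∑ j ∈ Finset.Icc 1 M, (π * y j * (r ^ j * cm j) : ℂ) =
      (π : ℂ) * ∑ j ∈ Finset.Icc 1 M, ((y j : ℂ) * (r ^ j * cm j)) := by
    rw [Finset.mul_sum]
    refine Finset.sum_congr rfl fun j _ => ?_
    ring
  rw [h4]
  field_simp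

end TauGAux

open TauGAux

theorem tau_zero (h : Crit a c) (hx : Br a c x) {κ ε ρ : ℝ} (hp : IsPar c κ ε) (h0 : 0 < ρ)
    (h1 : ρ < 1) (v : Fin n → ℝ) (k : Fin n) {t : ℝ} (ht0 : 0 ≤ t) (ht1 : t ≤ 1) :
    tau a x κ ε ρ v (fun _ _ => 0) 0 k t = (v k : ℂ) := by
  classical
  have hav : ∀ q, av (fun θ => tt a x q k (t * om κ ε (circleMap 0 ρ θ)) *
      (gg (v q) (fun _ => 0) 0 θ : ℂ)) = (dd q k * v q : ℝ) := by
    intro q
    set F : ℂ → ℂ := fun z => tt a x q k (t * om κ ε z) * (v q : ℂ) with hF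
    have hd : DiffContOnCl ℂ F (Metric.ball 0 |ρ|) := by
      refine DifferentiableOn.diffContOnCl (fun z hz => ?_)
      have hz1 : ‖z‖ < 1 := by
        have h2 := Metric.closure_ball_subset_closedBall hz
        rw [Metric.mem_closedBall, dist_zero_right, abs_of_pos h0] at h2
        exact lt_of_le_of_lt h2 h1
      have hmem : (t : ℂ) * om κ ε z ∈ slit c := slit_smul h.pos (om_mem h.pos hp hz1) ht0 ht1
      have hne := one_add_ne hp hz1
      have hom : DifferentiableAt ℂ (fun z => (t : ℂ) * om κ ε z) z := by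
        unfold om
        refine DifferentiableAt.const_mul ?_ _
        refine DifferentiableAt.div ?_ ?_ hne
        · fun_prop
        · fun_prop
      have htt : DifferentiableAt ℂ (tt a x q k) ((t : ℂ) * om κ ε z) :=
        (tt_diff hx q k).differentiableAt ((isOpen_slit c).mem_nhds hmem)
      have hcomp : DifferentiableAt ℂ (fun z => tt a x q k ((t : ℂ) * om κ ε z)) z :=
        DifferentiableAt.comp (g := tt a x q k) (f := fun z => (t : ℂ) * om κ ε z) z htt hom
      exact (hcomp.mul_const _).differentiableWithinAt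
    have h3 := hd.circleAverage
    have h4 : F 0 = (dd q k * v q : ℝ) := by
      rw [hF]
      have h5 : om κ ε 0 = 0 := by
        unfold om
        rw [mul_zero, zero_div]
      change tt a x q k (t * om κ ε 0) * (v q : ℂ) = _
      rw [h5, mul_zero, tt_zero h hx]
      push_cast
      ring
    rw [h4] at h3
    rw [← h3]
    unfold av Real.circleAverage
    congr 1
    refine intervalIntegral.integral_congr fun θ _ => ?_
    have h6 : gg (v q) (fun _ => 0) 0 θ = v q := by
      unfold gg
      simp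
    change tt a x q k (t * om κ ε (circleMap 0 ρ θ)) * (gg (v q) (fun _ => 0) 0 θ : ℂ) =
      F (circleMap 0 ρ θ)
    rw [h6]
  unfold tau
  rw [Finset.sum_congr rfl fun q _ => hav q]
  rw [Finset.sum_eq_single k]
  · unfold dd
    rw [if_pos rfl, one_mul]
  · intro q _ hq
    unfold dd
    rw [if_neg hq, zero_mul, Complex.ofReal_zero]
  · intro hk
    exact absurd (Finset.mem_univ _) hk

theorem tau_gamma (h : Crit a c) (hx : Br a c x) {ρ : ℝ} (h0 : 0 < ρ)
    (h1 : ρ < 1) (v : Fin n → ℝ) (y : Fin n → ℕ → ℝ) (M : ℕ) (k : Fin n) {t : ℝ} (ht0 : 0 ≤ t)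
    (ht1 : t ≤ 1) :
    tau a x c 0 ρ v y M k t = ((v k + (1 / 2) * ∑ j ∈ Finset.Icc 1 M, t ^ j * (c * ρ) ^ j *
      ∑ q, hq a q k j * y q j : ℝ) : ℂ) := by
  classical
  have hc := h.pos
  have hr0 : 0 ≤ t * (c * ρ) := by positivity
  have hrc : t * (c * ρ) < c := by
    have h2 : t * (c * ρ) ≤ 1 * (c * ρ) := mul_le_mul_of_nonneg_right ht1 (by positivity)
    have h3 : c * ρ < c * 1 := mul_lt_mul_of_pos_left h1 hc
    linarith
  have hav : ∀ q, av (fun θ => tt a x q k (t * om c 0 (circleMap 0 ρ θ)) *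
      (gg (v q) (y q) M θ : ℂ)) = ((v q * hq a q k 0 + (1 / 2) * ∑ j ∈ Finset.Icc 1 M,
        y q j * ((t * (c * ρ)) ^ j * hq a q k j) : ℝ) : ℂ) := by
    intro q
    refine av_series hr0 ?_ ?_ (v q) (y q) M
    · have h2 := (tt_hasSum h hx q k (w := ((t * (c * ρ) : ℝ) : ℂ)) (by
        rw [Complex.norm_real, Real.norm_eq_abs, abs_of_nonneg hr0]
        exact hrc)).summable.norm
      refine h2.congr fun m => ?_
      rw [norm_mul, norm_pow, Complex.norm_real, Complex.norm_real, Real.norm_eq_abs,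
        Real.norm_eq_abs, abs_of_nonneg hr0]
    · intro θ
      have h2 : (t : ℂ) * om c 0 (circleMap 0 ρ θ) =
          ((t * (c * ρ) : ℝ) : ℂ) * Complex.exp (θ * Complex.I) := by
        unfold om
        rw [circleMap_zero]
        push_cast
        rw [zero_mul, add_zero, div_one]
        ring
      rw [h2]
      refine tt_hasSum h hx q k ?_
      rw [norm_mul, Complex.norm_exp_ofReal_mul_I, mul_one, Complex.norm_real, Real.norm_eq_abs,
        abs_of_nonneg hr0]
      exact hrc
  unfold tau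
  rw [Finset.sum_congr rfl fun q _ => hav q, ← Complex.ofReal_sum]
  congr 1
  rw [Finset.sum_add_distrib]
  congr 1
  · rw [Finset.sum_eq_single k]
    · unfold hq dd
      rw [if_pos rfl, if_pos rfl, mul_one]
    · intro q _ hqk
      unfold hq dd
      rw [if_pos rfl, if_neg hqk, mul_zero]
    · intro hk
      exact absurd (Finset.mem_univ _) hk
  · rw [← Finset.mul_sum]
    congr 1
    rw [Finset.sum_comm]
    refine Finset.sum_congr rfl fun j _ => ?_
    rw [← mul_pow, Finset.mul_sum]
    refine Finset.sum_congr rfl fun q _ => ?_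
    ring

end P4a177g
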