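import Pool.Agent.Lib.P4a177g.BranchG
import Pool.Agent.Lib.P4a177g.ElG
import Pool.Agent.Lib.P4a177g.TauG
import Pool.Agent.Lib.P4a177g.FunG
import Pool.Agent.Lib.P4a177g.BinG

/-!
# MODULE P4a177g.AbcG: the three inequalities (est. 1.2 h)

PROOF. Take `x` from `exists_br h`. `alpha`: `energy_list` with `κ = 2c`, `ε = 1`, `y = 0`, `M = 0`:
`tau_zero`, so the integrand is `0` for `t ∈ (0, 1)`; `QQ_zero`:
`log (2c) ∑ v^2 ≤ -log ρ ∑ v^2 + lapf a v` for all `ρ < 1`; let `ρ → 1`.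
`beta`: `energy_list` with `κ = 2c`, `ε = 1`, `v = 0`, `M = m`, `y q j = 2 * eta m j / ρ^j * y q`. By `tau_beta` the
integrand is `t^(2m-1) c^(2m) ∑_k (∑_q hq a q k m * y q)^2` with the integral `c^(2m) ∑_k (..)^2 / (2m)`;
`QQ_beta`. So `c^(2m) ∑_k (..)^2 / (2m) ≤ ∑_j (1 + ρ^(2j)) (eta m j)^2 / (ρ^(2j) j) ∑ y^2`; let `ρ → 1`
and use `eta_sum_le`: `≤ 2 / (4 m^2) ∑ y^2`.
`gamma`: `κ = c`, `ε = 0`, `ρ = r / c`, `y q j = 2 r^j ∑_k hq a q k j * v k =: 2 r^j (H_j v)_q`. By `tau_gamma` (`c * ρ = r`)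
`tau_k(t) = v_k + ∑_j t^j r^(2j) ∑_q hq a q k j (H_j v)_q`, so
`∑_k tau_k^2 - ∑ v^2 ≥ 2 ∑_j t^j r^(2j) ∑_k v_k ∑_q hq a q k j (H_j v)_q = 2 ∑_j t^j r^(2j) |H_j v|^2`, and the
integral of the quotient by `t` is `≥ 2 ∑_j r^(2j) |H_j v|^2 / j` (the integrand is a polynomial in `t` for
`t > 0`). `QQ_gamma`; `∑_j (∑_q y q j ^2)/(4j) = ∑_j r^(2j) |H_j v|^2 / j`. `log c + log ρ = log r`.
-/

set_option autoImplicit false

namespace P4a177g

open P4a177f Function MeasureTheory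
open scoped Real

variable {n : ℕ} {a : Fin n → ℝ} {c : ℝ}

namespace AbcGAux

open Filter Topology

/-- A limit for `ρ → 1`. -/
theorem lim_one {f : ℝ → ℝ} (hf : ContinuousAt f 1) {A : ℝ}
    (h : ∀ ρ : ℝ, 0 < ρ → ρ < 1 → A ≤ f ρ) : A ≤ f 1 := by
  have h1 : Tendsto f (𝓝[<] 1) (𝓝 (f 1)) := hf.tendsto.mono_left nhdsWithin_le_nhds
  refine ge_of_tendsto h1 ?_
  filter_upwards [Ioo_mem_nhdsLT (show (0 : ℝ) < 1 by norm_num)] with ρ hρ
  exact h ρ hρ.1 hρ.2

theorem lapf_zero (a : Fin n → ℝ) : lapf a (fun _ => 0) = 0 := by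
  unfold lapf
  simp

theorem re_sum_sq (g : Fin n → ℝ) : (∑ k, ((g k : ℝ) : ℂ) ^ 2).re = ∑ k, g k ^ 2 := by
  rw [Complex.re_sum]
  refine Finset.sum_congr rfl fun k _ => ?_
  rw [← Complex.ofReal_pow, Complex.ofReal_re]

end AbcGAux

open AbcGAux

theorem alpha (h : Crit a c) (v : Fin n → ℝ) (hv : ∑ q, v q = 0) :
    Real.log (2 * c) * ∑ q, v q ^ 2 ≤ lapf a v := by
  obtain ⟨x, hx⟩ := exists_br h
  have key : ∀ ρ : ℝ, 0 < ρ → ρ < 1 →
      Real.log (2 * c) * ∑ q, v q ^ 2 ≤ -Real.log ρ * ∑ q, v q ^ 2 + lapf a v := by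
    intro ρ h0 h1
    have hp : IsPar c (2 * c) 1 := Or.inl ⟨rfl, rfl⟩
    have h2 := energy_list h hx hp h0 h1 v (fun _ _ => 0) 0 hv
    rw [QQ_zero h0 h1 v] at h2
    have h3 : ∫ t in (0 : ℝ)..1,
        ((∑ k, tau a x (2 * c) 1 ρ v (fun _ _ => 0) 0 k t ^ 2).re - ∑ q, v q ^ 2) / t = 0 := by
      have h4 : ∀ t ∈ Set.uIcc (0 : ℝ) 1,
          ((∑ k, tau a x (2 * c) 1 ρ v (fun _ _ => 0) 0 k t ^ 2).re - ∑ q, v q ^ 2) / t = 0 := by
        intro t ht
        rw [Set.uIcc_of_le zero_le_one, Set.mem_Icc] at ht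
        rw [Finset.sum_congr rfl fun k _ => by rw [tau_zero h hx hp h0 h1 v k ht.1 ht.2],
          re_sum_sq, sub_self, zero_div]
      rw [intervalIntegral.integral_congr (g := fun _ => (0 : ℝ)) h4,
        intervalIntegral.integral_zero]
    rw [h3] at h2
    simpa using h2
  have h5 := lim_one (f := fun ρ => -Real.log ρ * ∑ q, v q ^ 2 + lapf a v)
    (((Real.continuousAt_log one_ne_zero).neg.mul continuousAt_const).add continuousAt_const) key
  simpa using h5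

theorem beta (h : Crit a c) {m : ℕ} (hm : 1 ≤ m) (y : Fin n → ℝ) :
    c ^ (2 * m) * ∑ k, (∑ q, hq a q k m * y q) ^ 2 ≤ 1 / (m : ℝ) * ∑ q, y q ^ 2 := by
  obtain ⟨x, hx⟩ := exists_br h
  have hm0 : (0 : ℝ) < m := by exact_mod_cast hm
  set Y : ℝ := ∑ q, y q ^ 2 with hY
  have hY0 : 0 ≤ Y := Finset.sum_nonneg fun q _ => sq_nonneg _
  set B : ℝ := ∑ k, (∑ q, hq a q k m * y q) ^ 2 with hB
  have key : ∀ ρ : ℝ, 0 < ρ → ρ < 1 →
      c ^ (2 * m) * B / (2 * m) ≤ (1 + (ρ ^ (2 * m))⁻¹) * (1 / (4 * (m : ℝ) ^ 2)) * Y := by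
    intro ρ h0 h1
    have hp : IsPar c (2 * c) 1 := Or.inl ⟨rfl, rfl⟩
    set y' : Fin n → ℕ → ℝ := fun q j => 2 * eta m j / ρ ^ j * y q with hy'
    have h2 := energy_list h hx hp h0 h1 (fun _ => 0) y' m (by simp)
    rw [QQ_beta h0 h1 y' m, lapf_zero] at h2
    have h3 : ∫ t in (0 : ℝ)..1,
        ((∑ k, tau a x (2 * c) 1 ρ (fun _ => 0) y' m k t ^ 2).re -
          ∑ q : Fin n, (fun _ => (0 : ℝ)) q ^ 2) / t = c ^ (2 * m) * B / (2 * m) := by
      have h4 : ∀ t ∈ Set.uIcc (0 : ℝ) 1,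
          ((∑ k, tau a x (2 * c) 1 ρ (fun _ => 0) y' m k t ^ 2).re -
            ∑ q : Fin n, (fun _ => (0 : ℝ)) q ^ 2) / t = c ^ (2 * m) * B * t ^ (2 * m - 1) := by
        intro t ht
        rw [Set.uIcc_of_le zero_le_one, Set.mem_Icc] at ht
        rw [Finset.sum_congr rfl fun k _ => by rw [tau_beta h hx h0 h1 y hm k ht.1 ht.2],
          re_sum_sq]
        have h5 : ∑ k, (t ^ m * c ^ m * ∑ q, hq a q k m * y q) ^ 2 =
            t ^ (2 * m) * (c ^ (2 * m) * B) := by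
          rw [hB, Finset.mul_sum, Finset.mul_sum]
          refine Finset.sum_congr rfl fun k _ => ?_
          rw [mul_comm 2 m, pow_mul, pow_mul]
          ring
        rw [h5]
        have h6 : ∑ q : Fin n, (fun _ => (0 : ℝ)) q ^ 2 = 0 := by simp
        rw [h6, sub_zero]
        rcases eq_or_ne t 0 with h7 | h7
        · rw [h7, zero_pow (by omega), zero_pow (by omega)]
          simp
        · have h8 : t ^ (2 * m) = t ^ (2 * m - 1) * t := by
            rw [← pow_succ]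
            congr 1
            omega
          rw [h8]
          field_simp
      rw [intervalIntegral.integral_congr (g := fun t => c ^ (2 * m) * B * t ^ (2 * m - 1)) h4,
        intervalIntegral.integral_const_mul, integral_pow]
      have h9 : 2 * m - 1 + 1 = 2 * m := by omega
      have h10 : ((2 * m - 1 : ℕ) : ℝ) + 1 = 2 * m := by
        have : ((2 * m - 1 : ℕ) : ℝ) + 1 = ((2 * m - 1 + 1 : ℕ) : ℝ) := by push_cast; ring
        rw [this, h9]
        push_cast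
        ring
      rw [h9, h10, one_pow, zero_pow (by omega)]
      ring
    rw [h3] at h2
    have hsq : ∀ j, ∑ q, y' q j ^ 2 = 4 * eta m j ^ 2 / (ρ ^ j) ^ 2 * Y := by
      intro j
      rw [hY, Finset.mul_sum]
      refine Finset.sum_congr rfl fun q _ => ?_
      rw [hy']
      ring
    have h11 : ∑ j ∈ Finset.Icc 1 m, ρ ^ (2 * j) * (∑ q, y' q j ^ 2) / (4 * j) +
        ∑ j ∈ Finset.Icc 1 m, (∑ q, y' q j ^ 2) / (4 * j) ≤
        (1 + (ρ ^ (2 * m))⁻¹) * (1 / (4 * (m : ℝ) ^ 2)) * Y := by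
      rw [← Finset.sum_add_distrib]
      have h12 : ∀ j ∈ Finset.Icc 1 m,
          ρ ^ (2 * j) * (∑ q, y' q j ^ 2) / (4 * j) + (∑ q, y' q j ^ 2) / (4 * j) ≤
          (1 + (ρ ^ (2 * m))⁻¹) * (eta m j ^ 2 / j) * Y := by
        intro j hj
        rw [Finset.mem_Icc] at hj
        have hj0 : (0 : ℝ) < j := by exact_mod_cast hj.1
        rw [hsq]
        have h13 : 0 < ρ ^ j := pow_pos h0 j
        have h14 : ρ ^ (2 * j) = (ρ ^ j) ^ 2 := by rw [mul_comm, pow_mul]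
        have h15 : ((ρ ^ j) ^ 2)⁻¹ ≤ (ρ ^ (2 * m))⁻¹ := by
          rw [← h14]
          refine inv_anti₀ (pow_pos h0 _) ?_
          exact pow_le_pow_of_le_one h0.le h1.le (by omega)
        have e : ρ ^ (2 * j) * (4 * eta m j ^ 2 / (ρ ^ j) ^ 2 * Y) / (4 * j) +
            4 * eta m j ^ 2 / (ρ ^ j) ^ 2 * Y / (4 * j) =
            (1 + ((ρ ^ j) ^ 2)⁻¹) * (eta m j ^ 2 / j) * Y := by
          rw [h14]
          field_simp
        rw [e]
        refine mul_le_mul_of_nonneg_right ?_ hY0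
        refine mul_le_mul_of_nonneg_right ?_ (by positivity)
        linarith
      refine (Finset.sum_le_sum h12).trans ?_
      rw [← Finset.sum_mul, ← Finset.mul_sum]
      refine mul_le_mul_of_nonneg_right ?_ hY0
      refine mul_le_mul_of_nonneg_left (eta_sum_le hm) ?_
      have : 0 < ρ ^ (2 * m) := pow_pos h0 _
      positivity
    have h16 : -Real.log ρ * ∑ q : Fin n, (fun _ => (0 : ℝ)) q ^ 2 = 0 := by simp
    rw [h16] at h2
    linarith
  have h5 := lim_one (f := fun ρ => (1 + (ρ ^ (2 * m))⁻¹) * (1 / (4 * (m : ℝ) ^ 2)) * Y)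
    (by
      refine ((continuousAt_const.add (ContinuousAt.inv₀ (continuousAt_id.pow _) ?_)).mul
        continuousAt_const).mul continuousAt_const
      simp) key
  rw [one_pow, inv_one] at h5
  rw [div_le_iff₀ (by positivity)] at h5
  refine h5.trans (le_of_eq ?_)
  field_simp
  ring

theorem gamma (h : Crit a c) {r : ℝ} (h0 : 0 < r) (hr : r < c) (v : Fin n → ℝ)
    (hv : ∑ q, v q = 0) (M : ℕ) :
    ∑ j ∈ Finset.Icc 1 M, r ^ (2 * j) * (∑ q, (∑ k, hq a q k j * v k) ^ 2) / (j : ℝ) ≤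
      lapf a v - Real.log r * ∑ q, v q ^ 2 := by
  obtain ⟨x, hx⟩ := exists_br h
  have hc := h.pos
  set ρ : ℝ := r / c with hρ
  have hρ0 : 0 < ρ := div_pos h0 hc
  have hρ1 : ρ < 1 := (div_lt_one hc).2 hr
  have hcρ : c * ρ = r := by
    rw [hρ]
    field_simp
  have hp : IsPar c c 0 := Or.inr ⟨rfl, rfl⟩
  set z : ℕ → Fin n → ℝ := fun j q => ∑ k, hq a q k j * v k with hz
  set y : Fin n → ℕ → ℝ := fun q j => 2 * r ^ j * z j q with hy
  have h2 := energy_list h hx hp hρ0 hρ1 v y M hv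
  rw [QQ_gamma] at h2
  -- the integrand
  set U : Fin n → ℝ → ℝ := fun k t => ∑ j ∈ Finset.Icc 1 M, t ^ (j - 1) * (r ^ (2 * j) *
    ∑ q, hq a q k j * z j q) with hU
  have hUc : ∀ k, Continuous (U k) := by
    intro k
    rw [hU]
    fun_prop
  have hint : ∫ t in (0 : ℝ)..1,
      ((∑ k, tau a x c 0 ρ v y M k t ^ 2).re - ∑ q, v q ^ 2) / t =
      ∫ t in (0 : ℝ)..1, (2 * ∑ k, v k * U k t + t * ∑ k, U k t ^ 2) := by
    rw [intervalIntegral.integral_of_le zero_le_one, intervalIntegral.integral_of_le zero_le_one]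
    refine setIntegral_congr_fun measurableSet_Ioc fun t ht => ?_
    rw [Set.mem_Ioc] at ht
    have h3 : ∀ k, tau a x c 0 ρ v y M k t = ((v k + t * U k t : ℝ) : ℂ) := by
      intro k
      rw [tau_gamma h hx hρ0 hρ1 v y M k ht.1.le ht.2]
      congr 2
      rw [hU]
      simp only
      rw [Finset.mul_sum, Finset.mul_sum]
      refine Finset.sum_congr rfl fun j hj => ?_
      rw [Finset.mem_Icc] at hj
      rw [hcρ]
      have e1 : ∑ q, hq a q k j * y q j = 2 * r ^ j * ∑ q, hq a q k j * z j q := by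
        rw [hy, Finset.mul_sum]
        refine Finset.sum_congr rfl fun q _ => ?_
        ring
      have e2 : t ^ j = t * t ^ (j - 1) := by
        rw [← pow_succ']
        congr 1
        omega
      rw [e1, e2, mul_comm 2 j, pow_mul]
      ring
    simp only [h3]
    rw [re_sum_sq]
    have h4 : ∑ k, (v k + t * U k t) ^ 2 - ∑ k, v k ^ 2 =
        (2 * ∑ k, v k * U k t + t * ∑ k, U k t ^ 2) * t := by
      rw [← Finset.sum_sub_distrib, Finset.mul_sum, Finset.mul_sum, ← Finset.sum_add_distrib,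
        Finset.sum_mul]
      refine Finset.sum_congr rfl fun k _ => ?_
      ring
    rw [h4, mul_div_assoc, div_self ht.1.ne', mul_one]
  have hlow : 2 * ∑ j ∈ Finset.Icc 1 M, r ^ (2 * j) * (∑ q, z j q ^ 2) / (j : ℝ) ≤
      ∫ t in (0 : ℝ)..1, (2 * ∑ k, v k * U k t + t * ∑ k, U k t ^ 2) := by
    have hvU : ∀ t, ∑ k, v k * U k t =
        ∑ j ∈ Finset.Icc 1 M, (r ^ (2 * j) * ∑ q, z j q ^ 2) * t ^ (j - 1) := by
      intro t
      rw [hU]
      simp only [Finset.mul_sum]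
      rw [Finset.sum_comm]
      refine Finset.sum_congr rfl fun j _ => ?_
      rw [Finset.sum_mul]
      rw [Finset.sum_comm]
      refine Finset.sum_congr rfl fun q _ => ?_
      have e : z j q ^ 2 = ∑ k, hq a q k j * v k * z j q := by
        rw [← Finset.sum_mul, sq]
      rw [e, Finset.mul_sum, Finset.sum_mul]
      refine Finset.sum_congr rfl fun k _ => ?_
      ring
    have hfirst : ∫ t in (0 : ℝ)..1, 2 * ∑ k, v k * U k t =
        2 * ∑ j ∈ Finset.Icc 1 M, r ^ (2 * j) * (∑ q, z j q ^ 2) / (j : ℝ) := by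
      rw [intervalIntegral.integral_const_mul]
      congr 1
      simp only [hvU]
      rw [intervalIntegral.integral_finsetSum]
      · refine Finset.sum_congr rfl fun j hj => ?_
        rw [Finset.mem_Icc] at hj
        rw [intervalIntegral.integral_const_mul, integral_pow]
        have e1 : j - 1 + 1 = j := by omega
        have e2 : ((j - 1 : ℕ) : ℝ) + 1 = j := by
          have : ((j - 1 : ℕ) : ℝ) + 1 = ((j - 1 + 1 : ℕ) : ℝ) := by push_cast; ring
          rw [this, e1]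
        rw [e1, e2, one_pow, zero_pow (by omega)]
        ring
      · intro j _
        exact (Continuous.intervalIntegrable (by fun_prop) _ _)
    rw [← hfirst]
    refine intervalIntegral.integral_mono_on zero_le_one
      (Continuous.intervalIntegrable (by fun_prop) _ _)
      (Continuous.intervalIntegrable (by fun_prop) _ _) fun t ht => ?_
    have h5 : 0 ≤ t * ∑ k, U k t ^ 2 :=
      mul_nonneg ht.1 (Finset.sum_nonneg fun k _ => sq_nonneg _)
    linarith
  have hysq : ∑ j ∈ Finset.Icc 1 M, (∑ q, y q j ^ 2) / (4 * j) =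
      ∑ j ∈ Finset.Icc 1 M, r ^ (2 * j) * (∑ q, z j q ^ 2) / (j : ℝ) := by
    refine Finset.sum_congr rfl fun j hj => ?_
    have e : ∑ q, y q j ^ 2 = 4 * (r ^ (2 * j) * ∑ q, z j q ^ 2) := by
      rw [hy, Finset.mul_sum, Finset.mul_sum]
      refine Finset.sum_congr rfl fun q _ => ?_
      rw [mul_comm 2 j, pow_mul]
      ring
    rw [e, mul_div_mul_left _ _ (by norm_num : (4 : ℝ) ≠ 0)]
  rw [hint, hysq, hρ, Real.log_div h0.ne' hc.ne'] at h2
  linarith

/-- The transposed version of `beta`. -/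
theorem beta' (h : Crit a c) {m : ℕ} (hm : 1 ≤ m) (v : Fin n → ℝ) :
    c ^ (2 * m) * ∑ q, (∑ k, hq a q k m * v k) ^ 2 ≤ 1 / (m : ℝ) * ∑ q, v q ^ 2 := by
  have hc := h.pos
  set z : Fin n → ℝ := fun q => ∑ k, hq a q k m * v k with hz
  set S : ℝ := ∑ q, z q ^ 2 with hS
  have hS0 : 0 ≤ S := Finset.sum_nonneg fun q _ => sq_nonneg _
  have hV0 : 0 ≤ ∑ q, v q ^ 2 := Finset.sum_nonneg fun q _ => sq_nonneg _
  have hm0 : (0 : ℝ) < m := by exact_mod_cast hm
  have h1 := beta h hm z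
  have h2 : S = ∑ k, v k * ∑ q, hq a q k m * z q := by
    rw [hS]
    simp only [Finset.mul_sum]
    rw [Finset.sum_comm]
    refine Finset.sum_congr rfl fun q _ => ?_
    have e : z q ^ 2 = ∑ k, hq a q k m * v k * z q := by
      rw [← Finset.sum_mul, sq]
    rw [e]
    refine Finset.sum_congr rfl fun k _ => ?_
    ring
  have h3 : S ^ 2 ≤ (∑ k, v k ^ 2) * ∑ k, (∑ q, hq a q k m * z q) ^ 2 := by
    nth_rewrite 1 [h2]
    exact Finset.sum_mul_sq_le_sq_mul_sq _ _ _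
  have hcm : 0 < c ^ (2 * m) := pow_pos hc _
  have h4 : c ^ (2 * m) * S ^ 2 ≤ (∑ k, v k ^ 2) * (1 / (m : ℝ) * S) := by
    calc c ^ (2 * m) * S ^ 2 ≤
          c ^ (2 * m) * ((∑ k, v k ^ 2) * ∑ k, (∑ q, hq a q k m * z q) ^ 2) :=
          mul_le_mul_of_nonneg_left h3 hcm.le
      _ = (∑ k, v k ^ 2) * (c ^ (2 * m) * ∑ k, (∑ q, hq a q k m * z q) ^ 2) := by ring
      _ ≤ _ := mul_le_mul_of_nonneg_left h1 hV0
  rcases hS0.eq_or_lt with h5 | h5
  · rw [← h5, mul_zero]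
    positivity
  · have h6 : c ^ (2 * m) * S * S ≤ 1 / (m : ℝ) * (∑ q, v q ^ 2) * S := by
      calc c ^ (2 * m) * S * S = c ^ (2 * m) * S ^ 2 := by ring
        _ ≤ (∑ k, v k ^ 2) * (1 / (m : ℝ) * S) := h4
        _ = _ := by ring
    exact le_of_mul_le_mul_right h6 h5

/-- The entries. -/
theorem abs_hq_le (h : Crit a c) {m : ℕ} (hm : 1 ≤ m) (q k : Fin n) :
    |hq a q k m| ≤ (1 / c) ^ m := by
  classical
  have hc := h.pos
  have hm1 : (1 : ℝ) ≤ m := by exact_mod_cast hm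
  have h1 := beta' h hm (fun l => if l = k then 1 else 0)
  have h2 : ∀ q', ∑ l, hq a q' l m * (if l = k then (1 : ℝ) else 0) = hq a q' k m := by
    intro q'
    rw [Finset.sum_eq_single k (fun l _ hl => by rw [if_neg hl, mul_zero])
      (fun hk => absurd (Finset.mem_univ k) hk), if_pos rfl, mul_one]
  have h3 : ∑ l : Fin n, (if l = k then (1 : ℝ) else 0) ^ 2 = 1 := by
    rw [Finset.sum_eq_single k (fun l _ hl => by rw [if_neg hl]; norm_num)
      (fun hk => absurd (Finset.mem_univ k) hk), if_pos rfl, one_pow]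
  simp only [h2, h3] at h1
  have h4 : hq a q k m ^ 2 ≤ ∑ q', hq a q' k m ^ 2 :=
    Finset.single_le_sum (f := fun q' => hq a q' k m ^ 2) (fun q' _ => sq_nonneg _)
      (Finset.mem_univ q)
  have hcm : 0 < c ^ (2 * m) := pow_pos hc _
  have h5 : c ^ (2 * m) * hq a q k m ^ 2 ≤ 1 := by
    refine ((mul_le_mul_of_nonneg_left h4 hcm.le).trans h1).trans ?_
    rw [mul_one]
    exact (div_le_one (by linarith)).2 hm1
  have h6 : (c ^ m * |hq a q k m|) ^ 2 ≤ 1 ^ 2 := by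
    rw [mul_pow, sq_abs, ← pow_mul, mul_comm m 2, one_pow]
    exact h5
  have h7 : c ^ m * |hq a q k m| ≤ 1 := by
    have := abs_le_of_sq_le_sq' h6 zero_le_one
    exact this.2
  rw [one_div, inv_pow, ← one_div, le_div_iff₀ (pow_pos hc m), mul_comm]
  exact h7

end P4a177g
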