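import Pool.Agent.Lib.P4a177g.PolyG

/-!
# MODULE P4a177g.BranchG: the inverse functions on the slit plane (est. 1.4 h)

PROOF. Let `p = ∏_k (X - C a_k) : ℂ[X]`, so `p.eval x = pf a x` and `p.derivative.eval x = pd a x`
(`pf_hasDerivAt`, `Polynomial.hasDerivAt`, uniqueness). Mathlib: `Polynomial.isCoveringMapOn_eval p`
(Mathlib/Analysis/Complex/CoveringMap.lean): `p.eval` is a covering map on the complement `s` of the
critical values, and `slit c ⊆ s` by `pd_ne`. The subtype `slit c` is contractible (it is star convex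
with respect to `0`: `slit_smul`; `StarConvex.contractibleSpace`), so simply connected, and it is open in
`ℂ` (`isOpen_slit`), so locally path connected (`IsOpen.locPathConnectedSpace` or similar). So
`IsCoveringMapOn.existsUnique_continuousMap_lifts` (Mathlib/Topology/Homotopy/Lifting.lean) gives for every
`q` a unique continuous `F_q : C(slit c, ℂ)` with `p.eval (F_q w) = w` and `F_q 0 = a_q`
(`pf a (a q) = 0`). Let `x q w = F_q w` for `w ∈ slit c` and `0` outside. `der`: `HasDerivAt.of_local_left_inverse`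
(`slit c` is a neighbourhood of `w`). `ne`: `pd_ne`. `inj`: if `F_q w = F_q' w` at one point `w` then
both are lifts with the same value at the base point `w`, so they are equal (uniqueness with `a₀ = w`), so
`a_q = a_q'`. `conj`: `w ↦ conj (F_q (conj w))` is a continuous lift with the value `a_q` at `0`
(`pf a (conj x) = conj (pf a x)`), so it is `F_q`.
-/

set_option autoImplicit false

namespace P4a177g

open P4a177f Function

variable {n : ℕ} {a : Fin n → ℝ} {c : ℝ}

namespace BranchGAux

/-- the polynomial `∏_k (X - a_k)` -/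
noncomputable def pp (a : Fin n → ℝ) : Polynomial ℂ :=
  ∏ k, (Polynomial.X - Polynomial.C (a k : ℂ))

theorem pp_eval (a : Fin n → ℝ) (x : ℂ) : (pp a).eval x = pf a x := by
  unfold pp pf
  rw [Polynomial.eval_prod]
  simp

theorem pp_deriv (a : Fin n → ℝ) (x : ℂ) : (pp a).derivative.eval x = pd a x := by
  have h1 : HasDerivAt (fun y => (pp a).eval y) ((pp a).derivative.eval x) x := (pp a).hasDerivAt x
  have h2 : (fun y => (pp a).eval y) = pf a := funext (pp_eval a)
  rw [h2] at h1
  exact h1.unique (pf_hasDerivAt a x)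

theorem slit_sub (h : Crit a c) {w : ℂ} (hw : w ∈ slit c) :
    w ∈ ((pp a).eval '' {k | (pp a).derivative.eval k = 0})ᶜ := by
  rintro ⟨x, hx, hxw⟩
  have hxw' : pf a x = w := (pp_eval a x).symm.trans hxw
  rw [← hxw'] at hw
  exact pd_ne h hw (by rw [← pp_deriv]; exact hx)

theorem contr (hc : 0 < c) : ContractibleSpace (slit c) := by
  have h : StarConvex ℝ (0:ℂ) (slit c) := by
    intro w hw s t hs ht hst
    have h1 := slit_smul hc hw ht (by linarith)
    rw [smul_zero, zero_add, Complex.real_smul]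
    exact h1
  exact h.contractibleSpace ⟨0, zero_mem_slit hc⟩

theorem lifts (h : Crit a c) (w0 : slit c) (e0 : ℂ) (he : pf a e0 = w0) :
    ∃! F : C(slit c, ℂ), F w0 = e0 ∧ ∀ w, pf a (F w) = w := by
  have := contr h.pos
  have : LocallyPathConnectedSpace (slit c) := (isOpen_slit c).locallyPathConnectedSpace
  have h1 := (Polynomial.isCoveringMapOn_eval (pp a)).existsUnique_continuousMap_lifts
    (A := slit c) (⟨Subtype.val, continuous_subtype_val⟩ : C(slit c, ℂ)) (a₀ := w0) (e₀ := e0)
    ((pp_eval a e0).trans he) (fun w => slit_sub h w.2)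
  obtain ⟨F, ⟨hF1, hF2⟩, hF3⟩ := h1
  refine ⟨F, ⟨hF1, fun w => ?_⟩, fun G hG => hF3 G ⟨hG.1, ?_⟩⟩
  · have h2 := congrFun hF2 w
    rw [← pp_eval]
    exact h2
  · funext w
    have h2 := hG.2 w
    rw [← pp_eval] at h2
    exact h2

theorem lift_unique (h : Crit a c) {F G : C(slit c, ℂ)} (hF : ∀ w, pf a (F w) = w)
    (hG : ∀ w, pf a (G w) = w) {w0 : slit c} (h0 : F w0 = G w0) : F = G := by
  obtain ⟨E, _, hE⟩ := lifts h w0 (F w0) (hF w0)
  rw [hE F ⟨rfl, hF⟩, hE G ⟨h0.symm, hG⟩]

theorem pf_conj (a : Fin n → ℝ) (x : ℂ) : pf a (starRingEnd ℂ x) = starRingEnd ℂ (pf a x) := by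
  unfold pf
  rw [map_prod]
  refine Finset.prod_congr rfl fun k _ => ?_
  rw [map_sub, Complex.conj_ofReal]

theorem pf_root (a : Fin n → ℝ) (q : Fin n) : pf a (a q) = 0 := by
  unfold pf
  exact Finset.prod_eq_zero (Finset.mem_univ q) (sub_self _)

end BranchGAux

open BranchGAux in
open Classical in
theorem exists_br (h : Crit a c) : ∃ x : Fin n → ℂ → ℂ, Br a c x := by
  have hz : (0:ℂ) ∈ slit c := zero_mem_slit h.pos
  choose F hF _ using fun q : Fin n => lifts h ⟨0, hz⟩ (a q : ℂ) (pf_root a q)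
  have hx : ∀ q, ∀ w (hw : w ∈ slit c),
      (fun (q : Fin n) (w : ℂ) => if hw : w ∈ slit c then F q ⟨w, hw⟩ else 0) q w = F q ⟨w, hw⟩ :=
    fun q w hw => dif_pos hw
  set x : Fin n → ℂ → ℂ := fun (q : Fin n) (w : ℂ) => if hw : w ∈ slit c then F q ⟨w, hw⟩ else 0
  have eqn : ∀ q, ∀ w ∈ slit c, pf a (x q w) = w := by
    intro q w hw
    rw [hx q w hw]
    exact (hF q).2 ⟨w, hw⟩
  have ne : ∀ q, ∀ w ∈ slit c, pd a (x q w) ≠ 0 := by
    intro q w hw
    apply pd_ne h
    rw [eqn q w hw]
    exact hw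
  have cont : ∀ q, ContinuousOn (x q) (slit c) := by
    intro q
    rw [continuousOn_iff_continuous_domRestrict]
    have h1 : (slit c).domRestrict (x q) = F q := by
      funext w
      exact hx q w w.2
    rw [h1]
    exact (F q).continuous
  refine ⟨x, ⟨eqn, fun q => ?_, fun q w hw => ?_, ne, fun q q' w hw he => ?_, fun q w hw => ?_⟩⟩
  · rw [hx q 0 hz]
    exact (hF q).1
  · have hnhds : slit c ∈ nhds w := (isOpen_slit c).mem_nhds hw
    apply HasDerivAt.of_local_left_inverse ((cont q).continuousAt hnhds) (pf_hasDerivAt a _)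
      (ne q w hw)
    filter_upwards [hnhds] with y hy
    exact eqn q y hy
  · rw [hx q w hw, hx q' w hw] at he
    have h1 : F q = F q' := lift_unique h (hF q).2 (hF q').2 he
    have h2 : (a q : ℂ) = a q' := by rw [← (hF q).1, ← (hF q').1, h1]
    exact h.inj (Complex.ofReal_injective h2)
  · let G : C(slit c, ℂ) := ⟨fun w => starRingEnd ℂ (F q ⟨starRingEnd ℂ w.1, slit_conj w.2⟩),
      Complex.continuous_conj.comp ((F q).continuous.comp
        ((Complex.continuous_conj.comp continuous_subtype_val).subtype_mk _))⟩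
    have hG : ∀ w, pf a (G w) = w := by
      intro w
      show pf a (starRingEnd ℂ (F q ⟨starRingEnd ℂ w.1, slit_conj w.2⟩)) = w
      rw [pf_conj, (hF q).2]
      exact Complex.conj_conj _
    have h0 : F q ⟨0, hz⟩ = G ⟨0, hz⟩ := by
      show F q ⟨0, hz⟩ = starRingEnd ℂ (F q ⟨starRingEnd ℂ 0, slit_conj hz⟩)
      have h1 : (⟨starRingEnd ℂ 0, slit_conj hz⟩ : slit c) = ⟨0, hz⟩ := Subtype.ext (map_zero _)
      rw [h1, (hF q).1, Complex.conj_ofReal]
    have h1 : F q = G := lift_unique h (hF q).2 hG h0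
    rw [hx q _ (slit_conj hw), hx q w hw]
    have h2 : F q ⟨w, hw⟩ = starRingEnd ℂ (F q ⟨starRingEnd ℂ w, slit_conj hw⟩) := by
      conv_lhs => rw [h1]
      rfl
    rw [h2, Complex.conj_conj]

end P4a177g
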