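import Pool.Agent.Lib.P4a177g.GoodG
import Pool.Agent.Lib.P4a177f.CritF
import Pool.Agent.Lib.P4a177e.SmoothE
import Pool.Agent.Lib.P4a177f.SmoothF

/-!
# The condition `Above`

PROOF. `exists_crit`: the polynomial `f_s' = ∑_i ∏_{j ≠ i} (X - a_{s,j})` has the degree `A.m s ≥ 1` (leading
coefficient `A.m s + 1`), so it has a complex root, and its roots form a finite set; let `c s` be the
minimum of `‖f_s(x)‖` over the roots, attained at `x s`. `c s > 0` as `f_s` and `f_s'` have no common root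
(`f_s'(a_{s,i}) = ∏_{j ≠ i} (a_{s,i} - a_{s,j}) ≠ 0`). `hA` for this `x` is the last claim. (`pd`, `pf`, `pe` of
`aR A s` are these polynomials: `Complex.ofReal_intCast`.)
`smoothG`: as `P4a177e.smooth_of_gap`, `P4a177f.smoothF` (lemmas `SmoothEAux`): at a singular point
`f_s'(x_s) = 0` for all `s` and `N ∏ f_s(x_s) = 1`; so `1 = ‖N ∏ f_s(x_s)‖ > 1` by `hA`.
`above_of_gap`: `crit_boundF`: `‖f_s(x_s)‖ ≥ RR (g s) (A.m s + 1) = g^(m+1) 2^(m-3) / 4` if `A.m s ≥ 1`
(`∑ 1/(x - a_i) = f_s'/f_s = 0`, `x` is not a root of `f_s`); if some `A.m s = 0` then `f_s' = 1` and there is nothing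
to prove; `1 < N ∏ RR` by `hbig`.
-/

set_option autoImplicit false

namespace P4a177g

open P4a177h P4a177e P4a177f Function
open scoped Real

variable {d : ℕ}

namespace CritGAux

open SmoothEAux

/-- A root of the derivative is not one of the points of the list. -/
theorem ne_of_der (A : Fam d) (s : Fin (d + 2)) (x : ℂ)
    (hx : ∑ i, ∏ j ∈ Finset.univ.erase i, (x - (A.a s j : ℂ)) = 0) (i : Fin (A.m s + 1)) :
    x ≠ (A.a s i : ℂ) := by
  rintro rfl
  rw [Finset.sum_eq_single i] at hx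
  · obtain ⟨j, hj, h⟩ := Finset.prod_eq_zero_iff.1 hx
    have h1 : A.a s i = A.a s j := by exact_mod_cast sub_eq_zero.1 h
    exact (Finset.ne_of_mem_erase hj) (A.inj s h1).symm
  · intro k _ hki
    exact Finset.prod_eq_zero (Finset.mem_erase.2 ⟨Ne.symm hki, Finset.mem_univ i⟩)
      (sub_self _)
  · intro h
    exact absurd (Finset.mem_univ i) h

/-- The derivative of the polynomial number `s`. -/
noncomputable def dp (A : Fam d) (s : Fin (d + 2)) : Polynomial ℂ :=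
  (Polynomial.derivative (A.pol s)).map (algebraMap ℚ ℂ)

theorem eval_dp (A : Fam d) (s : Fin (d + 2)) (x : ℂ) :
    (dp A s).eval x = ∑ i, ∏ j ∈ Finset.univ.erase i, (x - (A.a s j : ℂ)) := by
  rw [← aeval_dpol A s x, dp, Polynomial.eval_map_algebraMap]

theorem degree_dp (A : Fam d) (s : Fin (d + 2)) (hm : 1 ≤ A.m s) : (dp A s).degree ≠ 0 ∧
    dp A s ≠ 0 := by
  have h1 : (Polynomial.derivative (A.pol s)).degree = ((A.pol s).natDegree - 1 : ℕ) :=
    Polynomial.degree_derivative (by rw [A.pol_natDegree s]; omega)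
  rw [A.pol_natDegree s, Nat.add_sub_cancel] at h1
  have h2 : (dp A s).degree = (A.m s : ℕ) := by
    rw [dp, Polynomial.degree_map, h1]
  constructor
  · rw [h2]
    exact_mod_cast (by omega : A.m s ≠ 0)
  · intro h
    rw [h, Polynomial.degree_zero] at h2
    exact absurd h2 (by simp)

/-- The least absolute value of a critical value is attained. -/
theorem exists_min (A : Fam d) (s : Fin (d + 2)) (hm : 1 ≤ A.m s) :
    ∃ x : ℂ, (∑ i, ∏ j ∈ Finset.univ.erase i, (x - (A.a s j : ℂ)) = 0) ∧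
      ∀ y : ℂ, (∑ i, ∏ j ∈ Finset.univ.erase i, (y - (A.a s j : ℂ)) = 0) →
        ‖∏ i, (x - (A.a s i : ℂ))‖ ≤ ‖∏ i, (y - (A.a s i : ℂ))‖ := by
  classical
  obtain ⟨h1, h2⟩ := degree_dp A s hm
  obtain ⟨x0, hx0⟩ := IsAlgClosed.exists_root (dp A s) h1
  have hmem : ∀ y : ℂ, y ∈ (dp A s).roots.toFinset ↔
      ∑ i, ∏ j ∈ Finset.univ.erase i, (y - (A.a s j : ℂ)) = 0 := by
    intro y
    rw [Multiset.mem_toFinset, Polynomial.mem_roots h2, Polynomial.IsRoot.def, eval_dp]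
  obtain ⟨x, hx, hmin⟩ := Finset.exists_min_image (dp A s).roots.toFinset
    (fun y => ‖∏ i, (y - (A.a s i : ℂ))‖)
    ⟨x0, (hmem x0).2 (by rw [← eval_dp]; exact hx0)⟩
  exact ⟨x, (hmem x).1 hx, fun y hy => hmin y ((hmem y).2 hy)⟩

theorem pf_eq (A : Fam d) (s : Fin (d + 2)) (x : ℂ) :
    pf (aR A s) x = ∏ i, (x - (A.a s i : ℂ)) := by
  unfold pf aR
  simp only [Complex.ofReal_intCast]

theorem pd_eq (A : Fam d) (s : Fin (d + 2)) (x : ℂ) :
    pd (aR A s) x = ∑ i, ∏ j ∈ Finset.univ.erase i, (x - (A.a s j : ℂ)) := by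
  unfold pd pe aR
  simp only [Complex.ofReal_intCast]

end CritGAux

open CritGAux SmoothEAux

theorem exists_crit (A : Fam d) {N : ℕ} (hm : ∀ s, 1 ≤ A.m s) (hA : Above A N) :
    ∃ c : Fin (d + 2) → ℝ, (∀ s, Crit (aR A s) (c s)) ∧ 1 < (N : ℝ) * ∏ s, c s := by
  choose x hx hmin using fun s => exists_min A s (hm s)
  refine ⟨fun s => ‖∏ i, (x s - (A.a s i : ℂ))‖, fun s => ?_, ?_⟩
  · refine ⟨?_, ?_, ?_, ?_⟩
    · have := hm s
      omega
    · intro i j hij
      apply A.inj s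
      have h : (A.a s i : ℝ) = (A.a s j : ℝ) := hij
      exact_mod_cast h
    · rw [norm_pos_iff, Finset.prod_ne_zero_iff]
      intro i _
      exact sub_ne_zero.2 (ne_of_der A s (x s) (hx s) i)
    · intro y hy
      rw [pf_eq]
      rw [pd_eq] at hy
      exact hmin s y hy
  · have h := hA x hx
    simp only [norm_prod]
    exact h

theorem smoothG (A : Fam d) {N : ℕ} (hN : 1 ≤ N) (hA : Above A N) : Smooth A N := by
  intro x hx
  by_contra hcon
  push Not at hcon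
  rw [A.aeval_eqn N x, sub_eq_zero] at hx
  have hP0 : ∏ s, Polynomial.aeval (x s) (A.pol s) ≠ 0 := fun h => by
    rw [h, mul_zero] at hx; exact zero_ne_one hx
  have hN0 : (N : ℂ) ≠ 0 := fun h => by rw [h, zero_mul] at hx; exact zero_ne_one hx
  have hfac : ∀ t, Polynomial.aeval (x t) (A.pol t) ≠ 0 := fun t =>
    (Finset.prod_ne_zero_iff.1 hP0) t (Finset.mem_univ t)
  have hroot : ∀ s, Polynomial.aeval (x s) (Polynomial.derivative (A.pol s)) = 0 := by
    intro s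
    have h1 := hcon s
    rw [A.aeval_pderiv N x s] at h1
    rcases mul_eq_zero.1 h1 with h2 | h2
    · exact absurd h2 hN0
    · rcases mul_eq_zero.1 h2 with h3 | h3
      · exact absurd h3 (Finset.prod_ne_zero_iff.2 (fun t _ => hfac t))
      · exact h3
  have h1 : (N : ℝ) * ∏ s, ‖Polynomial.aeval (x s) (A.pol s)‖ = 1 := by
    have h2 := congrArg norm hx
    rw [norm_mul, norm_prod, norm_one, Complex.norm_natCast] at h2
    exact h2
  have h2 := hA x fun s => by rw [← aeval_dpol A s (x s)]; exact hroot s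
  have h3 : ∀ s, ‖Polynomial.aeval (x s) (A.pol s)‖ = ∏ i, ‖x s - (A.a s i : ℂ)‖ := fun s => by
    rw [aeval_pol, norm_prod]
  rw [Finset.prod_congr rfl fun s _ => h3 s] at h1
  linarith

theorem above_of_gap (A : Fam d) (g : Fin (d + 2) → ℕ) {N : ℕ} (hg : ∀ s, 1 ≤ g s)
    (hgap : ∀ s i j, i ≠ j → (g s : ℤ) ≤ |A.a s i - A.a s j|)
    (hbig : 4 ^ (d + 2) < N * ∏ s, (g s ^ (A.m s + 1) * 2 ^ (A.m s - 3))) : Above A N := by
  intro x hx
  have hb : ∀ s, RR (g s) (A.m s + 1) ≤ ∏ i, ‖x s - (A.a s i : ℂ)‖ := by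
    intro s
    have h2 := ne_of_der A s (x s) (hx s)
    have h1 : ∏ i, (x s - (A.a s i : ℂ)) ≠ 0 :=
      Finset.prod_ne_zero_iff.2 fun i _ => sub_ne_zero.2 (h2 i)
    have h3 := hx s
    rw [← SmoothEAux.sum_inv_eq A s (x s) h2] at h3
    have h4 : ∑ i, 1 / (x s - (A.a s i : ℂ)) = 0 := (mul_eq_zero.1 h3).resolve_right h1
    have hm : 1 ≤ A.m s := by
      by_contra hm
      exact SmoothEAux.sum_ne_zero (A.m s) (A.a s) (x s) (by omega) h2 h4
    rw [← norm_prod]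
    exact crit_boundF hm (g s) (hg s) (A.a s) (hgap s) (x s) h2 h4
  have h2 : ∏ s, RR (g s) (A.m s + 1) ≤ ∏ s, ∏ i, ‖x s - (A.a s i : ℂ)‖ :=
    Finset.prod_le_prod (fun s _ => by rw [SmoothFAux.rr_eq]; positivity) (fun s _ => hb s)
  have h3 : ∏ s, RR (g s) (A.m s + 1) =
      ((∏ s, (g s ^ (A.m s + 1) * 2 ^ (A.m s - 3)) : ℕ) : ℝ) / 4 ^ (d + 2) := by
    rw [Finset.prod_congr rfl fun s _ => SmoothFAux.rr_eq (g s) (A.m s), Finset.prod_div_distrib,
      Finset.prod_const, Finset.card_univ, Fintype.card_fin, Nat.cast_prod]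
  have h5 : ((4 ^ (d + 2) : ℕ) : ℝ) <
      ((N * ∏ s, (g s ^ (A.m s + 1) * 2 ^ (A.m s - 3)) : ℕ) : ℝ) := Nat.cast_lt.2 hbig
  have h6 : 1 < (N : ℝ) * ∏ s, RR (g s) (A.m s + 1) := by
    rw [h3, ← mul_div_assoc, lt_div_iff₀ (by positivity), one_mul]
    rw [Nat.cast_mul, Nat.cast_pow, Nat.cast_ofNat] at h5
    exact h5
  exact h6.trans_le (mul_le_mul_of_nonneg_left h2 (Nat.cast_nonneg _))

end P4a177g
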