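import Pool.Agent.Lib.P4a177f.Defs

/-!
# The members of the families `N * ∏_s ∏_i (x_s - a_{s,i}) = 1` above the conifold: definitions

For a list `a` of `n ≥ 2` real numbers let `f(x) = ∏_k (x - a_k)` (`pf`), `f'` (`pd`), and `c > 0` a
lower bound of the absolute values of the critical values of `f` (`Crit`). The critical points are
real, so there are inverse functions `x_q(w)`, `x_q(0) = a_q`, on the complex plane slit along the
real numbers `w` with `|w| ≥ c` (`slit`, `Br`). We consider the matrix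
`T(w)_{q,k} = w x_q'(w) / (x_q(w) - a_k)` (`tt`); its Taylor coefficients at `0` are the matrices
`H_m = (hq a q k m)_{q,k}`. The slit plane is parametrized by the unit disc: `w = 2 c z / (1 + z^2)`,
the disc `|w| < c` by `w = c z` (`om`, `IsPar`).
-/

set_option autoImplicit false

namespace P4a177g

open P4a177f Function MeasureTheory
open scoped Real

noncomputable section

variable {n : ℕ}

/-- The function `f(x) = ∏_k (x - a_k)`. -/
def pf (a : Fin n → ℝ) (x : ℂ) : ℂ := ∏ k, (x - (a k : ℂ))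

/-- The function `∏_{l ≠ k} (x - a_l)`. -/
def pe (a : Fin n → ℝ) (k : Fin n) (x : ℂ) : ℂ := ∏ l ∈ Finset.univ.erase k, (x - (a l : ℂ))

/-- The derivative of `pf a`. -/
def pd (a : Fin n → ℝ) (x : ℂ) : ℂ := ∑ k, pe a k x

/-- `n ≥ 2` different real numbers `a_k`, and `|f(x)| ≥ c > 0` at all the critical points. -/
structure Crit (a : Fin n → ℝ) (c : ℝ) : Prop where
  two_le : 2 ≤ n
  inj : Injective a
  pos : 0 < c
  le : ∀ x : ℂ, pd a x = 0 → c ≤ ‖pf a x‖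

/-- The complex plane without the real numbers `w` with `|w| ≥ c`. -/
def slit (c : ℝ) : Set ℂ := {w | w.im ≠ 0 ∨ |w.re| < c}

/-- The inverse functions of `f` on the slit plane. -/
structure Br (a : Fin n → ℝ) (c : ℝ) (x : Fin n → ℂ → ℂ) : Prop where
  eqn : ∀ q, ∀ w ∈ slit c, pf a (x q w) = w
  zero : ∀ q, x q 0 = a q
  der : ∀ q, ∀ w ∈ slit c, HasDerivAt (x q) (pd a (x q w))⁻¹ w
  ne : ∀ q, ∀ w ∈ slit c, pd a (x q w) ≠ 0
  inj : ∀ q q', ∀ w ∈ slit c, x q w = x q' w → q = q'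
  conj : ∀ q, ∀ w ∈ slit c, x q (starRingEnd ℂ w) = starRingEnd ℂ (x q w)

/-- The function `T(w)_{q,k} = w x_q'(w) / (x_q(w) - a_k)`. -/
def tt (a : Fin n → ℝ) (x : Fin n → ℂ → ℂ) (q k : Fin n) (w : ℂ) : ℂ :=
  pe a k (x q w) / pd a (x q w)

/-- The Kronecker symbol. -/
def dd (q k : Fin n) : ℝ := if q = k then 1 else 0

/-- The Taylor coefficients of `tt a x q k`. -/
def hq (a : Fin n → ℝ) (q k : Fin n) (m : ℕ) : ℝ :=
  if m = 0 then dd q k else hc (fun l => a q - a l) q k m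

/-- The quadratic form of the Laplacian of the complete graph with the weights `log |a_q - a_k|`. -/
def lapf (a v : Fin n → ℝ) : ℝ := (1 / 2) * ∑ q, ∑ k, Real.log |a q - a k| * (v q - v k) ^ 2

/-- The function `(T(w)_{q,k} - δ_{q,k}) / w`. -/
def t1 (a : Fin n → ℝ) (x : Fin n → ℂ → ℂ) (q k : Fin n) (w : ℂ) : ℂ := dslope (tt a x q k) 0 w

/-- For `t ≠ 0` this is `(Re ∑_k T(t w)_{q,k} T(t w')_{q',k} - δ_{q,q'}) / t`. -/
def kk (a : Fin n → ℝ) (x : Fin n → ℂ → ℂ) (q q' : Fin n) (w w' : ℂ) (t : ℝ) : ℝ :=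
  (w' * t1 a x q' q (t * w') + w * t1 a x q q' (t * w) +
    t * (w * w' * ∑ k, t1 a x q k (t * w) * t1 a x q' k (t * w'))).re

/-- The integral of `kk`. -/
def II (a : Fin n → ℝ) (x : Fin n → ℂ → ℂ) (q q' : Fin n) (w w' : ℂ) : ℝ :=
  ∫ t in (0 : ℝ)..1, kk a x q q' w w' t

/-- The function `κ z / (1 + ε z^2)`. -/
def om (κ ε : ℝ) (z : ℂ) : ℂ := (κ : ℂ) * z / (1 + (ε : ℂ) * z ^ 2)

/-- The two parametrizations. -/
def IsPar (c κ ε : ℝ) : Prop := (κ = 2 * c ∧ ε = 1) ∨ (κ = c ∧ ε = 0)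

/-- The mean value over a period. -/
def av {E : Type*} [NormedAddCommGroup E] [NormedSpace ℝ E] (f : ℝ → E) : E :=
  (2 * π)⁻¹ • ∫ θ in (0 : ℝ)..(2 * π), f θ

/-- An even trigonometric polynomial. -/
def gg (v : ℝ) (y : ℕ → ℝ) (M : ℕ) (θ : ℝ) : ℝ :=
  v + ∑ j ∈ Finset.Icc 1 M, y j * Real.cos (j * θ)

/-- The function `log (|κ z / (1 + ε z^2) - κ z' / (1 + ε z'^2)| / |z - z'|)`. -/
def qk (κ ε : ℝ) (z z' : ℂ) : ℝ :=
  Real.log κ + Real.log ‖1 - (ε : ℂ) * z * z'‖ - Real.log ‖1 + (ε : ℂ) * z ^ 2‖ -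
    Real.log ‖1 + (ε : ℂ) * z' ^ 2‖

/-- The function `log |x_q(w) - x_q'(w')| - δ_{q,q'} log |z - z'|` with `w = om κ ε z`. -/
def JJ (a : Fin n → ℝ) (x : Fin n → ℂ → ℂ) (κ ε : ℝ) (q q' : Fin n) (z z' : ℂ) : ℝ :=
  (if q = q' then qk κ ε z z' - Real.log ‖pd a (a q)‖ else Real.log |a q - a q'|) +
    II a x q q' (om κ ε z) (om κ ε z')

/-- The mean value of `qk` with the weights `gg`. -/
def QQ (κ ε ρ : ℝ) (v : Fin n → ℝ) (y : Fin n → ℕ → ℝ) (M : ℕ) : ℝ :=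
  ∑ q, av fun θ => av fun θ' => qk κ ε (circleMap 0 ρ θ) (circleMap 0 ρ θ') *
    (gg (v q) (y q) M θ * gg (v q) (y q) M θ')

/-- The mean value of `T(t w)^T` with the weights `gg`. -/
def tau (a : Fin n → ℝ) (x : Fin n → ℂ → ℂ) (κ ε ρ : ℝ) (v : Fin n → ℝ) (y : Fin n → ℕ → ℝ)
    (M : ℕ) (k : Fin n) (t : ℝ) : ℂ :=
  ∑ q, av fun θ => tt a x q k (t * om κ ε (circleMap 0 ρ θ)) * (gg (v q) (y q) M θ : ℂ)

/-- The coefficient of `z^(-j)` of `z d/dz (-(1/m) ((z + 1/z)/2)^m)`. -/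
def eta (m j : ℕ) : ℝ :=
  if j ≤ m ∧ Even (m - j) then (j : ℝ) / m * (m.choose ((m - j) / 2)) / 2 ^ m else 0

end

end P4a177g
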