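import Pool.Agent.Lib.P4a177g.CritG

/-!
# The members which are not above the conifold

If `Above A N` fails then `N ≤ 4^n` and `N |a_{s,i} - a_{s,j}| ≤ 2 * 4^n` for all `s, i, j` (`n = d + 2`): up to
translations of the variables these are finitely many members in every dimension.

PROOF. Let `f_s'(x_s) = 0` for all `s` and `N ∏ ‖f_s(x_s)‖ ≤ 1`. Then `x_s` is real and not a root of `f_s`. Let
`l < x_s < u` be the neighbouring roots, `y = (l + u)/2`; `∏ |x_s - a_{s,i}| ≥ ∏ |y - a_{s,i}|`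
(`CritFAux.prod_le`). Here `|y - l| = |y - u| = (u - l)/2 ≥ 1/2`, all the other factors are `≥ 1`, and one of
the factors number `i, j` is `≥ |a_{s,i} - a_{s,j}|/2`.
-/

set_option autoImplicit false

namespace P4a177g

open P4a177h P4a177e P4a177f Function Finset
open scoped Real

variable {d : ℕ}

namespace ExcGAux

/-- The product at the middle of two neighbouring roots, and the distance of any two roots. -/
theorem prod_far {n : ℕ} (a : Fin n → ℝ) (hgap : ∀ i j, i ≠ j → 1 ≤ |a i - a j|) (l u : Fin n)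
    (hlu : a l < a u) (hno : ∀ i, a i ≤ a l ∨ a u ≤ a i) (e : Fin n) :
    |(a l + a u) / 2 - a e| / 4 ≤ ∏ i, |(a l + a u) / 2 - a i| := by
  classical
  set y := (a l + a u) / 2 with hy
  have hne : u ≠ l := by
    rintro rfl
    exact lt_irrefl _ hlu
  have hgl : 1 ≤ a u - a l := by
    have h := hgap u l hne
    rwa [abs_of_pos (by linarith)] at h
  have hl : |y - a l| = (a u - a l) / 2 := by
    rw [abs_of_pos (by linarith)]
    linarith
  have hu : |y - a u| = (a u - a l) / 2 := by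
    rw [abs_of_neg (by linarith)]
    linarith
  have hoth : ∀ i, i ≠ l → i ≠ u → 1 ≤ |y - a i| := by
    intro i h1 h2
    rcases hno i with h | h
    · have h3 := hgap l i h1.symm
      rw [abs_of_nonneg (by linarith)] at h3
      rw [abs_of_pos (by linarith)]
      linarith
    · have h3 := hgap i u h2
      rw [abs_of_nonneg (by linarith)] at h3
      rw [abs_of_neg (by linarith)]
      linarith
  have hue : u ∈ univ.erase l := by simp [hne]
  have hprod : ∏ i, |y - a i| =
      ((a u - a l) / 2) * (((a u - a l) / 2) * ∏ i ∈ (univ.erase l).erase u, |y - a i|) := by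
    rw [← Finset.mul_prod_erase univ (fun i => |y - a i|) (mem_univ l),
      ← Finset.mul_prod_erase (univ.erase l) (fun i => |y - a i|) hue, hl, hu]
  have hmem : ∀ i, i ∈ (univ.erase l).erase u ↔ i ≠ u ∧ i ≠ l := by
    intro i
    simp
  have hone : ∀ S : Finset (Fin n), S ⊆ (univ.erase l).erase u → 1 ≤ ∏ i ∈ S, |y - a i| := by
    intro S hS
    have h1 : ∏ _i ∈ S, (1 : ℝ) ≤ ∏ i ∈ S, |y - a i| :=
      Finset.prod_le_prod (fun _ _ => zero_le_one) fun i hi => by
        have h2 := (hmem i).1 (hS hi)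
        exact hoth i h2.2 h2.1
    simpa using h1
  rw [hprod]
  by_cases he : e ∈ (univ.erase l).erase u
  · rw [← Finset.mul_prod_erase _ (fun i => |y - a i|) he]
    have h1 := hone (((univ.erase l).erase u).erase e) (Finset.erase_subset _ _)
    have h2 : (0 : ℝ) ≤ |y - a e| := abs_nonneg _
    have h3 : |y - a e| ≤ |y - a e| * ∏ i ∈ ((univ.erase l).erase u).erase e, |y - a i| :=
      le_mul_of_one_le_right h2 h1
    have h4 : (1 / 2) * |y - a e| ≤ (a u - a l) / 2 *
        (|y - a e| * ∏ i ∈ ((univ.erase l).erase u).erase e, |y - a i|) :=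
      mul_le_mul (by linarith) h3 h2 (by linarith)
    have h5 : (1 / 2) * ((1 / 2) * |y - a e|) ≤ (a u - a l) / 2 * ((a u - a l) / 2 *
        (|y - a e| * ∏ i ∈ ((univ.erase l).erase u).erase e, |y - a i|)) :=
      mul_le_mul (by linarith) h4 (by positivity) (by linarith)
    linarith
  · have h0 : |y - a e| = (a u - a l) / 2 := by
      rw [hmem] at he
      by_cases h1 : e = u
      · rw [h1, hu]
      · have h2 : e = l := by
          by_contra h2
          exact he ⟨h1, h2⟩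
        rw [h2, hl]
    have h1 := hone ((univ.erase l).erase u) (Finset.Subset.refl _)
    rw [h0]
    have h2 : (a u - a l) / 2 ≤ (a u - a l) / 2 * ∏ i ∈ (univ.erase l).erase u, |y - a i| :=
      le_mul_of_one_le_right (by linarith) h1
    have h3 : (1 / 2) * ((a u - a l) / 2) ≤ (a u - a l) / 2 *
        ((a u - a l) / 2 * ∏ i ∈ (univ.erase l).erase u, |y - a i|) :=
      mul_le_mul (by linarith) h2 (by linarith) (by linarith)
    linarith

/-- The real version. -/
theorem crit_far {n : ℕ} (a : Fin n → ℝ) (hgap : ∀ i j, i ≠ j → 1 ≤ |a i - a j|) (x : ℝ)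
    (hx : ∀ i, x ≠ a i) (hn : 2 ≤ n) (hs : ∑ i, 1 / (x - a i) = 0) (e e' : Fin n) :
    |a e - a e'| / 8 ≤ ∏ i, |x - a i| := by
  classical
  obtain ⟨l0, hl0⟩ := CritFAux.exists_lt a x hx hn hs
  obtain ⟨u0, hu0⟩ := CritFAux.exists_gt a x hx hn hs
  obtain ⟨l, hl, hlmax⟩ := Finset.exists_max_image (univ.filter fun i => a i < x) a
    ⟨l0, by simp [hl0]⟩
  obtain ⟨u, hu, humin⟩ := Finset.exists_min_image (univ.filter fun i => x < a i) a
    ⟨u0, by simp [hu0]⟩
  rw [Finset.mem_filter] at hl hu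
  have hno : ∀ i, a i ≤ a l ∨ a u ≤ a i := by
    intro i
    rcases lt_or_gt_of_ne (hx i) with h | h
    · exact Or.inr (humin i (by simp [h]))
    · exact Or.inl (hlmax i (by simp [h]))
  have hlx := hl.2
  have hux := hu.2
  have h1 : ∏ i, |(a l + a u) / 2 - a i| ≤ ∏ i, |x - a i| := by
    refine CritFAux.prod_le a x ((a l + a u) / 2) hx (fun i => ?_) hs
    rcases lt_or_gt_of_ne (hx i) with h | h
    · have := humin i (by simp [h])
      exact div_pos_of_neg_of_neg (by linarith) (by linarith)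
    · have := hlmax i (by simp [h])
      exact div_pos (by linarith) (by linarith)
  have h2 := prod_far a hgap l u (by linarith) hno e
  have h3 := prod_far a hgap l u (by linarith) hno e'
  have h4 : |a e - a e'| ≤ |(a l + a u) / 2 - a e| + |(a l + a u) / 2 - a e'| := by
    have h5 : a e - a e' = ((a l + a u) / 2 - a e') - ((a l + a u) / 2 - a e) := by ring
    rw [h5]
    have h6 := abs_sub ((a l + a u) / 2 - a e') ((a l + a u) / 2 - a e)
    linarith
  linarith

/-- The complex version. -/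
theorem crit_farC {k : ℕ} (hk : 1 ≤ k) (a : Fin (k + 1) → ℤ)
    (ha : ∀ i j, i ≠ j → 1 ≤ |a i - a j|) (c : ℂ) (hc : ∀ i, c ≠ (a i : ℂ))
    (hs : ∑ i, 1 / (c - (a i : ℂ)) = 0) (e e' : Fin (k + 1)) :
    (|a e - a e'| : ℝ) / 8 ≤ ‖∏ i, (c - (a i : ℂ))‖ := by
  have hci : ∀ i, c - (a i : ℂ) ≠ 0 := fun i => sub_ne_zero.mpr (hc i)
  have him : c.im = 0 := by
    have h1 := congrArg Complex.im hs
    rw [Complex.im_sum, Complex.zero_im] at h1
    have h2 : ∀ i, (1 / (c - (a i : ℂ))).im = - c.im * (1 / Complex.normSq (c - (a i : ℂ))) := by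
      intro i
      rw [one_div, Complex.inv_im]
      simp
      ring
    simp only [h2] at h1
    rw [← Finset.mul_sum] at h1
    rcases mul_eq_zero.mp h1 with h3 | h3
    · linarith
    · exfalso
      have h4 : 0 < ∑ i, 1 / Complex.normSq (c - (a i : ℂ)) :=
        Finset.sum_pos (fun i _ => one_div_pos.mpr (Complex.normSq_pos.mpr (hci i)))
          ⟨0, mem_univ _⟩
      linarith
  have hcr : c = (c.re : ℂ) := by
    apply Complex.ext
    · simp
    · simp [him]
  set x := c.re with hx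
  have hd : ∀ i, c - (a i : ℂ) = ((x - a i : ℝ) : ℂ) := by
    intro i
    rw [hcr]
    push_cast
    rfl
  have hnorm : ‖∏ i, (c - (a i : ℂ))‖ = ∏ i, |x - a i| := by
    rw [norm_prod]
    refine Finset.prod_congr rfl fun i _ => ?_
    rw [hd, Complex.norm_real, Real.norm_eq_abs]
  have hdne : ∀ i, x ≠ (a i : ℝ) := by
    intro i h
    apply hci i
    rw [hd, h]
    simp
  have hs' : ∑ i, 1 / (x - (a i : ℝ)) = 0 := by
    have h1 : ((∑ i, 1 / (x - (a i : ℝ)) : ℝ) : ℂ) = 0 := by
      rw [← hs]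
      push_cast
      refine Finset.sum_congr rfl fun i _ => ?_
      rw [hd]
      push_cast
      rfl
    exact_mod_cast h1
  have hgap : ∀ i j, i ≠ j → (1 : ℝ) ≤ |(a i : ℝ) - a j| := by
    intro i j hij
    have h1 := ha i j hij
    rw [← Int.cast_sub, ← Int.cast_abs]
    exact_mod_cast h1
  rw [hnorm]
  exact crit_far (fun i => (a i : ℝ)) hgap x hdne (by omega) hs' e e'

/-- `∏ u_s ≥ t / 4^(n-1)` if `u_s ≥ 1/4` for all `s` and `u_s ≥ t` for one `s`. -/
theorem prod_ge {n : ℕ} (u : Fin (n + 1) → ℝ) (hu : ∀ s, 1 / 4 ≤ u s) (s : Fin (n + 1)) {t : ℝ}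
    (ht : t ≤ u s) : t * (1 / 4) ^ n ≤ ∏ s, u s := by
  classical
  rw [← Finset.mul_prod_erase univ u (mem_univ s)]
  have h1 : (1 / 4 : ℝ) ^ n ≤ ∏ i ∈ univ.erase s, u i := by
    have h2 : (univ.erase s).card = n := by
      rw [Finset.card_erase_of_mem (mem_univ s), Finset.card_univ, Fintype.card_fin,
        Nat.add_sub_cancel]
    calc (1 / 4 : ℝ) ^ n = ∏ _i ∈ univ.erase s, (1 / 4 : ℝ) := by rw [Finset.prod_const, h2]
      _ ≤ _ := Finset.prod_le_prod (fun _ _ => by norm_num) fun i _ => hu i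
  have h3 : (0 : ℝ) ≤ (1 / 4) ^ n := by positivity
  calc t * (1 / 4 : ℝ) ^ n ≤ u s * (1 / 4) ^ n := mul_le_mul_of_nonneg_right ht h3
    _ ≤ u s * ∏ i ∈ univ.erase s, u i :=
      mul_le_mul_of_nonneg_left h1 (by linarith [hu s])

end ExcGAux

open ExcGAux CritGAux

/-- The members which are not above the conifold: finitely many up to translations. -/
theorem exc_bound (A : Fam d) {N : ℕ} (h : ¬ Above A N) :
    N ≤ 4 ^ (d + 2) ∧ ∀ s i j, (N : ℤ) * |A.a s i - A.a s j| ≤ 2 * 4 ^ (d + 2) := by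
  unfold Above at h
  push Not at h
  obtain ⟨x, hx, hle⟩ := h
  have hne : ∀ s i, x s ≠ (A.a s i : ℂ) := fun s => ne_of_der A s (x s) (hx s)
  have hinv : ∀ s, ∑ i, 1 / (x s - (A.a s i : ℂ)) = 0 := by
    intro s
    have h1 : ∏ i, (x s - (A.a s i : ℂ)) ≠ 0 :=
      Finset.prod_ne_zero_iff.2 fun i _ => sub_ne_zero.2 (hne s i)
    have h3 := hx s
    rw [← SmoothEAux.sum_inv_eq A s (x s) (hne s)] at h3
    exact (mul_eq_zero.1 h3).resolve_right h1
  have hm : ∀ s, 1 ≤ A.m s := by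
    intro s
    by_contra hm
    exact SmoothEAux.sum_ne_zero (A.m s) (A.a s) (x s) (by omega) (hne s) (hinv s)
  have hgap : ∀ s i j, i ≠ j → 1 ≤ |A.a s i - A.a s j| := fun s i j hij =>
    Int.one_le_abs (sub_ne_zero.2 fun h => hij (A.inj s h))
  have hq : ∀ s, 1 / 4 ≤ ∏ i, ‖x s - (A.a s i : ℂ)‖ := by
    intro s
    have h1 := crit_boundF (hm s) 1 le_rfl (A.a s) (fun i j hij => by exact_mod_cast hgap s i j hij)
      (x s) (hne s) (hinv s)
    rw [norm_prod, SmoothFAux.rr_eq] at h1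
    refine le_trans ?_ h1
    have h2 : (1 : ℕ) ≤ 1 ^ (A.m s + 1) * 2 ^ (A.m s - 3) := by
      rw [one_pow, one_mul]
      exact Nat.one_le_two_pow
    have h3 : (1 : ℝ) ≤ ((1 ^ (A.m s + 1) * 2 ^ (A.m s - 3) : ℕ) : ℝ) := by exact_mod_cast h2
    linarith
  constructor
  · have h1 := prod_ge (fun s => ∏ i, ‖x s - (A.a s i : ℂ)‖) hq 0 (hq 0)
    have h2 : (N : ℝ) * (1 / 4 * (1 / 4) ^ (d + 1)) ≤ 1 :=
      (mul_le_mul_of_nonneg_left h1 (Nat.cast_nonneg _)).trans hle
    have h3 : (N : ℝ) * (1 / 4 * (1 / 4) ^ (d + 1)) = N / 4 ^ (d + 2) := by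
      rw [one_div, inv_pow, ← mul_inv, ← div_eq_mul_inv, ← pow_succ' (4 : ℝ) (d + 1)]
    rw [h3, div_le_one (by positivity)] at h2
    exact_mod_cast h2
  · intro s i j
    have h0 := crit_farC (hm s) (A.a s) (hgap s) (x s) (hne s) (hinv s) i j
    rw [norm_prod] at h0
    have h1 := prod_ge (fun s => ∏ i, ‖x s - (A.a s i : ℂ)‖) hq s h0
    have h2 : (N : ℝ) * ((|A.a s i - A.a s j| : ℝ) / 8 * (1 / 4) ^ (d + 1)) ≤ 1 :=
      (mul_le_mul_of_nonneg_left h1 (Nat.cast_nonneg _)).trans hle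
    have h3 : (N : ℝ) * ((|A.a s i - A.a s j| : ℝ) / 8 * (1 / 4) ^ (d + 1)) =
        (N * (|A.a s i - A.a s j| : ℝ)) / (2 * 4 ^ (d + 2)) := by
      have h4 : (4 : ℝ) ^ (d + 2) = 4 * 4 ^ (d + 1) := pow_succ' 4 (d + 1)
      rw [h4, one_div, inv_pow]
      field_simp
      ring
    rw [h3, div_le_one (by positivity)] at h2
    exact_mod_cast h2

end P4a177g
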