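import Pool.Agent.Lib.P4a177g.ExcG

/-!
# The members which are not above the conifold have two roots at distance at most `2`
-/

set_option autoImplicit false

namespace P4a177g

open P4a177h P4a177e P4a177f Function Finset
open scoped Real

variable {d : ℕ}

open CritGAux

/-- If any two roots of the same list differ by `3` or more then the member is above the conifold. -/
theorem exc_gap (A : Fam d) {N : ℕ} (hN : 1 ≤ N) (h : ¬ Above A N) :
    ∃ s i j, i ≠ j ∧ |A.a s i - A.a s j| ≤ 2 := by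
  by_contra hc
  push Not at hc
  apply h
  intro x hx
  have hne : ∀ s i, x s ≠ (A.a s i : ℂ) := fun s => ne_of_der A s (x s) (hx s)
  have hinv : ∀ s, ∑ i, 1 / (x s - (A.a s i : ℂ)) = 0 := by
    intro s
    have h1 : ∏ i, (x s - (A.a s i : ℂ)) ≠ 0 :=
      Finset.prod_ne_zero_iff.2 fun i _ => sub_ne_zero.2 (hne s i)
    have h3 := hx s
    rw [← SmoothEAux.sum_inv_eq A s (x s) (hne s)] at h3
    exact (mul_eq_zero.1 h3).resolve_right h1
  have hm : ∀ s, 1 ≤ A.m s := by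
    intro s
    by_contra hm
    exact SmoothEAux.sum_ne_zero (A.m s) (A.a s) (x s) (by omega) (hne s) (hinv s)
  have hq : ∀ s, 2 ≤ ∏ i, ‖x s - (A.a s i : ℂ)‖ := by
    intro s
    have h1 := crit_boundF (hm s) 3 (by norm_num) (A.a s) (fun i j hij => by
      have := hc s i j hij
      push_cast
      omega) (x s) (hne s) (hinv s)
    rw [norm_prod, SmoothFAux.rr_eq] at h1
    refine le_trans ?_ h1
    have h2 : (9 : ℕ) ≤ 3 ^ (A.m s + 1) * 2 ^ (A.m s - 3) := by
      calc (9 : ℕ) = 3 ^ 2 * 1 := by norm_num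
        _ ≤ 3 ^ (A.m s + 1) * 2 ^ (A.m s - 3) :=
          Nat.mul_le_mul (Nat.pow_le_pow_right (by norm_num) (by have := hm s; omega))
            Nat.one_le_two_pow
    have h3 : (9 : ℝ) ≤ ((3 ^ (A.m s + 1) * 2 ^ (A.m s - 3) : ℕ) : ℝ) := by exact_mod_cast h2
    linarith
  have h4 : (2 : ℝ) ^ (d + 2) ≤ ∏ s, ∏ i, ‖x s - (A.a s i : ℂ)‖ := by
    calc (2 : ℝ) ^ (d + 2) = ∏ _s : Fin (d + 2), (2 : ℝ) := by
          rw [Finset.prod_const, Finset.card_univ, Fintype.card_fin]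
      _ ≤ _ := Finset.prod_le_prod (fun _ _ => by norm_num) fun s _ => hq s
  have h5 : (1 : ℝ) ≤ N := by exact_mod_cast hN
  have h6 : (2 : ℝ) ≤ 2 ^ (d + 2) := by
    calc (2 : ℝ) = 2 ^ 1 := by norm_num
      _ ≤ 2 ^ (d + 2) := pow_le_pow_right₀ (by norm_num) (by omega)
  calc (1 : ℝ) < 1 * 2 := by norm_num
    _ ≤ N * ∏ s, ∏ i, ‖x s - (A.a s i : ℂ)‖ :=
      mul_le_mul h5 (h6.trans h4) (by norm_num) (Nat.cast_nonneg _)

end P4a177g
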