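import Pool.Agent.Lib.P4a177g.Defs
import Pool.Agent.Lib.P4a177f.InvF
import Pool.Agent.Lib.P4a177f.LstF

/-!
# The lists of the family above the conifold, the radii
-/

set_option autoImplicit false

namespace P4a177g

open P4a177h P4a177e P4a177f Function
open scoped Real

noncomputable section

variable {d : ℕ}

/-- The list number `s` as real numbers. -/
def aR (A : Fam d) (s : Fin (d + 2)) (k : Fin (A.m s + 1)) : ℝ := (A.a s k : ℝ)

/-- Every critical value `≠ 0` of the function `N * ∏_s f_s(x_s)`, `f_s = ∏_i (x_s - a_{s,i})`, has an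
absolute value `> 1`. -/
def Above (A : Fam d) (N : ℕ) : Prop :=
  ∀ x : Fin (d + 2) → ℂ,
    (∀ s, ∑ i, ∏ j ∈ Finset.univ.erase i, (x s - (A.a s j : ℂ)) = 0) →
      1 < (N : ℝ) * ∏ s, ∏ i, ‖x s - (A.a s i : ℂ)‖

/-- The assumptions. -/
structure GoodG (A : Fam d) (c : Fin (d + 2) → ℝ) (N : ℕ) : Prop where
  one_le_m : ∀ s, 1 ≤ A.m s
  one_le_N : 1 ≤ N
  c_pos : ∀ s, 0 < c s
  hle : ∀ (q : ∀ s, Fin (A.m s + 1)) (s : Fin (d + 2)) (k : Fin (A.m s + 1)) (j : ℕ), 1 ≤ j →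
    |hh A q s k j| ≤ (1 / c s) ^ j
  big : 1 < (N : ℝ) * ∏ s, c s

/-- The radii. -/
structure RadG (c : Fin (d + 2) → ℝ) (N : ℕ) (r : Fin (d + 2) → ℝ) : Prop where
  pos : ∀ s, 0 < r s
  lt : ∀ s, r s < c s
  prod : (N : ℝ) * ∏ s, r s = 1

/-- The signed error term. -/
def EG (A : Fam d) (N : ℕ) (q i : ∀ s, Fin (A.m s + 1)) : ℝ :=
  ∑' j : ℕ, (1 / (N : ℝ)) ^ (j + 1) / ((j : ℝ) + 1) * ∏ s, hh A q s (i s) (j + 1)

end

variable {d : ℕ} {A : Fam d} {N : ℕ} {c : Fin (d + 2) → ℝ}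

theorem lstG (hm : ∀ s, 1 ≤ A.m s) (q : ∀ s, Fin (A.m s + 1)) (s : Fin (d + 2)) :
    Lst (1 : ℝ) (bR A q s) (q s) where
  two_le := by
    have := hm s
    omega
  pos := one_pos
  zero := by simp [bR, df]
  gap := fun i j hij => by
    have h1 : A.a s j ≠ A.a s i := fun h => hij ((A.inj s h).symm)
    have h2 : bR A q s i - bR A q s j = ((A.a s j - A.a s i : ℤ) : ℝ) := by
      simp only [bR, df]
      push_cast
      ring
    rw [h2, ← Int.cast_abs]
    have h3 : (1 : ℤ) ≤ |A.a s j - A.a s i| := Int.one_le_abs (sub_ne_zero.2 h1)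
    exact_mod_cast h3

theorem exists_radG (h : GoodG A c N) : ∃ r, RadG c N r := by
  have hR := h.c_pos
  have hP := h.big
  set P : ℝ := (N : ℝ) * ∏ s, c s with hPdef
  have hP0 : 0 < P := zero_lt_one.trans hP
  set l : ℝ := P ^ (-1 / ((d : ℝ) + 2)) with hl
  have hd : (0 : ℝ) < (d : ℝ) + 2 := by positivity
  have hl0 : 0 < l := Real.rpow_pos_of_pos hP0 _
  have hl1 : l < 1 := Real.rpow_lt_one_of_one_lt_of_neg hP (div_neg_of_neg_of_pos (by norm_num) hd)
  have hlp : l ^ (d + 2) = P⁻¹ := by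
    rw [hl, ← Real.rpow_natCast, ← Real.rpow_mul hP0.le]
    have : -1 / ((d : ℝ) + 2) * ((d + 2 : ℕ) : ℝ) = -1 := by
      push_cast
      field_simp
    rw [this, Real.rpow_neg_one]
  refine ⟨fun s => c s * l, fun s => mul_pos (hR s) hl0,
    fun s => mul_lt_of_lt_one_right (hR s) hl1, ?_⟩
  rw [Finset.prod_mul_distrib, Finset.prod_const, Finset.card_univ, Fintype.card_fin, hlp,
    ← mul_assoc, ← hPdef, mul_inv_cancel₀ hP0.ne']

theorem norm_w0G {r : Fin (d + 2) → ℝ} (hr : RadG c N r) (θ : Fin (d + 1) → ℝ) :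
    ‖w0 r θ‖ = r 0 := by
  have h1 : -(∑ l, (θ l : ℂ)) * Complex.I = ((-∑ l, θ l : ℝ) : ℂ) * Complex.I := by
    push_cast
    ring
  rw [w0, norm_mul, h1, Complex.norm_exp_ofReal_mul_I, mul_one, Complex.norm_real,
    Real.norm_of_nonneg (hr.pos 0).le]

theorem norm_w1G {r : Fin (d + 2) → ℝ} (hr : RadG c N r) (j : Fin (d + 1)) (t : ℝ) :
    ‖w1 r j t‖ = r j.succ := by
  rw [w1, norm_mul, Complex.norm_exp_ofReal_mul_I, mul_one, Complex.norm_real,
    Real.norm_of_nonneg (hr.pos j.succ).le]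

/-! ### The inverse function on the disc of radius `R` -/

section Inv

open Filter Topology

variable {n : ℕ} {g R : ℝ} {b : Fin n → ℝ} {q : Fin n}

theorem ser_sumG (hR : 0 < R)
    (hle : ∀ k j, 1 ≤ j → |hc b q k j| ≤ (1 / R) ^ j) {w : ℂ} (hw : ‖w‖ < R) :
    ∑ k, ser (hc b q k) w = 0 := by
  have h1 : HasSum (fun j : ℕ => ∑ k, (hc b q k (j + 1) : ℂ) / ((j : ℂ) + 1) * w ^ (j + 1))
      (∑ k, ser (hc b q k) w) :=
    hasSum_sum fun k _ => ser_hasSum hR (fun j hj => hle k j hj) hw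
  have h2 : (fun j : ℕ => ∑ k, (hc b q k (j + 1) : ℂ) / ((j : ℂ) + 1) * w ^ (j + 1)) =
      fun _ => 0 := by
    funext j
    rw [← Finset.sum_mul, ← Finset.sum_div, ← Complex.ofReal_sum, hc_sum, Complex.ofReal_zero,
      zero_div, zero_mul]
  rw [h2] at h1
  exact h1.unique hasSum_zero

theorem sum_eraseG (hR : 0 < R) (hle : ∀ k j, 1 ≤ j → |hc b q k j| ≤ (1 / R) ^ j) {w : ℂ}
    (hw : ‖w‖ < R) : ∑ k ∈ Finset.univ.erase q, ser (hc b q k) w = -ser (hc b q q) w := by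
  have h1 := ser_sumG hR hle hw
  rw [← Finset.add_sum_erase _ _ (Finset.mem_univ q)] at h1
  exact (neg_eq_of_add_eq_zero_right h1).symm

theorem prod_expG (hR : 0 < R) (hle : ∀ k j, 1 ≤ j → |hc b q k j| ≤ (1 / R) ^ j) {w : ℂ}
    (hw : ‖w‖ < R) :
    ∏ k ∈ Finset.univ.erase q, ((b k : ℂ) * Complex.exp (ser (hc b q k) w)) =
      (∏ k ∈ Finset.univ.erase q, (b k : ℂ)) * Complex.exp (-ser (hc b q q) w) := by
  rw [Finset.prod_mul_distrib, ← Complex.exp_sum, sum_eraseG hR hle hw]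

theorem psi_diffG (hR : 0 < R) (hle : ∀ k j, 1 ≤ j → |hc b q k j| ≤ (1 / R) ^ j) :
    DifferentiableOn ℂ (psi b q) (Metric.ball 0 R) := by
  have h1 := ser_differentiableOn hR (fun j hj => hle q j hj)
  have h2 : DifferentiableOn ℂ
      (fun w : ℂ => w / (∏ l ∈ Finset.univ.erase q, (b l : ℂ)) * Complex.exp (ser (hc b q q) w))
      (Metric.ball 0 R) :=
    (differentiableOn_id.div_const _).mul h1.cexp
  exact h2

theorem psi_addG (h : Lst g b q) (hR : 0 < R)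
    (hle : ∀ k j, 1 ≤ j → |hc b q k j| ≤ (1 / R) ^ j) {w : ℂ} (hw : ‖w‖ < R) {k : Fin n}
    (hk : k ≠ q) : psi b q w + (b k : ℂ) = (b k : ℂ) * Complex.exp (ser (hc b q k) w) := by
  have h1 : DifferentiableOn ℂ (fun w => psi b q w + (b k : ℂ)) (Metric.ball 0 R) :=
    (psi_diffG hR hle).add_const _
  have h2 : DifferentiableOn ℂ (fun w => (b k : ℂ) * Complex.exp (ser (hc b q k) w))
      (Metric.ball 0 R) :=
    (ser_differentiableOn hR (fun j hj => hle k j hj)).cexp.const_mul _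
  have h3 := (h1.analyticOnNhd Metric.isOpen_ball).eqOn_of_preconnected_of_eventuallyEq
    (h2.analyticOnNhd Metric.isOpen_ball) (convex_ball (0 : ℂ) R).isPreconnected
    (Metric.mem_ball_self hR) (InvFAux.local_psi h hk)
  exact h3 (by simpa using hw)

theorem psi_prodG (h : Lst g b q) (hR : 0 < R)
    (hle : ∀ k j, 1 ≤ j → |hc b q k j| ≤ (1 / R) ^ j) {w : ℂ} (hw : ‖w‖ < R) :
    ∏ k, (psi b q w + (b k : ℂ)) = w := by
  rw [← Finset.mul_prod_erase _ _ (Finset.mem_univ q), h.zero, Complex.ofReal_zero, add_zero,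
    Finset.prod_congr rfl fun k hk => psi_addG h hR hle hw (Finset.ne_of_mem_erase hk),
    prod_expG hR hle hw]
  have h5 : (∏ l ∈ Finset.univ.erase q, (b l : ℂ)) ≠ 0 :=
    Finset.prod_ne_zero_iff.2 fun l hl =>
      Complex.ofReal_ne_zero.2 (InvFAux.b_ne h (Finset.ne_of_mem_erase hl))
  unfold psi
  calc w / (∏ l ∈ Finset.univ.erase q, (b l : ℂ)) * Complex.exp (ser (hc b q q) w) *
        ((∏ l ∈ Finset.univ.erase q, (b l : ℂ)) * Complex.exp (-ser (hc b q q) w))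
      = (w / (∏ l ∈ Finset.univ.erase q, (b l : ℂ)) * (∏ l ∈ Finset.univ.erase q, (b l : ℂ))) *
        (Complex.exp (ser (hc b q q) w) * Complex.exp (-ser (hc b q q) w)) := by ring
    _ = w := by
        rw [div_mul_cancel₀ _ h5, ← Complex.exp_add, add_neg_cancel, Complex.exp_zero, mul_one]

theorem psi_contDiffAtG (hR : 0 < R) (hle : ∀ k j, 1 ≤ j → |hc b q k j| ≤ (1 / R) ^ j) {w : ℂ}
    (hw : ‖w‖ < R) : ContDiffAt ℝ 3 (psi b q) w := by
  have h1 : ContDiffAt ℝ 3 (ser (hc b q q)) w :=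
    ser_contDiffAt hR (fun j hj => hle q j hj) hw
  have h2 : ContDiffAt ℝ 3
      (fun w : ℂ => w / (∏ l ∈ Finset.univ.erase q, (b l : ℂ)) *
        Complex.exp (ser (hc b q q) w)) w :=
    (contDiffAt_id.div_const _).mul h1.cexp
  exact h2

end Inv

end P4a177g
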