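import Pool.Agent.Lib.P4a177g.TtG

/-!
# MODULE P4a177g.KkG: the kernels `kk`, `II` and `JJ` (est. 1.2 h)

PROOF. `kk_eq`: `tt_eq` (at `t w` and `t w'`), multiply out: `∑_k (δ_{q,k} + t w t1_{q,k}) (δ_{q',k} +
t w' t1_{q',k}) = δ_{q,q'} + t w' t1_{q',q} + t w t1_{q,q'} + t^2 w w' ∑ t1 t1`, divide by `t`.
`kk_cont`: `t1 a x q k` is continuous on `slit c` (`t1_diff`), `t * w ∈ slit c` for `t ∈ [0, 1]`
(`slit_smul`). `kk_om_cont`: composition with `z = circleMap 0 ρ θ`, `‖z‖ = ρ < 1`, `om_mem`, `om` is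
continuous on the disc (`one_add_ne`). `II_cont`: `intervalIntegral.continuous_parametric_intervalIntegral_of_continuous`
or similar (to have a function continuous for all `t`, replace `t` by `max 0 (min t 1)`).
`JJ_cont`: `qk` is continuous (`one_sub_ne`, `one_add_ne`, `Continuous.log`).
-/

set_option autoImplicit false

namespace P4a177g

open P4a177f Function

variable {n : ℕ} {a : Fin n → ℝ} {c : ℝ} {x : Fin n → ℂ → ℂ}

namespace KkGAux

theorem circ_norm {ρ : ℝ} (h0 : 0 < ρ) (h1 : ρ < 1) (θ : ℝ) : ‖circleMap 0 ρ θ‖ < 1 := by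
  rw [norm_circleMap_zero, abs_of_pos h0]
  exact h1

theorem om_cont {κ ε ρ : ℝ} (hp : IsPar c κ ε) (h0 : 0 < ρ) (h1 : ρ < 1) :
    Continuous fun θ : ℝ => om κ ε (circleMap 0 ρ θ) := by
  unfold om
  refine Continuous.div ?_ ?_ fun θ => one_add_ne hp (circ_norm h0 h1 θ)
  · exact continuous_const.mul (continuous_circleMap 0 ρ)
  · exact continuous_const.add (continuous_const.mul ((continuous_circleMap 0 ρ).pow 2))

theorem t1_comp (h : Crit a c) (hx : Br a c x) (q k : Fin n) {X : Type*} [TopologicalSpace X]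
    {S : Set X} {T : X → ℝ} {W : X → ℂ} (hT : ContinuousOn T S) (hW : ContinuousOn W S)
    (h1 : ∀ p ∈ S, T p ∈ Set.Icc (0 : ℝ) 1) (h2 : ∀ p ∈ S, W p ∈ slit c) :
    ContinuousOn (fun p => t1 a x q k ((T p : ℂ) * W p)) S := by
  have h3 : ContinuousOn (fun p => (T p : ℂ) * W p) S :=
    (Complex.continuous_ofReal.comp_continuousOn hT).mul hW
  exact (t1_diff h hx q k).continuousOn.comp h3
    fun p hp => slit_smul h.pos (h2 p hp) (h1 p hp).1 (h1 p hp).2

theorem kk_gen (h : Crit a c) (hx : Br a c x) (q q' : Fin n) {X : Type*} [TopologicalSpace X]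
    {S : Set X} {T : X → ℝ} {W W' : X → ℂ} (hT : ContinuousOn T S) (hW : ContinuousOn W S)
    (hW' : ContinuousOn W' S) (h1 : ∀ p ∈ S, T p ∈ Set.Icc (0 : ℝ) 1)
    (h2 : ∀ p ∈ S, W p ∈ slit c) (h3 : ∀ p ∈ S, W' p ∈ slit c) :
    ContinuousOn (fun p => kk a x q q' (W p) (W' p) (T p)) S := by
  unfold kk
  refine Complex.continuous_re.comp_continuousOn ?_
  refine ((hW'.mul (t1_comp h hx q' q hT hW' h1 h3)).add
    (hW.mul (t1_comp h hx q q' hT hW h1 h2))).add
    ((Complex.continuous_ofReal.comp_continuousOn hT).mul ((hW.mul hW').mul ?_))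
  exact continuousOn_finsetSum _ fun k _ =>
    (t1_comp h hx q k hT hW h1 h2).mul (t1_comp h hx q' k hT hW' h1 h3)

theorem sum_dd_mul (q : Fin n) (F : Fin n → ℂ) : ∑ k, (dd q k : ℂ) * F k = F q := by
  have h1 : ∀ k, (dd q k : ℂ) * F k = if q = k then F k else 0 := by
    intro k
    unfold dd
    split_ifs <;> simp
  simp only [h1]
  simp

end KkGAux

theorem kk_eq (h : Crit a c) (hx : Br a c x) (q q' : Fin n) (w w' : ℂ) {t : ℝ} (ht : t ≠ 0) :
    kk a x q q' w w' t =
      ((∑ k, tt a x q k (t * w) * tt a x q' k (t * w')).re - dd q q') / t := by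
  rw [eq_div_iff ht]
  have h1 : ∑ k, tt a x q k (t * w) * tt a x q' k (t * w') =
      (dd q' q : ℂ) + (t : ℂ) * (w' * t1 a x q' q (t * w') + w * t1 a x q q' (t * w) +
        t * (w * w' * ∑ k, t1 a x q k (t * w) * t1 a x q' k (t * w'))) := by
    calc ∑ k, tt a x q k (t * w) * tt a x q' k (t * w')
        = ∑ k, ((dd q k : ℂ) * ((dd q' k : ℂ) + t * w' * t1 a x q' k (t * w')) +
            (dd q' k : ℂ) * (t * w * t1 a x q k (t * w)) +
            (t * t * (w * w')) * (t1 a x q k (t * w) * t1 a x q' k (t * w'))) := by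
          refine Finset.sum_congr rfl fun k _ => ?_
          rw [tt_eq h hx q k, tt_eq h hx q' k]
          ring
      _ = _ := by
          rw [Finset.sum_add_distrib, Finset.sum_add_distrib, KkGAux.sum_dd_mul,
            KkGAux.sum_dd_mul, ← Finset.mul_sum]
          ring
  rw [h1]
  have h2 : dd q' q = dd q q' := by
    unfold dd
    by_cases hq : q = q'
    · rw [if_pos hq, if_pos hq.symm]
    · rw [if_neg hq, if_neg (Ne.symm hq)]
  rw [Complex.add_re, Complex.ofReal_re, Complex.re_ofReal_mul, h2]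
  unfold kk
  ring

theorem kk_cont (h : Crit a c) (hx : Br a c x) (q q' : Fin n) {w w' : ℂ} (hw : w ∈ slit c)
    (hw' : w' ∈ slit c) : ContinuousOn (kk a x q q' w w') (Set.Icc 0 1) :=
  KkGAux.kk_gen h hx q q' (T := fun t : ℝ => t) (W := fun _ => w) (W' := fun _ => w')
    continuousOn_id continuousOn_const continuousOn_const (fun _ hp => hp) (fun _ _ => hw)
    (fun _ _ => hw')

theorem kk_om_cont (h : Crit a c) (hx : Br a c x) {κ ε ρ : ℝ} (hp : IsPar c κ ε) (h0 : 0 < ρ)
    (h1 : ρ < 1) (q q' : Fin n) :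
    ContinuousOn (fun p : ℝ × ℝ × ℝ => kk a x q q' (om κ ε (circleMap 0 ρ p.2.1))
      (om κ ε (circleMap 0 ρ p.2.2)) p.1) (Set.Icc 0 1 ×ˢ Set.univ) := by
  have ho := KkGAux.om_cont hp h0 h1
  exact KkGAux.kk_gen h hx q q' (T := fun p : ℝ × ℝ × ℝ => p.1)
    (W := fun p : ℝ × ℝ × ℝ => om κ ε (circleMap 0 ρ p.2.1))
    (W' := fun p : ℝ × ℝ × ℝ => om κ ε (circleMap 0 ρ p.2.2))
    continuous_fst.continuousOn
    (ho.comp (continuous_fst.comp continuous_snd)).continuousOn
    (ho.comp (continuous_snd.comp continuous_snd)).continuousOn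
    (fun p hp => hp.1) (fun p _ => om_mem h.pos hp (KkGAux.circ_norm h0 h1 _))
    (fun p _ => om_mem h.pos hp (KkGAux.circ_norm h0 h1 _))

theorem II_cont (h : Crit a c) (hx : Br a c x) {κ ε ρ : ℝ} (hp : IsPar c κ ε) (h0 : 0 < ρ)
    (h1 : ρ < 1) (q q' : Fin n) :
    Continuous fun p : ℝ × ℝ => II a x q q' (om κ ε (circleMap 0 ρ p.1))
      (om κ ε (circleMap 0 ρ p.2)) := by
  have ho := KkGAux.om_cont hp h0 h1
  have hc : Continuous (uncurry fun (p : ℝ × ℝ) (t : ℝ) =>
      kk a x q q' (om κ ε (circleMap 0 ρ p.1)) (om κ ε (circleMap 0 ρ p.2))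
        (max 0 (min t 1))) := by
    rw [← continuousOn_univ]
    exact KkGAux.kk_gen h hx q q' (T := fun p : (ℝ × ℝ) × ℝ => max 0 (min p.2 1))
      (W := fun p : (ℝ × ℝ) × ℝ => om κ ε (circleMap 0 ρ p.1.1))
      (W' := fun p : (ℝ × ℝ) × ℝ => om κ ε (circleMap 0 ρ p.1.2))
      (continuous_const.max (continuous_snd.min continuous_const)).continuousOn
      (ho.comp (continuous_fst.comp continuous_fst)).continuousOn
      (ho.comp (continuous_snd.comp continuous_fst)).continuousOn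
      (fun p _ => ⟨le_max_left _ _, max_le zero_le_one (min_le_right _ _)⟩)
      (fun p _ => om_mem h.pos hp (KkGAux.circ_norm h0 h1 _))
      (fun p _ => om_mem h.pos hp (KkGAux.circ_norm h0 h1 _))
  refine (intervalIntegral.continuous_parametric_intervalIntegral_of_continuous'
    (μ := MeasureTheory.volume) hc 0 1).congr
    fun p => ?_
  unfold II
  refine intervalIntegral.integral_congr fun t ht => ?_
  rw [Set.uIcc_of_le zero_le_one] at ht
  have h2 : max 0 (min t 1) = t := by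
    rw [min_eq_left ht.2, max_eq_right ht.1]
  show kk a x q q' _ _ (max 0 (min t 1)) = _
  rw [h2]

theorem qk_cont {κ ε ρ : ℝ} (hp : IsPar c κ ε) (h0 : 0 < ρ) (h1 : ρ < 1) :
    Continuous fun p : ℝ × ℝ => qk κ ε (circleMap 0 ρ p.1) (circleMap 0 ρ p.2) := by
  have hc := continuous_circleMap 0 ρ
  have hc1 : Continuous fun p : ℝ × ℝ => circleMap 0 ρ p.1 := hc.comp continuous_fst
  have hc2 : Continuous fun p : ℝ × ℝ => circleMap 0 ρ p.2 := hc.comp continuous_snd
  unfold qk
  refine ((continuous_const.add ?_).sub ?_).sub ?_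
  · refine Continuous.log ?_ fun p => norm_ne_zero_iff.2
      (one_sub_ne hp (KkGAux.circ_norm h0 h1 _) (KkGAux.circ_norm h0 h1 _))
    exact (continuous_const.sub ((continuous_const.mul hc1).mul hc2)).norm
  · refine Continuous.log ?_ fun p => norm_ne_zero_iff.2
      (one_add_ne hp (KkGAux.circ_norm h0 h1 _))
    exact (continuous_const.add (continuous_const.mul (hc1.pow 2))).norm
  · refine Continuous.log ?_ fun p => norm_ne_zero_iff.2
      (one_add_ne hp (KkGAux.circ_norm h0 h1 _))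
    exact (continuous_const.add (continuous_const.mul (hc2.pow 2))).norm

theorem JJ_cont (h : Crit a c) (hx : Br a c x) {κ ε ρ : ℝ} (hp : IsPar c κ ε) (h0 : 0 < ρ)
    (h1 : ρ < 1) (q q' : Fin n) :
    Continuous fun p : ℝ × ℝ => JJ a x κ ε q q' (circleMap 0 ρ p.1) (circleMap 0 ρ p.2) := by
  unfold JJ
  refine Continuous.add ?_ (II_cont h hx hp h0 h1 q q')
  by_cases hq : q = q'
  · simp only [if_pos hq]
    exact (qk_cont hp h0 h1).sub continuous_const
  · simp only [if_neg hq]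
    exact continuous_const

end P4a177g
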