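import Pool.Agent.Lib.P4a177g.Defs

/-!
# MODULE P4a177g.LinA: operators acting on one index of a tensor (est. 1.4 h; finite sums only)

PROOF. `sum_update`: for fixed `k` the map `q ↦ update q s k`; exchange the sums: `∑_q ∑_k G (update q s k)` =
`∑_{q'} G q' * #{(q, k) : update q s k = q'} = ∑_{q'} (m s + 1) G q'` (or: the pair `(q, k)` ↦
`(update q s k, q s)` is an involution-type bijection). `nn_op_le`: for every `q` apply `h` to the line
`v k = u (update q s k)` (`update (update q s l) s k = update q s k`), sum over `q`, use `sum_update` on both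
sides and divide by `m s + 1`. `inner_op`: the transposed matrix: expand, exchange (again
`sum_update`, or the bijection `(q, k) ↦ (update q s k, q s)`). `op_lap`: for a line `v`:
`∑_q v_q ∑_k lapm a q k v_k = lapf a v` (expand the square in `lapf`; `log |a q - a q| = 0`), `sum_update`.
`ten_eq`: `∏_s P_s(q_s, i_s)`: sum over `i` of the terms: only the `i` with ... (write
`ten P u q = ∑_i (∏_t P_t(q_t, i_t)) u_i`; with `P' = update P s dd` we have `op s (P s) (ten P' u) q =
∑_k P_s(q_s,k) ∑_i (∏_t P'_t(update q s k t, i_t)) u_i` and the factor `t = s` is `dd k (i s)`, so only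
`k = i s` survives). `ten_dd`: all the factors are Kronecker symbols. `nn_ten_le`: induction on a finset `S`
of indices (`P_t = dd` outside `S`) by `ten_eq`, `nn_op_le`. `main_le`: with `P' = update P s₀ dd`:
`∑ u * ten P u = ∑ u * op s₀ (P s₀) (ten P' u) = ∑ (op s₀ (P s₀)^T u) * ten P' u`, Cauchy-Schwarz, and
`ten P' u = ten (update P' s₁ dd) (op s₁ (P s₁) u)` (the operators in different variables commute:
the same computation as in `ten_eq`), `nn_ten_le`.
-/

set_option autoImplicit false

namespace P4a177g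

open Function

noncomputable section

variable {D : ℕ} {m : Fin D → ℕ}

/-- The operator with the matrix `P` acting on the index `s`. -/
def op (s : Fin D) (P : Fin (m s + 1) → Fin (m s + 1) → ℝ) (u : (∀ s, Fin (m s + 1)) → ℝ)
    (q : ∀ s, Fin (m s + 1)) : ℝ := ∑ k, P (q s) k * u (update q s k)

/-- The tensor product of the operators `P s`. -/
def ten (P : ∀ s, Fin (m s + 1) → Fin (m s + 1) → ℝ) (u : (∀ s, Fin (m s + 1)) → ℝ)
    (q : ∀ s, Fin (m s + 1)) : ℝ := ∑ i : ∀ s, Fin (m s + 1), (∏ s, P s (q s) (i s)) * u i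

/-- The square of the norm. -/
def nn (u : (∀ s, Fin (m s + 1)) → ℝ) : ℝ := ∑ q, u q ^ 2

/-- The matrix of the Laplacian. -/
def lapm {n : ℕ} (a : Fin n → ℝ) (q k : Fin n) : ℝ :=
  if q = k then ∑ l, Real.log |a q - a l| else -Real.log |a q - a k|

end

variable {D : ℕ} {m : Fin D → ℕ}

namespace LinAAux

/-- The exchange of the pair `(q, k)` with `(update q s k, q s)`. -/
lemma swap (s : Fin D) (F : (∀ s, Fin (m s + 1)) → Fin (m s + 1) → ℝ) :
    ∑ q, ∑ k, F q k = ∑ q, ∑ k, F (update q s k) (q s) := by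
  rw [← Fintype.sum_prod_type', ← Fintype.sum_prod_type']
  refine Fintype.sum_bijective (fun x : (∀ s, Fin (m s + 1)) × Fin (m s + 1) =>
    ((update x.1 s x.2 : ∀ s, Fin (m s + 1)), x.1 s)) ?_ _ _ ?_
  · have hinv : Function.Involutive (fun x : (∀ s, Fin (m s + 1)) × Fin (m s + 1) =>
        ((update x.1 s x.2 : ∀ s, Fin (m s + 1)), x.1 s)) := by
      rintro ⟨q, k⟩
      simp
    exact hinv.bijective
  · rintro ⟨q, k⟩
    simp

end LinAAux

open LinAAux

theorem sum_update (s : Fin D) (G : (∀ s, Fin (m s + 1)) → ℝ) :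
    ∑ q, ∑ k, G (update q s k) = ((m s : ℝ) + 1) * ∑ q, G q := by
  have h := swap s (fun q (_ : Fin (m s + 1)) => G q)
  simp only at h
  rw [← h, Finset.mul_sum]
  refine Finset.sum_congr rfl fun q _ => ?_
  rw [Finset.sum_const, Finset.card_univ, Fintype.card_fin, nsmul_eq_mul]
  push_cast
  ring

namespace LinAAux

lemma op_update (s : Fin D) (P : Fin (m s + 1) → Fin (m s + 1) → ℝ)
    (u : (∀ s, Fin (m s + 1)) → ℝ) (q : ∀ s, Fin (m s + 1)) (l : Fin (m s + 1)) :
    op s P u (update q s l) = ∑ k, P l k * u (update q s k) := by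
  unfold op
  rw [update_self]
  refine Finset.sum_congr rfl fun k _ => ?_
  rw [update_idem]

lemma pos_card (s : Fin D) : (0 : ℝ) < (m s : ℝ) + 1 := by positivity

/-- comparison on lines -/
lemma line_le (s : Fin D) {F G : (∀ s, Fin (m s + 1)) → ℝ}
    (h : ∀ q, ∑ l, F (update q s l) ≤ ∑ l, G (update q s l)) : ∑ q, F q ≤ ∑ q, G q := by
  have h1 := Finset.sum_le_sum fun q (_ : q ∈ Finset.univ) => h q
  rw [sum_update s F, sum_update s G] at h1
  exact le_of_mul_le_mul_left h1 (pos_card s)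

end LinAAux

theorem nn_op_le (s : Fin D) (P : Fin (m s + 1) → Fin (m s + 1) → ℝ) {C : ℝ}
    (h : ∀ v : Fin (m s + 1) → ℝ, ∑ q, (∑ k, P q k * v k) ^ 2 ≤ C * ∑ k, v k ^ 2)
    (u : (∀ s, Fin (m s + 1)) → ℝ) : nn (op s P u) ≤ C * nn u := by
  unfold nn
  rw [Finset.mul_sum]
  refine line_le s fun q => ?_
  simp only [op_update]
  rw [← Finset.mul_sum]
  exact h fun k => u (update q s k)

theorem inner_op (s : Fin D) (P : Fin (m s + 1) → Fin (m s + 1) → ℝ)
    (u w : (∀ s, Fin (m s + 1)) → ℝ) :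
    ∑ q, u q * op s P w q = ∑ q, op s (fun k l => P l k) u q * w q := by
  unfold op
  simp only [Finset.mul_sum, Finset.sum_mul]
  rw [swap s]
  refine Finset.sum_congr rfl fun q _ => Finset.sum_congr rfl fun k _ => ?_
  rw [update_self, update_idem, update_eq_self]
  ring

theorem lap_line {n : ℕ} (a v : Fin n → ℝ) : ∑ q, v q * ∑ k, lapm a q k * v k = lapf a v := by
  have h1 : ∀ q, v q * ∑ k, lapm a q k * v k =
      ∑ k, (Real.log |a q - a k| * v q ^ 2 - Real.log |a q - a k| * (v q * v k)) := by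
    intro q
    have h2 : ∑ k, lapm a q k * v k =
        (∑ l, Real.log |a q - a l|) * v q - ∑ k, Real.log |a q - a k| * v k := by
      have h3 : ∀ k, lapm a q k * v k = (if q = k then (∑ l, Real.log |a q - a l|) * v k else 0) -
          Real.log |a q - a k| * v k := by
        intro k
        unfold lapm
        by_cases hk : q = k
        · subst hk
          rw [if_pos rfl, if_pos rfl, sub_self, abs_zero, Real.log_zero, zero_mul, sub_zero]
        · rw [if_neg hk, if_neg hk]
          ring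
      simp only [h3]
      rw [Finset.sum_sub_distrib, Finset.sum_ite_eq]
      simp
    rw [h2, Finset.sum_sub_distrib, mul_sub, ← Finset.sum_mul, Finset.mul_sum]
    congr 1
    · ring
    · refine Finset.sum_congr rfl fun k _ => ?_
      ring
  simp only [h1]
  unfold lapf
  have h4 : ∑ q, ∑ k, Real.log |a q - a k| * (v q - v k) ^ 2 =
      ∑ q, ∑ k, (Real.log |a q - a k| * v q ^ 2 - Real.log |a q - a k| * (v q * v k)) +
      ∑ q, ∑ k, (Real.log |a q - a k| * v k ^ 2 - Real.log |a q - a k| * (v q * v k)) := by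
    rw [← Finset.sum_add_distrib]
    refine Finset.sum_congr rfl fun q _ => ?_
    rw [← Finset.sum_add_distrib]
    refine Finset.sum_congr rfl fun k _ => ?_
    ring
  have h5 : ∑ q, ∑ k, (Real.log |a q - a k| * v k ^ 2 - Real.log |a q - a k| * (v q * v k)) =
      ∑ q, ∑ k, (Real.log |a q - a k| * v q ^ 2 - Real.log |a q - a k| * (v q * v k)) := by
    rw [Finset.sum_comm]
    refine Finset.sum_congr rfl fun q _ => Finset.sum_congr rfl fun k _ => ?_
    rw [abs_sub_comm (a k) (a q)]
    ring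
  rw [h4, h5]
  ring

/-- A lower bound of the quadratic form of the Laplacian on lines gives one on tensors. -/
theorem op_lap_ge (s : Fin D) (a : Fin (m s + 1) → ℝ) {C : ℝ}
    (h : ∀ v : Fin (m s + 1) → ℝ, ∑ k, v k = 0 → C * ∑ k, v k ^ 2 ≤ lapf a v)
    (u : (∀ s, Fin (m s + 1)) → ℝ) (hu : ∀ i, ∑ k, u (update i s k) = 0) :
    C * nn u ≤ ∑ q, u q * op s (lapm a) u q := by
  unfold nn
  rw [Finset.mul_sum]
  refine line_le s fun q => ?_
  simp only [op_update]
  rw [← Finset.mul_sum, lap_line a fun k => u (update q s k)]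
  exact h _ (hu q)

/-- The same with a sum of squares of operators. -/
theorem op_lap_ge' (s : Fin D) (a : Fin (m s + 1) → ℝ) {C : ℝ} (M : ℕ) (w : ℕ → ℝ)
    (P : ℕ → Fin (m s + 1) → Fin (m s + 1) → ℝ)
    (h : ∀ v : Fin (m s + 1) → ℝ, ∑ k, v k = 0 →
      ∑ j ∈ Finset.Icc 1 M, w j * ∑ q, (∑ k, P j q k * v k) ^ 2 ≤
        lapf a v - C * ∑ k, v k ^ 2)
    (u : (∀ s, Fin (m s + 1)) → ℝ) (hu : ∀ i, ∑ k, u (update i s k) = 0) :
    ∑ j ∈ Finset.Icc 1 M, w j * nn (op s (P j) u) ≤ ∑ q, u q * op s (lapm a) u q - C * nn u := by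
  unfold nn
  have e1 : ∑ j ∈ Finset.Icc 1 M, w j * ∑ q, op s (P j) u q ^ 2 =
      ∑ q, ∑ j ∈ Finset.Icc 1 M, w j * op s (P j) u q ^ 2 := by
    rw [Finset.sum_comm]
    refine Finset.sum_congr rfl fun j _ => ?_
    rw [Finset.mul_sum]
  rw [e1, Finset.mul_sum, ← Finset.sum_sub_distrib]
  refine line_le s fun q => ?_
  simp only [op_update]
  rw [Finset.sum_sub_distrib, ← Finset.mul_sum, lap_line a fun k => u (update q s k),
    Finset.sum_comm]
  simp only [← Finset.mul_sum]
  exact h _ (hu q)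

namespace LinAAux

/-- splitting off one factor -/
lemma prod_split (P : ∀ s, Fin (m s + 1) → Fin (m s + 1) → ℝ) (s : Fin D)
    (q i : ∀ s, Fin (m s + 1)) :
    ∏ t, P t (q t) (i t) = P s (q s) (i s) * ∏ t ∈ Finset.univ.erase s, P t (q t) (i t) :=
  (Finset.mul_prod_erase Finset.univ (fun t => P t (q t) (i t)) (Finset.mem_univ s)).symm

lemma prod_upd (P : ∀ s, Fin (m s + 1) → Fin (m s + 1) → ℝ) (s : Fin D)
    (q i : ∀ s, Fin (m s + 1)) :
    ∏ t, update P s dd t (q t) (i t) =
      dd (q s) (i s) * ∏ t ∈ Finset.univ.erase s, P t (q t) (i t) := by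
  rw [prod_split (update P s dd) s, update_self]
  congr 1
  refine Finset.prod_congr rfl fun t ht => ?_
  rw [update_of_ne (Finset.ne_of_mem_erase ht)]

lemma sum_dd {n : ℕ} (f : Fin n → ℝ) (j : Fin n) : ∑ k, f k * dd k j = f j := by
  unfold dd
  simp

lemma sum_dd' {n : ℕ} (f : Fin n → ℝ) (j : Fin n) : ∑ k, dd j k * f k = f j := by
  unfold dd
  simp

/-- the operator in the index `s` comes last -/
lemma ten_eq (P : ∀ s, Fin (m s + 1) → Fin (m s + 1) → ℝ) (s : Fin D)
    (u : (∀ s, Fin (m s + 1)) → ℝ) : ten P u = op s (P s) (ten (update P s dd) u) := by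
  funext q
  unfold op ten
  simp only [Finset.mul_sum]
  rw [Finset.sum_comm]
  refine Finset.sum_congr rfl fun i _ => ?_
  have h1 : ∀ k, P s (q s) k * ((∏ t, update P s dd t (update q s k t) (i t)) * u i) =
      (P s (q s) k * dd k (i s)) *
        ((∏ t ∈ Finset.univ.erase s, P t (q t) (i t)) * u i) := by
    intro k
    rw [prod_upd P s (update q s k) i, update_self]
    have h2 : ∏ t ∈ Finset.univ.erase s, P t (update q s k t) (i t) =
        ∏ t ∈ Finset.univ.erase s, P t (q t) (i t) := by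
      refine Finset.prod_congr rfl fun t ht => ?_
      rw [update_of_ne (Finset.ne_of_mem_erase ht)]
    rw [h2]
    ring
  simp only [h1]
  rw [← Finset.sum_mul, sum_dd, prod_split P s q i]
  ring

/-- the operator in the index `s` comes first -/
lemma ten_eq' (P : ∀ s, Fin (m s + 1) → Fin (m s + 1) → ℝ) (s : Fin D)
    (u : (∀ s, Fin (m s + 1)) → ℝ) : ten P u = ten (update P s dd) (op s (P s) u) := by
  funext q
  unfold op ten
  simp only [Finset.mul_sum]
  rw [swap s]
  refine Finset.sum_congr rfl fun i _ => ?_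
  have h1 : ∀ k, (∏ t, update P s dd t (q t) (update i s k t)) *
      (P s (update i s k s) (i s) * u (update (update i s k) s (i s))) =
      (dd (q s) k * P s k (i s)) *
        ((∏ t ∈ Finset.univ.erase s, P t (q t) (i t)) * u i) := by
    intro k
    rw [prod_upd P s q (update i s k), update_self, update_idem, update_eq_self]
    have h2 : ∏ t ∈ Finset.univ.erase s, P t (q t) (update i s k t) =
        ∏ t ∈ Finset.univ.erase s, P t (q t) (i t) := by
      refine Finset.prod_congr rfl fun t ht => ?_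
      rw [update_of_ne (Finset.ne_of_mem_erase ht)]
    rw [h2]
    ring
  simp only [h1]
  rw [← Finset.sum_mul, sum_dd', prod_split P s q i]
  ring

/-- all the factors are Kronecker symbols -/
lemma ten_dd (u : (∀ s, Fin (m s + 1)) → ℝ) : ten (fun _ => dd) u = u := by
  funext q
  unfold ten
  rw [Finset.sum_eq_single q]
  · unfold dd
    simp
  · intro i _ hi
    have h1 : ∃ s, q s ≠ i s := by
      by_contra hno
      push Not at hno
      exact hi (funext fun s => (hno s).symm)
    obtain ⟨s, hs⟩ := h1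
    have h2 : ∏ s, dd (q s) (i s) = 0 := by
      refine Finset.prod_eq_zero (Finset.mem_univ s) ?_
      unfold dd
      rw [if_neg hs]
    rw [h2, zero_mul]
  · intro h
    exact absurd (Finset.mem_univ q) h

open Classical in
/-- the factors outside `A` are replaced by the Kronecker symbol -/
noncomputable def PA (P : ∀ s, Fin (m s + 1) → Fin (m s + 1) → ℝ) (A : Finset (Fin D)) :
    ∀ s, Fin (m s + 1) → Fin (m s + 1) → ℝ := fun s => if s ∈ A then P s else dd

lemma nn_ten_le (P : ∀ s, Fin (m s + 1) → Fin (m s + 1) → ℝ) (C : Fin D → ℝ)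
    (hC : ∀ s, 0 ≤ C s) (A : Finset (Fin D))
    (h : ∀ s ∈ A, ∀ v : Fin (m s + 1) → ℝ,
      ∑ q, (∑ k, P s q k * v k) ^ 2 ≤ C s * ∑ k, v k ^ 2)
    (u : (∀ s, Fin (m s + 1)) → ℝ) : nn (ten (PA P A) u) ≤ (∏ s ∈ A, C s) * nn u := by
  classical
  induction A using Finset.induction_on with
  | empty =>
    have : PA P ∅ = fun _ => dd := by
      funext s
      unfold PA
      simp
    rw [this, ten_dd, Finset.prod_empty, one_mul]
  | insert s A hs ih =>
    have h1 : PA P (insert s A) s = P s := by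
      unfold PA
      rw [if_pos (Finset.mem_insert_self s A)]
    have h2 : update (PA P (insert s A)) s dd = PA P A := by
      funext t
      by_cases ht : t = s
      · subst ht
        rw [update_self]
        unfold PA
        rw [if_neg hs]
      · rw [update_of_ne ht]
        unfold PA
        by_cases hA : t ∈ A
        · rw [if_pos hA, if_pos (Finset.mem_insert_of_mem hA)]
        · rw [if_neg hA, if_neg (fun h => (Finset.mem_insert.1 h).elim ht hA)]
    rw [ten_eq (PA P (insert s A)) s, h1, h2, Finset.prod_insert hs]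
    refine (nn_op_le s (P s) (h s (Finset.mem_insert_self s A)) _).trans ?_
    rw [mul_assoc]
    exact mul_le_mul_of_nonneg_left (ih fun t ht => h t (Finset.mem_insert_of_mem ht)) (hC s)

lemma nn_nonneg (u : (∀ s, Fin (m s + 1)) → ℝ) : 0 ≤ nn u := by
  unfold nn
  exact Finset.sum_nonneg fun q _ => sq_nonneg _

end LinAAux

/-- The main estimate: `P s₀` is estimated by the transposed matrix, `P s₁` is kept. -/
theorem main_le (s₀ s₁ : Fin D) (hne : s₀ ≠ s₁) (P : ∀ s, Fin (m s + 1) → Fin (m s + 1) → ℝ)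
    {C₀ : ℝ} (hC₀ : 0 ≤ C₀)
    (h₀ : ∀ y : Fin (m s₀ + 1) → ℝ, ∑ k, (∑ q, P s₀ q k * y q) ^ 2 ≤ C₀ * ∑ q, y q ^ 2)
    (C : Fin D → ℝ) (hC : ∀ s, 0 ≤ C s)
    (h : ∀ s, s ≠ s₀ → s ≠ s₁ → ∀ v : Fin (m s + 1) → ℝ,
      ∑ q, (∑ k, P s q k * v k) ^ 2 ≤ C s * ∑ k, v k ^ 2)
    (u : (∀ s, Fin (m s + 1)) → ℝ) :
    (∑ q, u q * ten P u q) ^ 2 ≤
      (C₀ * nn u) * ((∏ s ∈ (Finset.univ.erase s₀).erase s₁, C s) * nn (op s₁ (P s₁) u)) := by
  classical
  have e1 : ∑ q, u q * ten P u q =
      ∑ q, op s₀ (fun k l => P s₀ l k) u q * ten (update P s₀ dd) u q := by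
    rw [ten_eq P s₀, inner_op]
  have e2 : ten (update P s₀ dd) u =
      ten (PA P ((Finset.univ.erase s₀).erase s₁)) (op s₁ (P s₁) u) := by
    rw [ten_eq' (update P s₀ dd) s₁, update_of_ne hne.symm]
    congr 1
    funext t
    unfold PA
    by_cases h1 : t = s₁
    · subst h1
      rw [update_self, if_neg (Finset.notMem_erase t _)]
    · rw [update_of_ne h1]
      by_cases h2 : t = s₀
      · subst h2
        rw [update_self, if_neg]
        intro h3
        exact Finset.notMem_erase t _ (Finset.mem_of_mem_erase h3)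
      · rw [update_of_ne h2, if_pos]
        rw [Finset.mem_erase, Finset.mem_erase]
        exact ⟨h1, h2, Finset.mem_univ t⟩
  rw [e1]
  refine (Finset.sum_mul_sq_le_sq_mul_sq _ _ _).trans ?_
  have f1 : ∑ q, op s₀ (fun k l => P s₀ l k) u q ^ 2 ≤ C₀ * nn u := by
    refine nn_op_le s₀ (fun k l => P s₀ l k) (fun v => ?_) u
    exact h₀ v
  have f2 : ∑ q, ten (update P s₀ dd) u q ^ 2 ≤
      (∏ s ∈ (Finset.univ.erase s₀).erase s₁, C s) * nn (op s₁ (P s₁) u) := by
    rw [e2]
    refine nn_ten_le P C hC _ (fun s hs => ?_) _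
    rw [Finset.mem_erase, Finset.mem_erase] at hs
    exact h s hs.2.1 hs.1
  exact mul_le_mul f1 f2 (Finset.sum_nonneg fun q _ => sq_nonneg _)
    (mul_nonneg hC₀ (nn_nonneg u))

end P4a177g
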