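import Pool.Agent.Lib.P4a177g.LinA
import Pool.Agent.Lib.P4a177g.AbcG
import Pool.Agent.Lib.P4a177g.GoodG

/-!
# The quadratic form of the regulator matrix is definite

Let `X_j = ∑_q u_q * ten P_j u q`, `P_j s = hq (aR A s) · · j` (`hh A q s k j = hq (aR A s) (q s) k j`
for `j ≥ 1`). By the definition of `mm`
`-∑_q u_q ∑_i u_i (mm + EG) = log N nn u + ∑_s ⟨u, op s (lapm a_s) u⟩ - ∑_{j ≥ 1} N^(-j) X_j / j`.
With `r = 1 / (N ∏_{s ≠ 1} c s)`, `0 < r < c 1`, `main_le` gives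
`(N^(-j) X_j)^2 ≤ (nn u / j) * (r^(2j) nn (op 1 P_j u))`, so
`N^(-j) X_j ≤ nn u / (4 j) + r^(2j) nn (op 1 P_j u)`. Sum over `j ≤ M` with the weights `1/j`:
`∑_{j ≤ M} N^(-j) X_j / j ≤ nn u / 2 + ⟨u, op 1 (lapm a_1) u⟩ - log r nn u`; let `M → ∞`. As
`log N + log r = -∑_{s ≠ 1} log (c s)` and `⟨u, op s (lapm a_s) u⟩ ≥ log (2 c_s) nn u` for `s ≠ 1`,
the quadratic form is `≥ ((d + 1) log 2 - 1/2) nn u > 0`.
-/

set_option autoImplicit false

namespace P4a177g

open P4a177h P4a177e P4a177f Function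
open scoped Real

variable {d : ℕ}

namespace LinBAux

theorem hh_eq (A : Fam d) (q : ∀ s, Fin (A.m s + 1)) (s : Fin (d + 2)) (k : Fin (A.m s + 1))
    {j : ℕ} (hj : 1 ≤ j) : hh A q s k j = hq (aR A s) (q s) k j := by
  have h0 : j ≠ 0 := by omega
  unfold hh hq
  rw [if_neg h0]
  congr 1
  funext l
  simp only [bR, df, aR]
  push_cast
  ring

theorem lap_eq (A : Fam d) (q : ∀ s, Fin (A.m s + 1)) (s : Fin (d + 2)) (k : Fin (A.m s + 1)) :
    lap A q s k = lapm (aR A s) (q s) k := by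
  have h1 : ∀ l, ((df A q s l : ℤ) : ℝ) = aR A s (q s) - aR A s l := fun l => by
    simp only [df, aR]
    push_cast
    ring
  unfold lap lapm
  by_cases h : k = q s
  · rw [if_pos h, if_pos h.symm, ← Finset.add_sum_erase _ _ (Finset.mem_univ (q s)), sub_self,
      abs_zero, Real.log_zero, zero_add]
    exact Finset.sum_congr rfl fun l _ => by rw [h1]
  · rw [if_neg h, if_neg (Ne.symm h), h1]

/-- the operators -/
noncomputable def PP (A : Fam d) (j : ℕ) (s : Fin (d + 2)) (q k : Fin (A.m s + 1)) : ℝ :=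
  hq (aR A s) q k j

theorem sum_delta (A : Fam d) (u : (∀ s, Fin (A.m s + 1)) → ℝ) (q : ∀ s, Fin (A.m s + 1)) :
    ∑ i : ∀ s, Fin (A.m s + 1), u i * ∏ s, (if i s = q s then (1 : ℝ) else 0) = u q := by
  rw [Finset.sum_eq_single q]
  · simp
  · intro i _ hi
    obtain ⟨s, hs⟩ := Function.ne_iff.1 hi
    rw [Finset.prod_eq_zero (Finset.mem_univ s) (if_neg hs), mul_zero]
  · intro h
    exact absurd (Finset.mem_univ q) h

theorem sum_lap (A : Fam d) (u : (∀ s, Fin (A.m s + 1)) → ℝ) (q : ∀ s, Fin (A.m s + 1))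
    (s : Fin (d + 2)) :
    ∑ i : ∀ s, Fin (A.m s + 1), u i * (lap A q s (i s) *
      ∏ t ∈ Finset.univ.erase s, (if i t = q t then (1 : ℝ) else 0)) =
        op s (lapm (aR A s)) u q := by
  unfold op
  have h1 : ∀ i : ∀ s, Fin (A.m s + 1), (∏ t ∈ Finset.univ.erase s,
      (if i t = q t then (1 : ℝ) else 0)) = if i = update q s (i s) then 1 else 0 := by
    intro i
    by_cases h : i = update q s (i s)
    · rw [if_pos h]
      refine Finset.prod_eq_one fun t ht => if_pos ?_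
      have hts : t ≠ s := Finset.ne_of_mem_erase ht
      rw [h, update_of_ne hts]
    · rw [if_neg h]
      obtain ⟨t, ht⟩ := Function.ne_iff.1 h
      have hts : t ≠ s := by
        rintro rfl
        exact ht (by rw [update_self])
      rw [update_of_ne hts] at ht
      exact Finset.prod_eq_zero (Finset.mem_erase.2 ⟨hts, Finset.mem_univ t⟩) (if_neg ht)
  simp only [h1, mul_ite, mul_one, mul_zero]
  rw [← Finset.sum_filter]
  refine Finset.sum_nbij' (fun i => i s) (fun k => update q s k) (fun _ _ => Finset.mem_univ _)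
    ?_ ?_ ?_ ?_
  · intro k _
    rw [Finset.mem_filter]
    exact ⟨Finset.mem_univ _, by rw [update_self]⟩
  · intro i hi
    exact (Finset.mem_filter.1 hi).2.symm
  · intro k _
    exact update_self _ _ _
  · intro i hi
    rw [← (Finset.mem_filter.1 hi).2, lap_eq, mul_comm]

theorem sum_mm (A : Fam d) (N : ℕ) (u : (∀ s, Fin (A.m s + 1)) → ℝ)
    (q : ∀ s, Fin (A.m s + 1)) :
    ∑ i, u i * mm A N q i =
      -(Real.log N * u q + ∑ s, op s (lapm (aR A s)) u q) := by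
  have h1 : ∀ i : ∀ s, Fin (A.m s + 1), u i * mm A N q i =
      -(Real.log N * (u i * ∏ s, (if i s = q s then (1 : ℝ) else 0)) +
        ∑ s, u i * (lap A q s (i s) *
          ∏ t ∈ Finset.univ.erase s, (if i t = q t then (1 : ℝ) else 0))) := by
    intro i
    unfold mm
    rw [← Finset.mul_sum]
    ring
  simp only [h1]
  rw [Finset.sum_neg_distrib, Finset.sum_add_distrib, ← Finset.mul_sum, sum_delta,
    Finset.sum_comm]
  simp only [sum_lap]

theorem sum_EG (A : Fam d) {N : ℕ} (hN : 1 ≤ N) {c : Fin (d + 2) → ℝ}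
    (hc : ∀ s, Crit (aR A s) (c s)) (hbig : 1 < (N : ℝ) * ∏ s, c s)
    (u : (∀ s, Fin (A.m s + 1)) → ℝ) :
    HasSum (fun j : ℕ => (1 / (N : ℝ)) ^ (j + 1) / ((j : ℝ) + 1) *
      ∑ q, u q * ten (PP A (j + 1)) u q) (∑ q, u q * ∑ i, u i * EG A N q i) := by
  have hN0 : (0 : ℝ) < N := by exact_mod_cast hN
  have hc0 : ∀ s, 0 < c s := fun s => (hc s).pos
  have hP0 : 0 < (N : ℝ) * ∏ s, c s := zero_lt_one.trans hbig
  set ρ : ℝ := 1 / ((N : ℝ) * ∏ s, c s) with hρ
  have hρ0 : 0 ≤ ρ := by positivity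
  have hρ1 : ρ < 1 := by
    rw [hρ, div_lt_one hP0]
    exact hbig
  have hsum : ∀ q i : ∀ s, Fin (A.m s + 1), HasSum
      (fun j : ℕ => (1 / (N : ℝ)) ^ (j + 1) / ((j : ℝ) + 1) * ∏ s, hh A q s (i s) (j + 1))
      (EG A N q i) := by
    intro q i
    refine Summable.hasSum ?_
    refine Summable.of_norm_bounded (g := fun j : ℕ => ρ ^ (j + 1))
      ((summable_nat_add_iff 1).2 (summable_geometric_of_lt_one hρ0 hρ1)) fun j => ?_
    have h1 : ∀ s, |hh A q s (i s) (j + 1)| ≤ (1 / c s) ^ (j + 1) := fun s => by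
      rw [hh_eq A q s (i s) (by omega)]
      exact abs_hq_le (hc s) (by omega) _ _
    have h2 : |∏ s, hh A q s (i s) (j + 1)| ≤ ∏ s, (1 / c s) ^ (j + 1) := by
      rw [Finset.abs_prod]
      exact Finset.prod_le_prod (fun s _ => abs_nonneg _) fun s _ => h1 s
    have h3 : |(1 / (N : ℝ)) ^ (j + 1) / ((j : ℝ) + 1)| ≤ (1 / (N : ℝ)) ^ (j + 1) := by
      rw [abs_of_nonneg (by positivity)]
      exact div_le_self (by positivity) (by linarith [(Nat.cast_nonneg j : (0 : ℝ) ≤ j)])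
    rw [Real.norm_eq_abs, abs_mul]
    calc |(1 / (N : ℝ)) ^ (j + 1) / ((j : ℝ) + 1)| * |∏ s, hh A q s (i s) (j + 1)|
        ≤ (1 / (N : ℝ)) ^ (j + 1) * ∏ s, (1 / c s) ^ (j + 1) :=
          mul_le_mul h3 h2 (abs_nonneg _) (by positivity)
      _ = ρ ^ (j + 1) := by
          rw [Finset.prod_pow, ← mul_pow, hρ]
          congr 1
          rw [Finset.prod_div_distrib, Finset.prod_const_one, div_mul_div_comm, one_mul]
  have h2 : HasSum (fun j : ℕ => ∑ q, u q * ∑ i, u i *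
      ((1 / (N : ℝ)) ^ (j + 1) / ((j : ℝ) + 1) * ∏ s, hh A q s (i s) (j + 1)))
      (∑ q, u q * ∑ i, u i * EG A N q i) :=
    hasSum_sum fun q _ => (hasSum_sum fun i _ => (hsum q i).mul_left (u i)).mul_left (u q)
  have h3 : (fun j : ℕ => ∑ q, u q * ∑ i, u i *
      ((1 / (N : ℝ)) ^ (j + 1) / ((j : ℝ) + 1) * ∏ s, hh A q s (i s) (j + 1))) =
      fun j : ℕ => (1 / (N : ℝ)) ^ (j + 1) / ((j : ℝ) + 1) *
        ∑ q, u q * ten (PP A (j + 1)) u q := by
    funext j
    rw [Finset.mul_sum]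
    refine Finset.sum_congr rfl fun q _ => ?_
    unfold ten PP
    rw [mul_left_comm]
    congr 1
    rw [Finset.mul_sum]
    refine Finset.sum_congr rfl fun i _ => ?_
    rw [Finset.prod_congr rfl fun s _ => hh_eq A q s (i s) (show 1 ≤ j + 1 by omega)]
    ring
  rw [h3] at h2
  exact h2

theorem sum_sq_le (M : ℕ) : ∑ j ∈ Finset.Icc 1 M, 1 / (j : ℝ) ^ 2 ≤ 2 := by
  have h : ∀ M : ℕ, ∑ j ∈ Finset.Icc 1 (M + 1), 1 / (j : ℝ) ^ 2 ≤ 2 - 1 / ((M : ℝ) + 1) := by
    intro M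
    induction M with
    | zero => norm_num
    | succ M ih =>
      rw [Finset.sum_Icc_succ_top (by omega)]
      have h0 : (0 : ℝ) ≤ M := Nat.cast_nonneg M
      have h1 : 1 / (((M + 1 + 1 : ℕ) : ℝ)) ^ 2 ≤
          1 / ((M : ℝ) + 1) - 1 / (((M + 1 : ℕ) : ℝ) + 1) := by
        push_cast
        have h2 : 1 / ((M : ℝ) + 1) - 1 / ((M : ℝ) + 1 + 1) =
            1 / (((M : ℝ) + 1) * ((M : ℝ) + 1 + 1)) := by
          field_simp
          ring
        rw [h2]
        exact div_le_div_of_nonneg_left zero_le_one (by positivity) (by nlinarith)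
      linarith
  cases M with
  | zero => simp
  | succ M =>
    have h0 : (0 : ℝ) < 1 / ((M : ℝ) + 1) := by positivity
    linarith [h M]

/-- one term -/
theorem term_le (A : Fam d) {N : ℕ} (hN : 1 ≤ N) {c : Fin (d + 2) → ℝ}
    (hc : ∀ s, Crit (aR A s) (c s)) (u : (∀ s, Fin (A.m s + 1)) → ℝ) {r : ℝ}
    (hr : r = 1 / ((N : ℝ) * ∏ s ∈ Finset.univ.erase 1, c s)) {j : ℕ} (hj : 1 ≤ j) :
    (1 / (N : ℝ)) ^ j * ∑ q, u q * ten (PP A j) u q ≤
      nn u / (4 * j) + r ^ (2 * j) * nn (op 1 (PP A j 1) u) := by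
  have hN0 : (0 : ℝ) < N := by exact_mod_cast hN
  have hc0 : ∀ s, 0 < c s := fun s => (hc s).pos
  have hj0 : (0 : ℝ) < j := by exact_mod_cast hj
  have hj1 : (1 : ℝ) ≤ j := by exact_mod_cast hj
  have hm := main_le (m := A.m) (0 : Fin (d + 2)) 1 Fin.zero_ne_one (PP A j)
    (C₀ := (1 / c 0) ^ (2 * j) / j) (by have := hc0 0; positivity)
    (fun y => by
      have h1 := beta (hc 0) hj y
      have h2 : 0 < c 0 ^ (2 * j) := pow_pos (hc0 0) _
      rw [one_div_pow, div_div, one_div_mul_eq_div]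
      rw [le_div_iff₀ (by positivity)]
      rw [one_div_mul_eq_div, le_div_iff₀ hj0] at h1
      calc (∑ k, (∑ q, PP A j 0 q k * y q) ^ 2) * (c 0 ^ (2 * j) * j)
          = c 0 ^ (2 * j) * (∑ k, (∑ q, hq (aR A 0) q k j * y q) ^ 2) * j := by
            unfold PP
            ring
        _ ≤ _ := h1)
    (fun s => (1 / c s) ^ (2 * j)) (fun s => by have := hc0 s; positivity)
    (fun s _ _ v => by
      have h1 := beta' (hc s) hj v
      have h2 : 0 < c s ^ (2 * j) := pow_pos (hc0 s) _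
      have h3 : 0 ≤ ∑ k, v k ^ 2 := Finset.sum_nonneg fun k _ => sq_nonneg _
      have h4 : 1 / (j : ℝ) * ∑ k, v k ^ 2 ≤ 1 * ∑ k, v k ^ 2 :=
        mul_le_mul_of_nonneg_right ((div_le_one hj0).2 hj1) h3
      rw [one_mul] at h4
      rw [one_div_pow, one_div_mul_eq_div, le_div_iff₀ h2, mul_comm]
      exact h1.trans h4) u
  set X : ℝ := ∑ q, u q * ten (PP A j) u q with hX
  set Y : ℝ := nn (op 1 (PP A j 1) u) with hY
  have hY0 : 0 ≤ Y := Finset.sum_nonneg fun q _ => sq_nonneg _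
  have hn0 : 0 ≤ nn u := Finset.sum_nonneg fun q _ => sq_nonneg _
  have hprod : ∏ s ∈ Finset.univ.erase (1 : Fin (d + 2)), c s =
      c 0 * ∏ s ∈ (Finset.univ.erase 0).erase (1 : Fin (d + 2)), c s := by
    rw [Finset.erase_right_comm]
    exact (Finset.mul_prod_erase _ _ (Finset.mem_erase.2 ⟨Fin.zero_ne_one, Finset.mem_univ _⟩)).symm
  have hP0 : 0 < ∏ s ∈ (Finset.univ.erase 0).erase (1 : Fin (d + 2)), c s :=
    Finset.prod_pos fun s _ => hc0 s
  have hrp : r ^ (2 * j) = ((1 / (N : ℝ)) ^ j) ^ 2 * ((1 / c 0) ^ (2 * j) *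
      ∏ s ∈ (Finset.univ.erase 0).erase (1 : Fin (d + 2)), (1 / c s) ^ (2 * j)) := by
    rw [Finset.prod_pow, Finset.prod_div_distrib, Finset.prod_const_one, ← pow_mul, mul_comm j 2,
      ← mul_pow, ← mul_pow, hr, hprod]
    congr 1
    have := hc0 0
    field_simp
  have hsq : ((1 / (N : ℝ)) ^ j * X) ^ 2 ≤ (nn u / j) * (r ^ (2 * j) * Y) := by
    calc ((1 / (N : ℝ)) ^ j * X) ^ 2 = ((1 / (N : ℝ)) ^ j) ^ 2 * X ^ 2 := by ring
      _ ≤ ((1 / (N : ℝ)) ^ j) ^ 2 * (((1 / c 0) ^ (2 * j) / j * nn u) *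
          ((∏ s ∈ (Finset.univ.erase 0).erase (1 : Fin (d + 2)), (1 / c s) ^ (2 * j)) * Y)) :=
          mul_le_mul_of_nonneg_left hm (by positivity)
      _ = (nn u / j) * (r ^ (2 * j) * Y) := by
          rw [hrp]
          ring
  have hr0 : 0 ≤ r ^ (2 * j) := by
    rw [pow_mul]
    exact pow_nonneg (sq_nonneg r) j
  have hb0 : 0 ≤ r ^ (2 * j) * Y := mul_nonneg hr0 hY0
  have ha0 : 0 ≤ nn u / j := by positivity
  have hab : (nn u / j) * (r ^ (2 * j) * Y) ≤ (nn u / j / 4 + r ^ (2 * j) * Y) ^ 2 := by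
    nlinarith [sq_nonneg (nn u / j / 4 - r ^ (2 * j) * Y)]
  have hfin := abs_le_of_sq_le_sq (hsq.trans hab) (by positivity)
  have h4 : nn u / (4 * j) = nn u / j / 4 := by
    field_simp
  rw [h4]
  exact (le_abs_self _).trans hfin

theorem part_le (A : Fam d) {N : ℕ} (hN : 1 ≤ N) {c : Fin (d + 2) → ℝ}
    (hc : ∀ s, Crit (aR A s) (c s)) (hbig : 1 < (N : ℝ) * ∏ s, c s)
    (u : (∀ s, Fin (A.m s + 1)) → ℝ) (hsum : ∀ s i, ∑ k, u (update i s k) = 0) {r : ℝ}
    (hr : r = 1 / ((N : ℝ) * ∏ s ∈ Finset.univ.erase 1, c s)) (M : ℕ) :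
    ∑ j ∈ Finset.Icc 1 M, (1 / (N : ℝ)) ^ j / j * ∑ q, u q * ten (PP A j) u q ≤
      nn u / 2 + (∑ q, u q * op 1 (lapm (aR A 1)) u q - Real.log r * nn u) := by
  have hN0 : (0 : ℝ) < N := by exact_mod_cast hN
  have hc0 : ∀ s, 0 < c s := fun s => (hc s).pos
  have hP0 : 0 < ∏ s ∈ Finset.univ.erase (1 : Fin (d + 2)), c s :=
    Finset.prod_pos fun s _ => hc0 s
  have hr0 : 0 < r := by
    rw [hr]
    positivity
  have hr1 : r < c 1 := by
    rw [hr, div_lt_iff₀ (by positivity)]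
    rw [← Finset.mul_prod_erase _ _ (Finset.mem_univ (1 : Fin (d + 2)))] at hbig
    calc (1 : ℝ) < N * (c 1 * ∏ s ∈ Finset.univ.erase (1 : Fin (d + 2)), c s) := hbig
      _ = _ := by ring
  have hn0 : 0 ≤ nn u := Finset.sum_nonneg fun q _ => sq_nonneg _
  have h1 := op_lap_ge' (m := A.m) (1 : Fin (d + 2)) (aR A 1) (C := Real.log r) M
    (fun j => r ^ (2 * j) / j) (fun j => PP A j 1)
    (fun v hv => by
      refine le_trans (le_of_eq ?_) (gamma (hc 1) hr0 hr1 v hv M)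
      refine Finset.sum_congr rfl fun j _ => ?_
      unfold PP
      ring) u (fun i => hsum 1 i)
  calc ∑ j ∈ Finset.Icc 1 M, (1 / (N : ℝ)) ^ j / j * ∑ q, u q * ten (PP A j) u q
      ≤ ∑ j ∈ Finset.Icc 1 M, (nn u / 4 * (1 / (j : ℝ) ^ 2) +
          r ^ (2 * j) / j * nn (op 1 (PP A j 1) u)) := by
        refine Finset.sum_le_sum fun j hj => ?_
        have hj1 := (Finset.mem_Icc.1 hj).1
        have hj0 : (0 : ℝ) < j := by exact_mod_cast hj1
        have h2 := term_le A hN hc u hr hj1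
        calc (1 / (N : ℝ)) ^ j / j * ∑ q, u q * ten (PP A j) u q
            = 1 / (j : ℝ) * ((1 / (N : ℝ)) ^ j * ∑ q, u q * ten (PP A j) u q) := by ring
          _ ≤ 1 / (j : ℝ) * (nn u / (4 * j) + r ^ (2 * j) * nn (op 1 (PP A j 1) u)) :=
              mul_le_mul_of_nonneg_left h2 (by positivity)
          _ = _ := by
              field_simp
    _ = nn u / 4 * ∑ j ∈ Finset.Icc 1 M, 1 / (j : ℝ) ^ 2 +
          ∑ j ∈ Finset.Icc 1 M, r ^ (2 * j) / j * nn (op 1 (PP A j 1) u) := by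
        rw [Finset.sum_add_distrib, ← Finset.mul_sum]
    _ ≤ nn u / 4 * 2 + (∑ q, u q * op 1 (lapm (aR A 1)) u q - Real.log r * nn u) :=
        add_le_add (mul_le_mul_of_nonneg_left (sum_sq_le M) (by positivity)) h1
    _ = _ := by ring

theorem form_lt (A : Fam d) {N : ℕ} (hN : 1 ≤ N) {c : Fin (d + 2) → ℝ}
    (hc : ∀ s, Crit (aR A s) (c s)) (hbig : 1 < (N : ℝ) * ∏ s, c s)
    (u : (∀ s, Fin (A.m s + 1)) → ℝ) (hu : u ≠ 0) (hsum : ∀ s i, ∑ k, u (update i s k) = 0) :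
    ∑ q, u q * ∑ i, u i * (mm A N q i + EG A N q i) < 0 := by
  have hN0 : (0 : ℝ) < N := by exact_mod_cast hN
  have hc0 : ∀ s, 0 < c s := fun s => (hc s).pos
  have hP0 : 0 < ∏ s ∈ Finset.univ.erase (1 : Fin (d + 2)), c s :=
    Finset.prod_pos fun s _ => hc0 s
  set r : ℝ := 1 / ((N : ℝ) * ∏ s ∈ Finset.univ.erase 1, c s) with hr
  have hn0 : 0 < nn u := by
    obtain ⟨q, hq⟩ := Function.ne_iff.1 hu
    exact Finset.sum_pos' (fun q _ => sq_nonneg _) ⟨q, Finset.mem_univ q, by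
      have : u q ≠ 0 := hq
      positivity⟩
  -- the error term
  have hEG : ∑ q, u q * ∑ i, u i * EG A N q i ≤
      nn u / 2 + (∑ q, u q * op 1 (lapm (aR A 1)) u q - Real.log r * nn u) := by
    have h1 := (sum_EG A hN hc hbig u).tendsto_sum_nat
    refine le_of_tendsto' h1 fun M => ?_
    have h2 : ∑ j ∈ Finset.range M, (1 / (N : ℝ)) ^ (j + 1) / ((j : ℝ) + 1) *
        ∑ q, u q * ten (PP A (j + 1)) u q =
        ∑ j ∈ Finset.Icc 1 M, (1 / (N : ℝ)) ^ j / j * ∑ q, u q * ten (PP A j) u q := by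
      refine Finset.sum_nbij' (fun j => j + 1) (fun j => j - 1) ?_ ?_ ?_ ?_ ?_
      · intro j hj
        have := Finset.mem_range.1 hj
        exact Finset.mem_Icc.2 ⟨by omega, by omega⟩
      · intro j hj
        have := Finset.mem_Icc.1 hj
        exact Finset.mem_range.2 (by omega)
      · intro j _
        simp
      · intro j hj
        have := Finset.mem_Icc.1 hj
        show j - 1 + 1 = j
        omega
      · intro j _
        push_cast
        rfl
    rw [h2]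
    exact part_le A hN hc hbig u hsum hr M
  -- the main term
  have hmm : ∑ q, u q * ∑ i, u i * mm A N q i =
      -(Real.log N * nn u + ∑ s, ∑ q, u q * op s (lapm (aR A s)) u q) := by
    simp only [sum_mm]
    unfold nn
    rw [Finset.sum_comm (s := (Finset.univ : Finset (Fin (d + 2)))), Finset.mul_sum,
      ← Finset.sum_add_distrib, ← Finset.sum_neg_distrib]
    refine Finset.sum_congr rfl fun q _ => ?_
    rw [← Finset.mul_sum]
    ring
  have hlap : ∀ s ∈ Finset.univ.erase (1 : Fin (d + 2)),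
      Real.log (2 * c s) * nn u ≤ ∑ q, u q * op s (lapm (aR A s)) u q := fun s _ =>
    op_lap_ge (m := A.m) s (aR A s) (fun v hv => alpha (hc s) v hv) u (fun i => hsum s i)
  have hsplit : ∑ s, ∑ q, u q * op s (lapm (aR A s)) u q =
      ∑ q, u q * op 1 (lapm (aR A 1)) u q +
        ∑ s ∈ Finset.univ.erase (1 : Fin (d + 2)), ∑ q, u q * op s (lapm (aR A s)) u q :=
    (Finset.add_sum_erase _ _ (Finset.mem_univ 1)).symm
  have hlog : Real.log r = -(Real.log N + ∑ s ∈ Finset.univ.erase (1 : Fin (d + 2)),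
      Real.log (c s)) := by
    rw [hr, one_div, Real.log_inv, Real.log_mul hN0.ne' hP0.ne', Real.log_prod]
    exact fun s _ => (hc0 s).ne'
  have hcard : (Finset.univ.erase (1 : Fin (d + 2))).card = d + 1 := by
    rw [Finset.card_erase_of_mem (Finset.mem_univ _), Finset.card_univ, Fintype.card_fin]
    rfl
  have hge : (((d : ℝ) + 1) * Real.log 2 + ∑ s ∈ Finset.univ.erase (1 : Fin (d + 2)),
      Real.log (c s)) * nn u ≤
      ∑ s ∈ Finset.univ.erase (1 : Fin (d + 2)), ∑ q, u q * op s (lapm (aR A s)) u q := by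
    refine le_trans (le_of_eq ?_) (Finset.sum_le_sum hlap)
    rw [← Finset.sum_mul]
    congr 1
    rw [Finset.sum_congr rfl fun s _ => Real.log_mul two_ne_zero (hc0 s).ne',
      Finset.sum_add_distrib, Finset.sum_const, hcard, nsmul_eq_mul]
    push_cast
    ring
  have htot : ∑ q, u q * ∑ i, u i * (mm A N q i + EG A N q i) =
      ∑ q, u q * ∑ i, u i * mm A N q i + ∑ q, u q * ∑ i, u i * EG A N q i := by
    rw [← Finset.sum_add_distrib]
    refine Finset.sum_congr rfl fun q _ => ?_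
    rw [← mul_add, ← Finset.sum_add_distrib]
    congr 1
    exact Finset.sum_congr rfl fun i _ => by ring
  rw [htot, hmm, hsplit]
  have hl2 : (0.69 : ℝ) < Real.log 2 := lt_trans (by norm_num) Real.log_two_gt_d9
  have hd0 : (0 : ℝ) ≤ d := Nat.cast_nonneg d
  have h5 : (1 / 2 : ℝ) < ((d : ℝ) + 1) * Real.log 2 := by nlinarith
  have h6 : 0 < (((d : ℝ) + 1) * Real.log 2 - 1 / 2) * nn u :=
    mul_pos (by linarith) hn0
  rw [hlog] at hEG
  nlinarith

end LinBAux

open LinBAux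

theorem exists_ne (A : Fam d) {N : ℕ} (hN : 1 ≤ N) {c : Fin (d + 2) → ℝ}
    (hc : ∀ s, Crit (aR A s) (c s)) (hbig : 1 < (N : ℝ) * ∏ s, c s)
    (u : (∀ s, Fin (A.m s + 1)) → ℝ) (hu : u ≠ 0) (hsum : ∀ s i, ∑ k, u (update i s k) = 0) :
    ∃ q, ∑ i, u i * (mm A N q i + EG A N q i) ≠ 0 := by
  by_contra h
  push Not at h
  have h1 := form_lt A hN hc hbig u hu hsum
  rw [Finset.sum_eq_zero fun q _ => by rw [h q, mul_zero]] at h1
  exact lt_irrefl _ h1

end P4a177g
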