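import Pool.Agent.Lib.P4a177g.KkG

/-!
# MODULE P4a177g.LogG: the logarithms of the differences `x_q(w) - x_q'(w')` (est. 1.3 h)

PROOF. Let `F t = x q (t w) - x q' (t w')`, `t ∈ [0, 1]`; `F t ≠ 0` for `t ∈ (0, 1]` (`x_ne`, as
`t w ≠ t w'` if `w ≠ w'`). By `hx.der` `F' t = w (pd ..)⁻¹ - w' (pd ..)⁻¹`, so `t F' t = F t * ∑_k
tt a x q k (t w) tt a x q' k (t w')` (`tt_bez`). Hence (`kk_eq`) for `t > 0` the derivative of
`log ‖F t‖ - δ log t` is `Re (F'/F) - δ / t = kk a x q q' w w' t`.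
Case `q ≠ q'`: `F 0 = a q - a q' ≠ 0`, `log ‖F t‖` is continuous on `[0, 1]`, and the fundamental theorem
(`intervalIntegral.integral_eq_sub_of_hasDerivAt_of_le` or `.._of_hasDeriv_right_of_le`, `kk_cont`) gives
`log ‖F 1‖ = log |a q - a q'| + II`. Case `q = q'`, `w ≠ w'`: `G t = F t / t` tends to
`F' 0 = (w - w') (pd a (a q))⁻¹ ≠ 0` as `t → 0+` (`hasDerivAt_iff_tendsto_slope`), so `log ‖G t‖`
extends continuously to `t = 0` by `log ‖w - w'‖ - log ‖pd a (a q)‖`. `log_x_om`: `log_om`.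
-/

set_option autoImplicit false

namespace P4a177g

open P4a177f Function

variable {n : ℕ} {a : Fin n → ℝ} {c : ℝ} {x : Fin n → ℂ → ℂ}

namespace LogGAux

/-- the derivative of `log ‖G t‖` -/
theorem hasDerivAt_log_norm {G : ℝ → ℂ} {g : ℂ} {t : ℝ} (hd : HasDerivAt G g t) (h0 : G t ≠ 0) :
    HasDerivAt (fun s => Real.log ‖G s‖) (g / G t).re t := by
  have h1 : HasDerivAt (fun s => ‖G s‖ ^ 2) (2 * inner ℝ (G t) g) t := hd.norm_sq
  have h2 : ‖G t‖ ^ 2 ≠ 0 := pow_ne_zero 2 (norm_ne_zero_iff.2 h0)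
  have h3 := (h1.log h2).const_mul (1 / 2 : ℝ)
  have h4 : (fun s => (1 / 2 : ℝ) * Real.log (‖G s‖ ^ 2)) = fun s => Real.log ‖G s‖ := by
    funext s
    rw [Real.log_pow]
    push_cast
    ring
  rw [h4] at h3
  refine h3.congr_deriv ?_
  rw [Complex.inner, Complex.div_re, ← Complex.normSq_eq_norm_sq]
  have h5 : Complex.normSq (G t) ≠ 0 := fun h => h0 (Complex.normSq_eq_zero.1 h)
  rw [Complex.mul_re, Complex.conj_re, Complex.conj_im]
  field_simp
  ring

/-- the fundamental theorem of calculus for `log ‖G t‖` -/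
theorem ftc {G G' : ℝ → ℂ} {k : ℝ → ℝ} (hc : ContinuousOn G (Set.Icc 0 1))
    (h0 : ∀ t ∈ Set.Icc (0 : ℝ) 1, G t ≠ 0) (hd : ∀ t ∈ Set.Ioo (0 : ℝ) 1, HasDerivAt G (G' t) t)
    (hk : ContinuousOn k (Set.Icc 0 1)) (hre : ∀ t ∈ Set.Ioo (0 : ℝ) 1, (G' t / G t).re = k t) :
    Real.log ‖G 1‖ = Real.log ‖G 0‖ + ∫ t in (0 : ℝ)..1, k t := by
  have h1 := intervalIntegral.integral_eq_sub_of_hasDerivAt_of_le
    (f := fun t => Real.log ‖G t‖) (f' := k) (a := (0 : ℝ)) (b := 1) zero_le_one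
    (hc.norm.log fun t ht => norm_ne_zero_iff.2 (h0 t ht))
    (fun t ht => by
      rw [← hre t ht]
      exact hasDerivAt_log_norm (hd t ht) (h0 t ⟨ht.1.le, ht.2.le⟩))
    (hk.intervalIntegrable_of_Icc zero_le_one)
  rw [h1]
  ring

variable {q q' : Fin n} {w w' : ℂ}

/-- the function `F` -/
noncomputable def FF (x : Fin n → ℂ → ℂ) (q q' : Fin n) (w w' : ℂ) (t : ℝ) : ℂ :=
  x q (t * w) - x q' (t * w')

/-- its derivative -/
noncomputable def FD (a : Fin n → ℝ) (x : Fin n → ℂ → ℂ) (q q' : Fin n) (w w' : ℂ) (t : ℝ) : ℂ :=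
  w * (pd a (x q (t * w)))⁻¹ - w' * (pd a (x q' (t * w')))⁻¹

theorem x_deriv (hx : Br a c x) {t : ℝ} (ht : (t : ℂ) * w ∈ slit c) :
    HasDerivAt (fun s : ℝ => x q (s * w)) (w * (pd a (x q (t * w)))⁻¹) t := by
  have h1 : HasDerivAt (fun z : ℂ => z * w) (1 * w) (t : ℂ) := (hasDerivAt_id (t : ℂ)).mul_const w
  have h2 : HasDerivAt (fun z : ℂ => x q (z * w)) ((pd a (x q (t * w)))⁻¹ * (1 * w)) (t : ℂ) :=
    HasDerivAt.comp (t : ℂ) (hx.der q _ ht) h1
  have h3 := h2.comp_ofReal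
  rw [one_mul, mul_comm] at h3
  exact h3

theorem FF_deriv (hx : Br a c x) {t : ℝ} (ht : (t : ℂ) * w ∈ slit c)
    (ht' : (t : ℂ) * w' ∈ slit c) : HasDerivAt (FF x q q' w w') (FD a x q q' w w' t) t :=
  (x_deriv hx ht).sub (x_deriv hx ht')

theorem FF_ne (hx : Br a c x) {t : ℝ} (ht : (t : ℂ) * w ∈ slit c)
    (ht' : (t : ℂ) * w' ∈ slit c) (h0 : t ≠ 0) (hne : q ≠ q' ∨ w ≠ w') :
    FF x q q' w w' t ≠ 0 := by
  refine sub_ne_zero.2 (x_ne hx ht ht' ?_)
  rcases hne with h1 | h1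
  · exact Or.inl h1
  · exact Or.inr fun h2 => h1 (mul_left_cancel₀ (Complex.ofReal_ne_zero.2 h0) h2)

theorem FD_div (h : Crit a c) (hx : Br a c x) {t : ℝ} (ht : (t : ℂ) * w ∈ slit c)
    (ht' : (t : ℂ) * w' ∈ slit c) (h0 : t ≠ 0) (hne : q ≠ q' ∨ w ≠ w') :
    (FD a x q q' w w' t / FF x q q' w w' t).re = kk a x q q' w w' t + dd q q' / t := by
  have h1 := tt_bez hx q q' ht ht'
  have h2 := FF_ne hx ht ht' h0 hne
  have h3 : (t : ℂ) ≠ 0 := Complex.ofReal_ne_zero.2 h0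
  have h4 : FD a x q q' w w' t / FF x q q' w w' t =
      (∑ k, tt a x q k (t * w) * tt a x q' k (t * w')) / (t : ℂ) := by
    rw [div_eq_div_iff h2 h3]
    unfold FD FF
    rw [mul_comm (∑ k, _), h1]
    ring
  rw [h4, Complex.div_ofReal_re, kk_eq h hx q q' w w' h0]
  field_simp
  ring

end LogGAux

open LogGAux in
theorem log_x (h : Crit a c) (hx : Br a c x) {q q' : Fin n} {w w' : ℂ} (hw : w ∈ slit c)
    (hw' : w' ∈ slit c) (hne : q ≠ q' ∨ w ≠ w') :
    Real.log ‖x q w - x q' w'‖ =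
      (if q = q' then Real.log ‖w - w'‖ - Real.log ‖pd a (a q)‖ else Real.log |a q - a q'|) +
        II a x q q' w w' := by
  have hs : ∀ t ∈ Set.Icc (0 : ℝ) 1, (t : ℂ) * w ∈ slit c ∧ (t : ℂ) * w' ∈ slit c :=
    fun t ht => ⟨slit_smul h.pos hw ht.1 ht.2, slit_smul h.pos hw' ht.1 ht.2⟩
  have hF : ∀ t ∈ Set.Icc (0 : ℝ) 1, HasDerivAt (FF x q q' w w') (FD a x q q' w w' t) t :=
    fun t ht => FF_deriv hx (hs t ht).1 (hs t ht).2
  have h1 : FF x q q' w w' 1 = x q w - x q' w' := by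
    unfold FF
    rw [Complex.ofReal_one, one_mul, one_mul]
  have h01 : FF x q q' w w' 0 = (a q : ℂ) - a q' := by
    unfold FF
    rw [Complex.ofReal_zero, zero_mul, zero_mul, hx.zero, hx.zero]
  have hk := kk_cont h hx q q' hw hw'
  by_cases hq : q = q'
  · have hww : w ≠ w' := hne.resolve_left fun h2 => h2 hq
    have hF0 : FF x q q' w w' 0 = 0 := by rw [h01, hq, sub_self]
    have hD0 : HasDerivAt (FF x q q' w w') (FD a x q q' w w' 0) 0 := hF 0 ⟨le_rfl, zero_le_one⟩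
    have hval : FD a x q q' w w' 0 = (w - w') * (pd a (a q))⁻¹ := by
      unfold FD
      rw [Complex.ofReal_zero, zero_mul, zero_mul, hx.zero, hx.zero, ← hq]
      ring
    have hpd : pd a (a q) ≠ 0 := by
      have h2 := hx.ne q 0 (zero_mem_slit h.pos)
      rwa [hx.zero] at h2
    have hds : ∀ t : ℝ, t ≠ 0 → dslope (FF x q q' w w') 0 t = (t : ℂ)⁻¹ * FF x q q' w w' t := by
      intro t ht
      rw [dslope_of_ne _ ht, slope_def_module, hF0, sub_zero, sub_zero, Complex.real_smul,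
        Complex.ofReal_inv]
    have hds0 : dslope (FF x q q' w w') 0 0 = (w - w') * (pd a (a q))⁻¹ := by
      rw [dslope_same, hD0.deriv, hval]
    have hcont : ContinuousOn (dslope (FF x q q' w w') 0) (Set.Icc 0 1) := by
      intro t ht
      by_cases h2 : t = 0
      · rw [h2]
        exact (continuousAt_dslope_same.2 hD0.differentiableAt).continuousWithinAt
      · exact ((continuousAt_dslope_of_ne h2).2 (hF t ht).continuousAt).continuousWithinAt
    have hne0 : ∀ t ∈ Set.Icc (0 : ℝ) 1, dslope (FF x q q' w w') 0 t ≠ 0 := by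
      intro t ht
      by_cases h2 : t = 0
      · rw [h2, hds0]
        exact mul_ne_zero (sub_ne_zero.2 hww) (inv_ne_zero hpd)
      · rw [hds t h2]
        exact mul_ne_zero (inv_ne_zero (Complex.ofReal_ne_zero.2 h2))
          (FF_ne hx (hs t ht).1 (hs t ht).2 h2 hne)
    have hder : ∀ t ∈ Set.Ioo (0 : ℝ) 1, HasDerivAt (dslope (FF x q q' w w') 0)
        (-((t : ℂ) ^ 2)⁻¹ * FF x q q' w w' t + (t : ℂ)⁻¹ * FD a x q q' w w' t) t := by
      intro t ht
      have h2 : t ≠ 0 := ht.1.ne'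
      have h3 : HasDerivAt (fun s : ℝ => (s : ℂ)⁻¹) (-((t : ℂ) ^ 2)⁻¹) t :=
        (hasDerivAt_inv (Complex.ofReal_ne_zero.2 h2)).comp_ofReal
      have h4 := h3.mul (hF t ⟨ht.1.le, ht.2.le⟩)
      refine h4.congr_of_eventuallyEq ?_
      filter_upwards [eventually_ne_nhds h2] with s hs2
      exact hds s hs2
    have key := ftc hcont hne0 hder hk fun t ht => by
      have h2 : t ≠ 0 := ht.1.ne'
      have h3 : (t : ℂ) ≠ 0 := Complex.ofReal_ne_zero.2 h2
      have ht' : t ∈ Set.Icc (0 : ℝ) 1 := ⟨ht.1.le, ht.2.le⟩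
      have h4 := FF_ne hx (hs t ht').1 (hs t ht').2 h2 hne
      have h5 := FD_div h hx (hs t ht').1 (hs t ht').2 h2 hne
      have h6 : (-((t : ℂ) ^ 2)⁻¹ * FF x q q' w w' t + (t : ℂ)⁻¹ * FD a x q q' w w' t) /
          dslope (FF x q q' w w') 0 t =
          FD a x q q' w w' t / FF x q q' w w' t - ((1 / t : ℝ) : ℂ) := by
        rw [hds t h2]
        push_cast
        field_simp
        ring
      rw [h6, Complex.sub_re, h5, Complex.ofReal_re]
      unfold dd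
      rw [if_pos hq]
      ring
    have hds1 : dslope (FF x q q' w w') 0 1 = x q w - x q' w' := by
      rw [hds 1 one_ne_zero, h1, Complex.ofReal_one, inv_one, one_mul]
    rw [hds1, hds0, norm_mul, norm_inv, Real.log_mul (norm_ne_zero_iff.2 (sub_ne_zero.2 hww))
      (inv_ne_zero (norm_ne_zero_iff.2 hpd)), Real.log_inv] at key
    rw [key, if_pos hq]
    rfl
  · have hcont : ContinuousOn (FF x q q' w w') (Set.Icc 0 1) :=
      fun t ht => (hF t ht).continuousAt.continuousWithinAt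
    have hne0 : ∀ t ∈ Set.Icc (0 : ℝ) 1, FF x q q' w w' t ≠ 0 := by
      intro t ht
      exact sub_ne_zero.2 (x_ne hx (hs t ht).1 (hs t ht).2 (Or.inl hq))
    have key := ftc hcont hne0 (fun t ht => hF t ⟨ht.1.le, ht.2.le⟩) hk fun t ht => by
      have h2 : t ≠ 0 := ht.1.ne'
      have ht' : t ∈ Set.Icc (0 : ℝ) 1 := ⟨ht.1.le, ht.2.le⟩
      rw [FD_div h hx (hs t ht').1 (hs t ht').2 h2 hne]
      unfold dd
      rw [if_neg hq, zero_div, add_zero]
    rw [h1, h01] at key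
    rw [key, if_neg hq]
    have h2 : ‖(a q : ℂ) - a q'‖ = |a q - a q'| := by
      rw [← Complex.ofReal_sub, Complex.norm_real, Real.norm_eq_abs]
    rw [h2]
    rfl

theorem log_x_om (h : Crit a c) (hx : Br a c x) {κ ε : ℝ} (hp : IsPar c κ ε) {q q' : Fin n}
    {z z' : ℂ} (hz : ‖z‖ < 1) (hz' : ‖z'‖ < 1) (hne : q ≠ q' ∨ z ≠ z') :
    x q (om κ ε z) ≠ x q' (om κ ε z') ∧
    Real.log ‖x q (om κ ε z) - x q' (om κ ε z')‖ =
      (if q = q' then Real.log ‖z - z'‖ else 0) + JJ a x κ ε q q' z z' := by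
  have hm := om_mem h.pos hp hz
  have hm' := om_mem h.pos hp hz'
  have hne2 : q ≠ q' ∨ om κ ε z ≠ om κ ε z' := by
    rcases hne with h1 | h1
    · exact Or.inl h1
    · exact Or.inr (log_om h.pos hp hz hz' h1).1
  refine ⟨x_ne hx hm hm' hne2, ?_⟩
  rw [log_x h hx hm hm' hne2]
  unfold JJ
  by_cases hq : q = q'
  · have h1 : z ≠ z' := hne.resolve_left fun h2 => h2 hq
    rw [if_pos hq, if_pos hq, if_pos hq, (log_om h.pos hp hz hz' h1).2]
    ring
  · rw [if_neg hq, if_neg hq, if_neg hq]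
    ring

end P4a177g
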