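import Pool.Agent.Lib.P4a177g.RegG
import Pool.Agent.Lib.P4a177g.LinB
import Pool.Agent.Lib.P4a177g.CritG

/-!
# Assembly: all the members above the conifold
-/

set_option autoImplicit false

namespace P4a177g

open P4a177h P4a177s P4a177e P4a177f Function
open scoped Real

variable {d : ℕ}

theorem hh_eq_hq (A : Fam d) (q : ∀ s, Fin (A.m s + 1)) (s : Fin (d + 2)) (k : Fin (A.m s + 1))
    {j : ℕ} (hj : 1 ≤ j) : hh A q s k j = hq (aR A s) (q s) k j := by
  unfold hh hq
  rw [if_neg (by omega)]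
  congr 1
  funext l
  unfold bR df aR
  push_cast
  ring

theorem goodG (A : Fam d) {N : ℕ} (hN : 1 ≤ N) (hm : ∀ s, 1 ≤ A.m s) {c : Fin (d + 2) → ℝ}
    (hc : ∀ s, Crit (aR A s) (c s)) (hbig : 1 < (N : ℝ) * ∏ s, c s) : GoodG A c N where
  one_le_m := hm
  one_le_N := hN
  c_pos := fun s => (hc s).pos
  hle := fun q s k j hj => by
    rw [hh_eq_hq A q s k hj]
    exact abs_hq_le (hc s) hj (q s) k
  big := hbig

/-- The regulators of all the symbols on all the tori. -/
theorem exists_toriG (A : Fam d) {N : ℕ} (hN : 1 ≤ N) (hm : ∀ s, 1 ≤ A.m s) (hA : Above A N) :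
    ∃ γ : (∀ s, Fin (A.m s)) → Torus (d + 1) (A.CoordRing N),
      (regulatorMatrix (xi A N) γ).det ≠ 0 := by
  classical
  obtain ⟨c, hc, hbig⟩ := exists_crit A hm hA
  have h := goodG A hN hm hc hbig
  obtain ⟨r, hr⟩ := exists_radG h
  let T : ∀ q : (∀ s, Fin (A.m s + 1)), TorF A N q r :=
    fun q => Classical.choice (exists_torF h q hr)
  have hpi : (0 : ℝ) < (2 * π) ^ (d + 1) := by positivity
  have key : ∀ v : (∀ s, Fin (A.m s)) → ℝ, v ≠ 0 →
      ∃ q, ∑ p, v p * reg (T q).γ (xi A N p) ≠ 0 := by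
    intro v hv
    obtain ⟨q, hq⟩ := exists_ne A hN hc hbig (hat A.m v) (hat_ne_zero A.m v hv)
      (fun s i => hat_sum_zero A.m v s i)
    refine ⟨q, ?_⟩
    have h2 := sum_multi (regFun (T q).γ) (regFun_mul (T q).γ) A.m (fun s i => A.linU N s i) v
    have h3 : ∑ p, v p * reg (T q).γ (xi A N p) =
        ∑ p : ∀ s, Fin (A.m s), v p *
          regFun (T q).γ (fun s => -(A.linU N s (p s).succ / A.linU N s 0)) := by
      refine Finset.sum_congr rfl fun p _ => ?_
      unfold xi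
      rw [reg_symb]
      rfl
    rw [h3, h2]
    intro h0
    apply hq
    have h4 : ∀ i : (∀ s, Fin (A.m s + 1)), mm A N q i + EG A N q i =
        regFun (T q).γ (fun s => A.linU N s (i s)) / (2 * π) ^ (d + 1) := fun i =>
      (reg_entryG h hr (T q) i).symm
    simp only [h4, mul_div_assoc']
    rw [← Finset.sum_div, h0, zero_div]
  obtain ⟨e, he⟩ := exists_minor (fun q p => reg (T q).γ (xi A N p)) key
  exact ⟨fun p => (T (e p)).γ, he⟩

theorem mainG (A : Fam d) {N : ℕ} (hN : 1 ≤ N) (hA : Above A N) :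
    GeomIrreducible A N ∧ Smooth A N ∧
    (∀ p, P4a177s.Admissible (xi A N p) ∧ UnramifiedEverywhere (xi A N p)) ∧
    ∃ γ : (∀ s, Fin (A.m s)) → Torus (d + 1) (A.CoordRing N),
      (regulatorMatrix (xi A N) γ).det ≠ 0 := by
  refine ⟨geomIrreducible A N hN, smoothG A hN hA,
    fun p => ⟨admissible_xi A N p, unramified_xi A N p⟩, ?_⟩
  by_cases hm : ∀ s, 1 ≤ A.m s
  · exact exists_toriG A hN hm hA
  · push Not at hm
    obtain ⟨s, hs⟩ := hm
    have h0 : IsEmpty (∀ s, Fin (A.m s)) := ⟨fun p => by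
      have h1 := (p s).2
      omega⟩
    refine ⟨fun p => (h0.false p).elim, ?_⟩
    rw [Matrix.det_isEmpty]
    exact one_ne_zero

end P4a177g
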