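import Pool.Agent.Lib.P4a177g.Defs

/-!
# MODULE P4a177g.PolyG: polynomials with real roots, the slit plane (est. 0.9 h)

PROOF. `pe_mul`: `Finset.mul_prod_erase`. `bez`: `(x - y) pe_k(x) pe_k(y) = ((x - a_k) - (y - a_k)) pe_k(x)
pe_k(y) = f(x) pe_k(y) - f(y) pe_k(x)`, sum over `k`. `pf_hasDerivAt`: `HasDerivAt.finset_prod`
(`pd` is the sum of the `pe`). `im_zero`: if `pd a x = 0` and `x` is not real then `x ≠ a_k` for all `k`,
`0 = pd a x / pf a x = ∑ 1 / (x - a_k)`, whose imaginary part is `- x.im * ∑ 1 / |x - a_k|^2`, `n > 0`.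
`pd_ne`: otherwise `x` is real, so `pf a x` is real (a product of real numbers), and `|pf a x| ≥ c`.
`slit_smul`: clear. `pd_root`: all the other terms vanish. `om_mem`: `ε = 0`: `‖c z‖ < c`. `ε = 1`: if
`w = 2 c z / (1 + z^2)` is real and `|w| ≥ c` then `z ≠ 0`, `s := 2 c / w` is real, `|s| ≤ 2`,
`z^2 - s z + 1 = 0`, so (real and imaginary parts) `|z| = 1`. `om_sub`: algebra
(`1 + ε z^2 ≠ 0` as `‖ε z^2‖ < 1`).
-/

set_option autoImplicit false

namespace P4a177g

open P4a177f Function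

variable {n : ℕ} {a : Fin n → ℝ} {c : ℝ}

theorem pe_mul (a : Fin n → ℝ) (k : Fin n) (x : ℂ) : (x - (a k : ℂ)) * pe a k x = pf a x := by
  exact Finset.mul_prod_erase Finset.univ (fun l => x - (a l : ℂ)) (Finset.mem_univ k)

theorem pf_hasDerivAt (a : Fin n → ℝ) (x : ℂ) : HasDerivAt (pf a) (pd a x) x := by
  have h := HasDerivAt.fun_finsetProd (u := (Finset.univ : Finset (Fin n)))
    (f := fun k x => x - (a k : ℂ)) (f' := fun _ => 1) (x := x)
    (fun k _ => (hasDerivAt_id' x).sub_const _)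
  have h' : HasDerivAt (pf a) (∑ k, (∏ l ∈ Finset.univ.erase k, (x - (a l : ℂ))) • (1 : ℂ)) x := h
  have h2 : pd a x = ∑ k, (∏ l ∈ Finset.univ.erase k, (x - (a l : ℂ))) • (1 : ℂ) := by
    simp only [smul_eq_mul, mul_one]; rfl
  rw [h2]; exact h'

theorem pe_differentiable (a : Fin n → ℝ) (k : Fin n) : Differentiable ℂ (pe a k) := by
  intro x
  have h := DifferentiableAt.fun_finsetProd (u := (Finset.univ.erase k : Finset (Fin n)))
    (f := fun k x => x - (a k : ℂ)) (x := x) (𝕜 := ℂ)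
    (fun k _ => differentiableAt_id.sub_const _)
  exact h

theorem pd_differentiable (a : Fin n → ℝ) : Differentiable ℂ (pd a) := by
  intro x
  exact DifferentiableAt.fun_sum (fun k _ => pe_differentiable a k x)

theorem bez (a : Fin n → ℝ) (x y : ℂ) :
    (x - y) * ∑ k, pe a k x * pe a k y = pf a x * pd a y - pf a y * pd a x := by
  rw [Finset.mul_sum, pd, pd, Finset.mul_sum, Finset.mul_sum, ← Finset.sum_sub_distrib]
  refine Finset.sum_congr rfl fun k _ => ?_
  rw [← pe_mul a k x, ← pe_mul a k y]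
  ring

theorem pe_root (a : Fin n → ℝ) {k q : Fin n} (h : k ≠ q) : pe a k (a q) = 0 := by
  refine Finset.prod_eq_zero (i := q) (Finset.mem_erase.mpr ⟨fun h' => h h'.symm, Finset.mem_univ _⟩) ?_
  simp

theorem pd_root (a : Fin n → ℝ) (q : Fin n) : pd a (a q) = pe a q (a q) := by
  exact Finset.sum_eq_single q (fun k _ hk => pe_root a hk) (fun h => absurd (Finset.mem_univ _) h)

theorem pe_root_ne (ha : Injective a) (q : Fin n) : pe a q (a q) ≠ 0 := by
  refine Finset.prod_ne_zero_iff.mpr fun l hl => ?_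
  have h1 : l ≠ q := (Finset.mem_erase.mp hl).1
  intro h2
  have h3 : ((a q : ℝ) : ℂ) = ((a l : ℝ) : ℂ) := sub_eq_zero.mp h2
  exact h1 (ha (Complex.ofReal_injective h3)).symm

theorem log_pd_root (ha : Injective a) (q : Fin n) :
    Real.log ‖pd a (a q)‖ = ∑ k, Real.log |a q - a k| := by
  rw [pd_root, pe, norm_prod, Real.log_prod]
  · rw [← Finset.add_sum_erase Finset.univ (fun k => Real.log |a q - a k|) (Finset.mem_univ q)]
    simp only [sub_self, abs_zero, Real.log_zero, zero_add]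
    refine Finset.sum_congr rfl fun l _ => ?_
    rw [← Complex.ofReal_sub, Complex.norm_real, Real.norm_eq_abs]
  · intro l hl
    have h1 : l ≠ q := (Finset.mem_erase.mp hl).1
    rw [norm_ne_zero_iff]
    intro h2
    have h3 : ((a q : ℝ) : ℂ) = ((a l : ℝ) : ℂ) := sub_eq_zero.mp h2
    exact h1 (ha (Complex.ofReal_injective h3)).symm

theorem im_zero (h : Crit a c) {x : ℂ} (hx : pd a x = 0) : x.im = 0 := by
  by_contra him
  have hne : ∀ k, x - (a k : ℂ) ≠ 0 := by
    intro k hk
    apply him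
    have : x = (a k : ℂ) := sub_eq_zero.mp hk
    rw [this]; simp
  have hpf : pf a x ≠ 0 := Finset.prod_ne_zero_iff.mpr fun k _ => hne k
  have hs : pd a x = pf a x * ∑ k, (x - (a k : ℂ))⁻¹ := by
    rw [pd, Finset.mul_sum]
    refine Finset.sum_congr rfl fun k _ => ?_
    rw [← pe_mul a k x]
    field_simp [hne k]
  rw [hx] at hs
  have hs0 : ∑ k, (x - (a k : ℂ))⁻¹ = 0 := by
    rcases mul_eq_zero.mp hs.symm with h1 | h1
    · exact absurd h1 hpf
    · exact h1
  have him0 : ∑ k, ((x - (a k : ℂ))⁻¹).im = 0 := by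
    rw [← Complex.im_sum, hs0]; simp
  have hterm : ∀ k, ((x - (a k : ℂ))⁻¹).im = - x.im * (Complex.normSq (x - (a k : ℂ)))⁻¹ := by
    intro k
    rw [Complex.inv_im]
    simp [div_eq_mul_inv]
  simp only [hterm, ← Finset.mul_sum] at him0
  have hpos : 0 < ∑ k, (Complex.normSq (x - (a k : ℂ)))⁻¹ := by
    have : (Finset.univ : Finset (Fin n)).Nonempty := ⟨⟨0, by have := h.two_le; omega⟩, Finset.mem_univ _⟩
    exact Finset.sum_pos (fun k _ => inv_pos.mpr (Complex.normSq_pos.mpr (hne k))) this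
  rcases mul_eq_zero.mp him0 with h1 | h1
  · exact him (by linarith)
  · exact absurd h1 hpos.ne'

theorem pd_ne (h : Crit a c) {x : ℂ} (hx : pf a x ∈ slit c) : pd a x ≠ 0 := by
  intro h0
  have him := im_zero h h0
  have hxr : x = ((x.re : ℝ) : ℂ) := by
    apply Complex.ext <;> simp [him]
  have hreal : pf a x = ((∏ k, (x.re - a k) : ℝ) : ℂ) := by
    conv_lhs => rw [hxr]
    rw [pf]; push_cast; rfl
  have hc := h.le x h0
  rw [hreal] at hc hx
  rw [Complex.norm_real, Real.norm_eq_abs] at hc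
  rcases hx with h1 | h1
  · exact h1 (Complex.ofReal_im _)
  · rw [Complex.ofReal_re] at h1
    linarith

theorem isOpen_slit (c : ℝ) : IsOpen (slit c) := by
  have h1 : IsOpen {w : ℂ | w.im ≠ 0} := isOpen_ne_fun Complex.continuous_im continuous_const
  have h2 : IsOpen {w : ℂ | |w.re| < c} :=
    isOpen_lt (continuous_abs.comp Complex.continuous_re) continuous_const
  exact h1.union h2

theorem zero_mem_slit (hc : 0 < c) : (0 : ℂ) ∈ slit c := by
  right; simpa using hc

theorem slit_smul (hc : 0 < c) {w : ℂ} (hw : w ∈ slit c) {t : ℝ} (h0 : 0 ≤ t) (h1 : t ≤ 1) :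
    (t : ℂ) * w ∈ slit c := by
  rcases h0.eq_or_lt with ht | ht
  · rw [← ht]; simpa using zero_mem_slit hc
  · rcases hw with h2 | h2
    · left
      rw [Complex.im_ofReal_mul]
      exact mul_ne_zero ht.ne' h2
    · right
      rw [Complex.re_ofReal_mul, abs_mul, abs_of_pos ht]
      calc t * |w.re| ≤ 1 * |w.re| := by gcongr
        _ < c := by simpa using h2

theorem slit_conj {w : ℂ} (hw : w ∈ slit c) : starRingEnd ℂ w ∈ slit c := by
  rcases hw with h | h
  · left
    rw [Complex.conj_im]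
    exact neg_ne_zero.mpr h
  · right
    rw [Complex.conj_re]
    exact h

theorem slit_of_lt {w : ℂ} (hw : ‖w‖ < c) : w ∈ slit c := by
  right
  exact lt_of_le_of_lt (Complex.abs_re_le_norm w) hw

theorem om_mem {κ ε : ℝ} (hc : 0 < c) (hp : IsPar c κ ε) {z : ℂ} (hz : ‖z‖ < 1) :
    om κ ε z ∈ slit c := by
  have hz2 : Complex.normSq z < 1 := by
    rw [Complex.normSq_eq_norm_sq]
    nlinarith [norm_nonneg z]
  rcases hp with ⟨hk, he⟩ | ⟨hk, he⟩
  · have hne : (1 : ℂ) + z ^ 2 ≠ 0 := by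
      intro h0
      have h1 : z ^ 2 = -1 := by linear_combination h0
      have h2 : ‖z‖ ^ 2 = 1 := by rw [← norm_pow, h1]; simp
      nlinarith [norm_nonneg z]
    by_contra hcon
    have hcon' : (om κ ε z).im = 0 ∧ c ≤ |(om κ ε z).re| := by
      constructor
      · by_contra h1
        exact hcon (Or.inl h1)
      · by_contra h1
        exact hcon (Or.inr (not_le.mp h1))
    obtain ⟨hi, hr⟩ := hcon'
    set r : ℝ := (om κ ε z).re with hrdef
    have hw : om κ ε z = (r : ℂ) := by
      apply Complex.ext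
      · simp [hrdef]
      · simp [hi]
    have heq : (2 * c : ℂ) * z = r * (1 + z ^ 2) := by
      rw [← hw, om, hk, he]
      push_cast
      rw [one_mul]
      field_simp
    have hre := congrArg Complex.re heq
    have him := congrArg Complex.im heq
    simp only [Complex.mul_re, Complex.mul_im, Complex.add_re, Complex.add_im, Complex.one_re,
      Complex.one_im, Complex.ofReal_re, Complex.ofReal_im, pow_two, Complex.re_ofNat,
      Complex.im_ofNat] at hre him
    rw [Complex.normSq_apply] at hz2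
    set u := z.re
    set v := z.im
    have hre' : 2 * c * u = r * (1 + (u * u - v * v)) := by linarith
    have him' : 2 * c * v = r * (2 * u * v) := by linarith
    by_cases hv : v = 0
    · rw [hv] at hre' hz2
      have h1 : 2 * c * |u| = |r| * (1 + u * u) := by
        have h2 : |2 * c * u| = |r * (1 + u * u)| := by
          rw [hre']; ring_nf
        have h2a : |2 * c| = 2 * c := abs_of_pos (by linarith)
        have h2b : |1 + u * u| = 1 + u * u := abs_of_pos (by nlinarith [mul_self_nonneg u])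
        rw [abs_mul (2 * c) u, abs_mul r, h2a, h2b] at h2
        exact h2
      have h3 : u * u = |u| * |u| := (abs_mul_abs_self u).symm
      have h4 : |u| < 1 := by
        by_contra h5
        have h6 : 1 ≤ |u| := not_lt.mp h5
        nlinarith
      have h7 : 0 < (1 - |u|) ^ 2 := by
        have : 0 < 1 - |u| := by linarith
        positivity
      have h8 : |r| * (1 + u * u) ≥ c * (1 + u * u) := by
        apply mul_le_mul_of_nonneg_right hr (by nlinarith)
      have h9 : c * (1 - |u|) ^ 2 > 0 := by positivity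
      nlinarith
    · have h1 : c = r * u := by
        have h2 : (2 * v) * c = (2 * v) * (r * u) := by linarith
        exact mul_left_cancel₀ (by simpa using hv) h2
      have h2 : r ≠ 0 := by
        rintro h3
        rw [h3] at h1
        linarith
      have h3 : r * (2 * u * u) = r * (1 + (u * u - v * v)) := by
        rw [← hre', h1]; ring
      have h4 := mul_left_cancel₀ h2 h3
      linarith
  · apply slit_of_lt
    rw [om, hk, he]
    simp only [Complex.ofReal_zero, zero_mul, add_zero, div_one, norm_mul, Complex.norm_real,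
      Real.norm_eq_abs, abs_of_pos hc]
    calc c * ‖z‖ < c * 1 := by gcongr
      _ = c := mul_one c

theorem one_add_ne {κ ε : ℝ} (hp : IsPar c κ ε) {z : ℂ} (hz : ‖z‖ < 1) :
    1 + (ε : ℂ) * z ^ 2 ≠ 0 := by
  rcases hp with ⟨_, he⟩ | ⟨_, he⟩
  · intro h0
    rw [he, Complex.ofReal_one, one_mul] at h0
    have h1 : z ^ 2 = -1 := by linear_combination h0
    have h2 : ‖z‖ ^ 2 = 1 := by rw [← norm_pow, h1]; simp
    nlinarith [norm_nonneg z]
  · rw [he]; simp

theorem one_sub_ne {κ ε : ℝ} (hp : IsPar c κ ε) {z z' : ℂ} (hz : ‖z‖ < 1) (hz' : ‖z'‖ < 1) :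
    1 - (ε : ℂ) * z * z' ≠ 0 := by
  rcases hp with ⟨_, he⟩ | ⟨_, he⟩
  · intro h0
    rw [he, Complex.ofReal_one, one_mul] at h0
    have h1 : z * z' = 1 := by linear_combination -h0
    have h2 : ‖z‖ * ‖z'‖ = 1 := by rw [← norm_mul, h1]; simp
    nlinarith [norm_nonneg z, norm_nonneg z']
  · rw [he]; simp

theorem om_sub {κ ε : ℝ} (hp : IsPar c κ ε) {z z' : ℂ} (hz : ‖z‖ < 1) (hz' : ‖z'‖ < 1) :
    om κ ε z - om κ ε z' = κ * (z - z') * (1 - (ε : ℂ) * z * z') /
      ((1 + (ε : ℂ) * z ^ 2) * (1 + (ε : ℂ) * z' ^ 2)) := by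
  have h1 := one_add_ne hp hz
  have h2 := one_add_ne hp hz'
  rw [om, om, div_sub_div _ _ h1 h2]
  congr 1
  ring

/-- The relation between `qk` and the parametrization. -/
theorem log_om {κ ε : ℝ} (hc : 0 < c) (hp : IsPar c κ ε) {z z' : ℂ} (hz : ‖z‖ < 1) (hz' : ‖z'‖ < 1)
    (hne : z ≠ z') : om κ ε z ≠ om κ ε z' ∧
      Real.log ‖om κ ε z - om κ ε z'‖ = Real.log ‖z - z'‖ + qk κ ε z z' := by
  have h1 := one_add_ne hp hz
  have h2 := one_add_ne hp hz'
  have h3 := one_sub_ne hp hz hz'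
  have hk : 0 < κ := by
    rcases hp with ⟨hk, _⟩ | ⟨hk, _⟩
    · rw [hk]; linarith
    · rw [hk]; exact hc
  have hkc : (κ : ℂ) ≠ 0 := Complex.ofReal_ne_zero.mpr hk.ne'
  have hzz : z - z' ≠ 0 := sub_ne_zero.mpr hne
  have hsub := om_sub hp hz hz'
  constructor
  · intro h0
    rw [h0, sub_self] at hsub
    have : (κ : ℂ) * (z - z') * (1 - (ε : ℂ) * z * z') /
      ((1 + (ε : ℂ) * z ^ 2) * (1 + (ε : ℂ) * z' ^ 2)) ≠ 0 :=
      div_ne_zero (mul_ne_zero (mul_ne_zero hkc hzz) h3) (mul_ne_zero h1 h2)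
    exact this hsub.symm
  · rw [hsub, norm_div, norm_mul, norm_mul, norm_mul, Real.log_div, Real.log_mul, Real.log_mul,
      Real.log_mul, qk, Complex.norm_real, Real.norm_eq_abs, abs_of_pos hk]
    · ring
    · exact norm_ne_zero_iff.mpr h1
    · exact norm_ne_zero_iff.mpr h2
    · exact norm_ne_zero_iff.mpr hkc
    · exact norm_ne_zero_iff.mpr hzz
    · exact mul_ne_zero (norm_ne_zero_iff.mpr hkc) (norm_ne_zero_iff.mpr hzz)
    · exact norm_ne_zero_iff.mpr h3
    · exact mul_ne_zero (mul_ne_zero (norm_ne_zero_iff.mpr hkc) (norm_ne_zero_iff.mpr hzz))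
        (norm_ne_zero_iff.mpr h3)
    · exact mul_ne_zero (norm_ne_zero_iff.mpr h1) (norm_ne_zero_iff.mpr h2)

end P4a177g
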