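import Pool.Agent.Lib.P4a177g.Defs

/-!
# MODULE P4a177g.PsdG: the kernel `-log (|x - y|^2 + e)` is positive on measures of total mass zero

PROOF. Let `α(x) = (|x|^2 + e) / √e`, `φ₀(x) = |x|^2 / (|x|^2 + e)`, `φ₁(x) = √2 Re x / α(x)`,
`φ₂(x) = √2 Im x / α(x)` and `k(x,y) = ∑_i φ_i(x) φ_i(y)`. Then
`|x - y|^2 + e = α(x) α(y) (1 - k(x,y))` and `|k(x,y)| ≤ θ < 1` on compact sets. So
`-log (|x - y|^2 + e) = -log α(x) - log α(y) + ∑_{m ≥ 1} k(x,y)^m / m`. In the sum of the double
integrals the first two terms disappear; a partial sum of the series gives a sum of squares, and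
the error of the partial sum tends to zero.
-/

set_option autoImplicit false

namespace P4a177g

open MeasureTheory
open scoped Real

namespace PsdGAux

/-- the normalising factor -/
noncomputable def al (e : ℝ) (z : ℂ) : ℝ := (‖z‖ ^ 2 + e) / √e

/-- the three coordinates -/
noncomputable def ph (e : ℝ) (i : Fin 3) (z : ℂ) : ℝ :=
  if i = 0 then ‖z‖ ^ 2 / (√e * al e z) else if i = 1 then √2 * z.re / al e z
    else √2 * z.im / al e z

/-- the kernel -/
noncomputable def ker (e : ℝ) (x y : ℂ) : ℝ := ∑ i, ph e i x * ph e i y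

theorem al_pos {e : ℝ} (he : 0 < e) (z : ℂ) : 0 < al e z := by
  unfold al
  have := Real.sqrt_pos.mpr he
  positivity

theorem al_cont {e : ℝ} : Continuous (al e) := by
  unfold al
  fun_prop

theorem ph_cont {e : ℝ} (he : 0 < e) (i : Fin 3) : Continuous (ph e i) := by
  have h1 : ∀ z, √e * al e z ≠ 0 := fun z =>
    (mul_pos (Real.sqrt_pos.mpr he) (al_pos he z)).ne'
  have h2 : ∀ z, al e z ≠ 0 := fun z => (al_pos he z).ne'
  have h3 := al_cont (e := e)
  unfold ph
  by_cases h0 : i = 0
  · simp only [h0, if_true]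
    exact Continuous.div (by fun_prop) (by fun_prop) h1
  · by_cases h1' : i = 1
    · simp only [h1', if_true]
      simp only [Fin.isValue, one_ne_zero, if_false]
      exact Continuous.div (by fun_prop) h3 h2
    · simp only [h0, h1', if_false]
      exact Continuous.div (by fun_prop) h3 h2

theorem norm_sub_sq (x y : ℂ) :
    ‖x - y‖ ^ 2 = ‖x‖ ^ 2 + ‖y‖ ^ 2 - 2 * (x.re * y.re + x.im * y.im) := by
  rw [← Complex.normSq_eq_norm_sq, ← Complex.normSq_eq_norm_sq, ← Complex.normSq_eq_norm_sq,
    Complex.normSq_apply, Complex.normSq_apply, Complex.normSq_apply]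
  simp only [Complex.sub_re, Complex.sub_im]
  ring

theorem ker_id {e : ℝ} (he : 0 < e) (x y : ℂ) :
    ‖x - y‖ ^ 2 + e = al e x * al e y * (1 - ker e x y) := by
  have hs : √e ^ 2 = e := Real.sq_sqrt he.le
  have hs0 : √e ≠ 0 := (Real.sqrt_pos.mpr he).ne'
  have h2 : √(2 : ℝ) ^ 2 = 2 := Real.sq_sqrt (by norm_num)
  have hx := (al_pos he x).ne'
  have hy := (al_pos he y).ne'
  have hk : al e x * al e y * ker e x y
      = ‖x‖ ^ 2 * ‖y‖ ^ 2 / e + 2 * (x.re * y.re + x.im * y.im) := by
    unfold ker
    rw [Fin.sum_univ_three]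
    have e0 : ph e 0 x = ‖x‖ ^ 2 / (√e * al e x) := by simp [ph]
    have e0' : ph e 0 y = ‖y‖ ^ 2 / (√e * al e y) := by simp [ph]
    have e1 : ph e 1 x = √2 * x.re / al e x := by simp [ph]
    have e1' : ph e 1 y = √2 * y.re / al e y := by simp [ph]
    have e2 : ph e 2 x = √2 * x.im / al e x := by simp [ph]
    have e2' : ph e 2 y = √2 * y.im / al e y := by simp [ph]
    rw [e0, e0', e1, e1', e2, e2']
    have : al e x * al e y * (‖x‖ ^ 2 / (√e * al e x) * (‖y‖ ^ 2 / (√e * al e y)) +
        √2 * x.re / al e x * (√2 * y.re / al e y) + √2 * x.im / al e x * (√2 * y.im / al e y))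
        = ‖x‖ ^ 2 * ‖y‖ ^ 2 / √e ^ 2 + √2 ^ 2 * (x.re * y.re + x.im * y.im) := by
      field_simp
      ring
    rw [this, hs, h2]
  rw [mul_sub, hk, norm_sub_sq, mul_one]
  have hm : al e x * al e y = (‖x‖ ^ 2 + e) * (‖y‖ ^ 2 + e) / e := by
    unfold al
    rw [div_mul_div_comm, ← sq, hs]
  rw [hm]
  field_simp
  ring

theorem ker_self {e : ℝ} (he : 0 < e) (x : ℂ) : ker e x x = 1 - e / al e x ^ 2 := by
  have h := ker_id he x x
  have hx := (al_pos he x).ne'
  rw [sub_self, norm_zero] at h
  field_simp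
  nlinarith [h]

theorem ker_abs_le {e θ : ℝ} {x y : ℂ} (hx : ker e x x ≤ θ) (hy : ker e y y ≤ θ) :
    |ker e x y| ≤ θ := by
  have h1 : ∀ i, |ph e i x * ph e i y| ≤ (ph e i x * ph e i x + ph e i y * ph e i y) / 2 := by
    intro i
    rw [abs_le]
    constructor <;> nlinarith [sq_nonneg (ph e i x + ph e i y), sq_nonneg (ph e i x - ph e i y)]
  have h2 : |ker e x y| ≤ ∑ i, (ph e i x * ph e i x + ph e i y * ph e i y) / 2 :=
    (Finset.abs_sum_le_sum_abs _ _).trans (Finset.sum_le_sum fun i _ => h1 i)
  have h3 : ∑ i, (ph e i x * ph e i x + ph e i y * ph e i y) / 2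
      = (ker e x x + ker e y y) / 2 := by
    rw [← Finset.sum_div, Finset.sum_add_distrib]
    rfl
  rw [h3] at h2
  linarith

theorem theta_bound {e M : ℝ} (he : 0 < e) {x : ℂ} (hx : ‖x‖ ≤ M) :
    ker e x x ≤ 1 - e / ((M ^ 2 + e) / √e) ^ 2 := by
  rw [ker_self he]
  have h0 := al_pos he x
  have hs := Real.sqrt_pos.mpr he
  have h1 : al e x ≤ (M ^ 2 + e) / √e := by
    unfold al
    have : ‖x‖ ^ 2 ≤ M ^ 2 := pow_le_pow_left₀ (norm_nonneg _) hx 2
    gcongr
  have h2 : e / ((M ^ 2 + e) / √e) ^ 2 ≤ e / al e x ^ 2 := by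
    gcongr
  linarith

/-- the double integral -/
noncomputable def dI (L : ℝ) (f : ℝ → ℝ → ℝ) : ℝ :=
  ∫ s in (0 : ℝ)..L, ∫ s' in (0 : ℝ)..L, f s s'

theorem inner_cont {L : ℝ} {f : ℝ → ℝ → ℝ} (hf : Continuous (Function.uncurry f)) :
    Continuous fun s => ∫ s' in (0 : ℝ)..L, f s s' :=
  intervalIntegral.continuous_parametric_intervalIntegral_of_continuous' hf 0 L

theorem dI_add {L : ℝ} {f g : ℝ → ℝ → ℝ} (hf : Continuous (Function.uncurry f))
    (hg : Continuous (Function.uncurry g)) :
    dI L (fun s s' => f s s' + g s s') = dI L f + dI L g := by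
  unfold dI
  rw [← intervalIntegral.integral_add ((inner_cont hf).intervalIntegrable _ _)
    ((inner_cont hg).intervalIntegrable _ _)]
  refine intervalIntegral.integral_congr fun s _ => ?_
  exact intervalIntegral.integral_add
    ((hf.comp (by fun_prop : Continuous fun t : ℝ => (s, t))).intervalIntegrable _ _)
    ((hg.comp (by fun_prop : Continuous fun t : ℝ => (s, t))).intervalIntegrable _ _)

theorem dI_mul {L c : ℝ} {f : ℝ → ℝ → ℝ} : dI L (fun s s' => c * f s s') = c * dI L f := by
  unfold dI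
  simp only [intervalIntegral.integral_const_mul]

theorem dI_prod {L : ℝ} {u v : ℝ → ℝ} :
    dI L (fun s s' => u s * v s') = (∫ s in (0 : ℝ)..L, u s) * ∫ s in (0 : ℝ)..L, v s := by
  unfold dI
  simp only [intervalIntegral.integral_const_mul, intervalIntegral.integral_mul_const]

theorem dI_sum {L : ℝ} {ι : Type} (t : Finset ι) {f : ι → ℝ → ℝ → ℝ}
    (hf : ∀ i, Continuous (Function.uncurry (f i))) :
    dI L (fun s s' => ∑ i ∈ t, f i s s') = ∑ i ∈ t, dI L (f i) := by
  classical
  induction t using Finset.induction_on with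
  | empty => simp [dI]
  | insert a t ha ih =>
    simp only [Finset.sum_insert ha]
    rw [dI_add (hf a) ?_, ih]
    have : Function.uncurry (fun s s' => ∑ i ∈ t, f i s s')
        = fun p => ∑ i ∈ t, Function.uncurry (f i) p := by
      funext p
      rfl
    rw [this]
    exact continuous_finsetSum _ fun i _ => hf i

theorem dI_abs {L C : ℝ} (hL : 0 ≤ L) {f : ℝ → ℝ → ℝ}
    (hC : ∀ s ∈ Set.Icc 0 L, ∀ s' ∈ Set.Icc 0 L, |f s s'| ≤ C) :
    |dI L f| ≤ C * L * L := by
  unfold dI
  have h1 : ∀ s ∈ Set.Icc 0 L, ‖∫ s' in (0 : ℝ)..L, f s s'‖ ≤ C * L := by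
    intro s hs
    have := intervalIntegral.norm_integral_le_of_norm_le_const (a := 0) (b := L) (C := C)
      (f := fun s' => f s s') (fun s' hs' => by
        rw [Set.uIoc_of_le hL] at hs'
        exact hC s hs s' ⟨hs'.1.le, hs'.2⟩)
    rwa [sub_zero, abs_of_nonneg hL] at this
  have := intervalIntegral.norm_integral_le_of_norm_le_const (a := 0) (b := L) (C := C * L)
      (f := fun s => ∫ s' in (0 : ℝ)..L, f s s') (fun s hs => by
        rw [Set.uIoc_of_le hL] at hs
        exact h1 s ⟨hs.1.le, hs.2⟩)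
  rwa [sub_zero, abs_of_nonneg hL] at this

end PsdGAux

open PsdGAux

theorem psd_eps {n : ℕ} {L e : ℝ} (hL : 0 ≤ L) (he : 0 < e) (X : Fin n → ℝ → ℂ)
    (hX : ∀ q, Continuous (X q)) (g : Fin n → ℝ → ℝ) (hg : ∀ q, Continuous (g q))
    (h0 : ∑ q, ∫ s in (0 : ℝ)..L, g q s = 0) :
    ∑ q, ∑ q', ∫ s in (0 : ℝ)..L, ∫ s' in (0 : ℝ)..L,
      Real.log (‖X q s - X q' s'‖ ^ 2 + e) * (g q s * g q' s') ≤ 0 := by
  classical
  -- bounds on the compact interval
  obtain ⟨M, hM⟩ : ∃ M : ℝ, ∀ q, ∀ s ∈ Set.Icc 0 L, ‖X q s‖ ≤ M := by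
    have h1 : ∀ q, ∃ M : ℝ, ∀ s ∈ Set.Icc 0 L, ‖X q s‖ ≤ M := fun q =>
      isCompact_Icc.exists_bound_of_continuousOn (hX q).continuousOn
    choose M hM using h1
    refine ⟨∑ q, |M q|, fun q s hs => (hM q s hs).trans ((le_abs_self _).trans ?_)⟩
    exact Finset.single_le_sum (f := fun q => |M q|) (fun _ _ => abs_nonneg _) (Finset.mem_univ q)
  obtain ⟨C, hC⟩ : ∃ C : ℝ, ∀ q, ∀ s ∈ Set.Icc 0 L, |g q s| ≤ C := by
    have h1 : ∀ q, ∃ M : ℝ, ∀ s ∈ Set.Icc 0 L, ‖g q s‖ ≤ M := fun q =>
      isCompact_Icc.exists_bound_of_continuousOn (hg q).continuousOn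
    choose M hM using h1
    refine ⟨∑ q, |M q|, fun q s hs => (hM q s hs).trans ((le_abs_self _).trans ?_)⟩
    exact Finset.single_le_sum (f := fun q => |M q|) (fun _ _ => abs_nonneg _) (Finset.mem_univ q)
  set θ : ℝ := 1 - e / ((M ^ 2 + e) / √e) ^ 2 with hθ
  have hs := Real.sqrt_pos.mpr he
  have hθ1 : θ < 1 := by
    have : 0 < e / ((M ^ 2 + e) / √e) ^ 2 := by positivity
    linarith
  have hkθ : ∀ q, ∀ s ∈ Set.Icc 0 L, ∀ q', ∀ s' ∈ Set.Icc 0 L,
      |ker e (X q s) (X q' s')| ≤ θ := fun q s hs' q' s' hs'' =>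
    ker_abs_le (theta_bound he (hM q s hs')) (theta_bound he (hM q' s' hs''))
  -- continuity facts
  have cA : ∀ q, Continuous fun s => Real.log (al e (X q s)) := fun q =>
    (al_cont.comp (hX q)).log fun s => (al_pos he _).ne'
  have cP : ∀ i q, Continuous fun s => ph e i (X q s) := fun i q => (ph_cont he i).comp (hX q)
  have cK : ∀ q q', Continuous fun p : ℝ × ℝ => ker e (X q p.1) (X q' p.2) := by
    intro q q'
    unfold ker
    exact continuous_finsetSum _ fun i _ =>
      ((cP i q).comp continuous_fst).mul ((cP i q').comp continuous_snd)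
  have cG : ∀ q q', Continuous fun p : ℝ × ℝ => g q p.1 * g q' p.2 := fun q q' =>
    ((hg q).comp continuous_fst).mul ((hg q').comp continuous_snd)
  have cL : ∀ q q', Continuous fun p : ℝ × ℝ => Real.log (‖X q p.1 - X q' p.2‖ ^ 2 + e) := by
    intro q q'
    refine Continuous.log ?_ fun p => by positivity
    have h1 := (hX q).comp (continuous_fst (X := ℝ) (Y := ℝ))
    have h2 := (hX q').comp (continuous_snd (X := ℝ) (Y := ℝ))
    exact ((h1.sub h2).norm.pow 2).add continuous_const
  -- squares
  have hsq : ∀ m : ℕ, 0 ≤ ∑ q, ∑ q',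
      dI L (fun s s' => ker e (X q s) (X q' s') ^ m * (g q s * g q' s')) := by
    intro m
    have h1 : ∀ q q', dI L (fun s s' => ker e (X q s) (X q' s') ^ m * (g q s * g q' s'))
        = ∑ t : Fin m → Fin 3, (∫ s in (0 : ℝ)..L, (∏ j, ph e (t j) (X q s)) * g q s) *
          ∫ s in (0 : ℝ)..L, (∏ j, ph e (t j) (X q' s)) * g q' s := by
      intro q q'
      have h2 : (fun s s' => ker e (X q s) (X q' s') ^ m * (g q s * g q' s'))
          = fun s s' => ∑ t : Fin m → Fin 3,
            ((∏ j, ph e (t j) (X q s)) * g q s) * ((∏ j, ph e (t j) (X q' s')) * g q' s') := by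
        funext s s'
        unfold ker
        rw [Fintype.sum_pow, Finset.sum_mul]
        refine Finset.sum_congr rfl fun t _ => ?_
        rw [Finset.prod_mul_distrib]
        ring
      have h3 : ∀ t : Fin m → Fin 3, Continuous (Function.uncurry fun s s' =>
          ((∏ j, ph e (t j) (X q s)) * g q s) * ((∏ j, ph e (t j) (X q' s')) * g q' s')) := by
        intro t
        have c1 : Continuous fun s => (∏ j, ph e (t j) (X q s)) * g q s :=
          (continuous_finsetProd _ fun j _ => cP (t j) q).mul (hg q)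
        have c2 : Continuous fun s => (∏ j, ph e (t j) (X q' s)) * g q' s :=
          (continuous_finsetProd _ fun j _ => cP (t j) q').mul (hg q')
        exact (c1.comp continuous_fst).mul (c2.comp continuous_snd)
      rw [h2, dI_sum _ h3]
      exact Finset.sum_congr rfl fun t _ => dI_prod
    simp_rw [h1]
    have h4 : ∑ q, ∑ q', ∑ t : Fin m → Fin 3,
        (∫ s in (0 : ℝ)..L, (∏ j, ph e (t j) (X q s)) * g q s) *
          (∫ s in (0 : ℝ)..L, (∏ j, ph e (t j) (X q' s)) * g q' s)
        = ∑ t : Fin m → Fin 3,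
          (∑ q, ∫ s in (0 : ℝ)..L, (∏ j, ph e (t j) (X q s)) * g q s) ^ 2 := by
      have h5 : ∀ t : Fin m → Fin 3,
          (∑ q, ∫ s in (0 : ℝ)..L, (∏ j, ph e (t j) (X q s)) * g q s) ^ 2
          = ∑ q, ∑ q', (∫ s in (0 : ℝ)..L, (∏ j, ph e (t j) (X q s)) * g q s) *
          (∫ s in (0 : ℝ)..L, (∏ j, ph e (t j) (X q' s)) * g q' s) := by
        intro t
        rw [sq, Finset.sum_mul_sum]
      simp_rw [h5]
      rw [Finset.sum_comm' (s := Finset.univ) (t := fun _ => Finset.univ)
        (t' := Finset.univ) (s' := fun _ => Finset.univ) (by simp)]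
      simp_rw [Finset.sum_comm (s := (Finset.univ : Finset (Fin m → Fin 3)))]
      rw [Finset.sum_comm]
    rw [h4]
    exact Finset.sum_nonneg fun t _ => sq_nonneg _
  -- the terms with alpha vanish
  have hal : ∑ q, ∑ q', dI L (fun s s' =>
      (Real.log (al e (X q s)) + Real.log (al e (X q' s'))) * (g q s * g q' s')) = 0 := by
    have h1 : ∀ q q', dI L (fun s s' =>
        (Real.log (al e (X q s)) + Real.log (al e (X q' s'))) * (g q s * g q' s'))
        = (∫ s in (0 : ℝ)..L, Real.log (al e (X q s)) * g q s) * (∫ s in (0 : ℝ)..L, g q' s)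
          + (∫ s in (0 : ℝ)..L, g q s) *
            (∫ s in (0 : ℝ)..L, Real.log (al e (X q' s)) * g q' s) := by
      intro q q'
      have h2 : (fun s s' =>
          (Real.log (al e (X q s)) + Real.log (al e (X q' s'))) * (g q s * g q' s'))
          = fun s s' => (Real.log (al e (X q s)) * g q s) * g q' s'
            + g q s * (Real.log (al e (X q' s')) * g q' s') := by
        funext s s'
        ring
      have c1 : Continuous (Function.uncurry fun s s' =>
          (Real.log (al e (X q s)) * g q s) * g q' s') :=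
        (((cA q).mul (hg q)).comp continuous_fst).mul ((hg q').comp continuous_snd)
      have c2 : Continuous (Function.uncurry fun s s' =>
          g q s * (Real.log (al e (X q' s')) * g q' s')) :=
        ((hg q).comp continuous_fst).mul (((cA q').mul (hg q')).comp continuous_snd)
      rw [h2, dI_add c1 c2, dI_prod, dI_prod]
    simp_rw [h1, Finset.sum_add_distrib]
    have h3 : ∑ q, ∑ q', (∫ s in (0 : ℝ)..L, Real.log (al e (X q s)) * g q s) *
        (∫ s in (0 : ℝ)..L, g q' s) = 0 := by
      rw [← Finset.sum_mul_sum, h0, mul_zero]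
    have h4 : ∑ q, ∑ q', (∫ s in (0 : ℝ)..L, g q s) *
        (∫ s in (0 : ℝ)..L, Real.log (al e (X q' s)) * g q' s) = 0 := by
      rw [← Finset.sum_mul_sum, h0, zero_mul]
    rw [h3, h4, add_zero]
  -- the estimate for every partial sum
  have key : ∀ m : ℕ, ∑ q, ∑ q', dI L (fun s s' =>
      Real.log (‖X q s - X q' s'‖ ^ 2 + e) * (g q s * g q' s'))
      ≤ (n : ℝ) * (n * ((θ ^ (m + 1) / (1 - θ) * (C * C)) * L * L)) := by
    intro m
    have hdec : ∀ q q', dI L (fun s s' =>
        Real.log (‖X q s - X q' s'‖ ^ 2 + e) * (g q s * g q' s'))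
        ≤ dI L (fun s s' =>
          (Real.log (al e (X q s)) + Real.log (al e (X q' s'))) * (g q s * g q' s'))
        - ∑ i ∈ Finset.range m, (1 / ((i : ℝ) + 1)) *
            dI L (fun s s' => ker e (X q s) (X q' s') ^ (i + 1) * (g q s * g q' s'))
        + (θ ^ (m + 1) / (1 - θ) * (C * C)) * L * L := by
      intro q q'
      set E : ℝ → ℝ → ℝ := fun s s' =>
        ((∑ i ∈ Finset.range m, ker e (X q s) (X q' s') ^ (i + 1) / ((i : ℝ) + 1))
          + (Real.log (‖X q s - X q' s'‖ ^ 2 + e)
            - (Real.log (al e (X q s)) + Real.log (al e (X q' s'))))) * (g q s * g q' s')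
        with hE
      have cS : Continuous fun p : ℝ × ℝ =>
          ∑ i ∈ Finset.range m, ker e (X q p.1) (X q' p.2) ^ (i + 1) / ((i : ℝ) + 1) :=
        continuous_finsetSum _ fun i _ => ((cK q q').pow (i + 1)).div_const _
      have cAA : Continuous fun p : ℝ × ℝ =>
          Real.log (al e (X q p.1)) + Real.log (al e (X q' p.2)) :=
        ((cA q).comp continuous_fst).add ((cA q').comp continuous_snd)
      have cE : Continuous (Function.uncurry E) :=
        (cS.add ((cL q q').sub cAA)).mul (cG q q')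
      have cF : ∀ i : ℕ, Continuous (Function.uncurry fun s s' =>
          ker e (X q s) (X q' s') ^ (i + 1) * (g q s * g q' s')) := fun i =>
        ((cK q q').pow (i + 1)).mul (cG q q')
      have cB : Continuous (Function.uncurry fun s s' =>
          (Real.log (al e (X q s)) + Real.log (al e (X q' s'))) * (g q s * g q' s')) :=
        cAA.mul (cG q q')
      have hEb : |dI L E| ≤ (θ ^ (m + 1) / (1 - θ) * (C * C)) * L * L := by
        refine dI_abs hL fun s hs' s' hs'' => ?_
        have hk := hkθ q s hs' q' s' hs''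
        have hk1 : |ker e (X q s) (X q' s')| < 1 := hk.trans_lt hθ1
        have h1 : Real.log (‖X q s - X q' s'‖ ^ 2 + e)
            = Real.log (al e (X q s)) + Real.log (al e (X q' s'))
              + Real.log (1 - ker e (X q s) (X q' s')) := by
          rw [ker_id he, Real.log_mul, Real.log_mul]
          · exact (al_pos he _).ne'
          · exact (al_pos he _).ne'
          · exact (mul_pos (al_pos he _) (al_pos he _)).ne'
          · have := (abs_lt.mp hk1).2
            linarith
        have h2 : E s s' = ((∑ i ∈ Finset.range m,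
            ker e (X q s) (X q' s') ^ (i + 1) / ((i : ℝ) + 1))
            + Real.log (1 - ker e (X q s) (X q' s'))) * (g q s * g q' s') := by
          simp only [hE]
          rw [h1]
          ring
        rw [h2, abs_mul, abs_mul]
        have h3 := Real.abs_log_sub_add_sum_range_le hk1 m
        have hθ0 : 0 ≤ θ := (abs_nonneg _).trans hk
        have h4 : |ker e (X q s) (X q' s')| ^ (m + 1) / (1 - |ker e (X q s) (X q' s')|)
            ≤ θ ^ (m + 1) / (1 - θ) := by
          have : 0 < 1 - θ := by linarith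
          gcongr
        have hC0 : 0 ≤ C := (abs_nonneg _).trans (hC q s hs')
        have h5 : |g q s| * |g q' s'| ≤ C * C :=
          mul_le_mul (hC q s hs') (hC q' s' hs'') (abs_nonneg _) hC0
        refine mul_le_mul (h3.trans h4) h5 (by positivity) ?_
        have : 0 < 1 - θ := by linarith
        positivity
      -- decompose
      have hsplit : (fun s s' => Real.log (‖X q s - X q' s'‖ ^ 2 + e) * (g q s * g q' s'))
          = fun s s' => ((Real.log (al e (X q s)) + Real.log (al e (X q' s'))) *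
              (g q s * g q' s')
              + (∑ i ∈ Finset.range m, (-(1 / ((i : ℝ) + 1))) *
                (ker e (X q s) (X q' s') ^ (i + 1) * (g q s * g q' s')))) + E s s' := by
        funext s s'
        simp only [hE]
        have : ∑ i ∈ Finset.range m, (-(1 / ((i : ℝ) + 1))) *
                (ker e (X q s) (X q' s') ^ (i + 1) * (g q s * g q' s'))
            = -((∑ i ∈ Finset.range m, ker e (X q s) (X q' s') ^ (i + 1) / ((i : ℝ) + 1)) *
                (g q s * g q' s')) := by
          rw [Finset.sum_mul, ← Finset.sum_neg_distrib]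
          refine Finset.sum_congr rfl fun i _ => ?_
          ring
        rw [this]
        ring
      have cF' : ∀ i : ℕ, Continuous (Function.uncurry fun s s' => (-(1 / ((i : ℝ) + 1))) *
          (ker e (X q s) (X q' s') ^ (i + 1) * (g q s * g q' s'))) := fun i =>
        continuous_const.mul (cF i)
      have cSum : Continuous (Function.uncurry fun s s' =>
          ∑ i ∈ Finset.range m, (-(1 / ((i : ℝ) + 1))) *
                (ker e (X q s) (X q' s') ^ (i + 1) * (g q s * g q' s'))) := by
        have : (Function.uncurry fun s s' =>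
          ∑ i ∈ Finset.range m, (-(1 / ((i : ℝ) + 1))) *
                (ker e (X q s) (X q' s') ^ (i + 1) * (g q s * g q' s')))
            = fun p : ℝ × ℝ => ∑ i ∈ Finset.range m, (Function.uncurry fun s s' =>
              (-(1 / ((i : ℝ) + 1))) *
              (ker e (X q s) (X q' s') ^ (i + 1) * (g q s * g q' s'))) p := by
          funext p
          rfl
        rw [this]
        exact continuous_finsetSum _ fun i _ => cF' i
      have cBS : Continuous (Function.uncurry fun s s' =>
          (Real.log (al e (X q s)) + Real.log (al e (X q' s'))) * (g q s * g q' s')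
          + (∑ i ∈ Finset.range m, (-(1 / ((i : ℝ) + 1))) *
                (ker e (X q s) (X q' s') ^ (i + 1) * (g q s * g q' s')))) := cB.add cSum
      rw [hsplit, dI_add cBS cE, dI_add cB cSum, dI_sum _ cF']
      simp only [dI_mul]
      have h6 := (abs_le.mp hEb).2
      have h7 : ∑ i ∈ Finset.range m, (-(1 / ((i : ℝ) + 1))) *
          dI L (fun s s' => ker e (X q s) (X q' s') ^ (i + 1) * (g q s * g q' s'))
          = -∑ i ∈ Finset.range m, (1 / ((i : ℝ) + 1)) *
          dI L (fun s s' => ker e (X q s) (X q' s') ^ (i + 1) * (g q s * g q' s')) := by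
        rw [← Finset.sum_neg_distrib]
        exact Finset.sum_congr rfl fun i _ => by ring
      rw [h7]
      linarith
    have h8 := Finset.sum_le_sum fun q (_ : q ∈ (Finset.univ : Finset (Fin n))) =>
      Finset.sum_le_sum fun q' (_ : q' ∈ (Finset.univ : Finset (Fin n))) => hdec q q'
    refine h8.trans ?_
    simp only [Finset.sum_add_distrib, Finset.sum_sub_distrib]
    rw [hal]
    simp only [Finset.sum_const, Finset.card_univ, Fintype.card_fin, nsmul_eq_mul]
    have h9 : 0 ≤ ∑ q, ∑ q', ∑ i ∈ Finset.range m, (1 / ((i : ℝ) + 1)) *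
            dI L (fun s s' => ker e (X q s) (X q' s') ^ (i + 1) * (g q s * g q' s')) := by
      have h10 : ∑ q, ∑ q', ∑ i ∈ Finset.range m, (1 / ((i : ℝ) + 1)) *
            dI L (fun s s' => ker e (X q s) (X q' s') ^ (i + 1) * (g q s * g q' s'))
          = ∑ i ∈ Finset.range m, (1 / ((i : ℝ) + 1)) * ∑ q, ∑ q',
            dI L (fun s s' => ker e (X q s) (X q' s') ^ (i + 1) * (g q s * g q' s')) := by
        simp_rw [Finset.mul_sum]
        rw [Finset.sum_comm' (s := Finset.range m) (t := fun _ => Finset.univ)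
          (t' := Finset.univ) (s' := fun _ => Finset.range m) (by simp)]
        refine Finset.sum_congr rfl fun q _ => ?_
        rw [Finset.sum_comm]
      rw [h10]
      exact Finset.sum_nonneg fun i _ => mul_nonneg (by positivity) (hsq (i + 1))
    linarith
  -- conclusion
  have hlim : Filter.Tendsto
      (fun m : ℕ => (n : ℝ) * (n * ((θ ^ (m + 1) / (1 - θ) * (C * C)) * L * L)))
      Filter.atTop (nhds 0) := by
    by_cases hθ0 : 0 ≤ θ
    · have h1 : Filter.Tendsto (fun m : ℕ => θ ^ (m + 1)) Filter.atTop (nhds 0) :=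
        (tendsto_pow_atTop_nhds_zero_of_lt_one hθ0 hθ1).comp (Filter.tendsto_add_atTop_nat 1)
      have h2 := ((((h1.div_const (1 - θ)).mul_const (C * C)).mul_const L).mul_const L).const_mul
        (n : ℝ)
      have h3 := h2.const_mul (n : ℝ)
      simpa using h3
    · -- then there are no members at all
      have hn : n = 0 := by
        by_contra hn
        have hq : 0 < n := Nat.pos_of_ne_zero hn
        have := hkθ ⟨0, hq⟩ 0 ⟨le_rfl, hL⟩ ⟨0, hq⟩ 0 ⟨le_rfl, hL⟩
        exact hθ0 ((abs_nonneg _).trans this)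
      subst hn
      simp
  exact ge_of_tendsto' hlim key

end P4a177g
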