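import Pool.Agent.Lib.P4a177g.FouG

/-!
# The regulators of the symbols with the entries `x_s - a_{s,i s}`
-/

set_option autoImplicit false

namespace P4a177g

open P4a177h P4a177e P4a177f Function MeasureTheory
open scoped Real

variable {d : ℕ} {A : Fam d} {c : Fin (d + 2) → ℝ} {N : ℕ} {q : ∀ s, Fin (A.m s + 1)}
  {r : Fin (d + 2) → ℝ}

namespace RegGAux

theorem sum_log (h : GoodG A c N) (hr : RadG c N r) :
    ∑ s, Real.log (r s) = -Real.log N := by
  have h1 : (0 : ℝ) < N := by
    have := h.one_le_N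
    exact_mod_cast this
  have h2 := congrArg Real.log hr.prod
  rw [Real.log_one, Real.log_mul h1.ne' (Finset.prod_ne_zero_iff.2 fun s _ => (hr.pos s).ne'),
    Real.log_prod fun s _ => (hr.pos s).ne'] at h2
  linarith

end RegGAux

open RegFAux RegGAux

theorem main_eq (h : GoodG A c N) (hr : RadG c N r) (i : ∀ s, Fin (A.m s + 1)) :
    cst A q r 0 (i 0) * ∏ j : Fin (d + 1), dl A q j.succ (i j.succ) +
      dl A q 0 (i 0) * ∑ k : Fin (d + 1), cst A q r k.succ (i k.succ) *
        ∏ l ∈ Finset.univ.erase k, dl A q (Fin.succ l) (i (Fin.succ l)) = mm A N q i := by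
  have e1 : cst A q r 0 (i 0) * ∏ j : Fin (d + 1), dl A q j.succ (i j.succ) +
      dl A q 0 (i 0) * ∑ k : Fin (d + 1), cst A q r k.succ (i k.succ) *
        ∏ l ∈ Finset.univ.erase k, dl A q (Fin.succ l) (i (Fin.succ l)) =
      ∑ s, cst A q r s (i s) * ∏ t ∈ Finset.univ.erase s, dl A q t (i t) := by
    rw [Fin.sum_univ_succ (fun s => cst A q r s (i s) * ∏ t ∈ Finset.univ.erase s, dl A q t (i t)),
      RegEAux.prod_erase_zero (fun t => dl A q t (i t)), Finset.mul_sum]
    congr 1
    refine Finset.sum_congr rfl fun k _ => ?_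
    rw [RegEAux.prod_erase_succ (fun t => dl A q t (i t)) k]
    ring
  rw [e1]
  have e2 : ∀ s : Fin (d + 2), cst A q r s (i s) * ∏ t ∈ Finset.univ.erase s, dl A q t (i t) =
      -(lap A q s (i s) * ∏ t ∈ Finset.univ.erase s, dl A q t (i t)) +
        Real.log (r s) * ∏ t, dl A q t (i t) := by
    intro s
    rw [cst_eq, ← Finset.mul_prod_erase Finset.univ (fun t => dl A q t (i t)) (Finset.mem_univ s)]
    ring
  rw [Finset.sum_congr rfl fun s _ => e2 s, Finset.sum_add_distrib, Finset.sum_neg_distrib,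
    ← Finset.sum_mul, sum_log h hr]
  unfold mm dl
  ring

theorem reg_entryG (h : GoodG A c N) (hr : RadG c N r) (T : TorF A N q r)
    (i : ∀ s, Fin (A.m s + 1)) :
    regFun T.γ (fun s => A.linU N s (i s)) / (2 * π) ^ (d + 1) = mm A N q i + EG A N q i := by
  have hf : ∀ j : Fin (d + 1), Continuous fun t : ℝ =>
      (dl A q j.succ (i j.succ) : ℂ) + -Complex.I * V1' A q r j (i j.succ) t := fun j =>
    continuous_const.add (continuous_const.mul (V1'_continuous h hr j (i j.succ)))
  have key := P4a177t.regFun_diag T.γ (fun s => A.linU N s (i s))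
    (fun j t => (dl A q j.succ (i j.succ) : ℂ) + -Complex.I * V1' A q r j (i j.succ) t) hf
    (fun j θ l => rowF_succ h hr T j (i j.succ) θ l)
  simp only [logF_zero h hr T, logF_succ h hr T, rowF_zero h hr T] at key
  have ex := integral_exact (cst A q r 0 (i 0)) (dl A q 0 (i 0))
    (fun k : Fin (d + 1) => cst A q r k.succ (i k.succ))
    (fun j : Fin (d + 1) => dl A q j.succ (i j.succ)) (W0 A q r (i 0)) (W0_contDiff h hr (i 0))
    (fun θ l => W0_periodic (i 0) θ l) (fun k => V1 A q r k (i k.succ))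
    (fun k => V1' A q r k (i k.succ)) (fun k t => V1_hasDerivAt h hr k (i k.succ) t)
    (fun k => V1'_continuous h hr k (i k.succ)) (fun k t => V1_periodic k (i k.succ) t)
    (fun k => V1_int h hr k (i k.succ))
  rw [key, ex, main_eq h hr i, integral_W_eq h hr (q := q) i]
  have hπ : (0 : ℝ) < (2 * π) ^ (d + 1) := by positivity
  field_simp

end P4a177g
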