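import Pool.Agent.Lib.P4a177g.TtG
import Pool.Agent.Lib.P4a177f.LagF

/-!
# MODULE P4a177g.TayG: the Taylor coefficients of `T(w)` (est. 1.2 h)

PROOF. Let `b l = a q - a l` (`b l ≠ 0` for `l ≠ q`) and `ψ0 w = x q w - a q`. It is analytic at `0`
(differentiable on the open set `slit c ∋ 0`), `ψ0 0 = 0`, and `ψ0 w * ∏_{l ≠ q} (ψ0 w + b l) = pf a (x q w)
= w`. For `k ≠ q` `P4a177f.lagrange` gives near `0`:
`∑_j co b q k (j+1) w^j = (ψ0 w + b k)⁻¹ * deriv ψ0 w`, and `w * this = tt a x q k w` (`tt_mul`,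
`x q w - a k = ψ0 w + b k ≠ 0` near `0`, `hx.der`). So near `0` `tt a x q k w = ∑_m hq a q k m * w^m`
(`hc b q k m = co b q k m`), and for `k = q` use `tt_sum` and `hc b q q m = -∑_{l≠q} co b q l m`. Now
`tt a x q k` is differentiable on the disc `‖w‖ < c` (`slit_of_lt`), so it is the sum of its Taylor
series there (`DifferentiableOn.hasFPowerSeriesOnBall`, or `Complex.hasSum_taylorSeries_on_ball`), and the
coefficients are unique (`HasFPowerSeriesAt.eq_formalMultilinearSeries`).
-/

set_option autoImplicit false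

namespace P4a177g

open P4a177f Function

variable {n : ℕ} {a : Fin n → ℝ} {c : ℝ} {x : Fin n → ℂ → ℂ}

namespace TayGAux

open Filter Topology

/-- The slit plane is a neighbourhood of zero. -/
theorem slit_nhds (h : Crit a c) : slit c ∈ 𝓝 (0 : ℂ) :=
  (isOpen_slit c).mem_nhds (zero_mem_slit h.pos)

/-- The coefficients near zero, off the diagonal. -/
theorem near_off (h : Crit a c) (hx : Br a c x) {q k : Fin n} (hk : k ≠ q) :
    ∀ᶠ w in 𝓝 (0 : ℂ), HasSum (fun m : ℕ => (hq a q k m : ℂ) * w ^ m) (tt a x q k w) := by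
  set b : Fin n → ℝ := fun l => a q - a l with hb
  set ψ0 : ℂ → ℂ := fun w => x q w - (a q : ℂ) with hψ0
  have hb0 : ∀ l, l ≠ q → b l ≠ 0 := by
    intro l hl h0
    exact hl (h.inj (sub_eq_zero.mp h0).symm)
  have hs := slit_nhds h
  have hdiff : DifferentiableOn ℂ (x q) (slit c) := fun w hw =>
    (hx.der q w hw).differentiableAt.differentiableWithinAt
  have hxa : AnalyticAt ℂ (x q) 0 := hdiff.analyticAt hs
  have hψa : AnalyticAt ℂ ψ0 0 := hxa.sub analyticAt_const
  have h00 : ψ0 0 = 0 := by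
    simp only [hψ0, hx.zero, sub_self]
  have hsum : ∀ w l, ψ0 w + (b l : ℂ) = x q w - (a l : ℂ) := by
    intro w l
    simp only [hψ0, hb]
    push_cast
    ring
  have hinv : ∀ᶠ w in 𝓝 (0 : ℂ),
      ψ0 w * ∏ l ∈ Finset.univ.erase q, (ψ0 w + (b l : ℂ)) = w := by
    filter_upwards [hs] with w hw
    have h1 : ∏ l ∈ Finset.univ.erase q, (ψ0 w + (b l : ℂ)) = pe a q (x q w) := by
      unfold pe
      exact Finset.prod_congr rfl fun l _ => hsum w l
    rw [h1]
    exact (pe_mul a q (x q w)).trans (hx.eqn q w hw)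
  have hL := lagrange hb0 hψa h00 hinv hk
  have hne : ∀ᶠ w in 𝓝 (0 : ℂ), x q w - (a k : ℂ) ≠ 0 := by
    have h1 : ContinuousAt (fun w => x q w - (a k : ℂ)) 0 :=
      hxa.continuousAt.sub continuousAt_const
    apply h1.eventually_ne
    rw [hx.zero]
    intro h2
    have h3 : (a q : ℂ) = (a k : ℂ) := sub_eq_zero.mp h2
    exact hk (h.inj (by exact_mod_cast h3.symm))
  filter_upwards [hs, hL, hne] with w hw hLw hnew
  have hder : deriv ψ0 w = (pd a (x q w))⁻¹ := ((hx.der q w hw).sub_const _).deriv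
  rw [hder, hsum w k] at hLw
  have htt : w * ((x q w - (a k : ℂ))⁻¹ * (pd a (x q w))⁻¹) = tt a x q k w := by
    have h1 := tt_mul hx q k hw
    calc w * ((x q w - (a k : ℂ))⁻¹ * (pd a (x q w))⁻¹)
        = (x q w - (a k : ℂ))⁻¹ * (w * (pd a (x q w))⁻¹) := by ring
      _ = (x q w - (a k : ℂ))⁻¹ * ((x q w - (a k : ℂ)) * tt a x q k w) := by rw [h1]
      _ = tt a x q k w := inv_mul_cancel_left₀ hnew _
  have h2 := hLw.mul_left w
  rw [htt] at h2
  have h3 : HasSum (fun j : ℕ => (hq a q k (j + 1) : ℂ) * w ^ (j + 1)) (tt a x q k w) := by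
    refine h2.congr_fun fun j => ?_
    have h4 : hq a q k (j + 1) = co b q k (j + 1) := by
      unfold hq hc
      rw [if_neg (Nat.succ_ne_zero j), if_neg hk]
    rw [h4]
    ring
  have h5 := (hasSum_nat_add_iff (f := fun m : ℕ => (hq a q k m : ℂ) * w ^ m) 1).mp h3
  have h6 : (hq a q k 0 : ℂ) = 0 := by
    simp [hq, dd, Ne.symm hk]
  simpa [h6] using h5

/-- The coefficients near zero. -/
theorem near (h : Crit a c) (hx : Br a c x) (q k : Fin n) :
    ∀ᶠ w in 𝓝 (0 : ℂ), HasSum (fun m : ℕ => (hq a q k m : ℂ) * w ^ m) (tt a x q k w) := by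
  by_cases hk : k = q
  · subst hk
    have h1 : ∀ᶠ w in 𝓝 (0 : ℂ), ∀ l ∈ Finset.univ.erase k,
        HasSum (fun m : ℕ => (hq a k l m : ℂ) * w ^ m) (tt a x k l w) := by
      rw [Filter.eventually_all_finset]
      intro l hl
      exact near_off h hx (Finset.ne_of_mem_erase hl)
    filter_upwards [slit_nhds h, h1] with w hw hw1
    have h2 := hasSum_sum hw1
    have h3 : HasSum (fun m : ℕ => if m = 0 then (1 : ℂ) else 0) 1 := by
      have := hasSum_ite_eq (0 : ℕ) (1 : ℂ)
      exact this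
    have h4 := h3.sub h2
    have h5 : (1 : ℂ) - ∑ l ∈ Finset.univ.erase k, tt a x k l w = tt a x k k w := by
      have h6 := tt_sum hx k hw
      rw [← Finset.add_sum_erase _ _ (Finset.mem_univ k)] at h6
      linear_combination -h6
    rw [h5] at h4
    refine h4.congr_fun fun m => ?_
    rcases Nat.eq_zero_or_pos m with hm | hm
    · subst hm
      have h7 : ∀ l ∈ Finset.univ.erase k, (hq a k l 0 : ℂ) * w ^ 0 = 0 := by
        intro l hl
        have : k ≠ l := (Finset.ne_of_mem_erase hl).symm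
        simp [hq, dd, this]
      rw [Finset.sum_eq_zero h7]
      simp [hq, dd]
    · have hm0 : m ≠ 0 := hm.ne'
      rw [if_neg hm0, zero_sub, ← Finset.sum_mul]
      have h8 : (hq a k k m : ℂ) = -∑ l ∈ Finset.univ.erase k, (hq a k l m : ℂ) := by
        have h9 : hq a k k m = -∑ l ∈ Finset.univ.erase k, hq a k l m := by
          unfold hq
          simp only [if_neg hm0]
          unfold hc
          rw [if_pos rfl]
          congr 1
          refine Finset.sum_congr rfl fun l hl => ?_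
          rw [if_neg (Finset.ne_of_mem_erase hl)]
        rw [h9]
        push_cast
        rfl
      rw [h8]
      ring
  · exact near_off h hx hk

end TayGAux

open TayGAux in
theorem tt_hasSum (h : Crit a c) (hx : Br a c x) (q k : Fin n) {w : ℂ} (hw : ‖w‖ < c) :
    HasSum (fun m : ℕ => (hq a q k m : ℂ) * w ^ m) (tt a x q k w) := by
  obtain ⟨R, hR1, hR2⟩ := exists_between hw
  have hR0 : 0 < R := (norm_nonneg w).trans_lt hR1
  have hd : DifferentiableOn ℂ (tt a x q k) (Metric.closedBall 0 R) := by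
    refine (tt_diff hx q k).mono fun z hz => ?_
    rw [mem_closedBall_zero_iff] at hz
    exact slit_of_lt (hz.trans_lt hR2)
  obtain ⟨S, hS⟩ : ∃ S : NNReal, (S : ℝ) = R := ⟨⟨R, hR0.le⟩, rfl⟩
  rw [← hS] at hd hR0 hR1
  have h1 := hd.hasFPowerSeriesOnBall (by exact_mod_cast hR0)
  set p := FormalMultilinearSeries.ofScalars ℂ (fun m => (hq a q k m : ℂ)) with hp
  have h2 : HasFPowerSeriesAt (tt a x q k) p 0 := by
    rw [hasFPowerSeriesAt_iff]
    filter_upwards [near h hx q k] with z hz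
    rw [zero_add]
    refine hz.congr_fun fun m => ?_
    rw [hp, FormalMultilinearSeries.coeff_ofScalars, smul_eq_mul, mul_comm]
  have h3 := h1.hasFPowerSeriesAt.eq_formalMultilinearSeries h2
  rw [h3] at h1
  have h4 : w ∈ Metric.eball (0 : ℂ) (S : ENNReal) := by
    rw [Metric.mem_eball, edist_zero_right, ← ofReal_norm,
      ENNReal.ofReal_lt_coe_iff (norm_nonneg _)]
    exact hR1
  have h5 := h1.hasSum h4
  rw [zero_add] at h5
  refine h5.congr_fun fun m => ?_
  rw [FormalMultilinearSeries.apply_eq_pow_smul_coeff, hp,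
    FormalMultilinearSeries.coeff_ofScalars, smul_eq_mul, mul_comm]

end P4a177g
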