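import Pool.Agent.Lib.P4a177g.GoodG
import Pool.Agent.Lib.P4a177f.TorF

/-!
# The tori
-/

set_option autoImplicit false

namespace P4a177g

open P4a177h P4a177e P4a177f Function
open scoped Real

variable {d : ℕ} {A : Fam d} {c : Fin (d + 2) → ℝ} {N : ℕ}

namespace TorGAux

open TorFAux

theorem w0_lt {r : Fin (d + 2) → ℝ} (hr : RadG c N r) (θ : Fin (d + 1) → ℝ) :
    ‖w0 r θ‖ < c 0 := by
  rw [norm_w0G hr]
  exact hr.lt 0

theorem w1_lt {r : Fin (d + 2) → ℝ} (hr : RadG c N r) (j : Fin (d + 1)) (t : ℝ) :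
    ‖w1 r j t‖ < c j.succ := by
  rw [norm_w1G hr]
  exact hr.lt j.succ

theorem ptF_contDiff (h : GoodG A c N) (q : ∀ s, Fin (A.m s + 1)) {r : Fin (d + 2) → ℝ}
    (hr : RadG c N r) (s : Fin (d + 2)) : ContDiff ℝ 2 fun θ => ptF A q r θ s := by
  refine Fin.cases ?_ (fun j => ?_) s
  · simp only [ptF_zero]
    refine contDiff_const.add (contDiff_iff_contDiffAt.2 fun θ => ?_)
    have h1 : ContDiffAt ℝ 3 (fun θ => psi (bR A q 0) (q 0) (w0 r θ)) θ :=
      ContDiffAt.comp θ (psi_contDiffAtG (h.c_pos 0) (fun k i hi => h.hle q 0 k i hi) (w0_lt hr θ)) (w0_contDiff r).contDiffAt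
    exact h1.of_le (by norm_num)
  · simp only [ptF_succ]
    refine contDiff_const.add (contDiff_iff_contDiffAt.2 fun θ => ?_)
    have h2 : ContDiffAt ℝ 3 (fun θ : Fin (d + 1) → ℝ => w1 r j (θ j)) θ :=
      ((w1_contDiff r j).comp (contDiff_apply ℝ ℝ j)).contDiffAt
    have h1 : ContDiffAt ℝ 3 (fun θ : Fin (d + 1) → ℝ =>
        psi (bR A q j.succ) (q j.succ) (w1 r j (θ j))) θ :=
      ContDiffAt.comp θ (psi_contDiffAtG (h.c_pos j.succ) (fun k i hi => h.hle q j.succ k i hi) (w1_lt hr j (θ j))) h2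
    exact h1.of_le (by norm_num)

theorem prod_w {r : Fin (d + 2) → ℝ} (hr : RadG c N r) (θ : Fin (d + 1) → ℝ) :
    (N : ℂ) * (w0 r θ * ∏ j, w1 r j (θ j)) = 1 := by
  have h1 : (N : ℂ) * ((r 0 : ℂ) * ∏ j : Fin (d + 1), (r j.succ : ℂ)) = 1 := by
    have h2 := hr.prod
    rw [Fin.prod_univ_succ] at h2
    exact_mod_cast h2
  have h3 : Complex.exp (-(∑ l, (θ l : ℂ)) * Complex.I) *
      ∏ j, Complex.exp ((θ j : ℂ) * Complex.I) = 1 := by
    rw [← Complex.exp_sum, ← Complex.exp_add, ← Finset.sum_mul, neg_mul, neg_add_cancel,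
      Complex.exp_zero]
  unfold w0 w1
  rw [Finset.prod_mul_distrib]
  calc (N : ℂ) * ((r 0 : ℂ) * Complex.exp (-(∑ l, (θ l : ℂ)) * Complex.I) *
        ((∏ j : Fin (d + 1), (r j.succ : ℂ)) * ∏ j, Complex.exp ((θ j : ℂ) * Complex.I)))
      = ((N : ℂ) * ((r 0 : ℂ) * ∏ j : Fin (d + 1), (r j.succ : ℂ))) *
        (Complex.exp (-(∑ l, (θ l : ℂ)) * Complex.I) *
          ∏ j, Complex.exp ((θ j : ℂ) * Complex.I)) := by ring
    _ = 1 := by rw [h1, h3, one_mul]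

theorem ptF_eqn (h : GoodG A c N) (q : ∀ s, Fin (A.m s + 1)) {r : Fin (d + 2) → ℝ}
    (hr : RadG c N r) (θ : Fin (d + 1) → ℝ) :
    MvPolynomial.aeval (ptF A q r θ) (A.eqn N) = 0 := by
  rw [TorusEAux.eqn_eval, Fin.prod_univ_succ]
  have e0 : ∏ i, (ptF A q r θ 0 - (A.a 0 i : ℂ)) = w0 r θ := by
    rw [← psi_prodG (lstG h.one_le_m q 0) (h.c_pos 0) (fun k i hi => h.hle q 0 k i hi) (w0_lt hr θ)]
    refine Finset.prod_congr rfl fun i _ => ?_
    rw [ptF_zero, bR_cast]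
    unfold df
    push_cast
    ring
  have e1 : ∀ j : Fin (d + 1), ∏ i, (ptF A q r θ j.succ - (A.a j.succ i : ℂ)) =
      w1 r j (θ j) := by
    intro j
    rw [← psi_prodG (lstG h.one_le_m q j.succ) (h.c_pos j.succ) (fun k i hi => h.hle q j.succ k i hi) (w1_lt hr j (θ j))]
    refine Finset.prod_congr rfl fun i _ => ?_
    rw [ptF_succ, bR_cast]
    unfold df
    push_cast
    ring
  rw [e0]
  simp only [e1]
  rw [prod_w hr, sub_self]

end TorGAux

open TorFAux TorGAux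

theorem exists_torF (h : GoodG A c N) (q : ∀ s, Fin (A.m s + 1)) {r : Fin (d + 2) → ℝ}
    (hr : RadG c N r) : Nonempty (TorF A N q r) := by
  refine ⟨⟨torF A N q r (ptF_contDiff h q hr) (ptF_eqn h q hr), ?_, ?_⟩⟩
  · intro θ i
    show Est_hom A N (ptF A q r θ) (ptF_eqn h q hr θ) (A.lin N 0 i) = _
    rw [Est_hom_lin, ptF_zero]
    unfold df
    push_cast
    ring
  · intro θ j i
    show Est_hom A N (ptF A q r θ) (ptF_eqn h q hr θ) (A.lin N j.succ i) = _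
    rw [Est_hom_lin, ptF_succ]
    unfold df
    push_cast
    ring

end P4a177g
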