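import Pool.Agent.Lib.P4a177g.PolyG

/-!
# MODULE P4a177g.TtG: the matrix `T(w)` (est. 0.8 h)

PROOF. `tt_sum`: definition of `pd`. `tt_zero`: `pe_root`, `pd_root`. `tt_mul`: `pe_mul`, `hx.eqn`.
`tt_bez`: `bez` divided by `pd a (x q w) * pd a (x q' w')`. `tt_diff`: composition and quotient
(`hx.der`, `hx.ne`). `tt_eq`: `dslope` (`dslope_of_ne`, `sub_smul_dslope`). `t1_diff`:
`DifferentiableOn` of `dslope` on an open set (`Complex.differentiableOn_dslope`).
-/

set_option autoImplicit false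

namespace P4a177g

open P4a177f Function

variable {n : ℕ} {a : Fin n → ℝ} {c : ℝ} {x : Fin n → ℂ → ℂ}

theorem tt_sum (hx : Br a c x) (q : Fin n) {w : ℂ} (hw : w ∈ slit c) : ∑ k, tt a x q k w = 1 := by
  have h := hx.ne q w hw
  simp only [tt]
  rw [← Finset.sum_div]
  exact div_self h

theorem tt_zero (h : Crit a c) (hx : Br a c x) (q k : Fin n) : tt a x q k 0 = (dd q k : ℂ) := by
  have hne := pe_root_ne h.inj q
  rw [tt, hx.zero, pd_root, dd]
  by_cases hqk : q = k
  · subst hqk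
    simp [div_self hne]
  · rw [pe_root a (Ne.symm hqk)]
    simp [hqk]

theorem tt_mul (hx : Br a c x) (q k : Fin n) {w : ℂ} (hw : w ∈ slit c) :
    (x q w - (a k : ℂ)) * tt a x q k w = w * (pd a (x q w))⁻¹ := by
  rw [tt, ← mul_div_assoc, pe_mul, hx.eqn q w hw, div_eq_mul_inv]

theorem tt_bez (hx : Br a c x) (q q' : Fin n) {w w' : ℂ} (hw : w ∈ slit c) (hw' : w' ∈ slit c) :
    (x q w - x q' w') * ∑ k, tt a x q k w * tt a x q' k w' =
      w * (pd a (x q w))⁻¹ - w' * (pd a (x q' w'))⁻¹ := by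
  have h1 := hx.ne q w hw
  have h2 := hx.ne q' w' hw'
  have hb := bez a (x q w) (x q' w')
  rw [hx.eqn q w hw, hx.eqn q' w' hw'] at hb
  have hs : ∑ k, tt a x q k w * tt a x q' k w' =
      (∑ k, pe a k (x q w) * pe a k (x q' w')) * ((pd a (x q w))⁻¹ * (pd a (x q' w'))⁻¹) := by
    rw [Finset.sum_mul]
    refine Finset.sum_congr rfl fun k _ => ?_
    rw [tt, tt, div_eq_mul_inv, div_eq_mul_inv]
    ring
  rw [hs, ← mul_assoc, hb]
  field_simp

theorem tt_diff (hx : Br a c x) (q k : Fin n) : DifferentiableOn ℂ (tt a x q k) (slit c) := by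
  have hX : DifferentiableOn ℂ (x q) (slit c) := fun w hw =>
    (hx.der q w hw).differentiableAt.differentiableWithinAt
  have h1 : DifferentiableOn ℂ (fun w => pe a k (x q w)) (slit c) :=
    (pe_differentiable a k).comp_differentiableOn hX
  have h2 : DifferentiableOn ℂ (fun w => pd a (x q w)) (slit c) :=
    (pd_differentiable a).comp_differentiableOn hX
  exact h1.div h2 fun w hw => hx.ne q w hw

theorem TtGAux.pe_conj (a : Fin n → ℝ) (k : Fin n) (y : ℂ) :
    pe a k (starRingEnd ℂ y) = starRingEnd ℂ (pe a k y) := by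
  rw [pe, pe, map_prod]
  refine Finset.prod_congr rfl fun l _ => ?_
  rw [map_sub, Complex.conj_ofReal]

theorem TtGAux.pd_conj (a : Fin n → ℝ) (y : ℂ) :
    pd a (starRingEnd ℂ y) = starRingEnd ℂ (pd a y) := by
  rw [pd, pd, map_sum]
  exact Finset.sum_congr rfl fun k _ => TtGAux.pe_conj a k y

theorem tt_conj (hx : Br a c x) (q k : Fin n) {w : ℂ} (hw : w ∈ slit c) :
    tt a x q k (starRingEnd ℂ w) = starRingEnd ℂ (tt a x q k w) := by
  rw [tt, tt, hx.conj q w hw, TtGAux.pe_conj, TtGAux.pd_conj, map_div₀]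

theorem tt_eq (h : Crit a c) (hx : Br a c x) (q k : Fin n) (w : ℂ) :
    tt a x q k w = (dd q k : ℂ) + w * t1 a x q k w := by
  have h1 := sub_smul_dslope (tt a x q k) 0 w
  rw [sub_zero, smul_eq_mul, tt_zero h hx] at h1
  rw [t1, h1]
  ring

theorem t1_diff (h : Crit a c) (hx : Br a c x) (q k : Fin n) :
    DifferentiableOn ℂ (t1 a x q k) (slit c) := by
  have h1 : slit c ∈ nhds (0 : ℂ) := (isOpen_slit c).mem_nhds (zero_mem_slit h.pos)
  exact (Complex.differentiableOn_dslope h1).mpr (tt_diff hx q k)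

/-- Different points of the slit plane or different indices give different points. -/
theorem x_ne (hx : Br a c x) {q q' : Fin n} {w w' : ℂ} (hw : w ∈ slit c) (hw' : w' ∈ slit c)
    (h : q ≠ q' ∨ w ≠ w') : x q w ≠ x q' w' := by
  intro he
  have h1 : w = w' := by
    rw [← hx.eqn q w hw, ← hx.eqn q' w' hw', he]
  subst h1
  have h2 : q = q' := hx.inj q q' w hw he
  rcases h with h | h
  · exact h h2
  · exact h rfl

end P4a177g
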